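import Pool.Agent.Q41.ZP.Sieve2

/-!
Linear changes of variables, and the sieve for arbitrary polynomials and symmetric boxes (helper
file for Zilber-Pink for multi-parameter families over `ℤ`).
-/

namespace Pool.Agent.Q41.ZP

open MvPolynomial

/-- the coefficient of a product in the highest possible degree -/
theorem coeff_prod_le {A ι : Type*} [CommRing A] (S : Finset ι) (p : ι → Polynomial A) (n : ι → ℕ)
    (h : ∀ i ∈ S, (p i).natDegree ≤ n i) : (∏ i ∈ S, p i).natDegree ≤ ∑ i ∈ S, n i ∧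
      (∏ i ∈ S, p i).coeff (∑ i ∈ S, n i) = ∏ i ∈ S, (p i).coeff (n i) := by
  classical
  induction S using Finset.induction_on with
  | empty => simp
  | insert a S ha ih =>
    obtain ⟨h1, h2⟩ := ih fun i hi => h i (Finset.mem_insert_of_mem hi)
    have h3 := h a (Finset.mem_insert_self _ _)
    rw [Finset.prod_insert ha, Finset.sum_insert ha, Finset.prod_insert ha]
    refine ⟨(Polynomial.natDegree_mul_le).trans (Nat.add_le_add h3 h1), ?_⟩
    rw [Polynomial.coeff_mul_add_eq_of_natDegree_le h3 h1, h2]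

/-- the linear change of variables `X_i ↦ X_i + a_i X_0` -/
noncomputable def shear {s : ℕ} (a : Fin s → ℤ) :
    MvPolynomial (Fin (s + 1)) ℤ →ₐ[ℤ] MvPolynomial (Fin (s + 1)) ℤ :=
  aeval (Fin.cons (X 0) fun i => X i.succ + C (a i) * X 0)

theorem shear_X_zero {s : ℕ} (a : Fin s → ℤ) : shear a (X 0) = X 0 := by
  rw [shear, aeval_X, Fin.cons_zero]

theorem shear_X_succ {s : ℕ} (a : Fin s → ℤ) (i : Fin s) :
    shear a (X i.succ) = X i.succ + C (a i) * X 0 := by
  rw [shear, aeval_X, Fin.cons_succ]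

theorem shear_shear {s : ℕ} (a b : Fin s → ℤ) (h : ∀ i, a i + b i = 0) :
    (shear a).comp (shear b) = AlgHom.id ℤ _ := by
  refine MvPolynomial.algHom_ext fun i => ?_
  rw [AlgHom.comp_apply, AlgHom.id_apply]
  refine Fin.cases ?_ (fun j => ?_) i
  · rw [shear_X_zero, shear_X_zero]
  · rw [shear_X_succ, map_add, map_mul, shear_X_succ, shear_X_zero]
    have h1 : shear a (C (b j)) = C (b j) := by
      rw [← MvPolynomial.algebraMap_eq, AlgHom.commutes]
    have h2 : (C (a j) : MvPolynomial (Fin (s + 1)) ℤ) + C (b j) = 0 := by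
      rw [← C_add, h j, C_0]
    rw [h1, add_assoc, ← add_mul, h2, zero_mul, add_zero]

/-- the change of variables as an isomorphism with the ring of polynomials in `X_0` -/
noncomputable def shearEquiv {s : ℕ} (a : Fin s → ℤ) :
    MvPolynomial (Fin (s + 1)) ℤ ≃ₐ[ℤ] Par s :=
  (AlgEquiv.ofAlgHom (shear a) (shear fun i => - a i) (shear_shear _ _ fun i => by ring)
    (shear_shear _ _ fun i => by ring)).trans (finSuccEquiv ℤ s)

theorem shearEquiv_apply {s : ℕ} (a : Fin s → ℤ) (f : MvPolynomial (Fin (s + 1)) ℤ) :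
    shearEquiv a f = finSuccEquiv ℤ s (shear a f) := rfl

theorem eval_shear {s : ℕ} (a : Fin s → ℤ) (u : Fin s → ℤ) (t : ℤ)
    (f : MvPolynomial (Fin (s + 1)) ℤ) :
    eval (Fin.cons t u : Fin (s + 1) → ℤ) (shear a f) =
      eval (Fin.cons t fun i => u i + a i * t : Fin (s + 1) → ℤ) f := by
  have h : ((eval (Fin.cons t u : Fin (s + 1) → ℤ)).comp (shear a).toRingHom) =
      eval (Fin.cons t fun i => u i + a i * t : Fin (s + 1) → ℤ) := by
    refine MvPolynomial.ringHom_ext (fun c => ?_) fun i => ?_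
    · rw [RingHom.comp_apply]
      have h1 : (shear a).toRingHom (C c) = C c := by
        show shear a (C c) = C c
        rw [← MvPolynomial.algebraMap_eq, AlgHom.commutes]
      rw [h1, eval_C, eval_C]
    · rw [RingHom.comp_apply, eval_X]
      show eval _ (shear a (X i)) = _
      refine Fin.cases ?_ (fun j => ?_) i
      · rw [shear_X_zero, eval_X, Fin.cons_zero, Fin.cons_zero]
      · rw [shear_X_succ, map_add, map_mul, eval_X, eval_C, eval_X, Fin.cons_succ, Fin.cons_zero,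
          Fin.cons_succ]
  exact congrArg (fun φ : MvPolynomial (Fin (s + 1)) ℤ →+* ℤ => φ f) h

theorem spz_shearEquiv {s : ℕ} (a : Fin s → ℤ) (u : Fin s → ℤ) (t : ℤ)
    (f : MvPolynomial (Fin (s + 1)) ℤ) :
    spz u t (shearEquiv a f) = eval (Fin.cons t fun i => u i + a i * t : Fin (s + 1) → ℤ) f := by
  rw [← eval_shear, eval_eq_eval_mv_eval', spz_apply, shearEquiv_apply]

theorem shearEquiv_X {s : ℕ} (a : Fin s → ℤ) (i : Fin (s + 1)) :
    (shearEquiv a (X i)).natDegree ≤ 1 ∧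
      (shearEquiv a (X i)).coeff 1 = C ((Fin.cons 1 a : Fin (s + 1) → ℤ) i) := by
  rw [shearEquiv_apply]
  refine Fin.cases ?_ (fun j => ?_) i
  · rw [shear_X_zero, finSuccEquiv_X_zero, Fin.cons_zero, C_1]
    exact ⟨Polynomial.natDegree_X_le, Polynomial.coeff_X_one⟩
  · rw [shear_X_succ, map_add, map_mul, finSuccEquiv_X_succ, finSuccEquiv_X_zero, Fin.cons_succ]
    have h1 : finSuccEquiv ℤ s (C (a j)) = Polynomial.C (C (a j)) := by
      rw [finSuccEquiv_apply, eval₂Hom_C]
      rfl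
    rw [h1]
    refine ⟨?_, ?_⟩
    · refine (Polynomial.natDegree_add_le _ _).trans (max_le ?_ ?_)
      · rw [Polynomial.natDegree_C]
        exact Nat.zero_le _
      · exact (Polynomial.natDegree_C_mul_le _ _).trans Polynomial.natDegree_X_le
    · rw [Polynomial.coeff_add, Polynomial.coeff_C_mul, Polynomial.coeff_X_one, mul_one,
        Polynomial.coeff_C_succ, zero_add]

theorem shearEquiv_monomial {s : ℕ} (a : Fin s → ℤ) (α : Fin (s + 1) →₀ ℕ) (c : ℤ) :
    (shearEquiv a (monomial α c)).natDegree ≤ α.degree ∧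
      (shearEquiv a (monomial α c)).coeff α.degree =
        C (eval (Fin.cons 1 a : Fin (s + 1) → ℤ) (monomial α c)) := by
  have h0 : shearEquiv a (monomial α c) = Polynomial.C (C c) *
      ∏ i, shearEquiv a (X i) ^ α i := by
    rw [MvPolynomial.monomial_eq, map_mul, Finsupp.prod_fintype _ _ (fun i => by rw [pow_zero]),
      map_prod]
    congr 1
    · rw [shearEquiv_apply, ← MvPolynomial.algebraMap_eq, AlgHom.commutes, AlgEquiv.commutes]
      rfl
    · simp only [map_pow]
  have h1 : ∀ i ∈ Finset.univ, (shearEquiv a (X i) ^ α i).natDegree ≤ α i := by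
    intro i _
    refine (Polynomial.natDegree_pow_le).trans ?_
    calc α i * (shearEquiv a (X i)).natDegree ≤ α i * 1 :=
          Nat.mul_le_mul_left _ (shearEquiv_X a i).1
      _ = α i := mul_one _
  obtain ⟨h2, h3⟩ := coeff_prod_le Finset.univ (fun i => shearEquiv a (X i) ^ α i) (fun i => α i) h1
  have h4 : α.degree = ∑ i, α i := by
    rw [Finsupp.degree_eq_sum]
  rw [h0, h4]
  refine ⟨(Polynomial.natDegree_C_mul_le _ _).trans h2, ?_⟩
  rw [Polynomial.coeff_C_mul, h3, MvPolynomial.eval_monomial,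
    Finsupp.prod_fintype _ _ (fun i => by rw [pow_zero]), C_mul, map_prod]
  congr 1
  refine Finset.prod_congr rfl fun i _ => ?_
  have h5 := Polynomial.coeff_pow_of_natDegree_le (shearEquiv_X a i).1 (m := α i)
  rw [mul_one] at h5
  rw [h5, (shearEquiv_X a i).2, C_pow]

theorem shearEquiv_deg {s : ℕ} (a : Fin s → ℤ) (f : MvPolynomial (Fin (s + 1)) ℤ) {d : ℕ}
    (hd : f.totalDegree ≤ d) : (shearEquiv a f).natDegree ≤ d ∧
      (shearEquiv a f).coeff d =
        C (eval (Fin.cons 1 a : Fin (s + 1) → ℤ) (homogeneousComponent d f)) := by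
  classical
  have hα : ∀ α ∈ f.support, α.degree ≤ d := by
    intro α hα
    have h1 := MvPolynomial.le_totalDegree hα
    rw [Finsupp.degree_apply]
    exact h1.trans hd
  have h0 : shearEquiv a f = ∑ α ∈ f.support, shearEquiv a (monomial α (coeff α f)) := by
    conv_lhs => rw [f.as_sum, map_sum]
  refine ⟨?_, ?_⟩
  · rw [h0]
    refine Polynomial.natDegree_sum_le_of_forall_le _ _ fun α h => ?_
    exact (shearEquiv_monomial a α _).1.trans (hα α h)
  · rw [h0, Polynomial.finsetSum_coeff, homogeneousComponent_apply, map_sum, map_sum,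
      Finset.sum_filter]
    refine Finset.sum_congr rfl fun α h => ?_
    split_ifs with h1
    · rw [← h1]
      exact (shearEquiv_monomial a α _).2
    · refine Polynomial.coeff_eq_zero_of_natDegree_lt ?_
      exact lt_of_le_of_lt (shearEquiv_monomial a α _).1 (lt_of_le_of_ne (hα α h) h1)

/-- a nonzero homogeneous polynomial does not vanish at some `(1, -λ)`, `λ` nonnegative -/
theorem exists_shift {s e : ℕ} {Q : MvPolynomial (Fin (s + 1)) ℤ} (hQ : Q.IsHomogeneous e)
    (hQ0 : Q ≠ 0) : ∃ b : Fin s → ℕ,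
      eval (Fin.cons 1 fun i => -(b i : ℤ) : Fin (s + 1) → ℤ) Q ≠ 0 := by
  classical
  by_contra hcon
  push Not at hcon
  set P := finSuccEquiv ℤ s Q with hP
  set q : MvPolynomial (Fin s) ℤ := Polynomial.eval 1 P with hq
  have hq0 : q = 0 := by
    refine MvPolynomial.funext_set (fun _ => {z : ℤ | z ≤ 0}) (fun _ => Set.Iic_infinite (0 : ℤ))
      fun x hx => ?_
    rw [map_zero]
    have h1 := hcon fun i => (x i).natAbs
    have h2 : (fun i => -((x i).natAbs : ℤ)) = x := by
      funext i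
      have h3 : x i ≤ 0 := hx i (Set.mem_univ i)
      rw [Int.natCast_natAbs, abs_of_nonpos h3, neg_neg]
    rw [h2, eval_eq_eval_mv_eval', Polynomial.eval_one_map] at h1
    exact h1
  have hdeg : P.natDegree ≤ e := by
    rw [hP, natDegree_finSuccEquiv]
    exact (degreeOf_le_totalDegree _ _).trans hQ.totalDegree_le
  have hcoeff : ∀ j, P.coeff j = 0 := by
    intro j
    by_cases hj : j ≤ e
    · have h1 : homogeneousComponent (e - j) q = P.coeff j := by
        rw [hq, Polynomial.eval_eq_sum_range' (Nat.lt_succ_of_le hdeg), map_sum,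
          Finset.sum_eq_single j]
        · rw [one_pow, mul_one, homogeneousComponent_of_mem (m := e - j)
            (hQ.finSuccEquiv_coeff_isHomogeneous j (e - j) (by omega)), if_pos rfl]
        · intro i hi hij
          have hi' : i ≤ e := Nat.lt_succ_iff.1 (Finset.mem_range.1 hi)
          rw [one_pow, mul_one, homogeneousComponent_of_mem (m := e - j)
            (hQ.finSuccEquiv_coeff_isHomogeneous i (e - i) (by omega)), if_neg (by omega)]
        · intro h
          exact absurd (Finset.mem_range.2 (Nat.lt_succ_of_le hj)) h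
      rw [← h1, hq0, map_zero]
    · exact Polynomial.coeff_eq_zero_of_natDegree_lt (by omega)
  apply hQ0
  have h1 : P = 0 := Polynomial.ext fun j => by rw [hcoeff j, Polynomial.coeff_zero]
  exact (finSuccEquiv ℤ s).injective (by rw [← hP, h1, map_zero])

theorem top_ne_zero {r : ℕ} {f : MvPolynomial (Fin r) ℤ} (hf : f ≠ 0) :
    homogeneousComponent f.totalDegree f ≠ 0 := by
  classical
  have h1 : f.support.Nonempty := by
    rw [Finset.nonempty_iff_ne_empty]
    exact fun h => hf (MvPolynomial.support_eq_empty.1 h)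
  obtain ⟨α, hα, h2⟩ := Finset.exists_mem_eq_sup f.support h1 fun s => s.sum fun _ e => e
  intro h0
  have h3 := congrArg (coeff α) h0
  rw [coeff_homogeneousComponent, coeff_zero, if_pos] at h3
  · exact MvPolynomial.mem_support_iff.1 hα h3
  · rw [MvPolynomial.totalDegree, h2, Finsupp.degree_apply]
    rfl

/-- the values of the `f l` have large prime divisors of their own, which do not divide the values
of the `g l i` -/
def Good {Λ : Type} [CommRing Λ] {L : ℕ} {ι : Type} (φ : Λ →+* ℤ) (f : Fin L → Λ)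
    (g : Fin L → ι → Λ) (D : ℕ) : Prop :=
  (∀ l, φ (f l) ≠ 0) ∧
    ∃ p : Fin L → ℕ, (∀ l, (p l).Prime ∧ D < p l ∧ (p l : ℤ) ∣ φ (f l)) ∧
      (∀ l l', l ≠ l' → ¬ (p l : ℤ) ∣ φ (f l')) ∧ ∀ l i, ¬ (p l : ℤ) ∣ φ (g l i)

open Classical in
theorem count_pos {s L : ℕ} {ι : Type} [Fintype ι] (f : Fin L → MvPolynomial (Fin (s + 1)) ℤ)
    (hf : ∀ l, Irreducible (f l)) (hd : ∀ l, (f l).totalDegree ≠ 0)
    (hne : ∀ l l', l ≠ l' → ¬ f l ∣ f l') (g : Fin L → ι → MvPolynomial (Fin (s + 1)) ℤ)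
    (hg : ∀ l i, ¬ f l ∣ g l i) (D : ℕ) {ε : ℝ} (hε : 0 < ε) : ∃ H₀ : ℕ, ∀ H : ℕ, H₀ ≤ H →
    (((box (s + 1) H).filter fun v => ¬ Good (eval (pt v)) f g D).card : ℝ) ≤
      ε * (H : ℝ) ^ (s + 1) := by
  have hQ0 : ∏ l, homogeneousComponent (f l).totalDegree (f l) ≠ 0 :=
    Finset.prod_ne_zero_iff.2 fun l _ => top_ne_zero (hf l).ne_zero
  obtain ⟨b, hb⟩ := exists_shift (IsHomogeneous.prod _ _ _ fun l _ =>
    homogeneousComponent_isHomogeneous (f l).totalDegree (f l)) hQ0
  rw [map_prod, Finset.prod_ne_zero_iff] at hb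
  set a : Fin s → ℤ := fun i => -(b i : ℤ) with ha
  have hdeg : ∀ l, (shearEquiv a (f l)).natDegree = (f l).totalDegree ∧
      (shearEquiv a (f l)).leadingCoeff = C (eval (Fin.cons 1 a : Fin (s + 1) → ℤ)
        (homogeneousComponent (f l).totalDegree (f l))) := by
    intro l
    obtain ⟨h1, h2⟩ := shearEquiv_deg a (f l) le_rfl
    have h3 : (C (eval (Fin.cons 1 a : Fin (s + 1) → ℤ)
        (homogeneousComponent (f l).totalDegree (f l))) : MvPolynomial (Fin s) ℤ) ≠ 0 := by
      intro h0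
      exact hb l (Finset.mem_univ l) (C_eq_zero.1 h0)
    have h4 : (shearEquiv a (f l)).natDegree = (f l).totalDegree :=
      le_antisymm h1 (Polynomial.le_natDegree_of_ne_zero (by rw [h2]; exact h3))
    refine ⟨h4, ?_⟩
    rw [Polynomial.leadingCoeff, h4, h2]
  set B := ∑ i, b i with hB
  have hbB : ∀ i, b i ≤ B := fun i =>
    Finset.single_le_sum (f := b) (fun _ _ => Nat.zero_le _) (Finset.mem_univ i)
  obtain ⟨H₀, hH₀⟩ := count_family_mv (fun l => shearEquiv a (f l))
    (fun l => (MulEquiv.irreducible_iff (shearEquiv a)).2 (hf l))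
    (fun l => by
      rw [(hdeg l).1]
      exact Nat.pos_of_ne_zero (hd l)) _ (fun l => (hdeg l).2)
    (fun l l' hll h => hne l l' hll ((map_dvd_iff (shearEquiv a)).1 h))
    (fun l i => shearEquiv a (g l i)) (fun l i h => hg l i ((map_dvd_iff (shearEquiv a)).1 h)) D
    (ε := ε / (1 + B : ℝ) ^ (s + 1)) (by positivity)
  refine ⟨H₀, fun H hH => ?_⟩
  have h1 := hH₀ ((1 + B) * H) (hH.trans (Nat.le_mul_of_pos_left _ (by omega)))
  have h2 : ε / (1 + B : ℝ) ^ (s + 1) * (((1 + B) * H : ℕ) : ℝ) ^ (s + 1) =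
      ε * (H : ℝ) ^ (s + 1) := by
    push_cast
    rw [mul_pow]
    field_simp
  rw [h2] at h1
  refine le_trans ?_ h1
  rw [Nat.cast_le]
  refine Finset.card_le_card_of_injOn
    (fun v => ((fun i => v i.succ + b i * v 0 : Fin s → ℕ), v 0)) ?_ ?_
  · intro v hv
    rw [Finset.mem_coe, Finset.mem_filter] at hv
    obtain ⟨hv1, hv2⟩ := hv
    have hv0 := Finset.mem_Icc.1 (Fintype.mem_piFinset.1 hv1 0)
    rw [Finset.mem_coe, Finset.mem_filter]
    refine ⟨Finset.mem_product.2 ⟨Fintype.mem_piFinset.2 fun i => Finset.mem_Icc.2 ⟨?_, ?_⟩,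
      Finset.mem_Icc.2 ⟨hv0.1, ?_⟩⟩, ?_⟩
    · have := Finset.mem_Icc.1 (Fintype.mem_piFinset.1 hv1 i.succ)
      exact this.1.trans (Nat.le_add_right _ _)
    · have h3 := Finset.mem_Icc.1 (Fintype.mem_piFinset.1 hv1 i.succ)
      have h4 : b i * v 0 ≤ B * H := Nat.mul_le_mul (hbB i) hv0.2
      show v i.succ + b i * v 0 ≤ (1 + B) * H
      calc v i.succ + b i * v 0 ≤ H + B * H := Nat.add_le_add h3.2 h4
        _ = (1 + B) * H := by ring
    · exact hv0.2.trans (Nat.le_mul_of_pos_left _ (by omega))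
    · intro h0
      apply hv2
      have h5 : ∀ F : MvPolynomial (Fin (s + 1)) ℤ,
          spz (pt fun i => v i.succ + b i * v 0) (v 0 : ℤ) (shearEquiv a F) = eval (pt v) F := by
        intro F
        rw [spz_shearEquiv]
        congr 1
        congr 1
        funext i
        refine Fin.cases ?_ (fun j => ?_) i
        · rw [Fin.cons_zero]
        · rw [Fin.cons_succ]
          simp only [pt, ha]
          push_cast
          ring
      simp only [h5] at h0
      exact h0
  · intro v _ v' _ h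
    simp only [Prod.mk.injEq] at h
    obtain ⟨h3, h4⟩ := h
    funext i
    refine Fin.cases h4 (fun j => ?_) i
    have h5 := congrFun h3 j
    simp only [h4] at h5
    omega

/-- the change of signs of the variables -/
noncomputable def refl {r : ℕ} (σ : Fin r → ℤˣ) : MvPolynomial (Fin r) ℤ →ₐ[ℤ] MvPolynomial (Fin r) ℤ :=
  aeval fun i => C (σ i : ℤ) * X i

theorem refl_refl {r : ℕ} (σ : Fin r → ℤˣ) : (refl σ).comp (refl σ) = AlgHom.id ℤ _ := by
  refine MvPolynomial.algHom_ext fun i => ?_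
  rw [AlgHom.comp_apply, AlgHom.id_apply]
  have h1 : refl σ (C (σ i : ℤ)) = C (σ i : ℤ) := by
    rw [← MvPolynomial.algebraMap_eq, AlgHom.commutes]
  have h2 : refl σ (X i) = C (σ i : ℤ) * X i := by
    rw [refl, aeval_X]
  rw [h2, map_mul, h1, h2, ← mul_assoc, ← C_mul, ← Units.val_mul, Int.units_mul_self, Units.val_one,
    C_1, one_mul]

/-- the change of signs as an automorphism -/
noncomputable def reflEquiv {r : ℕ} (σ : Fin r → ℤˣ) :
    MvPolynomial (Fin r) ℤ ≃ₐ[ℤ] MvPolynomial (Fin r) ℤ :=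
  AlgEquiv.ofAlgHom (refl σ) (refl σ) (refl_refl σ) (refl_refl σ)

theorem eval_reflEquiv {r : ℕ} (σ : Fin r → ℤˣ) (v : Fin r → ℤ) (f : MvPolynomial (Fin r) ℤ) :
    eval v (reflEquiv σ f) = eval (fun i => (σ i : ℤ) * v i) f := by
  have h : ((eval v).comp (refl σ).toRingHom) = eval (fun i => (σ i : ℤ) * v i) := by
    refine MvPolynomial.ringHom_ext (fun c => ?_) fun i => ?_
    · rw [RingHom.comp_apply]
      have h1 : (refl σ).toRingHom (C c) = C c := by
        show refl σ (C c) = C c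
        rw [← MvPolynomial.algebraMap_eq, AlgHom.commutes]
      rw [h1, eval_C, eval_C]
    · rw [RingHom.comp_apply, eval_X]
      show eval _ (refl σ (X i)) = _
      rw [refl, aeval_X, map_mul, eval_C, eval_X]
  exact congrArg (fun φ : MvPolynomial (Fin r) ℤ →+* ℤ => φ f) h

theorem totalDegree_reflEquiv {r : ℕ} (σ : Fin r → ℤˣ) {f : MvPolynomial (Fin r) ℤ}
    (hf : f.totalDegree ≠ 0) : (reflEquiv σ f).totalDegree ≠ 0 := by
  intro h0
  rw [MvPolynomial.totalDegree_eq_zero_iff_eq_C] at h0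
  apply hf
  have h1 : f = C (coeff 0 (reflEquiv σ f)) := by
    apply (reflEquiv σ).injective
    conv_lhs => rw [h0]
    rw [← MvPolynomial.algebraMap_eq, AlgEquiv.commutes]
  rw [h1, totalDegree_C]

theorem Good.congr {Λ Λ' : Type} [CommRing Λ] [CommRing Λ'] {L : ℕ} {ι : Type} {φ : Λ →+* ℤ}
    {φ' : Λ' →+* ℤ} {f : Fin L → Λ} {g : Fin L → ι → Λ} {D : ℕ} {f' : Fin L → Λ'}
    {g' : Fin L → ι → Λ'} (h1 : ∀ l, φ (f l) = φ' (f' l)) (h2 : ∀ l i, φ (g l i) = φ' (g' l i))
    (h : Good φ f g D) : Good φ' f' g' D := by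
  obtain ⟨h3, p, h4, h5, h6⟩ := h
  refine ⟨fun l => by rw [← h1]; exact h3 l, p, fun l => ?_, fun l l' hll => ?_, fun l i => ?_⟩
  · rw [← h1]
    exact h4 l
  · rw [← h1]
    exact h5 l l' hll
  · rw [← h2]
    exact h6 l i

/-- For almost all integral points the values of the `f l` have large prime divisors of their own,
which do not divide the values of the `g l i`. -/
theorem count_sym {r L : ℕ} {ι : Type} [Fintype ι] (f : Fin L → MvPolynomial (Fin r) ℤ)
    (hf : ∀ l, Irreducible (f l)) (hd : ∀ l, (f l).totalDegree ≠ 0)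
    (hne : ∀ l l', l ≠ l' → ¬ f l ∣ f l') (g : Fin L → ι → MvPolynomial (Fin r) ℤ)
    (hg : ∀ l i, ¬ f l ∣ g l i) (D : ℕ) {ε : ℝ} (hε : 0 < ε) : ∃ H₀ : ℕ, ∀ H : ℕ, H₀ ≤ H →
    (Set.ncard {z : Fin r → ℤ | (∀ j, |z j| ≤ (H : ℤ)) ∧ ¬ Good (eval z) f g D} : ℝ) ≤
      ε * (H : ℝ) ^ r := by
  classical
  -- the trivial cases
  by_cases hL : L = 0
  · subst hL
    refine ⟨0, fun H _ => ?_⟩
    have h1 : {z : Fin r → ℤ | (∀ j, |z j| ≤ (H : ℤ)) ∧ ¬ Good (eval z) f g D} = ∅ := by
      ext z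
      simp only [Set.mem_ofPred_eq, Set.mem_empty_iff_false, iff_false, not_and, not_not]
      intro _
      exact ⟨fun l => l.elim0, fun _ => 0, fun l => l.elim0, fun l => l.elim0, fun l => l.elim0⟩
    rw [h1, Set.ncard_empty, Nat.cast_zero]
    positivity
  obtain ⟨L, rfl⟩ := Nat.exists_eq_succ_of_ne_zero hL
  rcases r with _ | s
  · exfalso
    apply hd 0
    rw [MvPolynomial.totalDegree_zero_iff_isHomogeneous]
    exact isHomogeneous_of_isEmpty _ _ _
  have hpos : ∀ σ : Fin (s + 1) → ℤˣ, ∃ H₀ : ℕ, ∀ H : ℕ, H₀ ≤ H →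
      (((box (s + 1) H).filter fun v => ¬ Good (eval (pt v)) (fun l => reflEquiv σ (f l))
        (fun l i => reflEquiv σ (g l i)) D).card : ℝ) ≤
        (ε / 2 ^ (s + 2)) * (H : ℝ) ^ (s + 1) := by
    intro σ
    exact count_pos _ (fun l => (MulEquiv.irreducible_iff (reflEquiv σ)).2 (hf l))
      (fun l => totalDegree_reflEquiv σ (hd l))
      (fun l l' hll h => hne l l' hll ((map_dvd_iff (reflEquiv σ)).1 h)) _
      (fun l i h => hg l i ((map_dvd_iff (reflEquiv σ)).1 h)) D (by positivity)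
  choose H₁ hH₁ using hpos
  obtain ⟨H₂, hH₂⟩ := exists_nat_ge (((s + 1 : ℕ) : ℝ) * 3 ^ (s + 1) / ε)
  refine ⟨(∑ σ, H₁ σ) + H₂ + 1, fun H hH => ?_⟩
  have hH1 : 1 ≤ H := by omega
  set E : (Fin (s + 1) → ℤˣ) → Finset (Fin (s + 1) → ℕ) := fun σ =>
    (box (s + 1) H).filter fun v => ¬ Good (eval (pt v)) (fun l => reflEquiv σ (f l))
        (fun l i => reflEquiv σ (g l i)) D with hE
  set Z : Finset (Fin (s + 1) → ℤ) := (Fintype.piFinset fun _ => Finset.Icc (-(H : ℤ)) H).filter
    fun z => eval z (∏ i, X i : MvPolynomial (Fin (s + 1)) ℤ) = 0 with hZ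
  have hsub : {z : Fin (s + 1) → ℤ | (∀ j, |z j| ≤ (H : ℤ)) ∧ ¬ Good (eval z) f g D} ⊆
      (((Finset.univ : Finset (Fin (s + 1) → ℤˣ)).biUnion fun σ => (E σ).image fun v i =>
        (σ i : ℤ) * (v i : ℤ)) ∪ Z : Finset (Fin (s + 1) → ℤ)) := by
    rintro z ⟨hz1, hz2⟩
    rw [Finset.mem_coe, Finset.mem_union]
    by_cases h0 : ∀ i, z i ≠ 0
    · left
      have hs : ∀ i, ∃ σ : ℤˣ, (σ : ℤ) * (z i).natAbs = z i := by
        intro i
        rcases Int.natAbs_eq (z i) with h | h
        · exact ⟨1, by rw [Units.val_one, one_mul]; exact h.symm⟩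
        · exact ⟨-1, by rw [Units.val_neg, Units.val_one, neg_one_mul]; exact h.symm⟩
      choose σ hσ using hs
      rw [Finset.mem_biUnion]
      refine ⟨σ, Finset.mem_univ _, Finset.mem_image.2 ⟨fun i => (z i).natAbs, ?_, funext hσ⟩⟩
      rw [hE, Finset.mem_filter]
      refine ⟨Fintype.mem_piFinset.2 fun i => Finset.mem_Icc.2
        ⟨Int.natAbs_pos.2 (h0 i), ?_⟩, fun h => hz2 ?_⟩
      · have := hz1 i
        rw [Int.abs_eq_natAbs] at this
        exact_mod_cast this
      · have hev : ∀ F : MvPolynomial (Fin (s + 1)) ℤ,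
            eval (pt fun i => (z i).natAbs) (reflEquiv σ F) = eval z F := by
          intro F
          rw [eval_reflEquiv]
          congr 2
          funext i
          exact hσ i
        exact h.congr (fun l => hev _) fun l i => hev _
    · right
      push Not at h0
      obtain ⟨i, hi⟩ := h0
      rw [hZ, Finset.mem_filter]
      refine ⟨Fintype.mem_piFinset.2 fun j => Finset.mem_Icc.2 (abs_le.1 (hz1 j)), ?_⟩
      rw [map_prod]
      refine Finset.prod_eq_zero (Finset.mem_univ i) ?_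
      rw [eval_X, hi]
  have hcard := Set.ncard_le_ncard hsub (Finset.finite_toSet _)
  rw [Set.ncard_coe_finset] at hcard
  have hcard2 : Set.ncard {z : Fin (s + 1) → ℤ | (∀ j, |z j| ≤ (H : ℤ)) ∧
      ¬ Good (eval z) f g D} ≤ (∑ σ, (E σ).card) + Z.card :=
    hcard.trans ((Finset.card_union_le _ _).trans (Nat.add_le_add_right
      (Finset.card_biUnion_le.trans (Finset.sum_le_sum fun σ _ => Finset.card_image_le)) _))
  -- the points on the coordinate hyperplanes
  have hZ1 : (Z.card : ℝ) ≤ ε / 2 * (H : ℝ) ^ (s + 1) := by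
    have hP0 : (∏ i, X i : MvPolynomial (Fin (s + 1)) ℤ) ≠ 0 :=
      Finset.prod_ne_zero_iff.2 fun i _ => X_ne_zero i
    have hPd : (∏ i, X i : MvPolynomial (Fin (s + 1)) ℤ).totalDegree ≤ s + 1 := by
      refine (totalDegree_finsetProd _ _).trans ?_
      simp [totalDegree_X]
    have h1 := MvPolynomial.schwartz_zippel_totalDegree hP0 (Finset.Icc (-(H : ℤ)) H)
    have h2 : (Finset.Icc (-(H : ℤ)) H).card = 2 * H + 1 := by
      rw [Int.card_Icc]
      omega
    rw [h2] at h1
    have h3 : (Z.card : ℚ≥0) * ((2 * H + 1 : ℕ) : ℚ≥0) ≤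
        (∏ i, X i : MvPolynomial (Fin (s + 1)) ℤ).totalDegree * ((2 * H + 1 : ℕ) : ℚ≥0) ^ (s + 1) := by
      rw [div_le_div_iff₀ (by positivity) (by positivity)] at h1
      exact h1
    have h4 : Z.card * (2 * H + 1) ≤ (s + 1) * (2 * H + 1) ^ (s + 1) := by
      have h5 : Z.card * (2 * H + 1) ≤
        (∏ i, X i : MvPolynomial (Fin (s + 1)) ℤ).totalDegree * (2 * H + 1) ^ (s + 1) := by
        exact_mod_cast h3
      exact h5.trans (Nat.mul_le_mul_right _ hPd)
    have h6 : Z.card * (2 * H) ≤ (s + 1) * 3 ^ (s + 1) * H ^ (s + 1) := by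
      calc Z.card * (2 * H) ≤ Z.card * (2 * H + 1) := Nat.mul_le_mul_left _ (by omega)
        _ ≤ (s + 1) * (2 * H + 1) ^ (s + 1) := h4
        _ ≤ (s + 1) * (3 * H) ^ (s + 1) :=
            Nat.mul_le_mul_left _ (Nat.pow_le_pow_left (by omega) _)
        _ = _ := by rw [mul_pow, mul_assoc]
    have h7 : (Z.card : ℝ) * (2 * H) ≤ ((s + 1 : ℕ) : ℝ) * 3 ^ (s + 1) * (H : ℝ) ^ (s + 1) := by
      exact_mod_cast h6
    have h8 : ((s + 1 : ℕ) : ℝ) * 3 ^ (s + 1) ≤ ε * H := by
      rw [mul_comm ε, ← div_le_iff₀ hε]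
      exact hH₂.trans (by exact_mod_cast (by omega : H₂ ≤ H))
    have hHr : (0 : ℝ) < H := by exact_mod_cast hH1
    have h9 : (Z.card : ℝ) * (2 * H) ≤ ε * H * (H : ℝ) ^ (s + 1) :=
      h7.trans (by gcongr)
    have h10 : (Z.card : ℝ) * (2 * H) ≤ (ε / 2 * (H : ℝ) ^ (s + 1)) * (2 * H) := by
      refine h9.trans (le_of_eq ?_)
      ring
    exact le_of_mul_le_mul_right h10 (by positivity)
  have hE1 : ∑ σ, ((E σ).card : ℝ) ≤ ε / 2 * (H : ℝ) ^ (s + 1) := by
    have h1 : ∀ σ ∈ (Finset.univ : Finset (Fin (s + 1) → ℤˣ)), ((E σ).card : ℝ) ≤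
        (ε / 2 ^ (s + 2)) * (H : ℝ) ^ (s + 1) := by
      intro σ _
      refine hH₁ σ H ?_
      have := Finset.single_le_sum (f := H₁) (fun _ _ => Nat.zero_le _) (Finset.mem_univ σ)
      omega
    refine (Finset.sum_le_sum h1).trans (le_of_eq ?_)
    rw [Finset.sum_const, Finset.card_univ, Fintype.card_fun, Fintype.card_fin, Fintype.card_units_int,
      nsmul_eq_mul]
    push_cast
    rw [pow_succ 2 (s + 1)]
    field_simp
  have h1 : (Set.ncard {z : Fin (s + 1) → ℤ | (∀ j, |z j| ≤ (H : ℤ)) ∧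
      ¬ Good (eval z) f g D} : ℝ) ≤ (∑ σ, ((E σ).card : ℝ)) + (Z.card : ℝ) := by
    exact_mod_cast hcard2
  linarith

end Pool.Agent.Q41.ZP
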