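import Pool.Agent.Q41.ZP.Rankin
import Pool.Agent.Q41.ZP.Shear

/-!
For all but `O(H^(q - 1 + ε))` integral points of height at most `H` the values of given polynomials
have large prime divisors of their own (helper file for Zilber-Pink for multi-parameter families).
-/

namespace Pool.Agent.Q41.ZP

open Finset

open Classical in
/-- few values of a polynomial in one variable are composed of small primes and of primes dividing a
given number -/
theorem fiber_count {ε : ℝ} (hε : 0 < ε) : ∃ C : ℝ, 0 < C ∧ ∀ (f : Polynomial ℤ),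
    0 < f.natDegree → ∀ H B R : ℕ, R ≠ 0 → (∀ t ∈ Icc 1 H, (f.eval (t : ℤ)).natAbs ≤ B) →
    (((Icc 1 H).filter fun t : ℕ => f.eval (t : ℤ) = 0 ∨
      ∀ p : ℕ, p.Prime → (p : ℤ) ∣ f.eval (t : ℤ) → p ∣ R).card : ℝ) ≤
      f.natDegree * (1 + 2 * (C * (B : ℝ) ^ ε * (R : ℝ) ^ ε)) := by
  obtain ⟨C, hC0, hC⟩ := rankin hε
  refine ⟨C, hC0, fun f hf H B R hR hB => ?_⟩
  set S := (Icc 1 B).filter fun n => ∀ p, p.Prime → p ∣ n → p ∣ R with hS
  have h1 : ((Icc 1 H).filter fun t : ℕ => f.eval (t : ℤ) = 0 ∨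
      ∀ p : ℕ, p.Prime → (p : ℤ) ∣ f.eval (t : ℤ) → p ∣ R) ⊆
      ((Icc 1 H).filter fun t : ℕ => f.eval (t : ℤ) = 0) ∪
      S.biUnion fun n => ((Icc 1 H).filter fun t : ℕ => f.eval (t : ℤ) = (n : ℤ)) ∪
        ((Icc 1 H).filter fun t : ℕ => f.eval (t : ℤ) = -(n : ℤ)) := by
    intro t ht
    rw [mem_filter] at ht
    by_cases h0 : f.eval (t : ℤ) = 0
    · exact mem_union_left _ (mem_filter.2 ⟨ht.1, h0⟩)
    · refine mem_union_right _ (mem_biUnion.2 ⟨(f.eval (t : ℤ)).natAbs, ?_, ?_⟩)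
      · rw [hS, mem_filter, mem_Icc]
        refine ⟨⟨Int.natAbs_pos.2 h0, hB t ht.1⟩, fun p hp hd => ?_⟩
        rcases ht.2 with h2 | h2
        · exact absurd h2 h0
        · exact h2 p hp (Int.natCast_dvd.2 hd)
      · rw [mem_union, mem_filter, mem_filter]
        rcases Int.natAbs_eq (f.eval (t : ℤ)) with h | h
        · exact Or.inl ⟨ht.1, h⟩
        · exact Or.inr ⟨ht.1, h⟩
  have hf0 : f ≠ 0 := by
    rintro rfl
    exact lt_irrefl _ hf
  have h2 : ((Icc 1 H).filter fun t : ℕ => f.eval (t : ℤ) = 0 ∨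
      ∀ p : ℕ, p.Prime → (p : ℤ) ∣ f.eval (t : ℤ) → p ∣ R).card ≤
      f.natDegree + S.card * (2 * f.natDegree) := by
    refine (card_le_card h1).trans ((card_union_le _ _).trans (Nat.add_le_add
      (count_zero f hf0 H) (card_biUnion_le_card_mul _ _ _ fun n _ => ?_)))
    refine (card_union_le _ _).trans ?_
    have h3 := count_eq f hf H (n : ℤ)
    have h4 := count_eq f hf H (-(n : ℤ))
    omega
  have h3 := hC R B hR
  have h4 : (((Icc 1 H).filter fun t : ℕ => f.eval (t : ℤ) = 0 ∨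
      ∀ p : ℕ, p.Prime → (p : ℤ) ∣ f.eval (t : ℤ) → p ∣ R).card : ℝ) ≤
      f.natDegree + S.card * (2 * f.natDegree) := by exact_mod_cast h2
  refine h4.trans ?_
  have h5 : (S.card : ℝ) * (2 * f.natDegree) ≤
      (C * (B : ℝ) ^ ε * (R : ℝ) ^ ε) * (2 * f.natDegree) :=
    mul_le_mul_of_nonneg_right h3 (by positivity)
  linarith

open Classical in
/-- For all but `O(H^(s + ε))` integral points the values of the `f l` have large prime divisors of
their own, which do not divide the values of the `g l i`. -/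
theorem count_family_mv2 {s L : ℕ} {ι : Type} [Fintype ι] (f : Fin L → Par s)
    (hf : ∀ l, Irreducible (f l)) (hd : ∀ l, 0 < (f l).natDegree) (a : Fin L → ℤ)
    (ha : ∀ l, (f l).leadingCoeff = MvPolynomial.C (a l))
    (hne : ∀ l l', l ≠ l' → ¬ f l ∣ f l') (g : Fin L → ι → Par s) (hg : ∀ l i, ¬ f l ∣ g l i)
    (D : ℕ) {ε : ℝ} (hε : 0 < ε) : ∃ C : ℝ, 0 ≤ C ∧ ∀ H : ℕ, 1 ≤ H →
    (((box s H ×ˢ Icc 1 H).filter fun z => ¬ Good (spz (pt z.1) z.2) f g D).card : ℝ) ≤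
      C * ((H : ℝ) ^ s * (H : ℝ) ^ ε) := by
  have ha0 : ∀ l, a l ≠ 0 := by
    intro l h0
    have h1 := ha l
    rw [h0, map_zero, Polynomial.leadingCoeff_eq_zero] at h1
    have h2 := hd l
    rw [h1, Polynomial.natDegree_zero] at h2
    exact lt_irrefl _ h2
  -- the pairs of polynomials
  let h : Fin L → (Fin L ⊕ ι) → Par s := fun l => Sum.elim (fun l' => if l = l' then 1 else f l') (g l)
  have hh : ∀ l i, ¬ f l ∣ h l i := by
    intro l i
    rcases i with l' | i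
    · by_cases hll : l = l'
      · simp only [h, Sum.elim_inl, if_pos hll]
        exact fun h0 => (hf l).not_isUnit (isUnit_of_dvd_one h0)
      · simp only [h, Sum.elim_inl, if_neg hll]
        exact hne l l' hll
    · exact hg l i
  choose R hR U V hUV using fun l i => bezoutA (hf l) (hd l) (hh l i)
  let Q : Fin L → MvPolynomial (Fin s) ℤ := fun l => ∏ i, R l i
  have hQ : ∀ l, Q l ≠ 0 := fun l => prod_ne_zero_iff.2 fun i _ => hR l i
  choose K D' hKD using fun l => eval_bound_par (f l)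
  choose K₂ D₂ hKD₂ using fun l => eval_bound_mv (Q l)
  -- the exponent
  set Δ : ℕ := ∑ l, (D' l + D₂ l) + 1 with hΔ
  have hΔ0 : (0 : ℝ) < Δ := by
    have : 0 < Δ := by omega
    exact_mod_cast this
  obtain ⟨C, hC0, hC⟩ := fiber_count (ε := ε / Δ) (by positivity)
  set F : ℕ := D.factorial with hF
  have hF0 : F ≠ 0 := Nat.factorial_ne_zero D
  let c1 : Fin L → ℝ := fun l => (f l).natDegree *
    (1 + 2 * (C * (K l : ℝ) ^ (ε / Δ) * ((F * K₂ l : ℕ) : ℝ) ^ (ε / Δ)))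
  have hc1 : ∀ l, 0 ≤ c1 l := fun l => by positivity
  refine ⟨∑ l, (c1 l + (Q l).totalDegree), sum_nonneg fun l _ => add_nonneg (hc1 l)
    (Nat.cast_nonneg _), fun H hH => ?_⟩
  have hHr : (1 : ℝ) ≤ H := by exact_mod_cast hH
  have hHε : (1 : ℝ) ≤ (H : ℝ) ^ ε := Real.one_le_rpow hHr hε.le
  let A1 : Fin L → Finset ((Fin s → ℕ) × ℕ) := fun l => (box s H ×ˢ Icc 1 H).filter fun z =>
    MvPolynomial.eval (pt z.1) (Q l) = 0
  let A2 : Fin L → Finset ((Fin s → ℕ) × ℕ) := fun l => (box s H ×ˢ Icc 1 H).filter fun z =>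
    MvPolynomial.eval (pt z.1) (Q l) ≠ 0 ∧ (spz (pt z.1) z.2 (f l) = 0 ∨
      ∀ p : ℕ, p.Prime → (p : ℤ) ∣ spz (pt z.1) z.2 (f l) →
        p ∣ F * (MvPolynomial.eval (pt z.1) (Q l)).natAbs)
  have hsub : ((box s H ×ˢ Icc 1 H).filter fun z => ¬ Good (spz (pt z.1) z.2) f g D) ⊆
      univ.biUnion fun l => A1 l ∪ A2 l := by
    intro z hz
    rw [mem_filter] at hz
    by_contra hcon
    rw [mem_biUnion] at hcon
    apply hz.2
    have hQ0 : ∀ l, MvPolynomial.eval (pt z.1) (Q l) ≠ 0 := fun l h0 => hcon ⟨l, mem_univ _,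
      mem_union_left _ (mem_filter.2 ⟨hz.1, h0⟩)⟩
    have hf0 : ∀ l, spz (pt z.1) z.2 (f l) ≠ 0 := fun l h0 => hcon ⟨l, mem_univ _,
      mem_union_right _ (mem_filter.2 ⟨hz.1, hQ0 l, Or.inl h0⟩)⟩
    have hp : ∀ l, ∃ p : ℕ, p.Prime ∧ (p : ℤ) ∣ spz (pt z.1) z.2 (f l) ∧
        ¬ p ∣ F * (MvPolynomial.eval (pt z.1) (Q l)).natAbs := by
      intro l
      by_contra hl
      apply hcon
      refine ⟨l, mem_univ _, mem_union_right _ (mem_filter.2 ⟨hz.1, hQ0 l, Or.inr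
        fun p hp hd => ?_⟩)⟩
      by_contra hnd
      exact hl ⟨p, hp, hd, hnd⟩
    choose p hpp hpd hpn using hp
    have hA3 : ∀ l i, ¬ (p l : ℤ) ∣ spz (pt z.1) z.2 (h l i) := by
      intro l i h0
      apply hpn l
      refine dvd_mul_of_dvd_right (Int.natCast_dvd.1 ?_) _
      have h1 : (p l : ℤ) ∣ MvPolynomial.eval (pt z.1) (R l i) := by
        have h2 := congrArg (spz (pt z.1) z.2) (hUV l i)
        rw [map_add, map_mul, map_mul, spz_C] at h2
        rw [← h2]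
        exact dvd_add (dvd_mul_of_dvd_right (hpd l) _) (dvd_mul_of_dvd_right h0 _)
      show (p l : ℤ) ∣ MvPolynomial.eval (pt z.1) (∏ i, R l i)
      rw [map_prod]
      exact h1.trans (dvd_prod_of_mem _ (mem_univ i))
    refine ⟨hf0, p, fun l => ⟨hpp l, ?_, hpd l⟩, ?_, ?_⟩
    · by_contra hle
      push Not at hle
      exact hpn l (dvd_mul_of_dvd_left ((Nat.Prime.dvd_factorial (hpp l)).2 hle) _)
    · intro l l' hll h0
      apply hA3 l (Sum.inl l')
      simp only [h, Sum.elim_inl, if_neg hll]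
      exact h0
    · intro l i h0
      exact hA3 l (Sum.inr i) h0
  have hA1 : ∀ l, ((A1 l).card : ℝ) ≤ (Q l).totalDegree * ((H : ℝ) ^ s * (H : ℝ) ^ ε) := by
    intro l
    have h1 : (A1 l).card ≤ H * ((box s H).filter fun u => MvPolynomial.eval (pt u) (Q l) = 0).card :=
      card_fib (P := fun u _ => MvPolynomial.eval (pt u) (Q l) = 0) _
        (fun u hu _ _ h0 => mem_filter.2 ⟨hu, h0⟩)
        (fun u _ => (card_filter_le _ _).trans (by rw [Nat.card_Icc]; omega))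
    have h2 := count_zero_mv (hQ l) hH
    have h3 : (A1 l).card ≤ (Q l).totalDegree * H ^ s := by
      rw [mul_comm] at h2
      exact h1.trans h2
    have h4 : ((A1 l).card : ℝ) ≤ (Q l).totalDegree * (H : ℝ) ^ s := by exact_mod_cast h3
    refine h4.trans (mul_le_mul_of_nonneg_left ?_ (Nat.cast_nonneg _))
    exact le_mul_of_one_le_right (by positivity) hHε
  have hA2 : ∀ l, ((A2 l).card : ℝ) ≤ c1 l * ((H : ℝ) ^ s * (H : ℝ) ^ ε) := by
    intro l
    have hΔl : ((D' l + D₂ l : ℕ) : ℝ) * (ε / Δ) ≤ ε := by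
      have h1 : D' l + D₂ l ≤ Δ := by
        have := single_le_sum (f := fun l => D' l + D₂ l) (fun _ _ => Nat.zero_le _) (mem_univ l)
        omega
      have h2 : ((D' l + D₂ l : ℕ) : ℝ) ≤ Δ := by exact_mod_cast h1
      calc ((D' l + D₂ l : ℕ) : ℝ) * (ε / Δ) ≤ Δ * (ε / Δ) :=
            mul_le_mul_of_nonneg_right h2 (by positivity)
        _ = ε := by field_simp
    have hfib : ∀ u ∈ (box s H).filter fun u => MvPolynomial.eval (pt u) (Q l) ≠ 0,
        (((Icc 1 H).filter fun t : ℕ => spz (pt u) t (f l) = 0 ∨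
          ∀ p : ℕ, p.Prime → (p : ℤ) ∣ spz (pt u) t (f l) →
            p ∣ F * (MvPolynomial.eval (pt u) (Q l)).natAbs).card : ℝ) ≤
          c1 l * (H : ℝ) ^ ε := by
      intro u hu
      rw [mem_filter] at hu
      obtain ⟨h2, h3⟩ := map_deg (ha0 l) (ha l) (pt u)
      have h4 := hC ((f l).map (MvPolynomial.eval (pt u))) (by rw [h2]; exact hd l) H
        (K l * H ^ D' l) (F * (MvPolynomial.eval (pt u) (Q l)).natAbs)
        (mul_ne_zero hF0 (Int.natAbs_ne_zero.2 hu.2))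
        (fun t ht => hKD l H hH u hu.1 t (mem_Icc.1 ht).2)
      rw [h2] at h4
      refine h4.trans ?_
      show _ ≤ (f l).natDegree *
        (1 + 2 * (C * (K l : ℝ) ^ (ε / Δ) * ((F * K₂ l : ℕ) : ℝ) ^ (ε / Δ))) * (H : ℝ) ^ ε
      rw [mul_assoc ((f l).natDegree : ℝ)]
      refine mul_le_mul_of_nonneg_left ?_ (Nat.cast_nonneg (α := ℝ) (f l).natDegree)
      have h5 : ((K l * H ^ D' l : ℕ) : ℝ) ^ (ε / Δ) =
          (K l : ℝ) ^ (ε / Δ) * (H : ℝ) ^ ((D' l : ℝ) * (ε / Δ)) := by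
        push_cast
        rw [Real.mul_rpow (Nat.cast_nonneg _) (by positivity), ← Real.rpow_natCast (H : ℝ),
          ← Real.rpow_mul (Nat.cast_nonneg _)]
      have h6 : ((F * (MvPolynomial.eval (pt u) (Q l)).natAbs : ℕ) : ℝ) ^ (ε / Δ) ≤
          ((F * K₂ l : ℕ) : ℝ) ^ (ε / Δ) * (H : ℝ) ^ ((D₂ l : ℝ) * (ε / Δ)) := by
        have h7 : F * (MvPolynomial.eval (pt u) (Q l)).natAbs ≤ (F * K₂ l) * H ^ D₂ l := by
          rw [mul_assoc]
          exact Nat.mul_le_mul_left _ (hKD₂ l H hH u hu.1)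
        have h8 : ((F * (MvPolynomial.eval (pt u) (Q l)).natAbs : ℕ) : ℝ) ≤
            ((F * K₂ l : ℕ) : ℝ) * (H : ℝ) ^ D₂ l := by exact_mod_cast h7
        refine (Real.rpow_le_rpow (Nat.cast_nonneg _) h8 (by positivity)).trans (le_of_eq ?_)
        rw [Real.mul_rpow (Nat.cast_nonneg _) (by positivity), ← Real.rpow_natCast (H : ℝ),
          ← Real.rpow_mul (Nat.cast_nonneg _)]
      have h9 : (H : ℝ) ^ ((D' l : ℝ) * (ε / Δ)) * (H : ℝ) ^ ((D₂ l : ℝ) * (ε / Δ)) ≤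
          (H : ℝ) ^ ε := by
        rw [← Real.rpow_add (by linarith), ← add_mul]
        refine Real.rpow_le_rpow_of_exponent_le hHr ?_
        refine le_trans (le_of_eq ?_) hΔl
        push_cast
        ring
      rw [h5]
      have h10 : C * ((K l : ℝ) ^ (ε / Δ) * (H : ℝ) ^ ((D' l : ℝ) * (ε / Δ))) *
          ((F * (MvPolynomial.eval (pt u) (Q l)).natAbs : ℕ) : ℝ) ^ (ε / Δ) ≤
          C * (K l : ℝ) ^ (ε / Δ) * ((F * K₂ l : ℕ) : ℝ) ^ (ε / Δ) * (H : ℝ) ^ ε := by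
        calc C * ((K l : ℝ) ^ (ε / Δ) * (H : ℝ) ^ ((D' l : ℝ) * (ε / Δ))) *
            ((F * (MvPolynomial.eval (pt u) (Q l)).natAbs : ℕ) : ℝ) ^ (ε / Δ) ≤
            C * ((K l : ℝ) ^ (ε / Δ) * (H : ℝ) ^ ((D' l : ℝ) * (ε / Δ))) *
            (((F * K₂ l : ℕ) : ℝ) ^ (ε / Δ) * (H : ℝ) ^ ((D₂ l : ℝ) * (ε / Δ))) := by
              refine mul_le_mul_of_nonneg_left h6 ?_
              positivity
          _ = C * (K l : ℝ) ^ (ε / Δ) * ((F * K₂ l : ℕ) : ℝ) ^ (ε / Δ) *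
              ((H : ℝ) ^ ((D' l : ℝ) * (ε / Δ)) * (H : ℝ) ^ ((D₂ l : ℝ) * (ε / Δ))) := by ring
          _ ≤ _ := mul_le_mul_of_nonneg_left h9 (by positivity)
      calc 1 + 2 * (C * ((K l : ℝ) ^ (ε / Δ) * (H : ℝ) ^ ((D' l : ℝ) * (ε / Δ))) *
          ((F * (MvPolynomial.eval (pt u) (Q l)).natAbs : ℕ) : ℝ) ^ (ε / Δ)) ≤
          (H : ℝ) ^ ε + 2 * (C * (K l : ℝ) ^ (ε / Δ) * ((F * K₂ l : ℕ) : ℝ) ^ (ε / Δ) *
            (H : ℝ) ^ ε) := by linarith
        _ = _ := by ring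
    have hnn : 0 ≤ c1 l * (H : ℝ) ^ ε := mul_nonneg (hc1 l) (by positivity)
    have h1 : (A2 l).card ≤ ⌊c1 l * (H : ℝ) ^ ε⌋₊ * ((box s H).filter fun u =>
        MvPolynomial.eval (pt u) (Q l) ≠ 0).card := by
      refine card_fib (P := fun u t => MvPolynomial.eval (pt u) (Q l) ≠ 0 ∧
        (spz (pt u) t (f l) = 0 ∨ ∀ p : ℕ, p.Prime → (p : ℤ) ∣ spz (pt u) t (f l) →
          p ∣ F * (MvPolynomial.eval (pt u) (Q l)).natAbs)) _
        (fun u hu _ _ h0 => mem_filter.2 ⟨hu, h0.1⟩) ?_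
      intro u hu
      refine Nat.le_floor (le_trans ?_ (hfib u hu))
      rw [Nat.cast_le]
      refine card_le_card fun t ht => ?_
      rw [mem_filter] at ht ⊢
      exact ⟨ht.1, ht.2.2⟩
    have h2 : ((box s H).filter fun u => MvPolynomial.eval (pt u) (Q l) ≠ 0).card ≤ H ^ s := by
      rw [← card_box s H]
      exact card_filter_le _ _
    have h3 : ((A2 l).card : ℝ) ≤ (c1 l * (H : ℝ) ^ ε) * (H : ℝ) ^ s := by
      have h4 : ((A2 l).card : ℝ) ≤ (⌊c1 l * (H : ℝ) ^ ε⌋₊ : ℝ) * (H : ℝ) ^ s := by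
        exact_mod_cast h1.trans (Nat.mul_le_mul_left _ h2)
      exact h4.trans (mul_le_mul_of_nonneg_right (Nat.floor_le hnn) (by positivity))
    refine h3.trans (le_of_eq ?_)
    ring
  have hcard : (((box s H ×ˢ Icc 1 H).filter fun z =>
      ¬ Good (spz (pt z.1) z.2) f g D).card : ℝ) ≤
      ∑ l, (((A1 l).card : ℝ) + ((A2 l).card : ℝ)) := by
    have h1 := (card_le_card hsub).trans (card_biUnion_le.trans (sum_le_sum fun l _ =>
      card_union_le _ _))
    exact_mod_cast h1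
  refine hcard.trans ?_
  rw [sum_mul]
  refine sum_le_sum fun l _ => ?_
  rw [add_mul, add_comm]
  exact add_le_add (hA2 l) (hA1 l)

open Classical in
theorem count_pos2 {s L : ℕ} {ι : Type} [Fintype ι] (f : Fin L → MvPolynomial (Fin (s + 1)) ℤ)
    (hf : ∀ l, Irreducible (f l)) (hd : ∀ l, (f l).totalDegree ≠ 0)
    (hne : ∀ l l', l ≠ l' → ¬ f l ∣ f l') (g : Fin L → ι → MvPolynomial (Fin (s + 1)) ℤ)
    (hg : ∀ l i, ¬ f l ∣ g l i) (D : ℕ) {ε : ℝ} (hε : 0 < ε) : ∃ C : ℝ, 0 ≤ C ∧ ∀ H : ℕ, 1 ≤ H →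
    (((box (s + 1) H).filter fun v => ¬ Good (MvPolynomial.eval (pt v)) f g D).card : ℝ) ≤
      C * ((H : ℝ) ^ s * (H : ℝ) ^ ε) := by
  have hQ0 : ∏ l, MvPolynomial.homogeneousComponent (f l).totalDegree (f l) ≠ 0 :=
    Finset.prod_ne_zero_iff.2 fun l _ => top_ne_zero (hf l).ne_zero
  obtain ⟨b, hb⟩ := exists_shift (MvPolynomial.IsHomogeneous.prod _ _ _ fun l _ =>
    MvPolynomial.homogeneousComponent_isHomogeneous (f l).totalDegree (f l)) hQ0
  rw [map_prod, Finset.prod_ne_zero_iff] at hb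
  set a : Fin s → ℤ := fun i => -(b i : ℤ) with ha
  have hdeg : ∀ l, (shearEquiv a (f l)).natDegree = (f l).totalDegree ∧
      (shearEquiv a (f l)).leadingCoeff = MvPolynomial.C (MvPolynomial.eval
        (Fin.cons 1 a : Fin (s + 1) → ℤ)
        (MvPolynomial.homogeneousComponent (f l).totalDegree (f l))) := by
    intro l
    obtain ⟨h1, h2⟩ := shearEquiv_deg a (f l) le_rfl
    have h3 : (MvPolynomial.C (MvPolynomial.eval (Fin.cons 1 a : Fin (s + 1) → ℤ)
        (MvPolynomial.homogeneousComponent (f l).totalDegree (f l))) :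
          MvPolynomial (Fin s) ℤ) ≠ 0 := by
      intro h0
      exact hb l (Finset.mem_univ l) (MvPolynomial.C_eq_zero.1 h0)
    have h4 : (shearEquiv a (f l)).natDegree = (f l).totalDegree :=
      le_antisymm h1 (Polynomial.le_natDegree_of_ne_zero (by rw [h2]; exact h3))
    refine ⟨h4, ?_⟩
    rw [Polynomial.leadingCoeff, h4, h2]
  set B := ∑ i, b i with hB
  have hbB : ∀ i, b i ≤ B := fun i =>
    Finset.single_le_sum (f := b) (fun _ _ => Nat.zero_le _) (Finset.mem_univ i)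
  obtain ⟨C, hC0, hC⟩ := count_family_mv2 (fun l => shearEquiv a (f l))
    (fun l => (MulEquiv.irreducible_iff (shearEquiv a)).2 (hf l))
    (fun l => by
      rw [(hdeg l).1]
      exact Nat.pos_of_ne_zero (hd l)) _ (fun l => (hdeg l).2)
    (fun l l' hll h => hne l l' hll ((map_dvd_iff (shearEquiv a)).1 h))
    (fun l i => shearEquiv a (g l i)) (fun l i h => hg l i ((map_dvd_iff (shearEquiv a)).1 h)) D
    hε
  refine ⟨C * ((1 + B : ℝ) ^ s * (1 + B : ℝ) ^ ε), by positivity, fun H hH => ?_⟩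
  have h1 := hC ((1 + B) * H) (hH.trans (Nat.le_mul_of_pos_left _ (by omega)))
  have h2 : C * ((((1 + B) * H : ℕ) : ℝ) ^ s * (((1 + B) * H : ℕ) : ℝ) ^ ε) =
      C * ((1 + B : ℝ) ^ s * (1 + B : ℝ) ^ ε) * ((H : ℝ) ^ s * (H : ℝ) ^ ε) := by
    push_cast
    rw [mul_pow, Real.mul_rpow (by positivity) (Nat.cast_nonneg _)]
    ring
  rw [h2] at h1
  refine le_trans ?_ h1
  rw [Nat.cast_le]
  refine Finset.card_le_card_of_injOn
    (fun v => ((fun i => v i.succ + b i * v 0 : Fin s → ℕ), v 0)) ?_ ?_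
  · intro v hv
    rw [Finset.mem_coe, Finset.mem_filter] at hv
    obtain ⟨hv1, hv2⟩ := hv
    have hv0 := Finset.mem_Icc.1 (Fintype.mem_piFinset.1 hv1 0)
    rw [Finset.mem_coe, Finset.mem_filter]
    refine ⟨Finset.mem_product.2 ⟨Fintype.mem_piFinset.2 fun i => Finset.mem_Icc.2 ⟨?_, ?_⟩,
      Finset.mem_Icc.2 ⟨hv0.1, ?_⟩⟩, ?_⟩
    · have := Finset.mem_Icc.1 (Fintype.mem_piFinset.1 hv1 i.succ)
      exact this.1.trans (Nat.le_add_right _ _)
    · have h3 := Finset.mem_Icc.1 (Fintype.mem_piFinset.1 hv1 i.succ)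
      have h4 : b i * v 0 ≤ B * H := Nat.mul_le_mul (hbB i) hv0.2
      show v i.succ + b i * v 0 ≤ (1 + B) * H
      calc v i.succ + b i * v 0 ≤ H + B * H := Nat.add_le_add h3.2 h4
        _ = (1 + B) * H := by ring
    · exact hv0.2.trans (Nat.le_mul_of_pos_left _ (by omega))
    · intro h0
      apply hv2
      have h5 : ∀ F : MvPolynomial (Fin (s + 1)) ℤ,
          spz (pt fun i => v i.succ + b i * v 0) (v 0 : ℤ) (shearEquiv a F) =
            MvPolynomial.eval (pt v) F := by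
        intro F
        rw [spz_shearEquiv]
        congr 1
        congr 1
        funext i
        refine Fin.cases ?_ (fun j => ?_) i
        · rw [Fin.cons_zero]
        · rw [Fin.cons_succ]
          simp only [pt, ha]
          push_cast
          ring
      exact h0.congr (fun l => h5 _) fun l i => h5 _
  · intro v _ v' _ h
    simp only [Prod.mk.injEq] at h
    obtain ⟨h3, h4⟩ := h
    funext i
    refine Fin.cases h4 (fun j => ?_) i
    have h5 := congrFun h3 j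
    simp only [h4] at h5
    omega

/-- For all but `O(H^(q - 1 + ε))` integral points of height at most `H` the values of the `f l` have
large prime divisors of their own, which do not divide the values of the `g l i`. -/
theorem count_sym2 {r L : ℕ} {ι : Type} [Fintype ι] (f : Fin L → MvPolynomial (Fin r) ℤ)
    (hf : ∀ l, Irreducible (f l)) (hd : ∀ l, (f l).totalDegree ≠ 0)
    (hne : ∀ l l', l ≠ l' → ¬ f l ∣ f l') (g : Fin L → ι → MvPolynomial (Fin r) ℤ)
    (hg : ∀ l i, ¬ f l ∣ g l i) (D : ℕ) {ε : ℝ} (hε : 0 < ε) : ∃ C : ℝ, ∀ H : ℕ, 1 ≤ H →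
    (Set.ncard {z : Fin r → ℤ | (∀ j, |z j| ≤ (H : ℤ)) ∧
      ¬ Good (MvPolynomial.eval z) f g D} : ℝ) ≤ C * (H : ℝ) ^ ((r : ℝ) - 1 + ε) := by
  classical
  -- the trivial cases
  by_cases hL : L = 0
  · subst hL
    refine ⟨0, fun H _ => ?_⟩
    have h1 : {z : Fin r → ℤ | (∀ j, |z j| ≤ (H : ℤ)) ∧
        ¬ Good (MvPolynomial.eval z) f g D} = ∅ := by
      ext z
      simp only [Set.mem_ofPred_eq, Set.mem_empty_iff_false, iff_false, not_and, not_not]
      intro _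
      exact ⟨fun l => l.elim0, fun _ => 0, fun l => l.elim0, fun l => l.elim0, fun l => l.elim0⟩
    rw [h1, Set.ncard_empty, Nat.cast_zero, zero_mul]
  obtain ⟨L, rfl⟩ := Nat.exists_eq_succ_of_ne_zero hL
  rcases r with _ | s
  · exfalso
    apply hd 0
    rw [MvPolynomial.totalDegree_zero_iff_isHomogeneous]
    exact MvPolynomial.isHomogeneous_of_isEmpty _ _ _
  have hpos : ∀ σ : Fin (s + 1) → ℤˣ, ∃ C : ℝ, 0 ≤ C ∧ ∀ H : ℕ, 1 ≤ H →
      (((box (s + 1) H).filter fun v => ¬ Good (MvPolynomial.eval (pt v))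
        (fun l => reflEquiv σ (f l)) (fun l i => reflEquiv σ (g l i)) D).card : ℝ) ≤
        C * ((H : ℝ) ^ s * (H : ℝ) ^ ε) := by
    intro σ
    exact count_pos2 _ (fun l => (MulEquiv.irreducible_iff (reflEquiv σ)).2 (hf l))
      (fun l => totalDegree_reflEquiv σ (hd l))
      (fun l l' hll h => hne l l' hll ((map_dvd_iff (reflEquiv σ)).1 h)) _
      (fun l i h => hg l i ((map_dvd_iff (reflEquiv σ)).1 h)) D hε
  choose C₁ hC₀ hC₁ using hpos
  refine ⟨∑ σ, C₁ σ + (s + 1) * 3 ^ (s + 1), fun H hH1 => ?_⟩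
  set E : (Fin (s + 1) → ℤˣ) → Finset (Fin (s + 1) → ℕ) := fun σ =>
    (box (s + 1) H).filter fun v => ¬ Good (MvPolynomial.eval (pt v))
      (fun l => reflEquiv σ (f l)) (fun l i => reflEquiv σ (g l i)) D with hE
  set Z : Finset (Fin (s + 1) → ℤ) := (Fintype.piFinset fun _ => Finset.Icc (-(H : ℤ)) H).filter
    fun z => MvPolynomial.eval z (∏ i, MvPolynomial.X i : MvPolynomial (Fin (s + 1)) ℤ) = 0 with hZ
  have hsub : {z : Fin (s + 1) → ℤ | (∀ j, |z j| ≤ (H : ℤ)) ∧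
      ¬ Good (MvPolynomial.eval z) f g D} ⊆
      (((Finset.univ : Finset (Fin (s + 1) → ℤˣ)).biUnion fun σ => (E σ).image fun v i =>
        (σ i : ℤ) * (v i : ℤ)) ∪ Z : Finset (Fin (s + 1) → ℤ)) := by
    rintro z ⟨hz1, hz2⟩
    rw [Finset.mem_coe, Finset.mem_union]
    by_cases h0 : ∀ i, z i ≠ 0
    · left
      have hs : ∀ i, ∃ σ : ℤˣ, (σ : ℤ) * (z i).natAbs = z i := by
        intro i
        rcases Int.natAbs_eq (z i) with h | h
        · exact ⟨1, by rw [Units.val_one, one_mul]; exact h.symm⟩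
        · exact ⟨-1, by rw [Units.val_neg, Units.val_one, neg_one_mul]; exact h.symm⟩
      choose σ hσ using hs
      rw [Finset.mem_biUnion]
      refine ⟨σ, Finset.mem_univ _, Finset.mem_image.2 ⟨fun i => (z i).natAbs, ?_, funext hσ⟩⟩
      rw [hE, Finset.mem_filter]
      refine ⟨Fintype.mem_piFinset.2 fun i => Finset.mem_Icc.2
        ⟨Int.natAbs_pos.2 (h0 i), ?_⟩, fun h => hz2 ?_⟩
      · have := hz1 i
        rw [Int.abs_eq_natAbs] at this
        exact_mod_cast this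
      · have hev : ∀ F : MvPolynomial (Fin (s + 1)) ℤ,
            MvPolynomial.eval (pt fun i => (z i).natAbs) (reflEquiv σ F) =
              MvPolynomial.eval z F := by
          intro F
          rw [eval_reflEquiv]
          congr 2
          funext i
          exact hσ i
        exact h.congr (fun l => hev _) fun l i => hev _
    · right
      push Not at h0
      obtain ⟨i, hi⟩ := h0
      rw [hZ, Finset.mem_filter]
      refine ⟨Fintype.mem_piFinset.2 fun j => Finset.mem_Icc.2 (abs_le.1 (hz1 j)), ?_⟩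
      rw [map_prod]
      refine Finset.prod_eq_zero (Finset.mem_univ i) ?_
      rw [MvPolynomial.eval_X, hi]
  have hcard := Set.ncard_le_ncard hsub (Finset.finite_toSet _)
  rw [Set.ncard_coe_finset] at hcard
  have hcard2 : Set.ncard {z : Fin (s + 1) → ℤ | (∀ j, |z j| ≤ (H : ℤ)) ∧
      ¬ Good (MvPolynomial.eval z) f g D} ≤ (∑ σ, (E σ).card) + Z.card :=
    hcard.trans ((Finset.card_union_le _ _).trans (Nat.add_le_add_right
      (Finset.card_biUnion_le.trans (Finset.sum_le_sum fun σ _ => Finset.card_image_le)) _))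
  have hHr : (1 : ℝ) ≤ H := by exact_mod_cast hH1
  have hHε : (1 : ℝ) ≤ (H : ℝ) ^ ε := Real.one_le_rpow hHr hε.le
  -- the points on the coordinate hyperplanes
  have hZ1 : (Z.card : ℝ) ≤ (s + 1) * 3 ^ (s + 1) * ((H : ℝ) ^ s * (H : ℝ) ^ ε) := by
    have hP0 : (∏ i, MvPolynomial.X i : MvPolynomial (Fin (s + 1)) ℤ) ≠ 0 :=
      Finset.prod_ne_zero_iff.2 fun i _ => MvPolynomial.X_ne_zero i
    have hPd : (∏ i, MvPolynomial.X i : MvPolynomial (Fin (s + 1)) ℤ).totalDegree ≤ s + 1 := by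
      refine (MvPolynomial.totalDegree_finsetProd _ _).trans ?_
      simp [MvPolynomial.totalDegree_X]
    have h1 := MvPolynomial.schwartz_zippel_totalDegree hP0 (Finset.Icc (-(H : ℤ)) H)
    have h2 : (Finset.Icc (-(H : ℤ)) H).card = 2 * H + 1 := by
      rw [Int.card_Icc]
      omega
    rw [h2] at h1
    have h3 : (Z.card : ℚ≥0) * ((2 * H + 1 : ℕ) : ℚ≥0) ≤
        (∏ i, MvPolynomial.X i : MvPolynomial (Fin (s + 1)) ℤ).totalDegree *
          ((2 * H + 1 : ℕ) : ℚ≥0) ^ (s + 1) := by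
      rw [div_le_div_iff₀ (by positivity) (by positivity)] at h1
      exact h1
    have h4 : Z.card * (2 * H + 1) ≤ (s + 1) * (2 * H + 1) ^ (s + 1) := by
      have h5 : Z.card * (2 * H + 1) ≤
        (∏ i, MvPolynomial.X i : MvPolynomial (Fin (s + 1)) ℤ).totalDegree *
          (2 * H + 1) ^ (s + 1) := by
        exact_mod_cast h3
      exact h5.trans (Nat.mul_le_mul_right _ hPd)
    have h6 : Z.card ≤ (s + 1) * (2 * H + 1) ^ s := by
      rw [pow_succ, ← mul_assoc] at h4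
      exact Nat.le_of_mul_le_mul_right h4 (by omega)
    have h7 : Z.card ≤ (s + 1) * 3 ^ (s + 1) * H ^ s := by
      calc Z.card ≤ (s + 1) * (2 * H + 1) ^ s := h6
        _ ≤ (s + 1) * (3 * H) ^ s := Nat.mul_le_mul_left _ (Nat.pow_le_pow_left (by omega) _)
        _ = (s + 1) * 3 ^ s * H ^ s := by rw [mul_pow, mul_assoc]
        _ ≤ (s + 1) * 3 ^ (s + 1) * H ^ s := Nat.mul_le_mul_right _ (Nat.mul_le_mul_left _
            (Nat.pow_le_pow_right (by norm_num) (Nat.le_succ s)))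
    have h8 : (Z.card : ℝ) ≤ (s + 1) * 3 ^ (s + 1) * (H : ℝ) ^ s := by exact_mod_cast h7
    refine h8.trans (mul_le_mul_of_nonneg_left ?_ (by positivity))
    exact le_mul_of_one_le_right (by positivity) hHε
  have hE1 : ∑ σ, ((E σ).card : ℝ) ≤ (∑ σ, C₁ σ) * ((H : ℝ) ^ s * (H : ℝ) ^ ε) := by
    rw [Finset.sum_mul]
    exact Finset.sum_le_sum fun σ _ => hC₁ σ H hH1
  have h1 : (Set.ncard {z : Fin (s + 1) → ℤ | (∀ j, |z j| ≤ (H : ℤ)) ∧
      ¬ Good (MvPolynomial.eval z) f g D} : ℝ) ≤ (∑ σ, ((E σ).card : ℝ)) + (Z.card : ℝ) := by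
    exact_mod_cast hcard2
  have h2 : (H : ℝ) ^ (((s + 1 : ℕ) : ℝ) - 1 + ε) = (H : ℝ) ^ s * (H : ℝ) ^ ε := by
    rw [← Real.rpow_natCast (H : ℝ) s, ← Real.rpow_add (by linarith)]
    congr 1
    push_cast
    ring
  rw [h2, add_mul]
  linarith

end Pool.Agent.Q41.ZP
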