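import Pool.Agent.W466.CE

/-!
Counting lemmas for families of scaling vectors (helper file for Zilber-Pink for translates in
special families).
-/

namespace Pool.Agent.Q41.ZP

open Finset

/-- exponents of products at primes which divide exactly one of the factors -/
theorem fac_prod {ι : Type*} {L : ℕ} {u : Fin L → ℕ} (hu : ∀ l, u l ≠ 0) {b : ι → ℕ}
    (hb : ∀ i, b i ≠ 0) (a : Fin L → ι → ℕ) {p : Fin L → ℕ}
    (h1 : ∀ l l', l ≠ l' → ¬ p l ∣ u l') (h2 : ∀ l i, ¬ p l ∣ b i) (l : Fin L) (i : ι) :
    (b i * ∏ l, u l ^ a l i).factorization (p l) = a l i * (u l).factorization (p l) := by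
  rw [Nat.factorization_mul (hb i) (Finset.prod_ne_zero_iff.2 fun l _ => pow_ne_zero _ (hu l)),
    Finsupp.add_apply, Nat.factorization_eq_zero_of_not_dvd (h2 l i), zero_add,
    Nat.factorization_prod (fun l' _ => pow_ne_zero _ (hu l'))]
  simp only [Finsupp.coe_finsetSum, Finset.sum_apply]
  rw [Finset.sum_eq_single l]
  · rw [Nat.factorization_pow]
    rfl
  · intro l' _ hne
    rw [Nat.factorization_pow]
    show a l' i * (u l').factorization (p l) = 0
    rw [Nat.factorization_eq_zero_of_not_dvd (h1 l l' hne.symm), mul_zero]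
  · intro h
    exact absurd (Finset.mem_univ l) h

/-- few multiples of a given number are squares -/
theorem card_sq (H : ℕ) {d : ℕ} (hd : 0 < d) :
    ((Icc 1 H).filter fun m => IsSquare (d * m)).card ≤ Nat.sqrt H := by
  classical
  obtain ⟨a, b, hab, hsq⟩ := Nat.sq_mul_squarefree d
  have hb : 0 < b := by
    rcases Nat.eq_zero_or_pos b with h | h
    · rw [h] at hab
      omega
    · exact h
  have key : ∀ m ∈ (Icc 1 H).filter (fun m => IsSquare (d * m)),
      ∃ y, m = a * y ^ 2 ∧ y ∈ Icc 1 (Nat.sqrt H) := by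
    intro m hm
    rw [mem_filter, mem_Icc] at hm
    obtain ⟨⟨h1, h2⟩, h3⟩ := hm
    rw [← hab, mul_assoc] at h3
    obtain ⟨w, hw⟩ := Pool.Agent.W466.ZC.isSquare_of_mul_sq hb h3
    have ha0 : 0 < a := Nat.pos_of_ne_zero hsq.ne_zero
    have h4 : a ∣ w := by
      rw [← hsq.dvd_pow_iff_dvd two_ne_zero, pow_two, ← hw]
      exact dvd_mul_right _ _
    obtain ⟨y, rfl⟩ := h4
    have h5 : m = a * y ^ 2 := by
      apply Nat.eq_of_mul_eq_mul_left ha0
      rw [hw]
      ring
    have h6 : y ≠ 0 := by
      rintro rfl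
      rw [h5] at h1
      simp at h1
    refine ⟨y, h5, ?_⟩
    rw [mem_Icc]
    refine ⟨Nat.pos_of_ne_zero h6, ?_⟩
    rw [Nat.le_sqrt']
    calc y ^ 2 ≤ a * y ^ 2 := Nat.le_mul_of_pos_left _ ha0
      _ = m := h5.symm
      _ ≤ H := h2
  choose! f hf using key
  have h7 := card_le_card_of_injOn (s := (Icc 1 H).filter (fun m => IsSquare (d * m)))
    (t := Icc 1 (Nat.sqrt H)) f (fun m hm => (hf m hm).2) (by
      intro m hm m' hm' h
      rw [(hf m hm).1, (hf m' hm').1, h])
  simpa using h7

section box

variable {κ : Type*} [Fintype κ] [DecidableEq κ]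

theorem card_box1 (H : ℕ) (q : κ) :
    (Fintype.piFinset fun i : κ => if i = q then ({1} : Finset ℕ) else Icc 1 H).card =
      H ^ (Fintype.card κ - 1) := by
  rw [Fintype.card_piFinset, ← Finset.mul_prod_erase _ _ (mem_univ q), if_pos rfl, card_singleton,
    one_mul]
  rw [Finset.prod_congr rfl (g := fun _ => H) (fun i hi => by
    rw [if_neg (ne_of_mem_erase hi)]
    simp), prod_const, card_erase_of_mem (mem_univ q), card_univ]

/-- a condition which has few solutions in one of the variables -/
theorem card_fiber (H B : ℕ) (q : κ) (P : (κ → ℕ) → Prop) [DecidablePred P]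
    (h : ∀ e ∈ (Fintype.piFinset fun _ : κ => Icc 1 H),
      ((Icc 1 H).filter fun v => P (Function.update e q v)).card ≤ B) :
    ((Fintype.piFinset fun _ : κ => Icc 1 H).filter P).card ≤
      B * H ^ (Fintype.card κ - 1) := by
  rw [← card_box1 H q]
  refine card_le_mul_card_image_of_maps_to (f := fun e => Function.update e q 1) ?_ B ?_
  · intro e he
    rw [mem_filter, Fintype.mem_piFinset] at he
    rw [Fintype.mem_piFinset]
    intro i
    by_cases hi : i = q
    · subst hi
      simp
    · simp only [Function.update_of_ne hi, if_neg hi]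
      exact he.1 i
  · intro b hb
    rcases ((Fintype.piFinset fun _ : κ => Icc 1 H).filter P |>.filter fun e =>
      Function.update e q 1 = b).eq_empty_or_nonempty with h0 | ⟨e0, he0⟩
    · rw [h0]
      exact Nat.zero_le _
    rw [mem_filter, mem_filter] at he0
    refine le_trans ?_ (h e0 he0.1.1)
    refine card_le_card_of_injOn (fun e => e q) ?_ ?_
    · intro e he
      rw [Finset.mem_coe, mem_filter, mem_filter] at he
      rw [Finset.mem_coe, mem_filter]
      refine ⟨(Fintype.mem_piFinset.1 he.1.1) q, ?_⟩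
      have h1 : Function.update e0 q (e q) = e := by
        funext i
        by_cases hi : i = q
        · subst hi
          simp
        · have h2 := congrFun (he.2.trans he0.2.symm) i
          simp only [Function.update_of_ne hi] at h2
          rw [Function.update_of_ne hi, h2]
      rw [h1]
      exact he.1.2
    · intro e he e' he' hee
      rw [Finset.mem_coe, mem_filter, mem_filter] at he he'
      funext i
      by_cases hi : i = q
      · subst hi
        exact hee
      · have h2 := congrFun (he.2.trans he'.2.symm) i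
        simpa only [Function.update_of_ne hi] using h2

theorem card_box2 (H : ℕ) {q q' : κ} (hq : q ≠ q') :
    (Fintype.piFinset fun i : κ => if i = q ∨ i = q' then ({1} : Finset ℕ) else Icc 1 H).card =
      H ^ (Fintype.card κ - 2) := by
  have h1 : q' ∈ (univ : Finset κ).erase q := mem_erase.2 ⟨hq.symm, mem_univ _⟩
  rw [Fintype.card_piFinset, ← Finset.mul_prod_erase _ _ (mem_univ q), if_pos (Or.inl rfl),
    card_singleton, one_mul, ← Finset.mul_prod_erase _ _ h1, if_pos (Or.inr rfl),
    card_singleton, one_mul]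
  rw [Finset.prod_congr rfl (g := fun _ => H) (fun i hi => by
    rw [mem_erase, mem_erase] at hi
    rw [if_neg (by
      push Not
      exact ⟨hi.2.1, hi.1⟩)]
    simp), prod_const, card_erase_of_mem h1, card_erase_of_mem (mem_univ q), card_univ]
  rfl

open Classical in
/-- a condition on two of the variables -/
theorem card_fiber2 (H : ℕ) {q q' : κ} (hq : q ≠ q') (P : ℕ → ℕ → Prop) :
    ((Fintype.piFinset fun _ : κ => Icc 1 H).filter fun e => P (e q) (e q')).card ≤
      ((Icc 1 H ×ˢ Icc 1 H).filter fun z => P z.1 z.2).card * H ^ (Fintype.card κ - 2) := by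
  rw [← card_box2 H hq]
  refine card_le_mul_card_image_of_maps_to
    (f := fun e => Function.update (Function.update e q 1) q' 1) ?_ _ ?_
  · intro e he
    rw [mem_filter, Fintype.mem_piFinset] at he
    rw [Fintype.mem_piFinset]
    intro i
    by_cases hi' : i = q'
    · subst hi'
      simp
    · by_cases hi : i = q
      · subst hi
        simp [Function.update_of_ne hi']
      · simp only [Function.update_of_ne hi, Function.update_of_ne hi', if_neg (show ¬ (i = q ∨ i = q')
          by push Not; exact ⟨hi, hi'⟩)]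
        exact he.1 i
  · intro b hb
    refine card_le_card_of_injOn (fun e => (e q, e q')) ?_ ?_
    · intro e he
      rw [Finset.mem_coe, mem_filter, mem_filter] at he
      rw [Finset.mem_coe, mem_filter, mem_product]
      exact ⟨⟨(Fintype.mem_piFinset.1 he.1.1) q, (Fintype.mem_piFinset.1 he.1.1) q'⟩, he.1.2⟩
    · intro e he e' he' hee
      rw [Finset.mem_coe, mem_filter, mem_filter] at he he'
      funext i
      by_cases hi : i = q
      · subst hi
        exact (Prod.mk.inj hee).1
      · by_cases hi' : i = q'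
        · subst hi'
          exact (Prod.mk.inj hee).2
        · have h2 := congrFun (he.2.trans he'.2.symm) i
          simpa only [Function.update_of_ne hi, Function.update_of_ne hi'] using h2

end box

/-- few matrices with entries in `[1, H]` have a vanishing minor -/
theorem card_det {K I : Type*} [Fintype K] [Fintype I] [DecidableEq K] [DecidableEq I] (H : ℕ) :
    ∀ (k : ℕ) (r : Fin k → K) (c : Fin k → I), Function.Injective r → Function.Injective c →
    ((Fintype.piFinset fun _ : K × I => Icc 1 H).filter fun e =>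
      (Matrix.of fun i j => (e (r i, c j) : ℤ)).det = 0).card ≤
      k * H ^ (Fintype.card (K × I) - 1) := by
  classical
  intro k
  induction k with
  | zero =>
    intro r c hr hc
    rw [zero_mul, Nat.le_zero, card_eq_zero, filter_eq_empty_iff]
    intro e _
    rw [Matrix.det_fin_zero]
    exact one_ne_zero
  | succ k ih =>
    intro r c hr hc
    have h1 : ((Fintype.piFinset fun _ : K × I => Icc 1 H).filter fun e =>
        (Matrix.of fun i j => (e (r i, c j) : ℤ)).det = 0) ⊆
        ((Fintype.piFinset fun _ : K × I => Icc 1 H).filter fun e =>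
          (Matrix.of fun i j : Fin k => (e (r i.succ, c j.succ) : ℤ)).det = 0) ∪
        ((Fintype.piFinset fun _ : K × I => Icc 1 H).filter fun e =>
          (Matrix.of fun i j : Fin k => (e (r i.succ, c j.succ) : ℤ)).det ≠ 0 ∧
          (Matrix.of fun i j => (e (r i, c j) : ℤ)).det = 0) := by
      intro e he
      rw [mem_union, mem_filter, mem_filter]
      rw [mem_filter] at he
      by_cases h : (Matrix.of fun i j : Fin k => (e (r i.succ, c j.succ) : ℤ)).det = 0
      · exact Or.inl ⟨he.1, h⟩
      · exact Or.inr ⟨he.1, h, he.2⟩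
    refine (card_le_card h1).trans ((card_union_le _ _).trans ?_)
    rw [add_mul]
    refine Nat.add_le_add (ih (fun i => r i.succ) (fun i => c i.succ)
      (fun i j h => Fin.succ_injective _ (hr h)) (fun i j h => Fin.succ_injective _ (hc h))) ?_
    refine card_fiber H 1 (r 0, c 0) (fun e =>
      (Matrix.of fun i j : Fin k => (e (r i.succ, c j.succ) : ℤ)).det ≠ 0 ∧
        (Matrix.of fun i j => (e (r i, c j) : ℤ)).det = 0) fun e he => ?_
    rw [card_le_one]
    intro v hv v' hv'
    rw [mem_filter] at hv hv'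
    obtain ⟨-, hv1, hv2⟩ := hv
    obtain ⟨-, hv1', hv2'⟩ := hv'
    by_contra hne
    -- the minors do not depend on the entry
    have hm : ∀ (w : ℕ) (j : Fin (k + 1)),
        (Matrix.of fun i j => ((Function.update e (r 0, c 0) w) (r i, c j) : ℤ)).submatrix
          Fin.succ j.succAbove =
        (Matrix.of fun i j => (e (r i, c j) : ℤ)).submatrix Fin.succ j.succAbove := by
      intro w j
      ext i j'
      simp only [Matrix.submatrix_apply, Matrix.of_apply]
      rw [Function.update_of_ne]
      intro h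
      exact Fin.succ_ne_zero i (hr (Prod.mk.inj h).1)
    have hd : ∀ w : ℕ, (Matrix.of fun i j =>
        ((Function.update e (r 0, c 0) w) (r i, c j) : ℤ)).det =
        (w : ℤ) * (Matrix.of fun i j : Fin k => (e (r i.succ, c j.succ) : ℤ)).det +
        ∑ j : Fin k, (-1) ^ ((j.succ : Fin (k + 1)) : ℕ) * (e (r 0, c j.succ) : ℤ) *
          ((Matrix.of fun i j => (e (r i, c j) : ℤ)).submatrix Fin.succ j.succ.succAbove).det := by
      intro w
      rw [Matrix.det_succ_row_zero, Fin.sum_univ_succ]
      congr 1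
      · rw [hm]
        simp only [Fin.val_zero, pow_zero, one_mul, Matrix.of_apply, Function.update_self,
          Fin.succAbove_zero]
        rfl
      · refine sum_congr rfl fun j _ => ?_
        rw [hm]
        congr 2
        rw [Matrix.of_apply, Function.update_of_ne]
        intro h
        exact Fin.succ_ne_zero j (hc (Prod.mk.inj h).2)
    have hm' : ∀ w : ℕ, (Matrix.of fun i j : Fin k =>
        ((Function.update e (r 0, c 0) w) (r i.succ, c j.succ) : ℤ)) =
        Matrix.of fun i j : Fin k => (e (r i.succ, c j.succ) : ℤ) := by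
      intro w
      ext i j
      simp only [Matrix.of_apply]
      rw [Function.update_of_ne]
      intro h
      exact Fin.succ_ne_zero i (hr (Prod.mk.inj h).1)
    rw [hm'] at hv1
    rw [hd] at hv2 hv2'
    have h2 : ((v : ℤ) - v') *
        (Matrix.of fun i j : Fin k => (e (r i.succ, c j.succ) : ℤ)).det = 0 := by
      linear_combination hv2 - hv2'
    rcases mul_eq_zero.1 h2 with h3 | h3
    · apply hne
      omega
    · exact hv1 h3

open Classical in
/-- few pairs of numbers have a large common divisor -/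
theorem card_common (H : ℕ) {y : ℕ} (hy : 1 ≤ y) :
    (((Icc 1 H ×ˢ Icc 1 H).filter fun q : ℕ × ℕ => ∃ p, y < p ∧ p ∣ q.1 ∧ p ∣ q.2).card : ℝ) ≤
      (H : ℝ) ^ 2 / y := by
  have hsub : ((Icc 1 H ×ˢ Icc 1 H).filter fun q : ℕ × ℕ => ∃ p, y < p ∧ p ∣ q.1 ∧ p ∣ q.2) ⊆
      (Ioc y H).biUnion fun p => ((Ioc 0 H).filter fun x => p ∣ x) ×ˢ
        ((Ioc 0 H).filter fun x => p ∣ x) := by
    intro q hq
    rw [mem_filter, mem_product, mem_Icc, mem_Icc] at hq
    obtain ⟨⟨⟨h1, h2⟩, h3, h4⟩, p, h5, h6, h7⟩ := hq
    rw [mem_biUnion]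
    refine ⟨p, mem_Ioc.2 ⟨h5, (Nat.le_of_dvd h1 h6).trans h2⟩, ?_⟩
    rw [mem_product, mem_filter, mem_filter, mem_Ioc, mem_Ioc]
    exact ⟨⟨⟨h1, h2⟩, h6⟩, ⟨h3, h4⟩, h7⟩
  have h1 : (((Icc 1 H ×ˢ Icc 1 H).filter fun q : ℕ × ℕ =>
      ∃ p, y < p ∧ p ∣ q.1 ∧ p ∣ q.2).card : ℝ) ≤ ∑ p ∈ Ioc y H, ((H : ℝ) ^ 2 * ((p : ℝ) ^ 2)⁻¹) := by
    refine (Nat.cast_le.2 ((card_le_card hsub).trans card_biUnion_le)).trans ?_
    rw [Nat.cast_sum]
    refine sum_le_sum fun p hp => ?_
    rw [mem_Ioc] at hp
    rw [card_product, Nat.Ioc_filter_dvd_card_eq_div]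
    have h2 : ((H / p : ℕ) : ℝ) ≤ (H : ℝ) / p := Nat.cast_div_le
    have h3 : (0 : ℝ) ≤ ((H / p : ℕ) : ℝ) := Nat.cast_nonneg _
    push_cast
    calc ((H / p : ℕ) : ℝ) * ((H / p : ℕ) : ℝ) ≤ (H : ℝ) / p * ((H : ℝ) / p) := by gcongr
      _ = _ := by
        rw [div_mul_div_comm, ← pow_two, ← pow_two, div_eq_mul_inv]
  refine h1.trans ?_
  rw [← mul_sum, div_eq_mul_inv]
  gcongr
  rcases Nat.lt_or_ge H y with h | h
  · rw [Ioc_eq_empty (by omega), sum_empty]
    positivity
  · refine (sum_Ioc_inv_sq_le_sub (by omega) h).trans ?_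
    have : (0 : ℝ) ≤ (H : ℝ)⁻¹ := by positivity
    linarith

end Pool.Agent.Q41.ZP
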