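import Pool.Agent.Q41.ZP.Count2

/-!
For all but `O(H^(q - 1 + k / β + ε))` integral points of height at most `H` the values of given
polynomials of degree at most `k` have large prime divisors of their own whose exponents are not
divisible by `β` (helper file for Zilber-Pink for multi-parameter families in semiabelian varieties).
-/

namespace Pool.Agent.Q41.ZP

open Finset

/-- the values of the `f l` have large prime divisors of their own, with exponents not divisible by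
`β`, which do not divide the values of the `g l i` -/
def Good3 {Λ : Type} [CommRing Λ] {L : ℕ} {ι : Type} (φ : Λ →+* ℤ) (f : Fin L → Λ)
    (g : Fin L → ι → Λ) (D β : ℕ) : Prop :=
  (∀ l, φ (f l) ≠ 0) ∧
    ∃ p : Fin L → ℕ, (∀ l, (p l).Prime ∧ D < p l ∧
        ¬ β ∣ ((φ (f l)).natAbs.factorization (p l))) ∧
      (∀ l l', l ≠ l' → ¬ (p l : ℤ) ∣ φ (f l')) ∧ ∀ l i, ¬ (p l : ℤ) ∣ φ (g l i)

theorem Good3.congr {Λ Λ' : Type} [CommRing Λ] [CommRing Λ'] {L : ℕ} {ι : Type} {φ : Λ →+* ℤ}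
    {φ' : Λ' →+* ℤ} {f : Fin L → Λ} {g : Fin L → ι → Λ} {D β : ℕ} {f' : Fin L → Λ'}
    {g' : Fin L → ι → Λ'} (h1 : ∀ l, φ (f l) = φ' (f' l)) (h2 : ∀ l i, φ (g l i) = φ' (g' l i))
    (h : Good3 φ f g D β) : Good3 φ' f' g' D β := by
  obtain ⟨h3, p, h4, h5, h6⟩ := h
  refine ⟨fun l => by rw [← h1]; exact h3 l, p, fun l => ?_, fun l l' hll => ?_, fun l i => ?_⟩
  · rw [← h1]
    exact h4 l
  · rw [← h1]
    exact h5 l l' hll
  · rw [← h2]
    exact h6 l i

/-- a number is the product of a number composed of primes dividing `R` and a `β`-th power, if the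
exponents of the other primes are divisible by `β` -/
theorem exists_decomp {n R β : ℕ} (hn : n ≠ 0)
    (h : ∀ p : ℕ, p.Prime → ¬ p ∣ R → β ∣ n.factorization p) :
    ∃ s y : ℕ, n = s * y ^ β ∧ ∀ p, p.Prime → p ∣ s → p ∣ R := by
  classical
  refine ⟨∏ p ∈ n.primeFactors.filter fun p => p ∣ R, p ^ n.factorization p,
    ∏ p ∈ n.primeFactors.filter fun p => ¬ p ∣ R, p ^ (n.factorization p / β), ?_, ?_⟩
  · have h1 : (∏ p ∈ n.primeFactors.filter fun p => ¬ p ∣ R, p ^ (n.factorization p / β)) ^ β =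
        ∏ p ∈ n.primeFactors.filter fun p => ¬ p ∣ R, p ^ n.factorization p := by
      rw [← Finset.prod_pow]
      refine Finset.prod_congr rfl fun p hp => ?_
      rw [mem_filter] at hp
      rw [← pow_mul, Nat.div_mul_cancel (h p (Nat.prime_of_mem_primeFactors hp.1) hp.2)]
    rw [h1, Finset.prod_filter_mul_prod_filter_not]
    exact (Nat.prod_factorization_pow_eq_self hn).symm
  · intro p hp hd
    obtain ⟨q, hq, hpq⟩ := (Prime.dvd_finsetProd_iff hp.prime _).1 hd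
    rw [mem_filter] at hq
    have h1 := hp.dvd_of_dvd_pow hpq
    rw [(Nat.prime_dvd_prime_iff_eq hp (Nat.prime_of_mem_primeFactors hq.1)).1 h1]
    exact hq.2

open Classical in
/-- few values of a polynomial in one variable are products of a number composed of primes dividing a
given number and of a `β`-th power -/
theorem fiber_count3 {ε : ℝ} (hε : 0 < ε) : ∃ C : ℝ, 0 < C ∧ ∀ (β : ℕ), 1 ≤ β →
    ∀ (f : Polynomial ℤ), 0 < f.natDegree → ∀ H B R : ℕ, R ≠ 0 →
    (∀ t ∈ Icc 1 H, (f.eval (t : ℤ)).natAbs ≤ B) →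
    (((Icc 1 H).filter fun t : ℕ => f.eval (t : ℤ) = 0 ∨
      ∀ p : ℕ, p.Prime → ¬ p ∣ R → β ∣ (f.eval (t : ℤ)).natAbs.factorization p).card : ℝ) ≤
      f.natDegree * (1 + 2 * (C * (B : ℝ) ^ ε * (R : ℝ) ^ ε * (B : ℝ) ^ ((1 : ℝ) / β))) := by
  obtain ⟨C, hC0, hC⟩ := rankin hε
  refine ⟨C, hC0, fun β hβ f hf H B R hR hB => ?_⟩
  set S := (Icc 1 B).filter fun n => ∀ p, p.Prime → p ∣ n → p ∣ R with hS
  set Y : ℕ := ⌊(B : ℝ) ^ ((1 : ℝ) / β)⌋₊ with hY
  set P := (S ×ˢ Icc 1 Y).image (fun z : ℕ × ℕ => z.1 * z.2 ^ β) with hP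
  have hβ0 : (β : ℝ) ≠ 0 := by
    have : β ≠ 0 := by omega
    exact_mod_cast this
  have h1 : ((Icc 1 H).filter fun t : ℕ => f.eval (t : ℤ) = 0 ∨
      ∀ p : ℕ, p.Prime → ¬ p ∣ R → β ∣ (f.eval (t : ℤ)).natAbs.factorization p) ⊆
      ((Icc 1 H).filter fun t : ℕ => f.eval (t : ℤ) = 0) ∪
      P.biUnion fun n => ((Icc 1 H).filter fun t : ℕ => f.eval (t : ℤ) = (n : ℤ)) ∪
        ((Icc 1 H).filter fun t : ℕ => f.eval (t : ℤ) = -(n : ℤ)) := by
    intro t ht
    rw [mem_filter] at ht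
    by_cases h0 : f.eval (t : ℤ) = 0
    · exact mem_union_left _ (mem_filter.2 ⟨ht.1, h0⟩)
    · refine mem_union_right _ (mem_biUnion.2 ⟨(f.eval (t : ℤ)).natAbs, ?_, ?_⟩)
      · have hn0 : (f.eval (t : ℤ)).natAbs ≠ 0 := Int.natAbs_ne_zero.2 h0
        obtain ⟨s, y, hsy, hs⟩ := exists_decomp (R := R) (β := β) hn0 (by
          rcases ht.2 with h2 | h2
          · exact absurd h2 h0
          · exact h2)
        have hsy0 : s * y ^ β ≠ 0 := by
          rw [← hsy]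
          exact hn0
        have hs0 : s ≠ 0 := left_ne_zero_of_mul hsy0
        have hyβ0 : y ^ β ≠ 0 := right_ne_zero_of_mul hsy0
        have hy0 : y ≠ 0 := by
          rintro rfl
          exact hyβ0 (zero_pow (by omega))
        have hle : s * y ^ β ≤ B := by
          rw [← hsy]
          exact hB t ht.1
        rw [hP, mem_image]
        refine ⟨(s, y), mem_product.2 ⟨?_, ?_⟩, hsy.symm⟩
        · rw [hS, mem_filter, mem_Icc]
          exact ⟨⟨Nat.pos_of_ne_zero hs0, (Nat.le_mul_of_pos_right _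
            (Nat.pos_of_ne_zero hyβ0)).trans hle⟩, hs⟩
        · rw [mem_Icc]
          refine ⟨Nat.pos_of_ne_zero hy0, Nat.le_floor ?_⟩
          have h3 : y ^ β ≤ B := (Nat.le_mul_of_pos_left _ (Nat.pos_of_ne_zero hs0)).trans hle
          have h4 : ((y : ℝ) ^ β) ≤ (B : ℝ) := by exact_mod_cast h3
          calc (y : ℝ) = (((y : ℝ) ^ β)) ^ ((1 : ℝ) / β) := by
                rw [← Real.rpow_natCast (y : ℝ) β, ← Real.rpow_mul (Nat.cast_nonneg _),
                  mul_one_div_cancel hβ0, Real.rpow_one]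
            _ ≤ (B : ℝ) ^ ((1 : ℝ) / β) := Real.rpow_le_rpow (by positivity) h4 (by positivity)
      · rw [mem_union, mem_filter, mem_filter]
        rcases Int.natAbs_eq (f.eval (t : ℤ)) with h | h
        · exact Or.inl ⟨ht.1, h⟩
        · exact Or.inr ⟨ht.1, h⟩
  have hf0 : f ≠ 0 := by
    rintro rfl
    exact lt_irrefl _ hf
  have h2 : ((Icc 1 H).filter fun t : ℕ => f.eval (t : ℤ) = 0 ∨
      ∀ p : ℕ, p.Prime → ¬ p ∣ R → β ∣ (f.eval (t : ℤ)).natAbs.factorization p).card ≤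
      f.natDegree + P.card * (2 * f.natDegree) := by
    refine (card_le_card h1).trans ((card_union_le _ _).trans (Nat.add_le_add
      (count_zero f hf0 H) (card_biUnion_le_card_mul _ _ _ fun n _ => ?_)))
    refine (card_union_le _ _).trans ?_
    have h3 := count_eq f hf H (n : ℤ)
    have h4 := count_eq f hf H (-(n : ℤ))
    omega
  have hPc : (P.card : ℝ) ≤ S.card * (B : ℝ) ^ ((1 : ℝ) / β) := by
    have h5 : P.card ≤ S.card * Y := by
      refine card_image_le.trans ?_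
      rw [card_product, Nat.card_Icc, Nat.add_sub_cancel]
    have h6 : (P.card : ℝ) ≤ S.card * (Y : ℝ) := by exact_mod_cast h5
    exact h6.trans (mul_le_mul_of_nonneg_left (Nat.floor_le (by positivity)) (Nat.cast_nonneg _))
  have h3 := hC R B hR
  have h4 : (((Icc 1 H).filter fun t : ℕ => f.eval (t : ℤ) = 0 ∨
      ∀ p : ℕ, p.Prime → ¬ p ∣ R → β ∣ (f.eval (t : ℤ)).natAbs.factorization p).card : ℝ) ≤
      f.natDegree + P.card * (2 * f.natDegree) := by exact_mod_cast h2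
  refine h4.trans ?_
  have h5 : (P.card : ℝ) * (2 * f.natDegree) ≤
      (C * (B : ℝ) ^ ε * (R : ℝ) ^ ε * (B : ℝ) ^ ((1 : ℝ) / β)) * (2 * f.natDegree) := by
    refine mul_le_mul_of_nonneg_right (hPc.trans ?_) (by positivity)
    exact mul_le_mul_of_nonneg_right h3 (by positivity)
  linarith

open Classical in
/-- For all but `O(H^(s + κ / β + ε))` integral points the values of the `f l` have large prime
divisors of their own with exponents not divisible by `β`. -/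
theorem count_family_mv3 {s L : ℕ} {ι : Type} [Fintype ι] (f : Fin L → Par s)
    (hf : ∀ l, Irreducible (f l)) (hd : ∀ l, 0 < (f l).natDegree) (a : Fin L → ℤ)
    (ha : ∀ l, (f l).leadingCoeff = MvPolynomial.C (a l))
    (hne : ∀ l l', l ≠ l' → ¬ f l ∣ f l') (g : Fin L → ι → Par s) (hg : ∀ l i, ¬ f l ∣ g l i)
    (D : ℕ) {κ : ℕ} (K : Fin L → ℕ) (hK1 : ∀ l, 1 ≤ K l)
    (hκ : ∀ l, ∀ H : ℕ, 1 ≤ H → ∀ u ∈ box s H, ∀ t : ℕ, t ≤ H →
      (spz (pt u) t (f l)).natAbs ≤ K l * H ^ κ) {ε : ℝ} (hε : 0 < ε) :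
    ∃ C : ℝ, 0 ≤ C ∧ ∀ β : ℕ, 1 ≤ β → ∀ H : ℕ, 1 ≤ H →
    (((box s H ×ˢ Icc 1 H).filter fun z => ¬ Good3 (spz (pt z.1) z.2) f g D β).card : ℝ) ≤
      C * ((H : ℝ) ^ s * ((H : ℝ) ^ ε * (H : ℝ) ^ ((κ : ℝ) / β))) := by
  have ha0 : ∀ l, a l ≠ 0 := by
    intro l h0
    have h1 := ha l
    rw [h0, map_zero, Polynomial.leadingCoeff_eq_zero] at h1
    have h2 := hd l
    rw [h1, Polynomial.natDegree_zero] at h2
    exact lt_irrefl _ h2
  -- the pairs of polynomials
  let h : Fin L → (Fin L ⊕ ι) → Par s := fun l => Sum.elim (fun l' => if l = l' then 1 else f l') (g l)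
  have hh : ∀ l i, ¬ f l ∣ h l i := by
    intro l i
    rcases i with l' | i
    · by_cases hll : l = l'
      · simp only [h, Sum.elim_inl, if_pos hll]
        exact fun h0 => (hf l).not_isUnit (isUnit_of_dvd_one h0)
      · simp only [h, Sum.elim_inl, if_neg hll]
        exact hne l l' hll
    · exact hg l i
  choose R hR U V hUV using fun l i => bezoutA (hf l) (hd l) (hh l i)
  let Q : Fin L → MvPolynomial (Fin s) ℤ := fun l => ∏ i, R l i
  have hQ : ∀ l, Q l ≠ 0 := fun l => prod_ne_zero_iff.2 fun i _ => hR l i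
  choose K₂ D₂ hKD₂ using fun l => eval_bound_mv (Q l)
  -- the exponent
  set Δ : ℕ := ∑ l, (κ + D₂ l) + 1 with hΔ
  have hΔ0 : (0 : ℝ) < Δ := by
    have : 0 < Δ := by omega
    exact_mod_cast this
  obtain ⟨C, hC0, hC⟩ := fiber_count3 (ε := ε / Δ) (by positivity)
  set F : ℕ := D.factorial with hF
  have hF0 : F ≠ 0 := Nat.factorial_ne_zero D
  let c1 : Fin L → ℝ := fun l => (f l).natDegree *
    (1 + 2 * (C * (K l : ℝ) ^ (ε / Δ) * ((F * K₂ l : ℕ) : ℝ) ^ (ε / Δ) * (K l : ℝ)))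
  have hc1 : ∀ l, 0 ≤ c1 l := fun l => by positivity
  refine ⟨∑ l, (c1 l + (Q l).totalDegree), sum_nonneg fun l _ => add_nonneg (hc1 l)
    (Nat.cast_nonneg _), fun β hβ H hH => ?_⟩
  have hHr : (1 : ℝ) ≤ H := by exact_mod_cast hH
  have hHκ : (1 : ℝ) ≤ (H : ℝ) ^ ((κ : ℝ) / β) := Real.one_le_rpow hHr (by positivity)
  have hHε' : (1 : ℝ) ≤ (H : ℝ) ^ ε := Real.one_le_rpow hHr hε.le
  have hHε : (1 : ℝ) ≤ (H : ℝ) ^ ε * (H : ℝ) ^ ((κ : ℝ) / β) := one_le_mul_of_one_le_of_one_le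
    hHε' hHκ
  let A1 : Fin L → Finset ((Fin s → ℕ) × ℕ) := fun l => (box s H ×ˢ Icc 1 H).filter fun z =>
    MvPolynomial.eval (pt z.1) (Q l) = 0
  let A2 : Fin L → Finset ((Fin s → ℕ) × ℕ) := fun l => (box s H ×ˢ Icc 1 H).filter fun z =>
    MvPolynomial.eval (pt z.1) (Q l) ≠ 0 ∧ (spz (pt z.1) z.2 (f l) = 0 ∨
      ∀ p : ℕ, p.Prime → ¬ p ∣ F * (MvPolynomial.eval (pt z.1) (Q l)).natAbs →
        β ∣ (spz (pt z.1) z.2 (f l)).natAbs.factorization p)
  have hsub : ((box s H ×ˢ Icc 1 H).filter fun z => ¬ Good3 (spz (pt z.1) z.2) f g D β) ⊆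
      univ.biUnion fun l => A1 l ∪ A2 l := by
    intro z hz
    rw [mem_filter] at hz
    by_contra hcon
    rw [mem_biUnion] at hcon
    apply hz.2
    have hQ0 : ∀ l, MvPolynomial.eval (pt z.1) (Q l) ≠ 0 := fun l h0 => hcon ⟨l, mem_univ _,
      mem_union_left _ (mem_filter.2 ⟨hz.1, h0⟩)⟩
    have hf0 : ∀ l, spz (pt z.1) z.2 (f l) ≠ 0 := fun l h0 => hcon ⟨l, mem_univ _,
      mem_union_right _ (mem_filter.2 ⟨hz.1, hQ0 l, Or.inl h0⟩)⟩
    have hp : ∀ l, ∃ p : ℕ, p.Prime ∧ ¬ β ∣ (spz (pt z.1) z.2 (f l)).natAbs.factorization p ∧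
        ¬ p ∣ F * (MvPolynomial.eval (pt z.1) (Q l)).natAbs := by
      intro l
      by_contra hl
      apply hcon
      refine ⟨l, mem_univ _, mem_union_right _ (mem_filter.2 ⟨hz.1, hQ0 l, Or.inr
        fun p hp hd => ?_⟩)⟩
      by_contra hnd
      exact hl ⟨p, hp, hnd, hd⟩
    choose p hpp hpβ hpn using hp
    have hpd : ∀ l, (p l : ℤ) ∣ spz (pt z.1) z.2 (f l) := by
      intro l
      refine Int.natCast_dvd.2 ?_
      by_contra h
      exact hpβ l (by rw [Nat.factorization_eq_zero_of_not_dvd h]; exact dvd_zero β)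
    have hA3 : ∀ l i, ¬ (p l : ℤ) ∣ spz (pt z.1) z.2 (h l i) := by
      intro l i h0
      apply hpn l
      refine dvd_mul_of_dvd_right (Int.natCast_dvd.1 ?_) _
      have h1 : (p l : ℤ) ∣ MvPolynomial.eval (pt z.1) (R l i) := by
        have h2 := congrArg (spz (pt z.1) z.2) (hUV l i)
        rw [map_add, map_mul, map_mul, spz_C] at h2
        rw [← h2]
        exact dvd_add (dvd_mul_of_dvd_right (hpd l) _) (dvd_mul_of_dvd_right h0 _)
      show (p l : ℤ) ∣ MvPolynomial.eval (pt z.1) (∏ i, R l i)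
      rw [map_prod]
      exact h1.trans (dvd_prod_of_mem _ (mem_univ i))
    refine ⟨hf0, p, fun l => ⟨hpp l, ?_, hpβ l⟩, ?_, ?_⟩
    · by_contra hle
      push Not at hle
      exact hpn l (dvd_mul_of_dvd_left ((Nat.Prime.dvd_factorial (hpp l)).2 hle) _)
    · intro l l' hll h0
      apply hA3 l (Sum.inl l')
      simp only [h, Sum.elim_inl, if_neg hll]
      exact h0
    · intro l i h0
      exact hA3 l (Sum.inr i) h0
  have hA1 : ∀ l, ((A1 l).card : ℝ) ≤ (Q l).totalDegree *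
      ((H : ℝ) ^ s * ((H : ℝ) ^ ε * (H : ℝ) ^ ((κ : ℝ) / β))) := by
    intro l
    have h1 : (A1 l).card ≤ H * ((box s H).filter fun u => MvPolynomial.eval (pt u) (Q l) = 0).card :=
      card_fib (P := fun u _ => MvPolynomial.eval (pt u) (Q l) = 0) _
        (fun u hu _ _ h0 => mem_filter.2 ⟨hu, h0⟩)
        (fun u _ => (card_filter_le _ _).trans (by rw [Nat.card_Icc]; omega))
    have h2 := count_zero_mv (hQ l) hH
    have h3 : (A1 l).card ≤ (Q l).totalDegree * H ^ s := by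
      rw [mul_comm] at h2
      exact h1.trans h2
    have h4 : ((A1 l).card : ℝ) ≤ (Q l).totalDegree * (H : ℝ) ^ s := by exact_mod_cast h3
    refine h4.trans (mul_le_mul_of_nonneg_left ?_ (Nat.cast_nonneg _))
    exact le_mul_of_one_le_right (by positivity) hHε
  have hA2 : ∀ l, ((A2 l).card : ℝ) ≤ c1 l *
      ((H : ℝ) ^ s * ((H : ℝ) ^ ε * (H : ℝ) ^ ((κ : ℝ) / β))) := by
    intro l
    have hΔl : ((κ + D₂ l : ℕ) : ℝ) * (ε / Δ) ≤ ε := by
      have h1 : κ + D₂ l ≤ Δ := by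
        have := single_le_sum (f := fun l => κ + D₂ l) (fun _ _ => Nat.zero_le _) (mem_univ l)
        omega
      have h2 : ((κ + D₂ l : ℕ) : ℝ) ≤ Δ := by exact_mod_cast h1
      calc ((κ + D₂ l : ℕ) : ℝ) * (ε / Δ) ≤ Δ * (ε / Δ) :=
            mul_le_mul_of_nonneg_right h2 (by positivity)
        _ = ε := by field_simp
    have hfib : ∀ u ∈ (box s H).filter fun u => MvPolynomial.eval (pt u) (Q l) ≠ 0,
        (((Icc 1 H).filter fun t : ℕ => spz (pt u) t (f l) = 0 ∨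
          ∀ p : ℕ, p.Prime → ¬ p ∣ F * (MvPolynomial.eval (pt u) (Q l)).natAbs →
            β ∣ (spz (pt u) t (f l)).natAbs.factorization p).card : ℝ) ≤
          c1 l * ((H : ℝ) ^ ε * (H : ℝ) ^ ((κ : ℝ) / β)) := by
      intro u hu
      rw [mem_filter] at hu
      obtain ⟨h2, h3⟩ := map_deg (ha0 l) (ha l) (pt u)
      have h4 := hC β hβ ((f l).map (MvPolynomial.eval (pt u))) (by rw [h2]; exact hd l) H
        (K l * H ^ κ) (F * (MvPolynomial.eval (pt u) (Q l)).natAbs)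
        (mul_ne_zero hF0 (Int.natAbs_ne_zero.2 hu.2))
        (fun t ht => hκ l H hH u hu.1 t (mem_Icc.1 ht).2)
      rw [h2] at h4
      refine h4.trans ?_
      show _ ≤ (f l).natDegree *
        (1 + 2 * (C * (K l : ℝ) ^ (ε / Δ) * ((F * K₂ l : ℕ) : ℝ) ^ (ε / Δ) * (K l : ℝ))) *
          ((H : ℝ) ^ ε * (H : ℝ) ^ ((κ : ℝ) / β))
      rw [mul_assoc ((f l).natDegree : ℝ)]
      refine mul_le_mul_of_nonneg_left ?_ (Nat.cast_nonneg (α := ℝ) (f l).natDegree)
      have h5 : ((K l * H ^ κ : ℕ) : ℝ) ^ (ε / Δ) =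
          (K l : ℝ) ^ (ε / Δ) * (H : ℝ) ^ ((κ : ℝ) * (ε / Δ)) := by
        push_cast
        rw [Real.mul_rpow (Nat.cast_nonneg _) (by positivity), ← Real.rpow_natCast (H : ℝ),
          ← Real.rpow_mul (Nat.cast_nonneg _)]
      have h5' : ((K l * H ^ κ : ℕ) : ℝ) ^ ((1 : ℝ) / β) ≤
          (K l : ℝ) * (H : ℝ) ^ ((κ : ℝ) / β) := by
        push_cast
        rw [Real.mul_rpow (Nat.cast_nonneg _) (by positivity), ← Real.rpow_natCast (H : ℝ),
          ← Real.rpow_mul (Nat.cast_nonneg _), mul_one_div]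
        refine mul_le_mul_of_nonneg_right ?_ (by positivity)
        have hK1' : (1 : ℝ) ≤ K l := by exact_mod_cast hK1 l
        have hβ1 : (1 : ℝ) ≤ β := by exact_mod_cast hβ
        calc (K l : ℝ) ^ ((1 : ℝ) / β) ≤ (K l : ℝ) ^ (1 : ℝ) :=
              Real.rpow_le_rpow_of_exponent_le hK1' (by
                rw [div_le_one (by linarith)]
                exact hβ1)
          _ = K l := Real.rpow_one _
      have h6 : ((F * (MvPolynomial.eval (pt u) (Q l)).natAbs : ℕ) : ℝ) ^ (ε / Δ) ≤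
          ((F * K₂ l : ℕ) : ℝ) ^ (ε / Δ) * (H : ℝ) ^ ((D₂ l : ℝ) * (ε / Δ)) := by
        have h7 : F * (MvPolynomial.eval (pt u) (Q l)).natAbs ≤ (F * K₂ l) * H ^ D₂ l := by
          rw [mul_assoc]
          exact Nat.mul_le_mul_left _ (hKD₂ l H hH u hu.1)
        have h8 : ((F * (MvPolynomial.eval (pt u) (Q l)).natAbs : ℕ) : ℝ) ≤
            ((F * K₂ l : ℕ) : ℝ) * (H : ℝ) ^ D₂ l := by exact_mod_cast h7
        refine (Real.rpow_le_rpow (Nat.cast_nonneg _) h8 (by positivity)).trans (le_of_eq ?_)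
        rw [Real.mul_rpow (Nat.cast_nonneg _) (by positivity), ← Real.rpow_natCast (H : ℝ),
          ← Real.rpow_mul (Nat.cast_nonneg _)]
      have h9 : (H : ℝ) ^ ((κ : ℝ) * (ε / Δ)) * (H : ℝ) ^ ((D₂ l : ℝ) * (ε / Δ)) ≤
          (H : ℝ) ^ ε := by
        rw [← Real.rpow_add (by linarith), ← add_mul]
        refine Real.rpow_le_rpow_of_exponent_le hHr ?_
        refine le_trans (le_of_eq ?_) hΔl
        push_cast
        ring
      rw [h5]
      set a1 := (K l : ℝ) ^ (ε / Δ) with ha1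
      set a2 := ((F * K₂ l : ℕ) : ℝ) ^ (ε / Δ) with ha2
      set b1 := (H : ℝ) ^ ((κ : ℝ) * (ε / Δ)) with hb1
      set b2 := (H : ℝ) ^ ((D₂ l : ℝ) * (ε / Δ)) with hb2
      set x := ((F * (MvPolynomial.eval (pt u) (Q l)).natAbs : ℕ) : ℝ) ^ (ε / Δ) with hx
      set w := ((K l * H ^ κ : ℕ) : ℝ) ^ ((1 : ℝ) / β) with hw
      set W := (H : ℝ) ^ ((κ : ℝ) / β) with hW
      set V := (H : ℝ) ^ ε with hV
      have ha1' : 0 ≤ a1 := by positivity
      have ha2' : 0 ≤ a2 := by positivity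
      have hb1' : 0 ≤ b1 := by positivity
      have hb2' : 0 ≤ b2 := by positivity
      have hx' : 0 ≤ x := by positivity
      have hw' : 0 ≤ w := by positivity
      have hW' : 0 ≤ W := by positivity
      have hKl : (0 : ℝ) ≤ K l := Nat.cast_nonneg _
      have h10 : C * (a1 * b1) * x * w ≤ C * a1 * a2 * (K l : ℝ) * (V * W) := by
        calc C * (a1 * b1) * x * w ≤ C * (a1 * b1) * (a2 * b2) * ((K l : ℝ) * W) := by
              gcongr
          _ = C * a1 * a2 * (K l : ℝ) * ((b1 * b2) * W) := by ring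
          _ ≤ C * a1 * a2 * (K l : ℝ) * (V * W) := by gcongr
      calc 1 + 2 * (C * (a1 * b1) * x * w) ≤
          V * W + 2 * (C * a1 * a2 * (K l : ℝ) * (V * W)) := by linarith
        _ = _ := by ring
    have hnn : 0 ≤ c1 l * ((H : ℝ) ^ ε * (H : ℝ) ^ ((κ : ℝ) / β)) :=
      mul_nonneg (hc1 l) (by positivity)
    have h1 : (A2 l).card ≤ ⌊c1 l * ((H : ℝ) ^ ε * (H : ℝ) ^ ((κ : ℝ) / β))⌋₊ *
      ((box s H).filter fun u =>
        MvPolynomial.eval (pt u) (Q l) ≠ 0).card := by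
      refine card_fib (P := fun u t => MvPolynomial.eval (pt u) (Q l) ≠ 0 ∧
        (spz (pt u) t (f l) = 0 ∨ ∀ p : ℕ, p.Prime →
          ¬ p ∣ F * (MvPolynomial.eval (pt u) (Q l)).natAbs →
            β ∣ (spz (pt u) t (f l)).natAbs.factorization p)) _
        (fun u hu _ _ h0 => mem_filter.2 ⟨hu, h0.1⟩) ?_
      intro u hu
      refine Nat.le_floor (le_trans ?_ (hfib u hu))
      rw [Nat.cast_le]
      refine card_le_card fun t ht => ?_
      rw [mem_filter] at ht ⊢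
      exact ⟨ht.1, ht.2.2⟩
    have h2 : ((box s H).filter fun u => MvPolynomial.eval (pt u) (Q l) ≠ 0).card ≤ H ^ s := by
      rw [← card_box s H]
      exact card_filter_le _ _
    have h3 : ((A2 l).card : ℝ) ≤
        (c1 l * ((H : ℝ) ^ ε * (H : ℝ) ^ ((κ : ℝ) / β))) * (H : ℝ) ^ s := by
      have h4 : ((A2 l).card : ℝ) ≤
          (⌊c1 l * ((H : ℝ) ^ ε * (H : ℝ) ^ ((κ : ℝ) / β))⌋₊ : ℝ) * (H : ℝ) ^ s := by
        exact_mod_cast h1.trans (Nat.mul_le_mul_left _ h2)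
      exact h4.trans (mul_le_mul_of_nonneg_right (Nat.floor_le hnn) (by positivity))
    refine h3.trans (le_of_eq ?_)
    ring
  have hcard : (((box s H ×ˢ Icc 1 H).filter fun z =>
      ¬ Good3 (spz (pt z.1) z.2) f g D β).card : ℝ) ≤
      ∑ l, (((A1 l).card : ℝ) + ((A2 l).card : ℝ)) := by
    have h1 := (card_le_card hsub).trans (card_biUnion_le.trans (sum_le_sum fun l _ =>
      card_union_le _ _))
    exact_mod_cast h1
  refine hcard.trans ?_
  rw [sum_mul]
  refine sum_le_sum fun l _ => ?_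
  rw [add_mul, add_comm]
  exact add_le_add (hA2 l) (hA1 l)

theorem abs_eval_le {r : ℕ} (F : MvPolynomial (Fin r) ℤ) : ∃ K : ℕ, 1 ≤ K ∧ ∀ X : ℕ, 1 ≤ X →
    ∀ z : Fin r → ℤ, (∀ i, (z i).natAbs ≤ X) →
      (MvPolynomial.eval z F).natAbs ≤ K * X ^ F.totalDegree := by
  classical
  refine ⟨(∑ μ ∈ F.support, (MvPolynomial.coeff μ F).natAbs) + 1, by omega, fun X hX z hz => ?_⟩
  rw [MvPolynomial.eval_eq']
  refine (Int.natAbs_sum_le _ _).trans ?_
  have h1 : ∀ μ ∈ F.support, (MvPolynomial.coeff μ F * ∏ i, z i ^ μ i).natAbs ≤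
      (MvPolynomial.coeff μ F).natAbs * X ^ F.totalDegree := by
    intro μ hμ
    rw [Int.natAbs_mul]
    refine Nat.mul_le_mul_left _ ?_
    rw [natAbs_prod']
    calc ∏ i, (z i ^ μ i).natAbs ≤ ∏ i : Fin r, X ^ μ i := by
          refine Finset.prod_le_prod' fun i _ => ?_
          rw [Int.natAbs_pow]
          exact Nat.pow_le_pow_left (hz i) _
      _ = X ^ (∑ i, μ i) := Finset.prod_pow_eq_pow_sum _ _ _
      _ ≤ X ^ F.totalDegree := by
          refine Nat.pow_le_pow_right hX ?_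
          have h2 := MvPolynomial.le_totalDegree hμ
          rwa [Finsupp.sum_fintype _ _ (fun _ => rfl)] at h2
  refine (Finset.sum_le_sum h1).trans ?_
  rw [← Finset.sum_mul]
  exact Nat.mul_le_mul_right _ (Nat.le_succ _)

open Classical in
theorem count_pos3 {s L : ℕ} {ι : Type} [Fintype ι] (f : Fin L → MvPolynomial (Fin (s + 1)) ℤ)
    (hf : ∀ l, Irreducible (f l)) (hd : ∀ l, (f l).totalDegree ≠ 0)
    (hne : ∀ l l', l ≠ l' → ¬ f l ∣ f l') (g : Fin L → ι → MvPolynomial (Fin (s + 1)) ℤ)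
    (hg : ∀ l i, ¬ f l ∣ g l i) (D : ℕ) {κ : ℕ} (hκ : ∀ l, (f l).totalDegree ≤ κ) {ε : ℝ}
    (hε : 0 < ε) : ∃ C : ℝ, 0 ≤ C ∧ ∀ β : ℕ, 1 ≤ β → ∀ H : ℕ, 1 ≤ H →
    (((box (s + 1) H).filter fun v => ¬ Good3 (MvPolynomial.eval (pt v)) f g D β).card : ℝ) ≤
      C * ((H : ℝ) ^ s * ((H : ℝ) ^ ε * (H : ℝ) ^ ((κ : ℝ) / β))) := by
  have hQ0 : ∏ l, MvPolynomial.homogeneousComponent (f l).totalDegree (f l) ≠ 0 :=
    Finset.prod_ne_zero_iff.2 fun l _ => top_ne_zero (hf l).ne_zero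
  obtain ⟨b, hb⟩ := exists_shift (MvPolynomial.IsHomogeneous.prod _ _ _ fun l _ =>
    MvPolynomial.homogeneousComponent_isHomogeneous (f l).totalDegree (f l)) hQ0
  rw [map_prod, Finset.prod_ne_zero_iff] at hb
  set a : Fin s → ℤ := fun i => -(b i : ℤ) with ha
  have hdeg : ∀ l, (shearEquiv a (f l)).natDegree = (f l).totalDegree ∧
      (shearEquiv a (f l)).leadingCoeff = MvPolynomial.C (MvPolynomial.eval
        (Fin.cons 1 a : Fin (s + 1) → ℤ)
        (MvPolynomial.homogeneousComponent (f l).totalDegree (f l))) := by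
    intro l
    obtain ⟨h1, h2⟩ := shearEquiv_deg a (f l) le_rfl
    have h3 : (MvPolynomial.C (MvPolynomial.eval (Fin.cons 1 a : Fin (s + 1) → ℤ)
        (MvPolynomial.homogeneousComponent (f l).totalDegree (f l))) :
          MvPolynomial (Fin s) ℤ) ≠ 0 := by
      intro h0
      exact hb l (Finset.mem_univ l) (MvPolynomial.C_eq_zero.1 h0)
    have h4 : (shearEquiv a (f l)).natDegree = (f l).totalDegree :=
      le_antisymm h1 (Polynomial.le_natDegree_of_ne_zero (by rw [h2]; exact h3))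
    refine ⟨h4, ?_⟩
    rw [Polynomial.leadingCoeff, h4, h2]
  set B := ∑ i, b i with hB
  have hbB : ∀ i, b i ≤ B := fun i =>
    Finset.single_le_sum (f := b) (fun _ _ => Nat.zero_le _) (Finset.mem_univ i)
  choose K₀ hK₀ hK₀' using fun l => abs_eval_le (f l)
  obtain ⟨C, hC0, hC⟩ := count_family_mv3 (κ := κ) (fun l => shearEquiv a (f l))
    (fun l => (MulEquiv.irreducible_iff (shearEquiv a)).2 (hf l))
    (fun l => by
      rw [(hdeg l).1]
      exact Nat.pos_of_ne_zero (hd l)) _ (fun l => (hdeg l).2)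
    (fun l l' hll h => hne l l' hll ((map_dvd_iff (shearEquiv a)).1 h))
    (fun l i => shearEquiv a (g l i)) (fun l i h => hg l i ((map_dvd_iff (shearEquiv a)).1 h)) D
    (fun l => K₀ l * (1 + B) ^ κ) (fun l => Nat.mul_pos (hK₀ l) (Nat.pow_pos (by omega)))
    (fun l H hH u hu t ht => by
      rw [spz_shearEquiv]
      have h1 := hK₀' l ((1 + B) * H) (Nat.mul_pos (by omega) hH)
        (Fin.cons (t : ℤ) fun i => pt u i + a i * (t : ℤ)) (fun i => by
          refine Fin.cases ?_ (fun j => ?_) i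
          · rw [Fin.cons_zero, Int.natAbs_natCast]
            exact ht.trans (Nat.le_mul_of_pos_left _ (by omega))
          · rw [Fin.cons_succ]
            have h2 := (mem_Icc.1 (Fintype.mem_piFinset.1 hu j)).2
            refine (Int.natAbs_add_le _ _).trans ?_
            rw [Int.natAbs_mul]
            simp only [pt, ha, Int.natAbs_natCast, Int.natAbs_neg]
            calc u j + b j * t ≤ H + B * H := Nat.add_le_add h2 (Nat.mul_le_mul (hbB j) ht)
              _ = (1 + B) * H := by ring)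
      refine h1.trans ?_
      have h3 : ((1 + B) * H) ^ (f l).totalDegree ≤ ((1 + B) * H) ^ κ :=
        Nat.pow_le_pow_right (Nat.mul_pos (by omega) hH) (hκ l)
      calc K₀ l * ((1 + B) * H) ^ (f l).totalDegree ≤ K₀ l * ((1 + B) * H) ^ κ :=
            Nat.mul_le_mul_left _ h3
        _ = K₀ l * (1 + B) ^ κ * H ^ κ := by rw [mul_pow]; ring)
    hε
  refine ⟨C * ((1 + B : ℝ) ^ s * ((1 + B : ℝ) ^ ε * (1 + B : ℝ) ^ κ)), by positivity,
    fun β hβ H hH => ?_⟩
  have h1 := hC β hβ ((1 + B) * H) (hH.trans (Nat.le_mul_of_pos_left _ (by omega)))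
  have h2 : C * ((((1 + B) * H : ℕ) : ℝ) ^ s * ((((1 + B) * H : ℕ) : ℝ) ^ ε *
      (((1 + B) * H : ℕ) : ℝ) ^ ((κ : ℝ) / β))) ≤
      C * ((1 + B : ℝ) ^ s * ((1 + B : ℝ) ^ ε * (1 + B : ℝ) ^ κ)) *
        ((H : ℝ) ^ s * ((H : ℝ) ^ ε * (H : ℝ) ^ ((κ : ℝ) / β))) := by
    push_cast
    have h3 : (1 + B : ℝ) ^ ((κ : ℝ) / β) ≤ (1 + B : ℝ) ^ κ := by
      rw [← Real.rpow_natCast (1 + B : ℝ) κ]
      have hβ1 : (1 : ℝ) ≤ β := by exact_mod_cast hβ
      refine Real.rpow_le_rpow_of_exponent_le ?_ (div_le_self (Nat.cast_nonneg _) hβ1)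
      have : (0 : ℝ) ≤ B := Nat.cast_nonneg _
      linarith
    rw [mul_pow, Real.mul_rpow (by positivity) (Nat.cast_nonneg _),
      Real.mul_rpow (by positivity) (Nat.cast_nonneg _)]
    calc C * ((1 + (B : ℝ)) ^ s * (H : ℝ) ^ s * ((1 + (B : ℝ)) ^ ε * (H : ℝ) ^ ε *
          ((1 + (B : ℝ)) ^ ((κ : ℝ) / β) * (H : ℝ) ^ ((κ : ℝ) / β)))) ≤
        C * ((1 + (B : ℝ)) ^ s * (H : ℝ) ^ s * ((1 + (B : ℝ)) ^ ε * (H : ℝ) ^ ε *
          ((1 + (B : ℝ)) ^ κ * (H : ℝ) ^ ((κ : ℝ) / β)))) := by gcongr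
      _ = _ := by ring
  refine le_trans ?_ (h1.trans h2)
  rw [Nat.cast_le]
  refine Finset.card_le_card_of_injOn
    (fun v => ((fun i => v i.succ + b i * v 0 : Fin s → ℕ), v 0)) ?_ ?_
  · intro v hv
    rw [Finset.mem_coe, Finset.mem_filter] at hv
    obtain ⟨hv1, hv2⟩ := hv
    have hv0 := Finset.mem_Icc.1 (Fintype.mem_piFinset.1 hv1 0)
    rw [Finset.mem_coe, Finset.mem_filter]
    refine ⟨Finset.mem_product.2 ⟨Fintype.mem_piFinset.2 fun i => Finset.mem_Icc.2 ⟨?_, ?_⟩,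
      Finset.mem_Icc.2 ⟨hv0.1, ?_⟩⟩, ?_⟩
    · have := Finset.mem_Icc.1 (Fintype.mem_piFinset.1 hv1 i.succ)
      exact this.1.trans (Nat.le_add_right _ _)
    · have h3 := Finset.mem_Icc.1 (Fintype.mem_piFinset.1 hv1 i.succ)
      have h4 : b i * v 0 ≤ B * H := Nat.mul_le_mul (hbB i) hv0.2
      show v i.succ + b i * v 0 ≤ (1 + B) * H
      calc v i.succ + b i * v 0 ≤ H + B * H := Nat.add_le_add h3.2 h4
        _ = (1 + B) * H := by ring
    · exact hv0.2.trans (Nat.le_mul_of_pos_left _ (by omega))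
    · intro h0
      apply hv2
      have h5 : ∀ F : MvPolynomial (Fin (s + 1)) ℤ,
          spz (pt fun i => v i.succ + b i * v 0) (v 0 : ℤ) (shearEquiv a F) =
            MvPolynomial.eval (pt v) F := by
        intro F
        rw [spz_shearEquiv]
        congr 1
        congr 1
        funext i
        refine Fin.cases ?_ (fun j => ?_) i
        · rw [Fin.cons_zero]
        · rw [Fin.cons_succ]
          simp only [pt, ha]
          push_cast
          ring
      exact h0.congr (fun l => h5 _) fun l i => h5 _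
  · intro v _ v' _ h
    simp only [Prod.mk.injEq] at h
    obtain ⟨h3, h4⟩ := h
    funext i
    refine Fin.cases h4 (fun j => ?_) i
    have h5 := congrFun h3 j
    simp only [h4] at h5
    omega

theorem totalDegree_reflEquiv_le {r : ℕ} (σ : Fin r → ℤˣ) (f : MvPolynomial (Fin r) ℤ) :
    (reflEquiv σ f).totalDegree ≤ f.totalDegree := by
  classical
  have h1 : reflEquiv σ f = MvPolynomial.aeval
      (fun i => MvPolynomial.C (σ i : ℤ) * MvPolynomial.X i : Fin r → MvPolynomial (Fin r) ℤ) f := rfl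
  rw [h1, MvPolynomial.aeval_def, MvPolynomial.eval₂_eq']
  refine (MvPolynomial.totalDegree_finsetSum _ _).trans (Finset.sup_le fun μ hμ => ?_)
  refine (MvPolynomial.totalDegree_mul _ _).trans ?_
  rw [show (algebraMap ℤ (MvPolynomial (Fin r) ℤ)) (MvPolynomial.coeff μ f) =
    MvPolynomial.C (MvPolynomial.coeff μ f) from rfl, MvPolynomial.totalDegree_C, zero_add]
  refine (MvPolynomial.totalDegree_finsetProd _ _).trans ?_
  have h2 := MvPolynomial.le_totalDegree hμ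
  rw [Finsupp.sum_fintype _ _ (fun _ => rfl)] at h2
  refine le_trans (Finset.sum_le_sum fun i _ => ?_) h2
  refine (MvPolynomial.totalDegree_pow _ _).trans ?_
  have h3 : (MvPolynomial.C (σ i : ℤ) * MvPolynomial.X i : MvPolynomial (Fin r) ℤ).totalDegree ≤ 1 := by
    refine (MvPolynomial.totalDegree_mul _ _).trans ?_
    rw [MvPolynomial.totalDegree_C, zero_add]
    rw [MvPolynomial.totalDegree_X]
  calc μ i * (MvPolynomial.C (σ i : ℤ) * MvPolynomial.X i : MvPolynomial (Fin r) ℤ).totalDegree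
      ≤ μ i * 1 := Nat.mul_le_mul_left _ h3
    _ = μ i := mul_one _

/-- For all but `O(H^(q - 1 + κ / β + ε))` integral points of height at most `H` the values of the
`f l` have large prime divisors of their own, with exponents not divisible by `β`, which do not divide
the values of the `g l i`. -/
theorem count_sym3 {r L : ℕ} {ι : Type} [Fintype ι] (f : Fin L → MvPolynomial (Fin r) ℤ)
    (hf : ∀ l, Irreducible (f l)) (hd : ∀ l, (f l).totalDegree ≠ 0)
    (hne : ∀ l l', l ≠ l' → ¬ f l ∣ f l') (g : Fin L → ι → MvPolynomial (Fin r) ℤ)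
    (hg : ∀ l i, ¬ f l ∣ g l i) (D : ℕ) {κ : ℕ} (hκ : ∀ l, (f l).totalDegree ≤ κ) {ε : ℝ}
    (hε : 0 < ε) : ∃ C : ℝ, ∀ β : ℕ, 1 ≤ β → ∀ H : ℕ, 1 ≤ H →
    (Set.ncard {z : Fin r → ℤ | (∀ j, |z j| ≤ (H : ℤ)) ∧
      ¬ Good3 (MvPolynomial.eval z) f g D β} : ℝ) ≤
        C * (H : ℝ) ^ ((r : ℝ) - 1 + (κ : ℝ) / β + ε) := by
  classical
  -- the trivial cases
  by_cases hL : L = 0
  · subst hL
    refine ⟨0, fun β _ H _ => ?_⟩
    have h1 : {z : Fin r → ℤ | (∀ j, |z j| ≤ (H : ℤ)) ∧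
        ¬ Good3 (MvPolynomial.eval z) f g D β} = ∅ := by
      ext z
      simp only [Set.mem_ofPred_eq, Set.mem_empty_iff_false, iff_false, not_and, not_not]
      intro _
      exact ⟨fun l => l.elim0, fun _ => 0, fun l => l.elim0, fun l => l.elim0, fun l => l.elim0⟩
    rw [h1, Set.ncard_empty, Nat.cast_zero, zero_mul]
  obtain ⟨L, rfl⟩ := Nat.exists_eq_succ_of_ne_zero hL
  rcases r with _ | s
  · exfalso
    apply hd 0
    rw [MvPolynomial.totalDegree_zero_iff_isHomogeneous]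
    exact MvPolynomial.isHomogeneous_of_isEmpty _ _ _
  have hpos : ∀ σ : Fin (s + 1) → ℤˣ, ∃ C : ℝ, 0 ≤ C ∧ ∀ β : ℕ, 1 ≤ β → ∀ H : ℕ, 1 ≤ H →
      (((box (s + 1) H).filter fun v => ¬ Good3 (MvPolynomial.eval (pt v))
        (fun l => reflEquiv σ (f l)) (fun l i => reflEquiv σ (g l i)) D β).card : ℝ) ≤
        C * ((H : ℝ) ^ s * ((H : ℝ) ^ ε * (H : ℝ) ^ ((κ : ℝ) / β))) := by
    intro σ
    exact count_pos3 _ (fun l => (MulEquiv.irreducible_iff (reflEquiv σ)).2 (hf l))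
      (fun l => totalDegree_reflEquiv σ (hd l))
      (fun l l' hll h => hne l l' hll ((map_dvd_iff (reflEquiv σ)).1 h)) _
      (fun l i h => hg l i ((map_dvd_iff (reflEquiv σ)).1 h)) D
      (fun l => (totalDegree_reflEquiv_le σ (f l)).trans (hκ l)) hε
  choose C₁ hC₀ hC₁ using hpos
  refine ⟨∑ σ, C₁ σ + (s + 1) * 3 ^ (s + 1), fun β hβ H hH1 => ?_⟩
  set E : (Fin (s + 1) → ℤˣ) → Finset (Fin (s + 1) → ℕ) := fun σ =>
    (box (s + 1) H).filter fun v => ¬ Good3 (MvPolynomial.eval (pt v))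
      (fun l => reflEquiv σ (f l)) (fun l i => reflEquiv σ (g l i)) D β with hE
  set Z : Finset (Fin (s + 1) → ℤ) := (Fintype.piFinset fun _ => Finset.Icc (-(H : ℤ)) H).filter
    fun z => MvPolynomial.eval z (∏ i, MvPolynomial.X i : MvPolynomial (Fin (s + 1)) ℤ) = 0 with hZ
  have hsub : {z : Fin (s + 1) → ℤ | (∀ j, |z j| ≤ (H : ℤ)) ∧
      ¬ Good3 (MvPolynomial.eval z) f g D β} ⊆
      (((Finset.univ : Finset (Fin (s + 1) → ℤˣ)).biUnion fun σ => (E σ).image fun v i =>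
        (σ i : ℤ) * (v i : ℤ)) ∪ Z : Finset (Fin (s + 1) → ℤ)) := by
    rintro z ⟨hz1, hz2⟩
    rw [Finset.mem_coe, Finset.mem_union]
    by_cases h0 : ∀ i, z i ≠ 0
    · left
      have hs : ∀ i, ∃ σ : ℤˣ, (σ : ℤ) * (z i).natAbs = z i := by
        intro i
        rcases Int.natAbs_eq (z i) with h | h
        · exact ⟨1, by rw [Units.val_one, one_mul]; exact h.symm⟩
        · exact ⟨-1, by rw [Units.val_neg, Units.val_one, neg_one_mul]; exact h.symm⟩
      choose σ hσ using hs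
      rw [Finset.mem_biUnion]
      refine ⟨σ, Finset.mem_univ _, Finset.mem_image.2 ⟨fun i => (z i).natAbs, ?_, funext hσ⟩⟩
      rw [hE, Finset.mem_filter]
      refine ⟨Fintype.mem_piFinset.2 fun i => Finset.mem_Icc.2
        ⟨Int.natAbs_pos.2 (h0 i), ?_⟩, fun h => hz2 ?_⟩
      · have := hz1 i
        rw [Int.abs_eq_natAbs] at this
        exact_mod_cast this
      · have hev : ∀ F : MvPolynomial (Fin (s + 1)) ℤ,
            MvPolynomial.eval (pt fun i => (z i).natAbs) (reflEquiv σ F) =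
              MvPolynomial.eval z F := by
          intro F
          rw [eval_reflEquiv]
          congr 2
          funext i
          exact hσ i
        exact h.congr (fun l => hev _) fun l i => hev _
    · right
      push Not at h0
      obtain ⟨i, hi⟩ := h0
      rw [hZ, Finset.mem_filter]
      refine ⟨Fintype.mem_piFinset.2 fun j => Finset.mem_Icc.2 (abs_le.1 (hz1 j)), ?_⟩
      rw [map_prod]
      refine Finset.prod_eq_zero (Finset.mem_univ i) ?_
      rw [MvPolynomial.eval_X, hi]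
  have hcard := Set.ncard_le_ncard hsub (Finset.finite_toSet _)
  rw [Set.ncard_coe_finset] at hcard
  have hcard2 : Set.ncard {z : Fin (s + 1) → ℤ | (∀ j, |z j| ≤ (H : ℤ)) ∧
      ¬ Good3 (MvPolynomial.eval z) f g D β} ≤ (∑ σ, (E σ).card) + Z.card :=
    hcard.trans ((Finset.card_union_le _ _).trans (Nat.add_le_add_right
      (Finset.card_biUnion_le.trans (Finset.sum_le_sum fun σ _ => Finset.card_image_le)) _))
  have hHr : (1 : ℝ) ≤ H := by exact_mod_cast hH1
  have hHκ : (1 : ℝ) ≤ (H : ℝ) ^ ((κ : ℝ) / β) := Real.one_le_rpow hHr (by positivity)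
  have hHε' : (1 : ℝ) ≤ (H : ℝ) ^ ε := Real.one_le_rpow hHr hε.le
  have hHε : (1 : ℝ) ≤ (H : ℝ) ^ ε * (H : ℝ) ^ ((κ : ℝ) / β) := one_le_mul_of_one_le_of_one_le
    hHε' hHκ
  -- the points on the coordinate hyperplanes
  have hZ1 : (Z.card : ℝ) ≤ (s + 1) * 3 ^ (s + 1) *
      ((H : ℝ) ^ s * ((H : ℝ) ^ ε * (H : ℝ) ^ ((κ : ℝ) / β))) := by
    have hP0 : (∏ i, MvPolynomial.X i : MvPolynomial (Fin (s + 1)) ℤ) ≠ 0 :=
      Finset.prod_ne_zero_iff.2 fun i _ => MvPolynomial.X_ne_zero i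
    have hPd : (∏ i, MvPolynomial.X i : MvPolynomial (Fin (s + 1)) ℤ).totalDegree ≤ s + 1 := by
      refine (MvPolynomial.totalDegree_finsetProd _ _).trans ?_
      simp [MvPolynomial.totalDegree_X]
    have h1 := MvPolynomial.schwartz_zippel_totalDegree hP0 (Finset.Icc (-(H : ℤ)) H)
    have h2 : (Finset.Icc (-(H : ℤ)) H).card = 2 * H + 1 := by
      rw [Int.card_Icc]
      omega
    rw [h2] at h1
    have h3 : (Z.card : ℚ≥0) * ((2 * H + 1 : ℕ) : ℚ≥0) ≤
        (∏ i, MvPolynomial.X i : MvPolynomial (Fin (s + 1)) ℤ).totalDegree *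
          ((2 * H + 1 : ℕ) : ℚ≥0) ^ (s + 1) := by
      rw [div_le_div_iff₀ (by positivity) (by positivity)] at h1
      exact h1
    have h4 : Z.card * (2 * H + 1) ≤ (s + 1) * (2 * H + 1) ^ (s + 1) := by
      have h5 : Z.card * (2 * H + 1) ≤
        (∏ i, MvPolynomial.X i : MvPolynomial (Fin (s + 1)) ℤ).totalDegree *
          (2 * H + 1) ^ (s + 1) := by
        exact_mod_cast h3
      exact h5.trans (Nat.mul_le_mul_right _ hPd)
    have h6 : Z.card ≤ (s + 1) * (2 * H + 1) ^ s := by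
      rw [pow_succ, ← mul_assoc] at h4
      exact Nat.le_of_mul_le_mul_right h4 (by omega)
    have h7 : Z.card ≤ (s + 1) * 3 ^ (s + 1) * H ^ s := by
      calc Z.card ≤ (s + 1) * (2 * H + 1) ^ s := h6
        _ ≤ (s + 1) * (3 * H) ^ s := Nat.mul_le_mul_left _ (Nat.pow_le_pow_left (by omega) _)
        _ = (s + 1) * 3 ^ s * H ^ s := by rw [mul_pow, mul_assoc]
        _ ≤ (s + 1) * 3 ^ (s + 1) * H ^ s := Nat.mul_le_mul_right _ (Nat.mul_le_mul_left _
            (Nat.pow_le_pow_right (by norm_num) (Nat.le_succ s)))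
    have h8 : (Z.card : ℝ) ≤ (s + 1) * 3 ^ (s + 1) * (H : ℝ) ^ s := by exact_mod_cast h7
    refine h8.trans (mul_le_mul_of_nonneg_left ?_ (by positivity))
    exact le_mul_of_one_le_right (by positivity) hHε
  have hE1 : ∑ σ, ((E σ).card : ℝ) ≤ (∑ σ, C₁ σ) *
      ((H : ℝ) ^ s * ((H : ℝ) ^ ε * (H : ℝ) ^ ((κ : ℝ) / β))) := by
    rw [Finset.sum_mul]
    exact Finset.sum_le_sum fun σ _ => hC₁ σ β hβ H hH1
  have h1 : (Set.ncard {z : Fin (s + 1) → ℤ | (∀ j, |z j| ≤ (H : ℤ)) ∧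
      ¬ Good3 (MvPolynomial.eval z) f g D β} : ℝ) ≤ (∑ σ, ((E σ).card : ℝ)) + (Z.card : ℝ) := by
    exact_mod_cast hcard2
  have h2 : (H : ℝ) ^ (((s + 1 : ℕ) : ℝ) - 1 + (κ : ℝ) / β + ε) =
      (H : ℝ) ^ s * ((H : ℝ) ^ ε * (H : ℝ) ^ ((κ : ℝ) / β)) := by
    rw [← Real.rpow_natCast (H : ℝ) s, ← Real.rpow_add (by linarith),
      ← Real.rpow_add (by linarith)]
    congr 1
    push_cast
    ring
  rw [h2, add_mul]
  linarith

end Pool.Agent.Q41.ZP
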