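import Pool.Agent.TH526.ZL.H

/-!
The criterion for curves with four places, for images of projective sets (helper file for
Zilber-Pink for families).
-/

open Function UpperHalfPlane H294ZP MvPolynomial Pool.Agent.W466.ZC Pool.Agent.TH526.ZL

namespace Pool.Agent.Q41.ZP

/-- at most `m` coordinates are not of the expected size at a good place -/
theorem good_coords {Λ : Type} [CommRing Λ] [IsDomain Λ] [Algebra Λ ℂ] {κ : Type*}
    {N n m : ℕ} (G : κ → MvPolynomial (Fin (N + 1)) Λ)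
    (hG : ∀ i, ∃ e, (G i).IsHomogeneous e) (A B : Fin n → MvPolynomial (Fin (N + 1)) Λ)
    (d : Fin n → ℕ) (hA : ∀ i, (A i).IsHomogeneous (d i)) (hB : ∀ i, (B i).IsHomogeneous (d i))
    (c : Fin n → Λ) (𝔭 : Ideal Λ)
    (hpos : ∀ (F : Type) [Field F] (φ : Λ →+* F), RingHom.ker φ = 𝔭 → ∀ I : Finset (Fin n),
      I.card = m + 1 → ∀ y : Fin (N + 1) → F, y ≠ 0 → (∀ k, eval₂ φ y (G k) = 0) →
      ∃ i ∈ I, eval₂ φ y (A i) * eval₂ φ y (B i) ≠ 0)
    (π : Λ) (e : Fin n → ℕ) (hc : ∀ i, ∃ a b : Λ, a ∉ 𝔭 ∧ b ∉ 𝔭 ∧ a * c i = b * π ^ e i)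
    (V : ValuationSubring ℂ) (hV1 : ∀ a : Λ, V.valuation (algebraMap Λ ℂ a) ≤ 1)
    (hV2 : ∀ a : Λ, V.valuation (algebraMap Λ ℂ a) < 1 ↔ a ∈ 𝔭) (s : Fin n → ℂ)
    (y : Fin (N + 1) → ℂ) (hy0 : y ≠ 0) (hyG : ∀ i, aeval y (G i) = 0)
    (hxy : ∀ i, algebraMap Λ ℂ (c i) * aeval y (B i) * s i = aeval y (A i)) :
    ∃ E : Finset (Fin n), E.card ≤ m ∧ ∀ i, i ∉ E → V.valuation (s i) *
        V.valuation (algebraMap Λ ℂ π) ^ e i = 1 := by
  classical
  have hunit : ∀ (a : Λ), a ∉ 𝔭 → V.valuation (algebraMap Λ ℂ a) = 1 := by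
    intro a ha
    refine le_antisymm (hV1 a) ?_
    by_contra h
    push Not at h
    exact ha ((hV2 a).1 h)
  obtain ⟨t, ht0, hAB, hI⟩ := good_place G hG A B hpos V hV1 hV2 y hy0 hyG
  refine ⟨Finset.univ.filter fun i =>
      ¬ V.valuation (aeval (t • y) (A i) * aeval (t • y) (B i)) = 1, ?_, ?_⟩
  · by_contra h
    push Not at h
    obtain ⟨I, hIE, hIc⟩ := Finset.exists_subset_card_eq (Nat.succ_le_of_lt h)
    obtain ⟨i, hi, h1⟩ := hI I hIc
    exact (Finset.mem_filter.1 (hIE hi)).2 h1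
  · intro i hi
    rw [Finset.mem_filter] at hi
    push Not at hi
    have h1 := hi (Finset.mem_univ i)
    have hA1 := (ValuationSubring.valuation_le_one_iff _ _).2 (hAB i).1
    have hB1 := (ValuationSubring.valuation_le_one_iff _ _).2 (hAB i).2
    rw [map_mul] at h1
    have hA2 : V.valuation (aeval (t • y) (A i)) = 1 := by
      refine le_antisymm hA1 ?_
      by_contra h
      push Not at h
      have h2 := (mul_le_of_le_one_right' hB1).trans_lt h
      rw [h1] at h2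
      exact lt_irrefl _ h2
    have hB2 : V.valuation (aeval (t • y) (B i)) = 1 := by
      rw [hA2, one_mul] at h1
      exact h1
    have hsm : ∀ (P : MvPolynomial (Fin (N + 1)) Λ) (f : ℕ), P.IsHomogeneous f →
        aeval (t • y) P = t ^ f * aeval y P := by
      intro P f hP
      have h1 := eval_smul (hP.map (algebraMap Λ ℂ)) t y
      rwa [eval_map, eval_map, ← aeval_def, ← aeval_def] at h1
    have h3 : algebraMap Λ ℂ (c i) * aeval (t • y) (B i) * s i = aeval (t • y) (A i) := by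
      rw [hsm _ _ (hA i), hsm _ _ (hB i), ← hxy i]
      ring
    have h4 := congrArg V.valuation h3
    rw [map_mul, map_mul, hA2, hB2, mul_one] at h4
    obtain ⟨a, b, ha, hb, hab⟩ := hc i
    have h5 := congrArg (fun z => V.valuation (algebraMap Λ ℂ z)) hab
    simp only [map_mul, map_pow, hunit a ha, hunit b hb, one_mul] at h5
    rw [← h5, mul_comm]
    exact h4

/-- The local criterion for curves which are images of projective sets: four places suffice. -/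
theorem criterionCurveB {Λ : Type} [CommRing Λ] [IsDomain Λ] [Algebra Λ ℂ]
    (hinj : Function.Injective (algebraMap Λ ℂ)) {κ : Type*}
    {N n : ℕ} (G : κ → MvPolynomial (Fin (N + 1)) Λ)
    (hG : ∀ i, ∃ e, (G i).IsHomogeneous e) (A B : Fin n → MvPolynomial (Fin (N + 1)) Λ)
    (d : Fin n → ℕ) (hA : ∀ i, (A i).IsHomogeneous (d i)) (hB : ∀ i, (B i).IsHomogeneous (d i))
    (R : Fin n → Polynomial (Polynomial Λ)) (hR : ∀ i, (R i).Monic) {T : ℕ}
    (hT : ∀ i u w, ((R i).coeff u).coeff w ≠ 0 → u ≤ T ∧ w ≤ T)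
    (c : Fin n → Λ) (𝔭 : Fin 4 → Ideal Λ) (h𝔭 : ∀ l, (𝔭 l).IsPrime)
    (hpos : ∀ l (F : Type) [Field F] (φ : Λ →+* F), RingHom.ker φ = 𝔭 l → ∀ I : Finset (Fin n),
      I.card = 1 + 1 → ∀ y : Fin (N + 1) → F, y ≠ 0 → (∀ k, eval₂ φ y (G k) = 0) →
      ∃ i ∈ I, eval₂ φ y (A i) * eval₂ φ y (B i) ≠ 0)
    (hRu : ∀ l i u w, ((R i).coeff u).coeff w ≠ 0 → ((R i).coeff u).coeff w ∉ 𝔭 l)
    (π : Fin 4 → Λ) (hπ : ∀ l, π l ∈ 𝔭 l)
    (e : Fin 4 → Fin n → ℕ) (he : ∀ l i, 0 < e l i)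
    (hc : ∀ l i, ∃ a b : Λ, a ∉ 𝔭 l ∧ b ∉ 𝔭 l ∧ a * c i = b * π l ^ e l i)
    (hsq : ∀ l l', l ≠ l' → ∀ i j, i ≠ j → ∀ q, 0 < q → q ≤ T ^ 8 →
      ¬ IsSquare (q * (e l i * e l j * (e l' i * e l' j))))
    {r : ℕ} (hr : r + 2 ≤ n) (cls : Fin n → Option (Fin r)) (Q : Fin n → Fin n → ℕ)
    (x s : Fin n → ℂ) (hQ : ∀ i j, 0 < Q i j)
    (hconst : ∀ i, cls i = none → IsIntegral Λ (x i))
    (hrel : ∀ i j l, cls i = some l → cls j = some l →
        Polynomial.eval₂ (Polynomial.aeval (x i) : Polynomial ℂ →ₐ[ℂ] ℂ).toRingHom (x j)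
          (W282.ZP.Psi (Q i j)) = 0)
    (hRs : ∀ i, Polynomial.eval₂ (Polynomial.aeval (x i) : Polynomial Λ →ₐ[Λ] ℂ).toRingHom (s i)
      (R i) = 0)
    (y : Fin (N + 1) → ℂ) (hy0 : y ≠ 0) (hyG : ∀ i, aeval y (G i) = 0)
    (hxy : ∀ i, algebraMap Λ ℂ (c i) * aeval y (B i) * s i = aeval y (A i)) :
    False := by
  classical
  have hS : AlgebraicIndependent Λ (Empty.elim : Empty → ℂ) :=
    algebraicIndependent_empty_type_iff.2 hinj
  choose V hV1 hV2 hVx using fun l => exists_place (𝔭 l) _ hS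
  have hunit : ∀ l (a : Λ), a ∉ 𝔭 l → (V l).valuation (algebraMap Λ ℂ a) = 1 := by
    intro l a ha
    refine le_antisymm (hV1 l a) ?_
    by_contra h
    push Not at h
    exact ha ((hV2 l a).1 h)
  let g : ∀ l, (V l).ValueGroup := fun l => (V l).valuation (algebraMap Λ ℂ (π l))
  have hg : ∀ l, g l < 1 := fun l => (hV2 l (π l)).2 (hπ l)
  refine criterionCurveV R hR hT V g hg (fun l i u w h0 => hunit l _ (hRu l i u w h0)) e he hsq
    hr cls Q x s hQ (fun l i hi => mem_of_int (V l) (hV1 l) (hconst i hi)) hrel hRs ?_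
  intro l i j hij
  obtain ⟨E, hE, hE'⟩ := good_coords G hG A B d hA hB c (𝔭 l) (hpos l) (π l) (e l) (hc l) (V l)
    (hV1 l) (hV2 l) s y hy0 hyG hxy
  by_contra hcon
  push Not at hcon
  have hi : i ∈ E := by
    by_contra h
    exact hcon.1 (hE' i h)
  have hj : j ∈ E := by
    by_contra h
    exact hcon.2 (hE' j h)
  have h5 : ({i, j} : Finset (Fin n)) ⊆ E := by
    intro u hu
    rcases Finset.mem_insert.1 hu with rfl | hu
    · exact hi
    · rw [Finset.mem_singleton.1 hu]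
      exact hj
  have h6 := Finset.card_le_card h5
  rw [Finset.card_pair hij] at h6
  omega

end Pool.Agent.Q41.ZP
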