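import Mathlib

/-!
Elimination: the absence of common zeros of forms is an open condition on the coefficients (helper
file for Zilber-Pink for the members of families over `ℤ`).
-/

namespace Pool.Agent.Q41.ZP

open MvPolynomial

/-- a high power of each variable is in the ideal, so are all monomials of high degree -/
theorem monomial_mem {F : Type} [Field F] {N : ℕ} (I : Ideal (MvPolynomial (Fin (N + 1)) F)) {e : ℕ}
    (he : ∀ j, (X j : MvPolynomial (Fin (N + 1)) F) ^ e ∈ I) (μ : Fin (N + 1) →₀ ℕ)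
    (hμ : (N + 1) * e + 1 ≤ ∑ j, μ j) : monomial μ (1 : F) ∈ I := by
  obtain ⟨j, hj⟩ : ∃ j, e ≤ μ j := by
    by_contra hcon
    push Not at hcon
    have h1 : ∑ j : Fin (N + 1), μ j ≤ ∑ j : Fin (N + 1), e :=
      Finset.sum_le_sum fun j _ => (hcon j).le
    rw [Finset.sum_const, Finset.card_univ, Fintype.card_fin, smul_eq_mul] at h1
    omega
  have h3 : Finsupp.single j e + (μ - Finsupp.single j e) = μ := by
    rw [add_tsub_cancel_iff_le, Finsupp.single_le_iff]
    exact hj
  have h2 : monomial μ (1 : F) = X j ^ e * monomial (μ - Finsupp.single j e) 1 := by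
    rw [X_pow_eq_monomial, monomial_mul, mul_one, h3]
  rw [h2]
  exact I.mul_mem_right _ (he j)

theorem elim {Λ : Type} [CommRing Λ] {N : ℕ} {β : Type} (P : β → MvPolynomial (Fin (N + 1)) Λ)
    (hP : ∀ b, ∃ d, (P b).IsHomogeneous d) {F₀ : Type} [Field F₀] [IsAlgClosed F₀] (φ₀ : Λ →+* F₀)
    (h : ∀ y : Fin (N + 1) → F₀, (∀ b, eval₂ φ₀ y (P b) = 0) → y = 0) :
    ∃ D : Λ, φ₀ D ≠ 0 ∧ ∀ (F : Type) [Field F] (φ : Λ →+* F), φ D ≠ 0 →
      ∀ y : Fin (N + 1) → F, (∀ b, eval₂ φ y (P b) = 0) → y = 0 := by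
  classical
  -- powers of the variables are in the ideal
  let I : Ideal (MvPolynomial (Fin (N + 1)) F₀) :=
    Ideal.span (Set.range fun b => MvPolynomial.map φ₀ (P b))
  have h1 : ∀ j, ∃ e, (X j : MvPolynomial (Fin (N + 1)) F₀) ^ e ∈ I := by
    intro j
    have h2 : (X j : MvPolynomial (Fin (N + 1)) F₀) ∈ I.radical := by
      rw [← vanishingIdeal_zeroLocus_eq_radical (K := F₀), mem_vanishingIdeal_iff]
      intro y hy
      rw [mem_zeroLocus_iff] at hy
      have h3 := h y fun b => by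
        have h4 := hy (MvPolynomial.map φ₀ (P b)) (Ideal.subset_span ⟨b, rfl⟩)
        rw [aeval_def, Algebra.algebraMap_self, eval₂_map, RingHom.id_comp] at h4
        exact h4
      rw [h3]
      simp
    exact h2
  choose e he using h1
  set e₀ := ∑ j, e j with he₀
  have he' : ∀ j, (X j : MvPolynomial (Fin (N + 1)) F₀) ^ e₀ ∈ I := by
    intro j
    have h2 : e j ≤ e₀ := Finset.single_le_sum (fun i _ => Nat.zero_le _) (Finset.mem_univ j)
    obtain ⟨s, hs⟩ := Nat.exists_eq_add_of_le h2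
    rw [hs, pow_add]
    exact I.mul_mem_right _ (he j)
  set E := (N + 1) * e₀ + 1 with hE
  -- the monomials of degree `E`
  let M := Finset.finsuppAntidiag (Finset.univ : Finset (Fin (N + 1))) E
  have hM : ∀ μ : Fin (N + 1) →₀ ℕ, μ ∈ M ↔ μ.degree = E := by
    intro μ
    rw [Finset.mem_finsuppAntidiag, Finsupp.degree_eq_sum]
    exact ⟨fun h => h.1, fun h => ⟨h, Finset.subset_univ _⟩⟩
  -- the vectors
  let v : β × (Fin (N + 1) →₀ ℕ) → M → Λ := fun z μ =>
    coeff (μ : Fin (N + 1) →₀ ℕ) (monomial z.2 1 * P z.1)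
  let w : β × (Fin (N + 1) →₀ ℕ) → M → F₀ := fun z μ => φ₀ (v z μ)
  have hw : ∀ z μ, w z μ = coeff (μ : Fin (N + 1) →₀ ℕ) (monomial z.2 1 * MvPolynomial.map φ₀ (P z.1)) := by
    intro z μ
    show φ₀ (coeff (μ : Fin (N + 1) →₀ ℕ) (monomial z.2 1 * P z.1)) = _
    rw [← coeff_map, map_mul, map_monomial, map_one]
  -- the ideal as a vector space
  let W : Submodule F₀ (MvPolynomial (Fin (N + 1)) F₀) :=
    Submodule.span F₀ (Set.range fun z : β × (Fin (N + 1) →₀ ℕ) =>
      monomial z.2 (1 : F₀) * MvPolynomial.map φ₀ (P z.1))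
  have hW1 : ∀ (ν : Fin (N + 1) →₀ ℕ) (c : F₀), ∀ x ∈ W, monomial ν c * x ∈ W := by
    intro ν c x hx
    refine Submodule.span_induction ?_ ?_ ?_ ?_ hx
    · rintro _ ⟨z, rfl⟩
      have h3 : monomial ν c * (monomial z.2 (1 : F₀) * MvPolynomial.map φ₀ (P z.1)) =
          c • (monomial (ν + z.2) (1 : F₀) * MvPolynomial.map φ₀ (P z.1)) := by
        rw [← mul_assoc, monomial_mul, mul_one, ← smul_mul_assoc, smul_monomial, smul_eq_mul,
          mul_one]
      show monomial ν c * (monomial z.2 (1 : F₀) * MvPolynomial.map φ₀ (P z.1)) ∈ W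
      rw [h3]
      exact W.smul_mem _ (Submodule.subset_span ⟨(z.1, ν + z.2), rfl⟩)
    · rw [mul_zero]
      exact zero_mem _
    · intro a b _ _ ha hb
      rw [mul_add]
      exact add_mem ha hb
    · intro a b _ hb
      rw [mul_smul_comm]
      exact W.smul_mem _ hb
  have hW2 : ∀ a x, x ∈ W → a * x ∈ W := by
    intro a x hx
    rw [← a.support_sum_monomial_coeff, Finset.sum_mul]
    exact sum_mem fun ν _ => hW1 ν _ x hx
  have hIW : ∀ Q ∈ I, Q ∈ W := by
    intro Q hQ
    refine Submodule.span_induction ?_ ?_ ?_ ?_ hQ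
    · rintro _ ⟨b, rfl⟩
      refine Submodule.subset_span ⟨(b, 0), ?_⟩
      show monomial 0 (1 : F₀) * MvPolynomial.map φ₀ (P b) = _
      rw [monomial_zero', C_1, one_mul]
    · exact zero_mem _
    · intro a b _ _ ha hb
      exact add_mem ha hb
    · intro a b _ hb
      exact hW2 a b hb
  let Lc : MvPolynomial (Fin (N + 1)) F₀ →ₗ[F₀] (M → F₀) :=
    LinearMap.pi fun μ => lcoeff F₀ (μ : Fin (N + 1) →₀ ℕ)
  have hLc : ∀ Q μ, Lc Q μ = coeff (μ : Fin (N + 1) →₀ ℕ) Q := fun Q μ => rfl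
  have hspan : Submodule.span F₀ (Set.range w) = ⊤ := by
    have h2 : Submodule.span F₀ (Set.range w) = W.map Lc := by
      rw [Submodule.map_span, ← Set.range_comp]
      congr 2
      funext z μ
      rw [hw]
      rfl
    rw [h2, eq_top_iff]
    intro f _
    have h3 : f = Lc (∑ μ : M, monomial (μ : Fin (N + 1) →₀ ℕ) (f μ)) := by
      funext μ
      rw [hLc, coeff_sum, Finset.sum_eq_single μ]
      · rw [coeff_monomial, if_pos rfl]
      · intro μ' _ hne
        rw [coeff_monomial, if_neg fun h => hne (Subtype.ext h)]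
      · intro h
        exact absurd (Finset.mem_univ μ) h
    rw [h3]
    refine Submodule.mem_map_of_mem (hIW _ (sum_mem fun μ _ => ?_))
    have h4 : monomial (μ : Fin (N + 1) →₀ ℕ) (f μ) = C (f μ) * monomial (μ : Fin (N + 1) →₀ ℕ) 1 := by
      rw [C_mul_monomial, mul_one]
    rw [h4]
    refine I.mul_mem_left _ (monomial_mem I he' _ ?_)
    have h5 := (hM μ).1 μ.2
    rw [Finsupp.degree_eq_sum] at h5
    rw [h5]
  -- a basis among the vectors
  obtain ⟨κ, a, ha, hspan', hlin⟩ := exists_linearIndependent' F₀ w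
  rw [hspan] at hspan'
  let bas : Module.Basis κ F₀ (M → F₀) := Module.Basis.mk hlin hspan'.ge
  have hcard : Nonempty (M ≃ κ) := by
    have : Finite κ := Module.Finite.finite_basis bas
    have : Fintype κ := Fintype.ofFinite κ
    refine ⟨Fintype.equivOfCardEq ?_⟩
    rw [← Module.finrank_eq_card_basis bas, Module.finrank_fintype_fun_eq_card]
  obtain ⟨eq⟩ := hcard
  let D : Matrix M M Λ := Matrix.of fun μ μ' => v (a (eq μ)) μ'
  have hD : φ₀ D.det ≠ 0 := by
    have h2 : φ₀ D.det = (Matrix.of fun μ μ' : M => w (a (eq μ)) μ').det := by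
      rw [RingHom.map_det]
      rfl
    rw [h2]
    have h3 : LinearIndependent F₀ (fun μ : M => w (a (eq μ))) := hlin.comp eq eq.injective
    have h4 := Matrix.linearIndependent_rows_iff_isUnit.1
      (show LinearIndependent F₀ (Matrix.of fun μ μ' : M => w (a (eq μ)) μ').row from h3)
    exact ((Matrix.isUnit_iff_isUnit_det _).1 h4).ne_zero
  refine ⟨D.det, hD, fun F _ φ hφ y hy => ?_⟩
  -- the values of the monomials vanish
  have h5 : ∀ z : β × (Fin (N + 1) →₀ ℕ), ∑ μ : M, φ (v z μ) * ∏ j, y j ^ (μ : Fin (N + 1) →₀ ℕ) j = 0 := by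
    intro z
    obtain ⟨d, hd⟩ := hP z.1
    have h6 : (monomial z.2 (1 : Λ) * P z.1).IsHomogeneous (z.2.degree + d) :=
      (isHomogeneous_monomial (1 : Λ) rfl).mul hd
    by_cases hdeg : z.2.degree + d = E
    · have h7 : eval₂ φ y (monomial z.2 (1 : Λ) * P z.1) = 0 := by
        rw [eval₂_mul, hy z.1, mul_zero]
      rw [eval₂_eq'] at h7
      rw [← h7, Finset.sum_coe_sort M (fun μ : Fin (N + 1) →₀ ℕ =>
        φ (coeff μ (monomial z.2 (1 : Λ) * P z.1)) * ∏ j, y j ^ μ j)]
      refine (Finset.sum_subset (fun μ hμ => ?_) (fun μ _ hμ => ?_)).symm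
      · rw [hM]
        by_contra hne
        exact (mem_support_iff.1 hμ) (h6.coeff_eq_zero (by rw [hdeg]; exact hne))
      · rw [notMem_support_iff.1 hμ, map_zero, zero_mul]
    · refine Finset.sum_eq_zero fun μ _ => ?_
      have h7 : v z μ = 0 := h6.coeff_eq_zero (by
        rw [(hM μ).1 μ.2]
        exact fun h => hdeg h.symm)
      rw [h7, map_zero, zero_mul]
  have h8 : (D.map φ).mulVec (fun μ : M => ∏ j, y j ^ (μ : Fin (N + 1) →₀ ℕ) j) = 0 := by
    funext μ
    exact h5 (a (eq μ))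
  have h9 := Matrix.eq_zero_of_mulVec_eq_zero (by
    rw [← RingHom.mapMatrix_apply, ← RingHom.map_det]
    exact hφ) h8
  funext j
  have h10 : Finsupp.single j E ∈ M := by
    rw [hM, Finsupp.degree_single]
  have h11 := congrFun h9 ⟨_, h10⟩
  simp only [Pi.zero_apply] at h11
  rw [Finset.prod_eq_single j] at h11
  · rw [Finsupp.single_eq_same] at h11
    exact eq_zero_of_pow_eq_zero h11
  · intro i _ hi
    rw [Finsupp.single_eq_of_ne hi, pow_zero]
  · intro h
    exact absurd (Finset.mem_univ j) h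

end Pool.Agent.Q41.ZP
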