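import Pool.Agent.Q41.ZP.Basic

/-!
Large prime divisors of `A ^ x - B ^ x` (helper file for Zilber-Pink for scalings in exponential
families).
-/

namespace Pool.Agent.Q41.ZP

open Finset

/-- common prime divisors -/
theorem dvd_gap {A B p x d : ℕ} (hAB : B ≤ A) (hp : p.Prime) (hA : ¬ p ∣ A)
    (h1 : p ∣ A ^ x - B ^ x) (h2 : p ∣ A ^ (x + d) - B ^ (x + d)) : p ∣ A ^ d - B ^ d := by
  have e1 : B ^ x ≡ A ^ x [MOD p] :=
    (Nat.modEq_iff_dvd' (Nat.pow_le_pow_left hAB x)).2 h1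
  have e2 : B ^ (x + d) ≡ A ^ (x + d) [MOD p] :=
    (Nat.modEq_iff_dvd' (Nat.pow_le_pow_left hAB _)).2 h2
  rw [pow_add, pow_add] at e2
  have e3 : A ^ x * B ^ d ≡ A ^ x * A ^ d [MOD p] := (e1.symm.mul_right _).trans e2
  have e4 : B ^ d ≡ A ^ d [MOD p] :=
    Nat.ModEq.cancel_left_of_coprime (((Nat.Prime.coprime_iff_not_dvd hp).2
      (fun h => hA (hp.dvd_of_dvd_pow h)))) e3
  exact (Nat.modEq_iff_dvd' (Nat.pow_le_pow_left hAB d)).1 e4

/-- `p` does not divide `A`, if it divides `A ^ x - B ^ x` -/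
theorem not_dvd_left {A B p x : ℕ} (hAB : B ≤ A) (hcop : Nat.Coprime A B) (hp : p.Prime)
    (hx : 0 < x) (h : p ∣ A ^ x - B ^ x) : ¬ p ∣ A := by
  intro hA
  have h1 : p ∣ A ^ x := dvd_pow hA hx.ne'
  have h2 : p ∣ B ^ x := by
    rw [← Nat.dvd_sub_iff_right (Nat.pow_le_pow_left hAB x) h1]
    exact h
  have h3 : p ∣ 1 := by
    rw [← Nat.Coprime.gcd_eq_one hcop]
    exact Nat.dvd_gcd hA (hp.dvd_of_dvd_pow h2)
  exact hp.one_lt.ne' (Nat.dvd_one.1 h3)

theorem not_dvd_right {A B p x : ℕ} (hAB : B ≤ A) (hcop : Nat.Coprime A B) (hp : p.Prime)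
    (hx : 0 < x) (h : p ∣ A ^ x - B ^ x) : ¬ p ∣ B := by
  intro hB
  have h1 : p ∣ B ^ x := dvd_pow hB hx.ne'
  have h2 : p ∣ A ^ x := by
    rw [← Nat.sub_add_cancel (Nat.pow_le_pow_left hAB x)]
    exact dvd_add h h1
  have h3 : p ∣ 1 := by
    rw [← Nat.Coprime.gcd_eq_one hcop]
    exact Nat.dvd_gcd (hp.dvd_of_dvd_pow h2) hB
  exact hp.one_lt.ne' (Nat.dvd_one.1 h3)

/-- `A ^ x - B ^ x` has a large prime divisor, for all large `x`. -/
theorem exists_large_prime {A B : ℕ} (hB : 0 < B) (hAB : B < A) (hcop : Nat.Coprime A B) (D : ℕ) :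
    ∃ x₀ : ℕ, 0 < x₀ ∧ ∀ x : ℕ, x₀ ≤ x → ∃ p : ℕ, p.Prime ∧ D < p ∧ p ∣ A ^ x - B ^ x := by
  set T := D.factorial with hT
  have hT0 : 0 < T := Nat.factorial_pos D
  set X := A ^ T with hX
  set Y := B ^ T with hY
  have hYX : Y < X := Nat.pow_lt_pow_left hAB hT0.ne'
  set N := (X + Y) * (X - Y) * 2 with hN
  have hN0 : 0 < N := by
    have : 0 < X - Y := by omega
    positivity
  -- `N * x < 2 ^ (x - 1)` for large `x`
  obtain ⟨x₀, hx₀⟩ : ∃ x₀ : ℕ, ∀ x, x₀ ≤ x → N * x < 2 ^ (x - 1) := by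
    refine ⟨4 * N + 8, fun x hx => ?_⟩
    -- `x ^ 2 < 2 ^ x` ...
    have h1 : ∀ y : ℕ, 4 ≤ y → y * y ≤ 2 ^ y := by
      intro y hy
      induction y, hy using Nat.le_induction with
      | base => norm_num
      | succ y hy ih =>
        rw [pow_succ]
        nlinarith
    have h2 := h1 (x - 1) (by omega)
    obtain ⟨z, rfl⟩ : ∃ z, x = z + 1 := ⟨x - 1, by omega⟩
    rw [Nat.add_sub_cancel] at h2 ⊢
    nlinarith
  refine ⟨x₀ + 1, Nat.succ_pos _, fun x hx => ?_⟩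
  by_contra hcon
  push Not at hcon
  have hx0 : 0 < x := by omega
  set M := A ^ x - B ^ x with hM
  have hlt : B ^ x < A ^ x := Nat.pow_lt_pow_left hAB hx0.ne'
  have hM0 : M ≠ 0 := by omega
  have hbig : X ^ (2 * x) - Y ^ (2 * x) ≠ 0 := by
    have : Y ^ (2 * x) < X ^ (2 * x) := Nat.pow_lt_pow_left hYX (by omega)
    omega
  have hMdvd : M ∣ X ^ (2 * x) - Y ^ (2 * x) := by
    have h1 : X ^ (2 * x) = (A ^ x) ^ (T * 2) := by
      rw [hX, ← pow_mul, ← pow_mul]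
      congr 1
      ring
    have h2 : Y ^ (2 * x) = (B ^ x) ^ (T * 2) := by
      rw [hY, ← pow_mul, ← pow_mul]
      congr 1
      ring
    rw [h1, h2]
    exact Nat.sub_dvd_pow_sub_pow _ _ _
  have hfac : M.factorization ≤ (N * x).factorization := by
    intro p
    by_cases hp : p.Prime ∧ p ∣ M
    swap
    · rcases not_and_or.1 hp with h | h
      · rw [Nat.factorization_eq_zero_of_not_prime _ h]
        exact Nat.zero_le _
      · rw [Nat.factorization_eq_zero_of_not_dvd h]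
        exact Nat.zero_le _
    obtain ⟨hp, hpM⟩ := hp
    have hpD : p ≤ D := by
      by_contra hlt
      exact hcon p hp (by omega) hpM
    have : Fact p.Prime := ⟨hp⟩
    have hpA := not_dvd_left hAB.le hcop hp hx0 hpM
    have hpB := not_dvd_right hAB.le hcop hp hx0 hpM
    have hpX : ¬ p ∣ X := fun h => hpA (hp.dvd_of_dvd_pow h)
    have hpY : ¬ p ∣ Y := fun h => hpB (hp.dvd_of_dvd_pow h)
    have hpT : (p - 1) ∣ T := Nat.dvd_factorial (by have := hp.two_le; omega) (by omega)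
    have hone : ∀ z : ℕ, ¬ p ∣ z → z ^ T ≡ 1 [MOD p] := by
      intro z hz
      obtain ⟨s, hs⟩ := hpT
      rw [← ZMod.natCast_eq_natCast_iff, hs, Nat.cast_pow, pow_mul,
        ZMod.pow_card_sub_one_eq_one (by
          rw [Ne, ZMod.natCast_eq_zero_iff]
          exact hz), one_pow, Nat.cast_one]
    have hXY : p ∣ X - Y :=
      (Nat.modEq_iff_dvd' hYX.le).1 ((hone B hpB).trans (hone A hpA).symm)
    have h1 : padicValNat p M ≤ padicValNat p (X ^ (2 * x) - Y ^ (2 * x)) :=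
      (padicValNat_dvd_iff_le hbig).1 (pow_padicValNat_dvd.trans hMdvd)
    rw [Nat.factorization_def _ hp, Nat.factorization_def _ hp]
    refine h1.trans ?_
    have hx2 : 2 * x ≠ 0 := by omega
    have hXY0 : X - Y ≠ 0 := by omega
    have hXY1 : X + Y ≠ 0 := by omega
    have hNx : padicValNat p (N * x) = padicValNat p (X + Y) + padicValNat p (X - Y) +
        padicValNat p (2 * x) := by
      rw [hN, mul_assoc _ 2 x, padicValNat.mul (mul_ne_zero hXY1 hXY0) hx2,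
        padicValNat.mul hXY1 hXY0]
    rw [hNx]
    rcases hp.eq_two_or_odd' with h2 | hodd
    · subst h2
      have h3 := padicValNat.pow_two_sub_pow hYX hXY hpX hx2 (even_two_mul x)
      omega
    · have h3 := padicValNat.pow_sub_pow hodd hYX hXY hpX hx2
      omega
  have hdvd : M ∣ N * x := (Nat.factorization_le_iff_dvd hM0 (by positivity)).1 hfac
  have h1 : M ≤ N * x := Nat.le_of_dvd (by positivity) hdvd
  have h2 : 2 ^ (x - 1) ≤ M := by
    -- `B ^ x + 2 ^ (x - 1) ≤ A ^ x`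
    have h3 : B ^ x ≤ (A - 1) * A ^ (x - 1) := by
      obtain ⟨z, rfl⟩ : ∃ z, x = z + 1 := ⟨x - 1, by omega⟩
      rw [Nat.add_sub_cancel, pow_succ, mul_comm]
      exact Nat.mul_le_mul (by omega) (Nat.pow_le_pow_left hAB.le z)
    have h4 : A ^ x = (A - 1) * A ^ (x - 1) + A ^ (x - 1) := by
      obtain ⟨z, rfl⟩ : ∃ z, x = z + 1 := ⟨x - 1, by omega⟩
      obtain ⟨w, rfl⟩ : ∃ w, A = w + 1 := ⟨A - 1, by omega⟩
      simp only [Nat.add_sub_cancel]
      ring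
    have h5 : 2 ^ (x - 1) ≤ A ^ (x - 1) := Nat.pow_le_pow_left (by omega) _
    omega
  have := hx₀ x (by omega)
  omega

/-- The members of exponential families have large prime divisors of their own. -/
theorem expo_family {A B : ℕ} (hB : 0 < B) (hAB : B < A) (hcop : Nat.Coprime A B) (L D : ℕ) :
    ∃ t₀ : ℕ, 0 < t₀ ∧ ∀ t : ℕ, t₀ ≤ t → (∀ l : Fin L, A ^ (t + l) - B ^ (t + l) ≠ 0) ∧
      ∃ p : Fin L → ℕ, (∀ l, (p l).Prime ∧ D < p l ∧ p l ∣ A ^ (t + l) - B ^ (t + l)) ∧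
        ∀ l l' : Fin L, l ≠ l' → ¬ p l ∣ A ^ (t + l') - B ^ (t + l') := by
  obtain ⟨t₀, ht0, ht₀⟩ := exists_large_prime hB hAB hcop (D + A ^ L)
  refine ⟨t₀, ht0, fun t ht => ⟨fun l => ?_, ?_⟩⟩
  · have : B ^ (t + l) < A ^ (t + l) := Nat.pow_lt_pow_left hAB (by omega)
    omega
  · have h1 := fun l : Fin L => ht₀ (t + l) (by omega)
    choose p hp hpD hpd using h1
    refine ⟨p, fun l => ⟨hp l, by have := hpD l; omega, hpd l⟩, ?_⟩
    have key : ∀ (l l' : ℕ) (q : ℕ), l < l' → l' < L → q.Prime → D + A ^ L < q →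
        q ∣ A ^ (t + l) - B ^ (t + l) → q ∣ A ^ (t + l') - B ^ (t + l') → False := by
      intro l l' q hl hl' hq hqD h2 h3
      have h4 : t + l' = (t + l) + (l' - l) := by omega
      rw [h4] at h3
      have hqA := not_dvd_left hAB.le hcop hq (by omega : 0 < t + l) h2
      have h5 := dvd_gap hAB.le hq hqA h2 h3
      have h6 : B ^ (l' - l) < A ^ (l' - l) := Nat.pow_lt_pow_left hAB (by omega)
      have h7 := Nat.le_of_dvd (by omega) h5
      have h8 : A ^ (l' - l) ≤ A ^ L := Nat.pow_le_pow_right (by omega) (by omega)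
      omega
    intro l l' hll h
    rcases lt_or_gt_of_ne hll with h2 | h2
    · exact key l l' (p l) h2 l'.2 (hp l) (hpD l) (hpd l) h
    · exact key l' l (p l) h2 l.2 (hp l) (hpD l) h (hpd l)

/-- The numbers `A ^ (2 ^ m) + 1` have large prime divisors of their own. -/
theorem fermat_family {A : ℕ} (hA0 : 0 < A) (hA : Even A) {L D t : ℕ} (hD : D < 2 ^ t) :
    ∃ p : Fin L → ℕ, (∀ l, (p l).Prime ∧ D < p l ∧ p l ∣ A ^ 2 ^ (t + l) + 1) ∧
      ∀ l l' : Fin L, l ≠ l' → ¬ p l ∣ A ^ 2 ^ (t + l') + 1 := by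
  have hodd : ∀ m : ℕ, Odd (A ^ 2 ^ m + 1) := fun m =>
    (hA.pow_of_ne_zero (pow_ne_zero _ two_ne_zero)).add_one
  have hmain : ∀ (m : ℕ) (p : ℕ), p.Prime → p ∣ A ^ 2 ^ m + 1 → 2 ^ (m + 1) ∣ p - 1 := by
    intro m p hp hpd
    have : Fact p.Prime := ⟨hp⟩
    have hp2 : p ≠ 2 := by
      rintro rfl
      exact Nat.not_even_iff_odd.2 (hodd m) (even_iff_two_dvd.2 hpd)
    have h1 : ((A : ZMod p)) ^ 2 ^ m = -1 := by
      have h2 : ((A ^ 2 ^ m + 1 : ℕ) : ZMod p) = 0 := (ZMod.natCast_eq_zero_iff _ _).2 hpd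
      push_cast at h2
      exact eq_neg_of_add_eq_zero_left h2
    have hneg : (-1 : ZMod p) ≠ 1 := by
      have : Fact (2 < p) := ⟨lt_of_le_of_ne hp.two_le hp2.symm⟩
      exact ZMod.neg_one_ne_one
    have h3 : orderOf (A : ZMod p) = 2 ^ (m + 1) := by
      apply orderOf_eq_prime_pow
      · rw [h1]
        exact hneg
      · rw [pow_succ, pow_mul, h1]
        norm_num
    rw [← h3]
    have hA0 : (A : ZMod p) ≠ 0 := by
      intro h0
      rw [h0, zero_pow (pow_ne_zero _ two_ne_zero)] at h1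
      exact one_ne_zero (neg_eq_zero.1 h1.symm)
    exact orderOf_dvd_of_pow_eq_one (ZMod.pow_card_sub_one_eq_one hA0)
  have hex : ∀ l : Fin L, ∃ p : ℕ, p.Prime ∧ p ∣ A ^ 2 ^ (t + l) + 1 := fun l =>
    Nat.exists_prime_and_dvd (by
      have : 0 < A ^ 2 ^ (t + (l : ℕ)) := by positivity
      omega)
  choose p hp hpd using hex
  have hlarge : ∀ l, D < p l := by
    intro l
    have h1 := Nat.le_of_dvd (by have := (hp l).two_le; omega) (hmain _ _ (hp l) (hpd l))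
    have h2 : 2 ^ t ≤ 2 ^ (t + (l : ℕ) + 1) := Nat.pow_le_pow_right (by norm_num) (by omega)
    omega
  refine ⟨p, fun l => ⟨hp l, hlarge l, hpd l⟩, ?_⟩
  have key : ∀ (m m' q : ℕ), m < m' → q.Prime → q ∣ A ^ 2 ^ m + 1 → q ∣ A ^ 2 ^ m' + 1 → False := by
    intro m m' q hm hq h1 h2
    obtain ⟨s, rfl⟩ : ∃ s, m' = m + 1 + s := ⟨m' - m - 1, by omega⟩
    have e1 : (A : ℤ) ^ 2 ^ m ≡ -1 [ZMOD q] := by
      rw [Int.modEq_iff_dvd]
      have h3 : ((A ^ 2 ^ m + 1 : ℕ) : ℤ) = (A : ℤ) ^ 2 ^ m + 1 := by push_cast; ring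
      have h4 : (q : ℤ) ∣ (A : ℤ) ^ 2 ^ m + 1 := by
        rw [← h3]
        exact_mod_cast h1
      have h5 : (-1 : ℤ) - (A : ℤ) ^ 2 ^ m = -((A : ℤ) ^ 2 ^ m + 1) := by ring
      rw [h5]
      exact (dvd_neg).2 h4
    have e2 : (A : ℤ) ^ 2 ^ (m + 1 + s) ≡ 1 [ZMOD q] := by
      have h6 : (A : ℤ) ^ 2 ^ (m + 1 + s) = ((A : ℤ) ^ 2 ^ m) ^ (2 * 2 ^ s) := by
        rw [← pow_mul]
        congr 1
        rw [pow_add, pow_add]
        ring
      rw [h6]
      refine (e1.pow _).trans ?_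
      rw [pow_mul]
      norm_num
    have e3 : (q : ℤ) ∣ 2 := by
      have h7 := e2.symm.dvd
      have h3 : ((A ^ 2 ^ (m + 1 + s) + 1 : ℕ) : ℤ) = (A : ℤ) ^ 2 ^ (m + 1 + s) + 1 := by
        push_cast
        ring
      have h4 : (q : ℤ) ∣ (A : ℤ) ^ 2 ^ (m + 1 + s) + 1 := by
        rw [← h3]
        exact_mod_cast h2
      have h8 := dvd_sub h4 h7
      have h9 : (A : ℤ) ^ 2 ^ (m + 1 + s) + 1 - ((A : ℤ) ^ 2 ^ (m + 1 + s) - 1) = 2 := by ring
      rwa [h9] at h8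
    have e4 : q ∣ 2 := by exact_mod_cast e3
    have e5 : q = 2 := (Nat.prime_dvd_prime_iff_eq hq Nat.prime_two).1 e4
    subst e5
    exact Nat.not_even_iff_odd.2 (hodd m) (even_iff_two_dvd.2 h1)
  intro l l' hll h
  rcases lt_or_gt_of_ne hll with h2 | h2
  · exact key (t + l) (t + l') (p l) (by have : (l : ℕ) < l' := h2; omega) (hp l) (hpd l) h
  · exact key (t + l') (t + l) (p l) (by have : (l' : ℕ) < l := h2; omega) (hp l) h (hpd l)

/-- The numbers `(l + 1) M + 1`, for highly divisible `M`, have large prime divisors of their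
own. -/
theorem prog_family {L D M : ℕ} (hLD : L ≤ D) (hM0 : 0 < M) (hM : D.factorial ∣ M) :
    ∃ p : Fin L → ℕ, (∀ l, (p l).Prime ∧ D < p l ∧ p l ∣ ((l : ℕ) + 1) * M + 1) ∧
      ∀ l l' : Fin L, l ≠ l' → ¬ p l ∣ ((l' : ℕ) + 1) * M + 1 := by
  have hex : ∀ l : Fin L, ∃ p : ℕ, p.Prime ∧ p ∣ ((l : ℕ) + 1) * M + 1 := fun l =>
    Nat.exists_prime_and_dvd (by
      have : 0 < ((l : ℕ) + 1) * M := by positivity
      omega)
  choose p hp hpd using hex
  have hlarge : ∀ l, D < p l := by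
    intro l
    by_contra hle
    push Not at hle
    have h1 : p l ∣ M := ((hp l).dvd_factorial.2 hle).trans hM
    have h2 : p l ∣ 1 := (Nat.dvd_add_right (h1.mul_left _)).1 (hpd l)
    exact (hp l).one_lt.ne' (Nat.dvd_one.1 h2)
  refine ⟨p, fun l => ⟨hp l, hlarge l, hpd l⟩, fun l l' hll h => ?_⟩
  have h1 : (p l : ℤ) ∣ ((l : ℕ) + 1 : ℤ) * M + 1 := by
    have := Int.natCast_dvd_natCast.2 (hpd l)
    push_cast at this
    exact this
  have h2 : (p l : ℤ) ∣ ((l' : ℕ) + 1 : ℤ) * M + 1 := by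
    have := Int.natCast_dvd_natCast.2 h
    push_cast at this
    exact this
  have h3 := dvd_sub (h1.mul_left ((l' : ℕ) + 1 : ℤ)) (h2.mul_left ((l : ℕ) + 1 : ℤ))
  have h4 : ((l' : ℕ) + 1 : ℤ) * (((l : ℕ) + 1 : ℤ) * M + 1) -
      ((l : ℕ) + 1 : ℤ) * (((l' : ℕ) + 1 : ℤ) * M + 1) = (l' : ℤ) - (l : ℤ) := by ring
  rw [h4] at h3
  have h5 : (l' : ℤ) - (l : ℤ) ≠ 0 := by
    intro h0
    apply hll
    apply Fin.ext
    omega
  have h6 := Int.le_of_dvd (abs_pos.2 h5) ((dvd_abs _ _).2 h3)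
  have h7 := hlarge l
  have h8 := l.2
  have h9 := l'.2
  have h10 : |(l' : ℤ) - (l : ℤ)| ≤ L := by
    rw [abs_le]
    constructor <;> omega
  omega

end Pool.Agent.Q41.ZP
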