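import Pool.Agent.Q41.ZP.Basic
import Pool.Agent.W282.SI.Count

/-!
Almost all matrices of exponents are independent (helper file for Zilber-Pink for translates by
`S`-units).
-/

namespace Pool.Agent.Q41.ZP

open Finset Pool.Agent.W282.SI Pool.Agent.W466.ZC

/-- A family of scaling vectors is spread out, if the factors have large prime divisors of their
own. -/
theorem spreadM_of_primes {n k L D : ℕ} (a : Fin L → Fin n ⊕ Fin k → ℕ) (ha : IndepM L a)
    {u : Fin L → ℕ} (hu : ∀ l, u l ≠ 0) {b : Fin n ⊕ Fin k → ℕ} (hb : ∀ i, b i ≠ 0)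
    (p : Fin L → ℕ) (hp : ∀ l, (p l).Prime ∧ D < p l) (hdvd : ∀ l, p l ∣ u l)
    (h1 : ∀ l l', l ≠ l' → ¬ p l ∣ u l') (h2 : ∀ l i, ¬ p l ∣ b i) :
    SpreadM L D (fun i => b i * ∏ l, u l ^ a l i) := by
  have hfac := fac_prod hu hb a h1 h2
  have hpos : ∀ l : Fin L, 0 < (u l).factorization (p l) := fun l =>
    (hp l).1.factorization_pos_of_dvd (hu l) (hdvd l)
  refine ⟨p, fun l => ⟨(hp l).1, (hp l).2, fun i => ?_⟩, ?_, ?_⟩
  · show 0 < (b i * ∏ l, u l ^ a l i).factorization (p l)
    rw [hfac]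
    exact Nat.mul_pos (ha.1 l i) (hpos l)
  · intro l l' hll i j hij hsq
    simp only [hfac] at hsq
    refine ha.2.1 l l' hll i j hij (isSquare_of_mul_sq
      (m := (u l).factorization (p l) * (u l').factorization (p l'))
      (Nat.mul_pos (hpos l) (hpos l')) ?_)
    convert hsq using 1
    ring
  · intro s c hs hc
    refine ha.2.2 s c hs fun l hl => ?_
    have h3 := hc l hl
    simp only [hfac] at h3
    have h4 : ((u l).factorization (p l) : ℤ) * ∑ i, c i * (a l (Sum.inr i) : ℤ) = 0 := by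
      rw [← h3, Finset.mul_sum]
      refine Finset.sum_congr rfl fun i _ => ?_
      push_cast
      ring
    rcases mul_eq_zero.1 h4 with h5 | h5
    · have := hpos l
      omega
    · exact h5

/-- The same for `Y(1)^n`. -/
theorem spreadL_of_primes {n L D : ℕ} (a : Fin L → Fin n → ℕ) (ha : ∀ l i, 0 < a l i)
    (hsq : ∀ l l', l ≠ l' → ∀ i j, i ≠ j → ¬ IsSquare (a l i * a l j * (a l' i * a l' j)))
    {u : Fin L → ℕ} (hu : ∀ l, u l ≠ 0) {b : Fin n → ℕ} (hb : ∀ i, b i ≠ 0)
    (p : Fin L → ℕ) (hp : ∀ l, (p l).Prime ∧ D < p l) (hdvd : ∀ l, p l ∣ u l)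
    (h1 : ∀ l l', l ≠ l' → ¬ p l ∣ u l') (h2 : ∀ l i, ¬ p l ∣ b i) :
    SpreadL L D (fun i => b i * ∏ l, u l ^ a l i) := by
  have hfac := fac_prod hu hb a h1 h2
  have hpos : ∀ l : Fin L, 0 < (u l).factorization (p l) := fun l =>
    (hp l).1.factorization_pos_of_dvd (hu l) (hdvd l)
  refine ⟨p, fun l => ⟨(hp l).1, (hp l).2, fun i => ?_⟩, ?_⟩
  · show 0 < (b i * ∏ l, u l ^ a l i).factorization (p l)
    rw [hfac]
    exact Nat.mul_pos (ha l i) (hpos l)
  · intro l l' hll i j hij h
    simp only [hfac] at h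
    refine hsq l l' hll i j hij (isSquare_of_mul_sq
      (m := (u l).factorization (p l) * (u l').factorization (p l'))
      (Nat.mul_pos (hpos l) (hpos l')) ?_)
    convert h using 1
    ring

open Classical in
/-- Almost all matrices of exponents are independent. -/
theorem count_indep {K : Type*} [Fintype K] [DecidableEq K] (n k L : ℕ) (ro : Fin L → K)
    (hro : Function.Injective ro) {H : ℕ} (hH : 1 ≤ H) :
    ((Fintype.piFinset fun _ : K × (Fin n ⊕ Fin k) => Icc 1 H).filter fun e =>
      ¬ IndepM L (fun l i => e (ro l, i))).card ≤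
      (L ^ 2 * n ^ 2 + k * L ^ k) * (H ^ (Fintype.card K * (n + k) - 1) * Nat.sqrt H) := by
  have hcard : Fintype.card (K × (Fin n ⊕ Fin k)) = Fintype.card K * (n + k) := by
    simp
  set box : Finset (K × (Fin n ⊕ Fin k) → ℕ) :=
    Fintype.piFinset fun _ : K × (Fin n ⊕ Fin k) => Icc 1 H with hbox
  let S1 : (Fin L × Fin L) × (Fin n × Fin n) → Finset (K × (Fin n ⊕ Fin k) → ℕ) := fun q =>
    box.filter fun e => q.1.1 ≠ q.1.2 ∧ q.2.1 ≠ q.2.2 ∧
      IsSquare (e (ro q.1.1, Sum.inl q.2.1) * e (ro q.1.1, Sum.inl q.2.2) *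
        (e (ro q.1.2, Sum.inl q.2.1) * e (ro q.1.2, Sum.inl q.2.2)))
  let S2 : (Fin k → Fin L) → Finset (K × (Fin n ⊕ Fin k) → ℕ) := fun r =>
    box.filter fun e => Function.Injective r ∧
      (Matrix.of fun i j : Fin k => (e (ro (r i), Sum.inr j) : ℤ)).det = 0
  have hsub : (box.filter fun e => ¬ IndepM L (fun l i => e (ro l, i))) ⊆
      univ.biUnion S1 ∪ univ.biUnion S2 := by
    intro e he
    rw [mem_filter] at he
    obtain ⟨he1, he2⟩ := he
    rw [mem_union]
    by_contra hcon
    rw [not_or] at hcon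
    apply he2
    refine ⟨fun l i => (mem_Icc.1 (Fintype.mem_piFinset.1 he1 (ro l, i))).1, ?_, ?_⟩
    · intro l l' hll i j hij hsq
      apply hcon.1
      rw [mem_biUnion]
      exact ⟨((l, l'), (i, j)), mem_univ _, mem_filter.2 ⟨he1, hll, hij, hsq⟩⟩
    · intro s b hs hb
      by_contra hb0
      apply hcon.2
      rw [mem_biUnion]
      let r := s.orderEmbOfCardLe hs
      refine ⟨r, mem_univ _, mem_filter.2 ⟨he1, r.injective, ?_⟩⟩
      rw [← Matrix.exists_mulVec_eq_zero_iff]
      refine ⟨b, hb0, ?_⟩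
      funext i
      have h1 := hb (r i) (Finset.orderEmbOfCardLe_mem s hs i)
      simp only [Matrix.mulVec, dotProduct, Matrix.of_apply, Pi.zero_apply]
      rw [← h1]
      exact sum_congr rfl fun j _ => mul_comm _ _
  have hS1 : ∀ q, (S1 q).card ≤ Nat.sqrt H * H ^ (Fintype.card K * (n + k) - 1) := by
    rintro ⟨⟨l, l'⟩, ⟨i, j⟩⟩
    by_cases hq : l ≠ l' ∧ i ≠ j
    · rw [← hcard]
      refine (card_le_card (fun e he => ?_)).trans (card_fiber H (Nat.sqrt H) (ro l, Sum.inl i)
        (fun e => IsSquare (e (ro l, Sum.inl i) * e (ro l, Sum.inl j) *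
          (e (ro l', Sum.inl i) * e (ro l', Sum.inl j)))) fun e he => ?_)
      · rw [mem_filter] at he
        exact mem_filter.2 ⟨he.1, he.2.2.2⟩
      · have hpos : ∀ z, 0 < e z := fun z => (mem_Icc.1 (Fintype.mem_piFinset.1 he z)).1
        have h1 := card_sq H
          (d := e (ro l, Sum.inl j) * (e (ro l', Sum.inl i) * e (ro l', Sum.inl j)))
          (Nat.mul_pos (hpos _) (Nat.mul_pos (hpos _) (hpos _)))
        refine le_trans (card_le_card fun v hv => ?_) h1
        rw [mem_filter] at hv ⊢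
        refine ⟨hv.1, ?_⟩
        have h2 := hv.2
        rw [Function.update_self, Function.update_of_ne, Function.update_of_ne,
          Function.update_of_ne] at h2
        · convert h2 using 1
          ring
        · intro h
          exact hq.1 (hro (Prod.mk.inj h).1).symm
        · intro h
          exact hq.1 (hro (Prod.mk.inj h).1).symm
        · intro h
          exact hq.2 (Sum.inl_injective (Prod.mk.inj h).2).symm
    · have h0 : S1 ((l, l'), (i, j)) = ∅ := by
        rw [filter_eq_empty_iff]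
        rintro e - ⟨h1, h2, -⟩
        exact hq ⟨h1, h2⟩
      rw [h0]
      exact Nat.zero_le _
  have hS2 : ∀ r, (S2 r).card ≤ k * H ^ (Fintype.card K * (n + k) - 1) := by
    intro r
    by_cases hr : Function.Injective r
    · rw [← hcard]
      refine le_trans (card_le_card (fun e he => ?_)) (card_det (K := K) (I := Fin n ⊕ Fin k)
        H k (fun i => ro (r i)) Sum.inr (hro.comp hr) Sum.inr_injective)
      rw [mem_filter] at he ⊢
      exact ⟨Fintype.mem_piFinset.2 (Fintype.mem_piFinset.1 he.1), he.2.2⟩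
    · have h0 : S2 r = ∅ := by
        rw [filter_eq_empty_iff]
        rintro e - ⟨h1, -⟩
        exact hr h1
      rw [h0]
      exact Nat.zero_le _
  have hsqrt : 1 ≤ Nat.sqrt H := by
    rw [Nat.le_sqrt]
    omega
  refine (card_le_card hsub).trans ((card_union_le _ _).trans ?_)
  rw [add_mul]
  refine Nat.add_le_add ?_ ?_
  · refine (card_biUnion_le.trans (sum_le_sum fun q _ => hS1 q)).trans (le_of_eq ?_)
    rw [sum_const, card_univ, Fintype.card_prod, Fintype.card_prod, Fintype.card_prod,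
      Fintype.card_fin, Fintype.card_fin, smul_eq_mul]
    ring
  · refine (card_biUnion_le.trans (sum_le_sum fun r _ => hS2 r)).trans ?_
    rw [sum_const, card_univ, Fintype.card_fun, Fintype.card_fin, Fintype.card_fin, smul_eq_mul]
    calc L ^ k * (k * H ^ (Fintype.card K * (n + k) - 1)) =
          k * L ^ k * (H ^ (Fintype.card K * (n + k) - 1) * 1) := by ring
      _ ≤ _ := by gcongr

/-- the exponents of `S`-units -/
theorem fac_S {ι : Type*} (S : Finset ℕ) (hS : ∀ q ∈ S, q.Prime) (e : S → ι → ℕ) (q₀ : S) (i : ι) :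
    (∏ q : S, (q : ℕ) ^ e q i).factorization (q₀ : ℕ) = e q₀ i := by
  rw [Nat.factorization_prod (fun (q : S) _ => pow_ne_zero _ (hS q q.2).ne_zero)]
  simp only [Finsupp.coe_finsetSum, Finset.sum_apply]
  rw [Finset.sum_eq_single q₀]
  · rw [(hS q₀ q₀.2).factorization_pow, Finsupp.single_eq_same]
  · intro q _ hne
    rw [(hS q q.2).factorization_pow, Finsupp.single_eq_of_ne]
    intro h
    exact hne (Subtype.ext h.symm)
  · intro h
    exact absurd (Finset.mem_univ q₀) h

end Pool.Agent.Q41.ZP
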