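import Pool.Agent.Q41.ZP.PolyFam
import Pool.Agent.Q41.ZP.Elim

/-!
Large prime divisors of the values of polynomials, with conditions depending on the polynomial
(helper file for Zilber-Pink for families over `ℤ`).
-/

namespace Pool.Agent.Q41.ZP

open Polynomial Finset

/-- For all but few `t` the values at `t` of pairwise coprime polynomials have large prime divisors
of their own, which do not divide the values of the polynomials `g l i`. -/
theorem count_family2 {ι : Type*} [Fintype ι] {L : ℕ} (f : Fin L → ℤ[X])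
    (hf : ∀ l, 0 < (f l).natDegree) (hcop : ∀ l l', l ≠ l' →
      IsCoprime ((f l).map (Int.castRingHom ℚ)) ((f l').map (Int.castRingHom ℚ)))
    (g : Fin L → ι → ℤ[X]) (hfg : ∀ l i,
      IsCoprime ((f l).map (Int.castRingHom ℚ)) ((g l i).map (Int.castRingHom ℚ))) (D : ℕ) :
    ∃ K : ℕ, ∀ H : ℕ, 1 ≤ H →
      Set.ncard {t : ℕ | 1 ≤ t ∧ t ≤ H ∧ ¬ ((∀ l, (f l).eval (t : ℤ) ≠ 0) ∧ ∃ p : Fin L → ℕ,
          (∀ l, (p l).Prime ∧ D < p l ∧ (p l : ℤ) ∣ (f l).eval (t : ℤ)) ∧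
          (∀ l l', l ≠ l' → ¬ (p l : ℤ) ∣ (f l').eval (t : ℤ)) ∧
          ∀ l i, ¬ (p l : ℤ) ∣ (g l i).eval (t : ℤ))} ≤ K * (Nat.log 2 H + 1) ^ K := by
  classical
  -- the bad primes
  choose! r hr0 hr using fun (l l' : Fin L) (h : l ≠ l') => bezout (hcop l l' h)
  choose s hs0 hs using fun l i => bezout (hfg l i)
  set E : ℕ := D + (∑ l, ∑ l', (r l l').natAbs) + ∑ l, ∑ i, (s l i).natAbs with hE
  choose K hK using fun l => count_smooth (f l) (hf l) E
  set M := ∑ l, ((f l).natDegree + K l) with hM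
  refine ⟨M, fun H hH => ?_⟩
  have hsub : {t : ℕ | 1 ≤ t ∧ t ≤ H ∧ ¬ ((∀ l, (f l).eval (t : ℤ) ≠ 0) ∧ ∃ p : Fin L → ℕ,
          (∀ l, (p l).Prime ∧ D < p l ∧ (p l : ℤ) ∣ (f l).eval (t : ℤ)) ∧
          (∀ l l', l ≠ l' → ¬ (p l : ℤ) ∣ (f l').eval (t : ℤ)) ∧
          ∀ l i, ¬ (p l : ℤ) ∣ (g l i).eval (t : ℤ))} ⊆
      ((univ.biUnion fun l => ((Icc 1 H).filter fun t : ℕ => (f l).eval (t : ℤ) = 0) ∪
        ((Icc 1 H).filter fun t : ℕ => (f l).eval (t : ℤ) ≠ 0 ∧
          ∀ p : ℕ, p.Prime → p ∣ ((f l).eval (t : ℤ)).natAbs → p ≤ E) : Finset ℕ) : Set ℕ) := by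
    rintro t ⟨ht1, ht2, ht3⟩
    have ht : t ∈ Icc 1 H := mem_Icc.2 ⟨ht1, ht2⟩
    by_contra hcon
    rw [Finset.mem_coe, mem_biUnion] at hcon
    apply ht3
    have hf0 : ∀ l, (f l).eval (t : ℤ) ≠ 0 := fun l h => hcon ⟨l, mem_univ _,
      mem_union_left _ (mem_filter.2 ⟨ht, h⟩)⟩
    have hp : ∀ l, ∃ p : ℕ, p.Prime ∧ E < p ∧ p ∣ ((f l).eval (t : ℤ)).natAbs := by
      intro l
      by_contra hl
      apply hcon
      refine ⟨l, mem_univ _, mem_union_right _ (mem_filter.2 ⟨ht, hf0 l, fun p hp hd => ?_⟩)⟩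
      by_contra hlt
      exact hl ⟨p, hp, by omega, hd⟩
    choose p hpp hpE hpd using hp
    refine ⟨hf0, p, fun l => ⟨hpp l, by have := hpE l; omega, Int.natCast_dvd.2 (hpd l)⟩, ?_, ?_⟩
    · intro l l' hll h
      have h1 := hr l l' hll t (p l) (Int.natCast_dvd.2 (hpd l)) h
      have h2 := Nat.le_of_dvd (Int.natAbs_pos.2 (hr0 l l' hll)) (Int.natCast_dvd.1 h1)
      have h3 : (r l l').natAbs ≤ ∑ l, ∑ l', (r l l').natAbs :=
        (single_le_sum (f := fun l' => (r l l').natAbs) (fun _ _ => Nat.zero_le _)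
          (mem_univ l')).trans
          (single_le_sum (f := fun l => ∑ l', (r l l').natAbs) (fun _ _ => Nat.zero_le _)
            (mem_univ l))
      have := hpE l
      omega
    · intro l i h
      have h1 := hs l i t (p l) (Int.natCast_dvd.2 (hpd l)) h
      have h2 := Nat.le_of_dvd (Int.natAbs_pos.2 (hs0 l i)) (Int.natCast_dvd.1 h1)
      have h3 : (s l i).natAbs ≤ ∑ l, ∑ i, (s l i).natAbs :=
        (single_le_sum (f := fun i => (s l i).natAbs) (fun _ _ => Nat.zero_le _)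
          (mem_univ i)).trans
          (single_le_sum (f := fun l => ∑ i, (s l i).natAbs) (fun _ _ => Nat.zero_le _)
            (mem_univ l))
      have := hpE l
      omega
  have hlog : 1 ≤ (Nat.log 2 H + 1) ^ M := Nat.one_le_pow _ _ (by omega)
  refine (Set.ncard_le_ncard hsub (Finset.finite_toSet _)).trans ?_
  rw [Set.ncard_coe_finset]
  refine card_biUnion_le.trans ?_
  rw [hM, sum_mul, ← hM]
  refine sum_le_sum fun l _ => ?_
  refine (card_union_le _ _).trans ?_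
  rw [add_mul]
  refine Nat.add_le_add ((count_zero (f l) (by
    rintro h
    have := hf l
    rw [h, natDegree_zero] at this
    exact lt_irrefl _ this) H).trans (Nat.le_mul_of_pos_right _ hlog)) ?_
  refine (hK l H hH).trans (Nat.mul_le_mul_left _ (Nat.pow_le_pow_right (by omega) ?_))
  have : K l ≤ ∑ l, ((f l).natDegree + K l) :=
    (Nat.le_add_left _ _).trans (single_le_sum (f := fun l => (f l).natDegree + K l)
      (fun _ _ => Nat.zero_le _) (mem_univ l))
  omega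

/-- An irreducible polynomial over `ℤ` is coprime to all polynomials which it does not divide. -/
theorem coprime_of_not_dvd {f g : ℤ[X]} (hf : Irreducible f) (hd : 0 < f.natDegree)
    (hg : ¬ f ∣ g) : IsCoprime (f.map (Int.castRingHom ℚ)) (g.map (Int.castRingHom ℚ)) := by
  have hprim : f.IsPrimitive := hf.isPrimitive hd.ne'
  have hirr : Irreducible (f.map (Int.castRingHom ℚ)) :=
    (IsPrimitive.Int.irreducible_iff_irreducible_map_cast hprim).1 hf
  refine (hirr.coprime_iff_not_dvd).2 fun h => hg ?_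
  exact (IsPrimitive.Int.dvd_iff_map_cast_dvd_map_cast f g hprim).2 h

/-- An irreducible polynomial does not divide the polynomials which are not zero at one of its
roots. -/
theorem not_dvd_of_root {Θ : Type} [CommRing Θ] {f D : Θ} {φ : Θ →+* ℂ} (hf : φ f = 0)
    (hD : φ D ≠ 0) : ¬ f ∣ D := by
  rintro ⟨q, rfl⟩
  rw [map_mul, hf, zero_mul] at hD
  exact hD rfl

/-- The reduction modulo a prime number. -/
noncomputable def red (p : ℕ) [Fact p.Prime] : ℤ →+* AlgebraicClosure (ZMod p) :=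
  (algebraMap (ZMod p) (AlgebraicClosure (ZMod p))).comp (Int.castRingHom (ZMod p))

theorem red_eq_zero {p : ℕ} [Fact p.Prime] {a : ℤ} : red p a = 0 ↔ (p : ℤ) ∣ a := by
  rw [red, RingHom.comp_apply, map_eq_zero, eq_intCast, ZMod.intCast_zmod_eq_zero_iff_dvd]

/-- General position is an open condition. -/
theorem exists_D {Θ : Type} [CommRing Θ] {N : ℕ} {κ ι : Type}
    (G : κ → MvPolynomial (Fin (N + 1)) Θ) (hG : ∀ k, ∃ d, (G k).IsHomogeneous d)
    (A B : ι → MvPolynomial (Fin (N + 1)) Θ) (d : ι → ℕ) (hA : ∀ i, (A i).IsHomogeneous (d i))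
    (hB : ∀ i, (B i).IsHomogeneous (d i)) (I : Finset ι) (φ₀ : Θ →+* ℂ)
    (h : ∀ y : Fin (N + 1) → ℂ, y ≠ 0 → (∀ k, MvPolynomial.eval₂ φ₀ y (G k) = 0) →
      ∃ i ∈ I, MvPolynomial.eval₂ φ₀ y (A i) * MvPolynomial.eval₂ φ₀ y (B i) ≠ 0) :
    ∃ D : Θ, φ₀ D ≠ 0 ∧ ∀ (F : Type) [Field F] (φ : Θ →+* F), φ D ≠ 0 →
      ∀ y : Fin (N + 1) → F, y ≠ 0 → (∀ k, MvPolynomial.eval₂ φ y (G k) = 0) →
      ∃ i ∈ I, MvPolynomial.eval₂ φ y (A i) * MvPolynomial.eval₂ φ y (B i) ≠ 0 := by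
  obtain ⟨D, hD, hD2⟩ := elim (N := N) (β := κ ⊕ I)
    (Sum.elim G (fun i : I => A i * B i)) (by
      rintro (k | i)
      · exact hG k
      · exact ⟨d i + d i, (hA i).mul (hB i)⟩) φ₀ (by
      intro y hy
      by_contra hy0
      obtain ⟨i, hi, h1⟩ := h y hy0 (fun k => hy (Sum.inl k))
      apply h1
      have h2 := hy (Sum.inr ⟨i, hi⟩)
      simp only [Sum.elim_inr, MvPolynomial.eval₂_mul] at h2
      exact h2)
  refine ⟨D, hD, fun F _ φ hφ y hy0 hy => ?_⟩
  by_contra hcon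
  push Not at hcon
  apply hy0
  refine hD2 F φ hφ y ?_
  rintro (k | i)
  · exact hy k
  · simp only [Sum.elim_inr, MvPolynomial.eval₂_mul]
    exact hcon i i.2

end Pool.Agent.Q41.ZP
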