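import Pool.Agent.Q41.ZP.KPlace
import Pool.Agent.Q41.ZP.Count2
import Pool.Agent.Q41.ZP.PolyFam2

/-!
Good places for the integral members of multi-parameter families over finitely generated rings
(helper file for Zilber-Pink for families with coefficients in arbitrary fields).
-/

namespace Pool.Agent.Q41.ZP

open MvPolynomial

/-- evaluation at an integral point -/
noncomputable def evZ {Λ : Type} [CommRing Λ] {q : ℕ} (t : Fin q → ℤ) :
    MvPolynomial (Fin q) Λ →+* Λ :=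
  eval (fun j => (t j : Λ))

theorem evZ_map {Λ : Type} [CommRing Λ] {q : ℕ} (t : Fin q → ℤ) (f : MvPolynomial (Fin q) ℤ) :
    evZ t (map (algebraMap ℤ Λ) f) = ((eval t f : ℤ) : Λ) := by
  have h : (evZ t).comp (map (algebraMap ℤ Λ)) = (Int.castRingHom Λ).comp (eval t) :=
    MvPolynomial.ringHom_ext (fun a => by simp [evZ]) (fun i => by simp [evZ])
  exact RingHom.congr_fun h f

theorem totalDegree_ne_zero_of_irreducible {σ : Type} {K : Type} [Field K] [CharZero K]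
    {f : MvPolynomial σ ℤ} (hf : Irreducible (map (Int.castRingHom K) f)) : f.totalDegree ≠ 0 := by
  intro h
  rw [totalDegree_eq_zero_iff_eq_C] at h
  rw [h, map_C] at hf
  have h0 : (Int.castRingHom K) (coeff 0 f) ≠ 0 := by
    intro h1
    rw [h1, map_zero] at hf
    exact hf.ne_zero rfl
  exact hf.not_isUnit ((isUnit_iff_ne_zero.2 h0).map C)

/-- Good places for all but few of the integral members of a family. -/
theorem exists_places {Λ : Type} [CommRing Λ] [Algebra.FiniteType ℤ Λ] {K : Type} [Field K]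
    [CharZero K] (ιK : Λ →+* K) (j : K →+* ℂ) {q L : ℕ} {I₀ κ : Type} [Fintype I₀] {N m : ℕ}
    (G : κ → MvPolynomial (Fin (N + 1)) (MvPolynomial (Fin q) Λ))
    (hG : ∀ k, ∃ e, (G k).IsHomogeneous e)
    (A B : I₀ → MvPolynomial (Fin (N + 1)) (MvPolynomial (Fin q) Λ)) (d : I₀ → ℕ)
    (hA : ∀ i, (A i).IsHomogeneous (d i)) (hB : ∀ i, (B i).IsHomogeneous (d i))
    (f : Fin L → MvPolynomial (Fin q) ℤ) (hf : ∀ l, Irreducible (f l))
    (hfK : ∀ l, Irreducible (map (Int.castRingHom K) (f l)))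
    (hf2 : ∀ l l', l ≠ l' → ¬ f l ∣ f l')
    {τ : Type} [Fintype τ] (E : τ → MvPolynomial (Fin q) Λ)
    (hE : ∀ l x, ¬ map (Int.castRingHom K) (f l) ∣ map ιK (E x))
    (β : Fin L → Fin q → ℂ) (hβ : ∀ l, aeval (β l) (f l) = 0)
    (hpos : ∀ l, ∀ I : Finset I₀, I.card = m + 1 → ∀ y : Fin (N + 1) → ℂ, y ≠ 0 →
      (∀ k, eval₂ (eval₂Hom (j.comp ιK) (β l)) y (G k) = 0) →
      ∃ i ∈ I, eval₂ (eval₂Hom (j.comp ιK) (β l)) y (A i) *
        eval₂ (eval₂Hom (j.comp ιK) (β l)) y (B i) ≠ 0)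
    {ε : ℝ} (hε : 0 < ε) :
    ∃ C : ℝ, ∀ H : ℕ, 1 ≤ H → (Set.ncard {t : Fin q → ℤ | (∀ j, |t j| ≤ (H : ℤ)) ∧
      ¬ ((∀ l, eval t (f l) ≠ 0) ∧ ∀ l, ∃ 𝔭 : Ideal Λ, 𝔭.IsPrime ∧
        ((eval t (f l) : ℤ) : Λ) ∈ 𝔭 ∧
        (∀ l', l' ≠ l → ((eval t (f l') : ℤ) : Λ) ∉ 𝔭) ∧ (∀ x, evZ t (E x) ∉ 𝔭) ∧
        ∀ (F : Type) [Field F] (φ : Λ →+* F), RingHom.ker φ = 𝔭 → ∀ I : Finset I₀,
          I.card = m + 1 → ∀ y : Fin (N + 1) → F, y ≠ 0 →
          (∀ k, eval₂ (φ.comp (evZ t)) y (G k) = 0) →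
          ∃ i ∈ I, eval₂ (φ.comp (evZ t)) y (A i) * eval₂ (φ.comp (evZ t)) y (B i) ≠ 0)} : ℝ) ≤
      C * (H : ℝ) ^ ((q : ℝ) - 1 + ε) := by
  classical
  have hcompat : ∀ (l : Fin L) (P : MvPolynomial (Fin q) Λ),
      eval₂Hom (j.comp ιK) (β l) P = eval₂Hom j (β l) (map ιK P) := by
    intro l P
    rw [coe_eval₂Hom, coe_eval₂Hom, eval₂_map]
  have hfβ : ∀ l, eval₂Hom j (β l) (map (Int.castRingHom K) (f l)) = 0 := by
    intro l
    rw [coe_eval₂Hom, eval₂_map, ← hβ l, aeval_def]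
    congr 1
    exact RingHom.ext_int _ _
  -- the conditions for general position
  have hD : ∀ (l : Fin L) (I : Finset I₀), ∃ D : MvPolynomial (Fin q) Λ,
      ¬ map (Int.castRingHom K) (f l) ∣ map ιK D ∧
      (I.card = m + 1 → ∀ (F : Type) [Field F] (φ : MvPolynomial (Fin q) Λ →+* F), φ D ≠ 0 →
        ∀ y : Fin (N + 1) → F, y ≠ 0 → (∀ k, eval₂ φ y (G k) = 0) →
        ∃ i ∈ I, eval₂ φ y (A i) * eval₂ φ y (B i) ≠ 0) := by
    intro l I
    by_cases hI : I.card = m + 1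
    · obtain ⟨D, h1, h2⟩ := exists_D G hG A B d hA hB I (eval₂Hom (j.comp ιK) (β l))
        (hpos l I hI)
      refine ⟨D, fun ⟨u, hu⟩ => h1 ?_, fun _ => h2⟩
      rw [hcompat, hu, map_mul, hfβ, zero_mul]
    · refine ⟨1, fun h => (hfK l).not_isUnit ?_, fun h => absurd h hI⟩
      rw [map_one] at h
      exact isUnit_of_dvd_one h
  choose D hD1 hD2 using hD
  -- one polynomial for each hypersurface
  have hprimeK : ∀ l, Prime (map (Int.castRingHom K) (f l)) := fun l => (hfK l).prime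
  have hE' : ∀ l, ¬ map (Int.castRingHom K) (f l) ∣
      map ιK ((∏ x, E x) * ∏ I : Finset I₀, D l I) := by
    intro l h
    rw [map_mul, map_prod, map_prod] at h
    rcases (hprimeK l).dvd_or_dvd h with h | h
    · obtain ⟨x, -, hx⟩ := (Prime.dvd_finsetProd_iff (hprimeK l) _).1 h
      exact hE l x hx
    · obtain ⟨I, -, hI⟩ := (Prime.dvd_finsetProd_iff (hprimeK l) _).1 h
      exact hD1 l I hI
  have hd := fun l => totalDegree_ne_zero_of_irreducible (hfK l)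
  choose g hg1 hg2 using fun l => exists_prime ιK (hf l).prime (hd l) (hprimeK l) _ (hE' l)
  obtain ⟨C, hC⟩ := count_sym2 f hf hd hf2 (ι := Unit) (fun l _ => g l) (fun l _ => hg1 l) 0 hε
  refine ⟨C, fun H hH => le_trans ?_ (hC H hH)⟩
  rw [Nat.cast_le]
  refine Set.ncard_le_ncard ?_ ((Fintype.piFinset fun _ : Fin q =>
    Finset.Icc (-(H : ℤ)) H).finite_toSet.subset fun t ht => ?_)
  swap
  · exact Fintype.mem_piFinset.2 fun j => Finset.mem_Icc.2 (abs_le.1 (ht.1 j))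
  rintro t ⟨ht1, ht3⟩
  refine ⟨ht1, ?_⟩
  rintro ⟨hf0, p, hp1, hp2, hp3⟩
  apply ht3
  refine ⟨hf0, fun l => ?_⟩
  obtain ⟨𝔭, h𝔭, hp, hE𝔭⟩ := hg2 l (p l) (hp1 l).1 t (hp1 l).2.2 (hp3 l ())
  rw [map_mul, map_prod, map_prod] at hE𝔭
  have hcast : ∀ a : ℤ, ((p l : ℕ) : ℤ) ∣ a → (a : Λ) ∈ 𝔭 := by
    rintro a ⟨b, rfl⟩
    rw [Int.cast_mul, Int.cast_natCast]
    exact 𝔭.mul_mem_right _ hp
  refine ⟨𝔭, h𝔭, hcast _ (hp1 l).2.2, ?_, ?_, ?_⟩
  · intro l' hl' hmem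
    have hpp : Prime ((p l : ℕ) : ℤ) := Nat.prime_iff_prime_int.1 (hp1 l).1
    have hcop : IsCoprime ((p l : ℕ) : ℤ) (eval t (f l')) :=
      (Irreducible.coprime_iff_not_dvd hpp.irreducible).2 (hp2 l l' hl'.symm)
    obtain ⟨a, b, hab⟩ := hcop
    apply h𝔭.ne_top
    rw [Ideal.eq_top_iff_one]
    have h1 := congrArg (fun z : ℤ => (z : Λ)) hab
    simp only [Int.cast_add, Int.cast_mul, Int.cast_natCast, Int.cast_one] at h1
    rw [← h1]
    exact 𝔭.add_mem (𝔭.mul_mem_left _ hp) (𝔭.mul_mem_left _ hmem)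
  · intro x hx
    apply hE𝔭
    refine 𝔭.mul_mem_right _ (Ideal.mem_of_dvd 𝔭 (Finset.dvd_prod_of_mem _ (Finset.mem_univ x)) hx)
  · intro F _ φ hφ I hI y hy0 hy
    refine hD2 l I hI F (φ.comp (evZ t)) (fun h0 => hE𝔭 ?_) y hy0 hy
    have h1 : evZ t (D l I) ∈ 𝔭 := by
      rw [← hφ, RingHom.mem_ker]
      exact h0
    exact 𝔭.mul_mem_left _ (Ideal.mem_of_dvd 𝔭 (Finset.dvd_prod_of_mem _ (Finset.mem_univ I)) h1)

end Pool.Agent.Q41.ZP
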