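import Pool.Agent.Q77.ZP.Twist

/-!
Good prime ideals and places for all but few of the integral points of the parameter space, without
conditions of general position (helper file for Zilber-Pink for multi-parameter families over finitely
generated rings).
-/

set_option autoImplicit false

namespace Pool.Agent.Q41.ZP

open MvPolynomial

/-- Good prime ideals for all but few of the integral points. -/
theorem exists_primes {Λ : Type} [CommRing Λ] [Algebra.FiniteType ℤ Λ] {K : Type} [Field K]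
    [CharZero K] (ιK : Λ →+* K) {q L : ℕ}
    (f : Fin L → MvPolynomial (Fin q) ℤ) (hf : ∀ l, Irreducible (f l))
    (hfK : ∀ l, Irreducible (map (Int.castRingHom K) (f l)))
    (hf2 : ∀ l l', l ≠ l' → ¬ f l ∣ f l')
    {τ : Type} [Fintype τ] (E : τ → MvPolynomial (Fin q) Λ)
    (hE : ∀ l x, ¬ map (Int.castRingHom K) (f l) ∣ map ιK (E x)) {ε : ℝ} (hε : 0 < ε) :
    ∃ C : ℝ, ∀ H : ℕ, 1 ≤ H → (Set.ncard {t : Fin q → ℤ | (∀ j, |t j| ≤ (H : ℤ)) ∧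
      ¬ ((∀ l, eval t (f l) ≠ 0) ∧ ∀ l, ∃ 𝔭 : Ideal Λ, 𝔭.IsPrime ∧
        ((eval t (f l) : ℤ) : Λ) ∈ 𝔭 ∧
        (∀ l', l' ≠ l → ((eval t (f l') : ℤ) : Λ) ∉ 𝔭) ∧ ∀ x, evZ t (E x) ∉ 𝔭)} : ℝ) ≤
      C * (H : ℝ) ^ ((q : ℝ) - 1 + ε) := by
  classical
  have hprimeK : ∀ l, Prime (map (Int.castRingHom K) (f l)) := fun l => (hfK l).prime
  have hE' : ∀ l, ¬ map (Int.castRingHom K) (f l) ∣ map ιK (∏ x, E x) := by
    intro l h
    rw [map_prod] at h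
    obtain ⟨x, -, hx⟩ := (Prime.dvd_finsetProd_iff (hprimeK l) _).1 h
    exact hE l x hx
  have hd := fun l => totalDegree_ne_zero_of_irreducible (hfK l)
  choose g hg1 hg2 using fun l => exists_prime ιK (hf l).prime (hd l) (hprimeK l) _ (hE' l)
  obtain ⟨C, hC⟩ := count_sym2 f hf hd hf2 (ι := Unit) (fun l _ => g l) (fun l _ => hg1 l) 0 hε
  refine ⟨C, fun H hH => le_trans ?_ (hC H hH)⟩
  rw [Nat.cast_le]
  refine Set.ncard_le_ncard ?_ ((Fintype.piFinset fun _ : Fin q =>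
    Finset.Icc (-(H : ℤ)) H).finite_toSet.subset fun t ht => ?_)
  swap
  · exact Fintype.mem_piFinset.2 fun j => Finset.mem_Icc.2 (abs_le.1 (ht.1 j))
  rintro t ⟨ht1, ht3⟩
  refine ⟨ht1, ?_⟩
  rintro ⟨hf0, p, hp1, hp2, hp3⟩
  apply ht3
  refine ⟨hf0, fun l => ?_⟩
  obtain ⟨𝔭, h𝔭, hp, hE𝔭⟩ := hg2 l (p l) (hp1 l).1 t (hp1 l).2.2 (hp3 l ())
  rw [map_prod] at hE𝔭
  have hcast : ∀ a : ℤ, ((p l : ℕ) : ℤ) ∣ a → (a : Λ) ∈ 𝔭 := by
    rintro a ⟨b, rfl⟩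
    rw [Int.cast_mul, Int.cast_natCast]
    exact 𝔭.mul_mem_right _ hp
  refine ⟨𝔭, h𝔭, hcast _ (hp1 l).2.2, ?_, ?_⟩
  · intro l' hl' hmem
    have hpp : Prime ((p l : ℕ) : ℤ) := Nat.prime_iff_prime_int.1 (hp1 l).1
    have hcop : IsCoprime ((p l : ℕ) : ℤ) (eval t (f l')) :=
      (Irreducible.coprime_iff_not_dvd hpp.irreducible).2 (hp2 l l' hl'.symm)
    obtain ⟨a, b, hab⟩ := hcop
    apply h𝔭.ne_top
    rw [Ideal.eq_top_iff_one]
    have h1 := congrArg (fun z : ℤ => (z : Λ)) hab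
    simp only [Int.cast_add, Int.cast_mul, Int.cast_natCast, Int.cast_one] at h1
    rw [← h1]
    exact 𝔭.add_mem (𝔭.mul_mem_left _ hp) (𝔭.mul_mem_left _ hmem)
  · intro x hx
    exact hE𝔭 (Ideal.mem_of_dvd 𝔭 (Finset.dvd_prod_of_mem _ (Finset.mem_univ x)) hx)

open Pool.Agent.Q77.ZP (ringAt mem_V_of_int) in
/-- Good places for all but few of the integral points. -/
theorem exists_valuations {Λ : Type} [CommRing Λ] [Algebra.FiniteType ℤ Λ] (ι : Λ →+* ℂ)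
    (hι : Function.Injective ι) (K : Subfield ℂ) (hK : ∀ a, ι a ∈ K) {q L : ℕ}
    (f : Fin L → MvPolynomial (Fin q) ℤ) (hf : ∀ l, Irreducible (f l))
    (hfK : ∀ l, Irreducible (map (Int.castRingHom K) (f l)))
    (hf2 : ∀ l l', l ≠ l' → ¬ f l ∣ f l')
    {τ : Type} [Fintype τ] (E : τ → MvPolynomial (Fin q) Λ)
    (hE : ∀ l x, ¬ map (Int.castRingHom K) (f l) ∣ map (ι.codRestrict K hK) (E x))
    (h : MvPolynomial (Fin q) Λ)
    (hh : ∀ l, ¬ map (Int.castRingHom K) (f l) ∣ map (ι.codRestrict K hK) h)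
    {ε : ℝ} (hε : 0 < ε) :
    ∃ C : ℝ, ∀ H : ℕ, 1 ≤ H → (Set.ncard {t : Fin q → ℤ | (∀ j, |t j| ≤ (H : ℤ)) ∧
      ¬ ((∀ l, eval t (f l) ≠ 0) ∧ ∀ l, ∃ V : ValuationSubring ℂ,
        (∀ a, V.valuation (ι a) ≤ 1) ∧ V.valuation ((eval t (f l) : ℤ) : ℂ) < 1 ∧
        (∀ l', l' ≠ l → V.valuation ((eval t (f l') : ℤ) : ℂ) = 1) ∧
        (∀ x, V.valuation (ι (evZ t (E x))) = 1) ∧
        ∀ z : ℂ, IsIntegral (ringAt ι (evZ t h)) z → V.valuation z ≤ 1)} : ℝ) ≤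
      C * (H : ℝ) ^ ((q : ℝ) - 1 + ε) := by
  classical
  obtain ⟨C, hC⟩ := exists_primes (ι.codRestrict K hK) f hf hfK hf2
    (fun x : Option τ => x.elim h E) (fun l x => by
      rcases x with _ | x
      · exact hh l
      · exact hE l x) hε
  refine ⟨C, fun H hH => le_trans ?_ (hC H hH)⟩
  rw [Nat.cast_le]
  refine Set.ncard_le_ncard ?_ ((Fintype.piFinset fun _ : Fin q =>
    Finset.Icc (-(H : ℤ)) H).finite_toSet.subset fun t ht => ?_)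
  swap
  · exact Fintype.mem_piFinset.2 fun j => Finset.mem_Icc.2 (abs_le.1 (ht.1 j))
  rintro t ⟨ht1, ht3⟩
  refine ⟨ht1, ?_⟩
  rintro ⟨hf0, hpl⟩
  apply ht3
  refine ⟨hf0, fun l => ?_⟩
  obtain ⟨𝔭, h𝔭, hf𝔭, hf𝔭', hE𝔭⟩ := hpl l
  let _ : Algebra Λ ℂ := ι.toAlgebra
  obtain ⟨V, hV1, hV2, -⟩ := TH526.ZL.exists_place 𝔭 (Empty.elim : Empty → ℂ)
    (algebraicIndependent_empty_type_iff.2 hι)
  have hV0 : ∀ a : Λ, ι a ∈ V := fun a => (ValuationSubring.valuation_le_one_iff _ _).1 (hV1 a)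
  have hVu : ∀ a : Λ, a ∉ 𝔭 → V.valuation (ι a) = 1 := by
    intro a ha
    refine le_antisymm (hV1 a) ?_
    by_contra h3
    exact ha ((hV2 a).1 (not_le.1 h3))
  have hS : ∀ z ∈ ringAt ι (evZ t h), z ∈ V := by
    have h1 : ringAt ι (evZ t h) ≤ V.toSubring := by
      refine Subring.closure_le.2 fun z hz => ?_
      rcases Set.mem_insert_iff.1 hz with rfl | ⟨a, rfl⟩
      · refine (ValuationSubring.valuation_le_one_iff _ _).1 ?_
        rw [map_inv₀, hVu (evZ t h) (hE𝔭 none), inv_one]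
      · exact hV0 a
    exact fun z hz => h1 hz
  refine ⟨V, hV1, ?_, fun l' hl' => ?_, fun x => hVu _ (hE𝔭 (some x)), fun z hz => ?_⟩
  · have h1 := (hV2 _).2 hf𝔭
    have h2 : algebraMap Λ ℂ ((eval t (f l) : ℤ) : Λ) = ((eval t (f l) : ℤ) : ℂ) := map_intCast _ _
    rwa [h2] at h1
  · have h1 := hVu _ (hf𝔭' l' hl')
    rwa [map_intCast] at h1
  · exact (ValuationSubring.valuation_le_one_iff _ _).2 (mem_V_of_int V _ hS hz)

end Pool.Agent.Q41.ZP
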