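import Mathlib

/-!
Reduction of families over finitely generated rings at the points with large prime divisors (helper
file for Zilber-Pink for families with coefficients in arbitrary fields): an application of
Chevalley's theorem on constructible sets.
-/

namespace Pool.Agent.Q41.ZP

open MvPolynomial

attribute [local instance] MvPolynomial.algebraMvPolynomial

/-- divisibility descends from an extension field to `ℤ` -/
theorem dvd_int_of_dvd {σ : Type} {K : Type} [Field K] [CharZero K] {f h : MvPolynomial σ ℤ}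
    (hf : Prime f) (hd : f.totalDegree ≠ 0)
    (H : map (Int.castRingHom K) f ∣ map (Int.castRingHom K) h) : f ∣ h := by
  classical
  obtain ⟨u, hu⟩ := H
  -- a linear retraction
  obtain ⟨π, hπ⟩ := (Algebra.linearMap ℚ K).exists_leftInverse_of_injective
    (LinearMap.ker_eq_bot.2 (algebraMap ℚ K).injective)
  have hπ' : ∀ a : ℚ, π (algebraMap ℚ K a) = a := fun a => LinearMap.congr_fun hπ a
  have hπz : ∀ (a : ℤ) (x : K), π ((a : K) * x) = (a : ℚ) * π x := by
    intro a x
    have h1 : (a : K) * x = (a : ℚ) • x := by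
      rw [Algebra.smul_def, map_intCast]
    rw [h1, map_smul, smul_eq_mul]
  let w : MvPolynomial σ ℚ := ∑ μ ∈ u.support, monomial μ (π (coeff μ u))
  have hw : ∀ ν, coeff ν w = π (coeff ν u) := by
    intro ν
    simp only [w, coeff_sum, coeff_monomial]
    rw [Finset.sum_ite_eq' u.support ν]
    split_ifs with h1
    · rfl
    · rw [notMem_support_iff.1 h1, map_zero]
  have h1 : map (Int.castRingHom ℚ) h = map (Int.castRingHom ℚ) f * w := by
    ext ν
    have h2 := congrArg (fun P => π (coeff ν P)) hu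
    simp only [coeff_map, coeff_mul, map_sum, eq_intCast] at h2
    have h3 : π (((coeff ν h : ℤ)) : K) = ((coeff ν h : ℤ) : ℚ) := by
      have h4 := hπ' ((coeff ν h : ℤ) : ℚ)
      rwa [map_intCast] at h4
    rw [h3] at h2
    rw [coeff_map, coeff_mul, eq_intCast, h2]
    refine Finset.sum_congr rfl fun x _ => ?_
    rw [coeff_map, hw, eq_intCast, hπz]
  -- denominators
  obtain ⟨⟨v, s⟩, hvs⟩ := IsLocalization.surj
    ((nonZeroDivisors ℤ).map (C (σ := σ) : ℤ →+* MvPolynomial σ ℤ)) w
  obtain ⟨N, hN, hNs⟩ := s.2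
  have hN0 : N ≠ 0 := nonZeroDivisors.ne_zero hN
  have h2 : f * v = C N * h := by
    apply MvPolynomial.map_injective (Int.castRingHom ℚ) Int.cast_injective
    have h3 : w * map (Int.castRingHom ℚ) (C N) = map (Int.castRingHom ℚ) v := by
      have h4 := hvs
      simp only [algebraMap_def] at h4
      rw [← hNs] at h4
      exact h4
    rw [map_mul, map_mul, ← h3, h1]
    ring
  rcases hf.dvd_or_dvd (a := C N) (b := h) ⟨v, h2.symm⟩ with h3 | h3
  · exfalso
    obtain ⟨q, hq⟩ := h3
    have hq0 : q ≠ 0 := by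
      rintro rfl
      rw [mul_zero] at hq
      exact hN0 (C_injective σ ℤ (hq.trans C_0.symm))
    have h4 := congrArg totalDegree hq
    rw [totalDegree_C, totalDegree_mul_of_isDomain hf.ne_zero hq0] at h4
    omega
  · exact h3

/-- Chevalley's theorem at the points of a hypersurface: for a finitely generated ring `A`, a
polynomial `E` over `A` not divisible by `f` over `K` is nonzero at some point of `Spec A[t]` above
each point of the hypersurface `f = 0` in `Spec ℤ[t]` at which a certain polynomial `g` is not zero. -/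
theorem generic_prime {σ : Type} [Finite σ] {A : Type} [CommRing A] [Algebra.FiniteType ℤ A]
    {K : Type} [Field K] [CharZero K] (ι : A →+* K) {f : MvPolynomial σ ℤ} (hf : Prime f)
    (hd : f.totalDegree ≠ 0) (hfK : Prime (map (Int.castRingHom K) f)) (E : MvPolynomial σ A)
    (hE : ¬ map (Int.castRingHom K) f ∣ map ι E) :
    ∃ g : MvPolynomial σ ℤ, ¬ f ∣ g ∧ ∀ P : Ideal (MvPolynomial σ ℤ), P.IsPrime → f ∈ P → g ∉ P →
      ∃ Q : Ideal (MvPolynomial σ A), Q.IsPrime ∧
        Q.comap (map (algebraMap ℤ A)) = P ∧ E ∉ Q := by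
  classical
  have := Fintype.ofFinite σ
  let φ : MvPolynomial σ ℤ →+* MvPolynomial σ A := map (algebraMap ℤ A)
  have hft : φ.FiniteType := by
    have h1 : Algebra.FiniteType ℤ (MvPolynomial σ A) :=
      Algebra.FiniteType.trans (S := A) inferInstance inferInstance
    have h2 : (φ.comp (C : ℤ →+* MvPolynomial σ ℤ)).FiniteType := by
      have h3 : φ.comp (C : ℤ →+* MvPolynomial σ ℤ) = algebraMap ℤ (MvPolynomial σ A) :=
        RingHom.ext_int _ _
      rw [h3, RingHom.finiteType_algebraMap]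
      exact h1
    exact RingHom.FiniteType.of_comp_finiteType h2
  have hfp : φ.FinitePresentation := RingHom.FinitePresentation.of_finiteType.1 hft
  have hcon := PrimeSpectrum.isConstructible_comap_image hfp
    (PrimeSpectrum.isConstructible_basicOpen (f := E))
  obtain ⟨S, hS⟩ := PrimeSpectrum.exists_constructibleSetData_iff.2 hcon
  have hQ0 : ((Ideal.span {map (Int.castRingHom K) f}).comap (map ι)).IsPrime := by
    have := (Ideal.span_singleton_prime hfK.ne_zero).2 hfK
    exact Ideal.comap_isPrime _ _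
  let Q0 : PrimeSpectrum (MvPolynomial σ A) := ⟨_, hQ0⟩
  have hmem : PrimeSpectrum.comap φ Q0 ∈ S.toSet := by
    rw [hS]
    refine ⟨Q0, ?_, rfl⟩
    show E ∉ (Ideal.span {map (Int.castRingHom K) f}).comap (map ι)
    rw [Ideal.mem_comap, Ideal.mem_span_singleton]
    exact hE
  rw [PrimeSpectrum.ConstructibleSetData.toSet] at hmem
  simp only [Set.mem_iUnion] at hmem
  obtain ⟨D, hDS, hD1, hD2⟩ := hmem
  have hP0 : ∀ h : MvPolynomial σ ℤ, h ∈ (PrimeSpectrum.comap φ Q0).asIdeal ↔
      map (Int.castRingHom K) f ∣ map (Int.castRingHom K) h := by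
    intro h
    show φ h ∈ (Ideal.span {map (Int.castRingHom K) f}).comap (map ι) ↔ _
    rw [Ideal.mem_comap, Ideal.mem_span_singleton]
    have h1 : map ι (φ h) = map (Int.castRingHom K) h := by
      show map ι (map (algebraMap ℤ A) h) = _
      have h2 : ι.comp (algebraMap ℤ A) = Int.castRingHom K := RingHom.ext_int _ _
      rw [map_map, h2]
    rw [h1]
  refine ⟨D.f, fun h => ?_, fun P hP hfP hgP => ?_⟩
  · apply hD2
    rw [PrimeSpectrum.mem_zeroLocus, Set.singleton_subset_iff]
    exact (hP0 _).2 (_root_.map_dvd (MvPolynomial.map (σ := σ) (Int.castRingHom K)) h)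
  · have h1 : (⟨P, hP⟩ : PrimeSpectrum (MvPolynomial σ ℤ)) ∈ S.toSet := by
      rw [PrimeSpectrum.ConstructibleSetData.toSet]
      simp only [Set.mem_iUnion]
      refine ⟨D, hDS, ?_, ?_⟩
      · rw [PrimeSpectrum.mem_zeroLocus]
        rintro _ ⟨i, rfl⟩
        have h2 := (PrimeSpectrum.mem_zeroLocus _ _).1 hD1 (Set.mem_range_self i)
        exact Ideal.mem_of_dvd P (dvd_int_of_dvd hf hd ((hP0 _).1 h2)) hfP
      · rw [PrimeSpectrum.mem_zeroLocus, Set.singleton_subset_iff]
        exact hgP
    rw [hS] at h1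
    obtain ⟨Q, hQE, hQ⟩ := h1
    exact ⟨Q.asIdeal, Q.isPrime, congrArg PrimeSpectrum.asIdeal hQ, hQE⟩

/-- The prime ideals of the points with integral coordinates. -/
theorem exists_prime {σ : Type} [Finite σ] {A : Type} [CommRing A] [Algebra.FiniteType ℤ A]
    {K : Type} [Field K] [CharZero K] (ι : A →+* K) {f : MvPolynomial σ ℤ} (hf : Prime f)
    (hd : f.totalDegree ≠ 0) (hfK : Prime (map (Int.castRingHom K) f)) (E : MvPolynomial σ A)
    (hE : ¬ map (Int.castRingHom K) f ∣ map ι E) :
    ∃ g : MvPolynomial σ ℤ, ¬ f ∣ g ∧ ∀ (p : ℕ), p.Prime → ∀ z : σ → ℤ, (p : ℤ) ∣ eval z f →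
      ¬ (p : ℤ) ∣ eval z g → ∃ 𝔭 : Ideal A, 𝔭.IsPrime ∧ (p : A) ∈ 𝔭 ∧
        eval (fun i => (z i : A)) E ∉ 𝔭 := by
  classical
  obtain ⟨g, hg, h⟩ := generic_prime ι hf hd hfK E hE
  refine ⟨g, hg, fun p hp z hfz hgz => ?_⟩
  have hpp : Prime (p : ℤ) := Nat.prime_iff_prime_int.1 hp
  have hP : ((Ideal.span {(p : ℤ)}).comap (eval z)).IsPrime := by
    have := (Ideal.span_singleton_prime hpp.ne_zero).2 hpp
    exact Ideal.comap_isPrime _ _
  obtain ⟨Q, hQ, hQP, hEQ⟩ := h _ hP (by
    rw [Ideal.mem_comap, Ideal.mem_span_singleton]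
    exact hfz) (by
    rw [Ideal.mem_comap, Ideal.mem_span_singleton]
    exact hgz)
  have hmem : ∀ a : MvPolynomial σ ℤ, (p : ℤ) ∣ eval z a → map (algebraMap ℤ A) a ∈ Q := by
    intro a ha
    have h1 : a ∈ Q.comap (map (algebraMap ℤ A)) := by
      rw [hQP, Ideal.mem_comap, Ideal.mem_span_singleton]
      exact ha
    exact h1
  refine ⟨Q.comap C, Ideal.comap_isPrime _ _, ?_, fun h0 => hEQ ?_⟩
  · have h1 := hmem (C (p : ℤ)) (by rw [eval_C])
    rw [map_C] at h1
    simpa using h1
  · have h1 : ∀ i, (Ideal.Quotient.mk Q) (X i) = (Ideal.Quotient.mk Q) (C ((z i : ℤ) : A)) := by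
      intro i
      rw [Ideal.Quotient.eq]
      have h2 := hmem (X i - C (z i)) (by rw [map_sub, eval_X, eval_C, sub_self]; exact dvd_zero _)
      rw [map_sub, map_X, map_C] at h2
      simpa using h2
    have h2 : Ideal.Quotient.mk Q = ((Ideal.Quotient.mk Q).comp C).comp
        (eval (fun i => ((z i : ℤ) : A))) := by
      refine MvPolynomial.ringHom_ext (fun a => ?_) (fun i => ?_)
      · simp
      · simp only [RingHom.comp_apply, eval_X]
        exact h1 i
    have h3 : (Ideal.Quotient.mk Q) E = (Ideal.Quotient.mk Q) (C (eval (fun i => ((z i : ℤ) : A)) E)) :=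
      RingHom.congr_fun h2 E
    have h4 : (Ideal.Quotient.mk Q) (C (eval (fun i => ((z i : ℤ) : A)) E)) = 0 :=
      Ideal.Quotient.eq_zero_iff_mem.2 h0
    exact Ideal.Quotient.eq_zero_iff_mem.1 (h3.trans h4)

end Pool.Agent.Q41.ZP
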