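import Pool.Agent.Q41.ZP.Ind

/-!
Almost all members of monomial families of scaling vectors are spread out (helper file for
Zilber-Pink for translates by the points of a torus).
-/

namespace Pool.Agent.Q41.ZP

open Finset Pool.Agent.W282.SI Pool.Agent.W466.ZC

open Classical in
/-- Almost all vectors have components with large prime divisors of their own. -/
theorem count_u (L : ℕ) {y : ℕ} (hy : 1 ≤ y) (H : ℕ) :
    (((Fintype.piFinset fun _ : Fin L => Icc 1 H).filter fun u =>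
      ¬ ∃ p : Fin L → ℕ, (∀ l, (p l).Prime ∧ y < p l ∧ p l ∣ u l) ∧
        ∀ l l', l ≠ l' → ¬ p l ∣ u l').card : ℝ) ≤
      L * (H : ℝ) ^ (L - 1) * (Nat.log 2 H + 1 : ℕ) ^ (y + 1) + (L : ℝ) ^ 2 * (H : ℝ) ^ L / y := by
  set box : Finset (Fin L → ℕ) := Fintype.piFinset fun _ : Fin L => Icc 1 H with hbox
  let S1 : Fin L → Finset (Fin L → ℕ) := fun l =>
    box.filter fun u => ∀ p, p.Prime → p ∣ u l → p ≤ y
  let S2 : Fin L × Fin L → Finset (Fin L → ℕ) := fun q =>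
    box.filter fun u => q.1 ≠ q.2 ∧ ∃ p, y < p ∧ p ∣ u q.1 ∧ p ∣ u q.2
  have hsub : (box.filter fun u => ¬ ∃ p : Fin L → ℕ, (∀ l, (p l).Prime ∧ y < p l ∧ p l ∣ u l) ∧
      ∀ l l', l ≠ l' → ¬ p l ∣ u l') ⊆ univ.biUnion S1 ∪ univ.biUnion S2 := by
    intro u hu
    rw [mem_filter] at hu
    obtain ⟨hu1, hu2⟩ := hu
    rw [mem_union]
    by_contra hcon
    rw [not_or] at hcon
    apply hu2
    have h1 : ∀ l, ∃ p, p.Prime ∧ y < p ∧ p ∣ u l := by
      intro l
      by_contra hl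
      apply hcon.1
      rw [mem_biUnion]
      refine ⟨l, mem_univ _, mem_filter.2 ⟨hu1, fun p hp hpu => ?_⟩⟩
      by_contra hlt
      exact hl ⟨p, hp, by omega, hpu⟩
    choose p hp hyp hpu using h1
    refine ⟨p, fun l => ⟨hp l, hyp l, hpu l⟩, fun l l' hll h => ?_⟩
    apply hcon.2
    rw [mem_biUnion]
    exact ⟨(l, l'), mem_univ _, mem_filter.2 ⟨hu1, hll, p l, hyp l, hpu l, h⟩⟩
  have hS1 : ∀ l, (S1 l).card ≤ (Nat.log 2 H + 1) ^ (y + 1) * H ^ (L - 1) := by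
    intro l
    have h1 := card_fiber (κ := Fin L) H ((Nat.log 2 H + 1) ^ (y + 1)) l
      (fun u => ∀ p, p.Prime → p ∣ u l → p ≤ y) (fun e _ => by
        refine le_trans (card_le_card fun v hv => ?_) (smooth_card y H)
        rw [mem_filter] at hv ⊢
        refine ⟨hv.1, fun p hp hpv => hv.2 p hp ?_⟩
        rw [Function.update_self]
        exact hpv)
    rw [Fintype.card_fin] at h1
    exact h1
  have hS2 : ∀ q, ((S2 q).card : ℝ) ≤ (H : ℝ) ^ L / y := by
    rintro ⟨l, l'⟩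
    by_cases hll : l = l'
    · have h0 : S2 (l, l') = ∅ := by
        rw [filter_eq_empty_iff]
        rintro u - ⟨h1, -⟩
        exact h1 hll
      rw [h0, card_empty, Nat.cast_zero]
      positivity
    · have h1 := card_fiber2 (κ := Fin L) H hll (fun v w => ∃ p, y < p ∧ p ∣ v ∧ p ∣ w)
      rw [Fintype.card_fin] at h1
      have h2 : (S2 (l, l')).card ≤ ((Icc 1 H ×ˢ Icc 1 H).filter
          fun z : ℕ × ℕ => ∃ p, y < p ∧ p ∣ z.1 ∧ p ∣ z.2).card * H ^ (L - 2) := by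
        refine le_trans (card_le_card fun u hu => ?_) h1
        rw [mem_filter] at hu ⊢
        exact ⟨hu.1, hu.2.2⟩
      have hL2 : 2 ≤ L := by
        have h3 := l.2
        have h4 := l'.2
        have h5 : (l : ℕ) ≠ l' := fun h => hll (Fin.ext h)
        omega
      calc ((S2 (l, l')).card : ℝ) ≤ ((((Icc 1 H ×ˢ Icc 1 H).filter
            fun z : ℕ × ℕ => ∃ p, y < p ∧ p ∣ z.1 ∧ p ∣ z.2).card * H ^ (L - 2) : ℕ) : ℝ) := by
            exact_mod_cast h2
        _ = (((Icc 1 H ×ˢ Icc 1 H).filter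
            fun z : ℕ × ℕ => ∃ p, y < p ∧ p ∣ z.1 ∧ p ∣ z.2).card : ℝ) * (H : ℝ) ^ (L - 2) := by
            push_cast
            ring
        _ ≤ (H : ℝ) ^ 2 / y * (H : ℝ) ^ (L - 2) := by
            gcongr
            exact card_common H hy
        _ = (H : ℝ) ^ L / y := by
            rw [div_mul_eq_mul_div, ← pow_add]
            congr 2
            omega
  have h3 : ((box.filter fun u => ¬ ∃ p : Fin L → ℕ, (∀ l, (p l).Prime ∧ y < p l ∧ p l ∣ u l) ∧
      ∀ l l', l ≠ l' → ¬ p l ∣ u l').card : ℝ) ≤ ((∑ l, (S1 l).card : ℕ) : ℝ) +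
        ((∑ q, (S2 q).card : ℕ) : ℝ) := by
    have h4 := (card_le_card hsub).trans ((card_union_le _ _).trans
      (Nat.add_le_add card_biUnion_le card_biUnion_le))
    exact_mod_cast h4
  refine h3.trans (add_le_add ?_ ?_)
  · have h5 : (∑ l, (S1 l).card) ≤ L * ((Nat.log 2 H + 1) ^ (y + 1) * H ^ (L - 1)) := by
      refine (sum_le_sum fun l _ => hS1 l).trans (le_of_eq ?_)
      rw [sum_const, card_univ, Fintype.card_fin, smul_eq_mul]
    calc ((∑ l, (S1 l).card : ℕ) : ℝ) ≤ ((L * ((Nat.log 2 H + 1) ^ (y + 1) * H ^ (L - 1)) : ℕ) : ℝ) := by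
          exact_mod_cast h5
      _ = _ := by
          push_cast
          ring
  · rw [Nat.cast_sum]
    refine (sum_le_sum fun q _ => hS2 q).trans (le_of_eq ?_)
    rw [sum_const, card_univ, Fintype.card_prod, Fintype.card_fin, nsmul_eq_mul]
    push_cast
    ring

theorem small_log (y : ℕ) {ε : ℝ} (hε : 0 < ε) : ∃ H₀ : ℕ, ∀ H : ℕ, H₀ ≤ H →
    ((Nat.log 2 H + 1 : ℕ) : ℝ) ^ (y + 1) ≤ ε * H := by
  have h1 := (Real.isLittleO_pow_log_id_atTop (n := y + 1)).comp_tendsto tendsto_natCast_atTop_atTop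
  have h2 := h1.bound (c := ε / 3 ^ (y + 1)) (by positivity)
  obtain ⟨N, hN⟩ := Filter.eventually_atTop.1 h2
  refine ⟨max N 3, fun H hH => ?_⟩
  have h3 := hN H ((le_max_left _ _).trans hH)
  have hH3 : (3 : ℝ) ≤ H := by exact_mod_cast (le_max_right N 3).trans hH
  simp only [Function.comp_apply, id_eq, Real.norm_eq_abs, Nat.abs_cast] at h3
  have hlog : 1 ≤ Real.log H := by
    rw [Real.le_log_iff_exp_le (by linarith)]
    have := Real.exp_one_lt_d9
    linarith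
  have h4 : ((Nat.log 2 H + 1 : ℕ) : ℝ) ≤ 3 * Real.log H := by
    have h5 : (Nat.log 2 H : ℝ) ≤ Real.log H / Real.log 2 := Real.natLog_le_logb H 2
    have h6 : Real.log H / Real.log 2 ≤ 2 * Real.log H := by
      rw [div_le_iff₀ (Real.log_pos (by norm_num))]
      have := Real.log_two_gt_d9
      nlinarith
    push_cast
    linarith
  calc ((Nat.log 2 H + 1 : ℕ) : ℝ) ^ (y + 1) ≤ (3 * Real.log H) ^ (y + 1) := by gcongr
    _ = 3 ^ (y + 1) * |Real.log H ^ (y + 1)| := by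
        rw [abs_of_nonneg (by positivity), mul_pow]
    _ ≤ 3 ^ (y + 1) * (ε / 3 ^ (y + 1) * H) := by gcongr
    _ = ε * H := by
        field_simp

/-- The bound of `count_u` is `o(H^L)`. -/
theorem small_bound (L Y : ℕ) {ε : ℝ} (hε : 0 < ε) : ∃ y : ℕ, Y ≤ y ∧ ∃ H₀ : ℕ, ∀ H : ℕ, H₀ ≤ H →
    L * (H : ℝ) ^ (L - 1) * (Nat.log 2 H + 1 : ℕ) ^ (y + 1) + (L : ℝ) ^ 2 * (H : ℝ) ^ L / y ≤
      ε * (H : ℝ) ^ L := by
  obtain ⟨y₀, hy₀⟩ := exists_nat_ge (2 * (L : ℝ) ^ 2 / ε)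
  set y := max Y (max y₀ 1) with hy
  obtain ⟨H₀, hH₀⟩ := small_log y (ε := ε / (2 * (L + 1))) (by positivity)
  refine ⟨y, le_max_left _ _, H₀, fun H hH => ?_⟩
  have hy1 : (1 : ℝ) ≤ y := by
    exact_mod_cast (le_max_right y₀ 1).trans (le_max_right _ _)
  have hy2 : 2 * (L : ℝ) ^ 2 / ε ≤ y :=
    hy₀.trans (by exact_mod_cast (le_max_left y₀ 1).trans (le_max_right _ _))
  have h2 : (L : ℝ) ^ 2 * (H : ℝ) ^ L / y ≤ ε / 2 * (H : ℝ) ^ L := by
    rw [div_le_iff₀ (by linarith)]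
    rw [div_le_iff₀ hε] at hy2
    have h3 : (0 : ℝ) ≤ (H : ℝ) ^ L := by positivity
    nlinarith
  have h1 : L * (H : ℝ) ^ (L - 1) * (Nat.log 2 H + 1 : ℕ) ^ (y + 1) ≤ ε / 2 * (H : ℝ) ^ L := by
    rcases Nat.eq_zero_or_pos L with hL | hL
    · rw [hL, Nat.cast_zero, zero_mul, zero_mul]
      positivity
    · have h4 := hH₀ H hH
      have h5 : (H : ℝ) ^ L = (H : ℝ) ^ (L - 1) * H := by
        rw [← pow_succ]
        congr 1
        omega
      have h6 : (L : ℝ) * (ε / (2 * (L + 1))) ≤ ε / 2 := by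
        rw [mul_div_assoc', div_le_div_iff₀ (by positivity) (by norm_num)]
        nlinarith
      calc L * (H : ℝ) ^ (L - 1) * (Nat.log 2 H + 1 : ℕ) ^ (y + 1) ≤
            L * (H : ℝ) ^ (L - 1) * (ε / (2 * (L + 1)) * H) := by gcongr
        _ = (L : ℝ) * (ε / (2 * (L + 1))) * ((H : ℝ) ^ (L - 1) * H) := by ring
        _ ≤ ε / 2 * ((H : ℝ) ^ (L - 1) * H) := by gcongr
        _ = _ := by rw [h5]
  linarith

end Pool.Agent.Q41.ZP
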