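import Pool.Agent.Q41.ZP.PolyFam2

/-!
Large prime divisors of the values of polynomials in several variables (helper file for Zilber-Pink
for multi-parameter families over `ℤ`).
-/

namespace Pool.Agent.Q41.ZP

open Polynomial Finset

/-- Bezout identities over a ring of polynomials -/
theorem bezoutA {A : Type} [CommRing A] [IsDomain A] [UniqueFactorizationMonoid A] {f g : A[X]}
    (hf : Irreducible f) (hd : 0 < f.natDegree) (hg : ¬ f ∣ g) :
    ∃ r : A, r ≠ 0 ∧ ∃ U V : A[X], U * f + V * g = C r := by
  let Q := FractionRing A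
  have hprim : f.IsPrimitive := hf.isPrimitive hd.ne'
  have hirr : Irreducible (f.map (algebraMap A Q)) :=
    (hprim.irreducible_iff_irreducible_map_fraction_map (K := Q)).1 hf
  have hcop : IsCoprime (f.map (algebraMap A Q)) (g.map (algebraMap A Q)) :=
    (hirr.coprime_iff_not_dvd).2 fun h => hg (hprim.dvd_of_fraction_map_dvd_fraction_map h)
  obtain ⟨U, V, hUV⟩ := hcop
  obtain ⟨b, hb, hbU⟩ := IsLocalization.integerNormalization_spec (nonZeroDivisors A) U
  obtain ⟨c, hc, hcV⟩ := IsLocalization.integerNormalization_spec (nonZeroDivisors A) V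
  set U' := IsLocalization.integerNormalization (nonZeroDivisors A) U
  set V' := IsLocalization.integerNormalization (nonZeroDivisors A) V
  have hb0 : b ≠ 0 := nonZeroDivisors.ne_zero hb
  have hc0 : c ≠ 0 := nonZeroDivisors.ne_zero hc
  have hbU' : U'.map (algebraMap A Q) = C (algebraMap A Q b) * U := by
    rw [hbU, Algebra.smul_def]
    rfl
  have hcV' : V'.map (algebraMap A Q) = C (algebraMap A Q c) * V := by
    rw [hcV, Algebra.smul_def]
    rfl
  refine ⟨b * c, mul_ne_zero hb0 hc0, C c * U', C b * V', ?_⟩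
  apply Polynomial.map_injective (algebraMap A Q) (IsFractionRing.injective A Q)
  rw [Polynomial.map_add, Polynomial.map_mul, Polynomial.map_mul, Polynomial.map_mul,
    Polynomial.map_mul, hbU', hcV', Polynomial.map_C, Polynomial.map_C, Polynomial.map_C, map_mul,
    C_mul]
  linear_combination (C (algebraMap A Q b) * C (algebraMap A Q c)) * hUV

/-- the boxes -/
abbrev box (s H : ℕ) : Finset (Fin s → ℕ) := Fintype.piFinset fun _ : Fin s => Icc 1 H

theorem card_box (s H : ℕ) : (box s H).card = H ^ s := by
  rw [box, Fintype.card_piFinset]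
  simp

/-- the integral point with the given coordinates -/
abbrev pt {s : ℕ} (u : Fin s → ℕ) : Fin s → ℤ := fun i => (u i : ℤ)

/-- polynomials grow at most polynomially -/
theorem eval_bound_mv {s : ℕ} (R : MvPolynomial (Fin s) ℤ) : ∃ K D : ℕ, ∀ H : ℕ, 1 ≤ H →
    ∀ u ∈ box s H, (MvPolynomial.eval (pt u) R).natAbs ≤ K * H ^ D := by
  induction R using MvPolynomial.induction_on with
  | C a =>
    refine ⟨a.natAbs, 0, fun H _ u _ => ?_⟩
    rw [MvPolynomial.eval_C, pow_zero, mul_one]
  | add P Q hP hQ =>
    obtain ⟨K, D, h⟩ := hP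
    obtain ⟨K', D', h'⟩ := hQ
    refine ⟨K + K', D + D', fun H hH u hu => ?_⟩
    rw [map_add, add_mul]
    refine (Int.natAbs_add_le _ _).trans (Nat.add_le_add ((h H hH u hu).trans ?_)
      ((h' H hH u hu).trans ?_))
    · exact Nat.mul_le_mul_left _ (Nat.pow_le_pow_right hH (by omega))
    · exact Nat.mul_le_mul_left _ (Nat.pow_le_pow_right hH (by omega))
  | mul_X P i hP =>
    obtain ⟨K, D, h⟩ := hP
    refine ⟨K, D + 1, fun H hH u hu => ?_⟩
    rw [map_mul, MvPolynomial.eval_X, Int.natAbs_mul, pow_succ, ← mul_assoc]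
    refine Nat.mul_le_mul (h H hH u hu) ?_
    have := (mem_Icc.1 (Fintype.mem_piFinset.1 hu i)).2
    simpa using this

/-- few integral points are zeros -/
theorem count_zero_mv {s : ℕ} {R : MvPolynomial (Fin s) ℤ} (hR : R ≠ 0) {H : ℕ} (hH : 1 ≤ H) :
    ((box s H).filter fun u => MvPolynomial.eval (pt u) R = 0).card * H ≤
      R.totalDegree * H ^ s := by
  classical
  have h1 := MvPolynomial.schwartz_zippel_totalDegree hR ((Icc 1 H).image fun m : ℕ => (m : ℤ))
  have h2 : ((Icc 1 H).image fun m : ℕ => (m : ℤ)).card = H := by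
    rw [card_image_of_injective _ Nat.cast_injective]
    simp
  rw [h2] at h1
  have h3 : ((box s H).filter fun u => MvPolynomial.eval (pt u) R = 0).card ≤
      ((Fintype.piFinset fun _ : Fin s => (Icc 1 H).image fun m : ℕ => (m : ℤ)).filter
        fun v => MvPolynomial.eval v R = 0).card := by
    refine card_le_card_of_injOn pt ?_ ?_
    · intro u hu
      rw [Finset.mem_coe, mem_filter] at hu
      rw [Finset.mem_coe, mem_filter]
      refine ⟨Fintype.mem_piFinset.2 fun i => mem_image_of_mem _ (Fintype.mem_piFinset.1 hu.1 i),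
        hu.2⟩
    · intro u _ u' _ h
      funext i
      exact_mod_cast congrFun h i
  have h4 : ((((Fintype.piFinset fun _ : Fin s => (Icc 1 H).image fun m : ℕ => (m : ℤ)).filter
        fun v => MvPolynomial.eval v R = 0).card : ℚ≥0)) * H ≤ R.totalDegree * (H : ℚ≥0) ^ s := by
    have hH0 : (0 : ℚ≥0) < H := by exact_mod_cast hH
    rw [div_le_div_iff₀ (by positivity) hH0] at h1
    exact h1
  have h5 : ((Fintype.piFinset fun _ : Fin s => (Icc 1 H).image fun m : ℕ => (m : ℤ)).filter
        fun v => MvPolynomial.eval v R = 0).card * H ≤ R.totalDegree * H ^ s := by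
    exact_mod_cast h4
  exact (Nat.mul_le_mul_right _ h3).trans h5

/-- the number of the elements of an interval in a residue class -/
theorem card_residue {p : ℕ} [NeZero p] (H : ℕ) (z : ZMod p) :
    ((Icc 1 H).filter fun t : ℕ => (t : ZMod p) = z).card ≤ H / p + 1 := by
  classical
  have h1 : ((Icc 1 H).filter fun t : ℕ => (t : ZMod p) = z).card ≤ (range (H / p + 1)).card := by
    refine card_le_card_of_injOn (fun t => t / p) ?_ ?_
    · intro t ht
      rw [Finset.mem_coe, mem_filter, mem_Icc] at ht
      rw [Finset.mem_coe, mem_range]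
      exact Nat.lt_succ_of_le (Nat.div_le_div_right ht.1.2)
    · intro t ht t' ht' h
      rw [Finset.mem_coe, mem_filter, mem_Icc] at ht ht'
      have h2 : (t : ZMod p) = t' := ht.2.trans ht'.2.symm
      rw [ZMod.natCast_eq_natCast_iff'] at h2
      have h3 : t / p = t' / p := h
      rw [← Nat.div_add_mod t p, ← Nat.div_add_mod t' p, h2, h3]
  rwa [card_range] at h1

/-- few integral points are zeros modulo a prime -/
theorem count_mod_mv {s : ℕ} {R : MvPolynomial (Fin s) ℤ} {p H : ℕ} (hp : p.Prime)
    (hR : MvPolynomial.map (Int.castRingHom (ZMod p)) R ≠ 0) (hpH : p ≤ H) :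
    ((box s H).filter fun u => (p : ℤ) ∣ MvPolynomial.eval (pt u) R).card * p ≤
      R.totalDegree * (2 * H) ^ s := by
  classical
  have hfact : Fact p.Prime := ⟨hp⟩
  set Rp := MvPolynomial.map (Int.castRingHom (ZMod p)) R with hRp
  have h1 := MvPolynomial.schwartz_zippel_totalDegree hR (univ : Finset (ZMod p))
  rw [card_univ, ZMod.card] at h1
  have hdeg : Rp.totalDegree ≤ R.totalDegree := by
    rw [hRp]
    exact Finset.sup_mono (MvPolynomial.support_map_subset _ _)
  set Z := (Fintype.piFinset fun _ : Fin s => (univ : Finset (ZMod p))).filter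
        fun v => MvPolynomial.eval v Rp = 0 with hZ
  have h4 : ((Z.card : ℚ≥0)) * p ≤ Rp.totalDegree * (p : ℚ≥0) ^ s := by
    have hp0 : (0 : ℚ≥0) < p := by exact_mod_cast hp.pos
    rw [div_le_div_iff₀ (by positivity) hp0] at h1
    exact h1
  have h5 : Z.card * p ≤ R.totalDegree * p ^ s := by
    have h6 : Z.card * p ≤ Rp.totalDegree * p ^ s := by exact_mod_cast h4
    exact h6.trans (Nat.mul_le_mul_right _ hdeg)
  -- the fibres of the reduction
  have h7 : ((box s H).filter fun u => (p : ℤ) ∣ MvPolynomial.eval (pt u) R).card ≤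
      (H / p + 1) ^ s * Z.card := by
    refine card_le_mul_card_image_of_maps_to (f := fun u i => ((u i : ℕ) : ZMod p)) ?_ _ ?_
    · intro u hu
      rw [mem_filter] at hu
      rw [hZ, mem_filter]
      refine ⟨Fintype.mem_piFinset.2 fun i => mem_univ _, ?_⟩
      have h8 : MvPolynomial.eval (fun i => ((u i : ℕ) : ZMod p)) Rp =
          Int.castRingHom (ZMod p) (MvPolynomial.eval (pt u) R) := by
        rw [hRp, MvPolynomial.eval_map, MvPolynomial.eval, MvPolynomial.coe_eval₂Hom,
          MvPolynomial.hom_eval₂, RingHom.comp_id]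
        congr 1
        funext i
        simp
      rw [h8, eq_intCast, ZMod.intCast_zmod_eq_zero_iff_dvd]
      exact hu.2
    · intro z _
      have h9 : (((box s H).filter fun u => (p : ℤ) ∣ MvPolynomial.eval (pt u) R).filter
          fun u => (fun i => ((u i : ℕ) : ZMod p)) = z) ⊆
          Fintype.piFinset fun i : Fin s => (Icc 1 H).filter fun t : ℕ => (t : ZMod p) = z i := by
        intro u hu
        rw [mem_filter, mem_filter] at hu
        rw [Fintype.mem_piFinset]
        intro i
        rw [mem_filter]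
        exact ⟨Fintype.mem_piFinset.1 hu.1.1 i, congrFun hu.2 i⟩
      refine (card_le_card h9).trans ?_
      rw [Fintype.card_piFinset]
      calc ∏ i : Fin s, ((Icc 1 H).filter fun t : ℕ => (t : ZMod p) = z i).card ≤
            ∏ i : Fin s, (H / p + 1) := prod_le_prod' fun i _ => card_residue H (z i)
        _ = (H / p + 1) ^ s := by
            rw [prod_const, card_univ, Fintype.card_fin]
  have h10 : (H / p + 1) * p ≤ 2 * H := by
    have := Nat.div_mul_le_self H p
    nlinarith
  calc _ ≤ (H / p + 1) ^ s * Z.card * p := Nat.mul_le_mul_right _ h7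
    _ = (H / p + 1) ^ s * (Z.card * p) := by ring
    _ ≤ (H / p + 1) ^ s * (R.totalDegree * p ^ s) := Nat.mul_le_mul_left _ h5
    _ = R.totalDegree * ((H / p + 1) * p) ^ s := by
        rw [mul_pow]
        ring
    _ ≤ _ := Nat.mul_le_mul_left _ (Nat.pow_le_pow_left h10 s)

/-- the number of the zeros modulo a prime of a polynomial in one variable -/
theorem count_mod {f : ℤ[X]} {p H : ℕ} (hp : p.Prime) (hf : ¬ (p : ℤ) ∣ f.leadingCoeff) :
    ((Icc 1 H).filter fun t : ℕ => (p : ℤ) ∣ f.eval (t : ℤ)).card ≤
      f.natDegree * (H / p + 1) := by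
  classical
  have hfact : Fact p.Prime := ⟨hp⟩
  set g := f.map (Int.castRingHom (ZMod p)) with hg
  have hg0 : g ≠ 0 := by
    intro h
    apply hf
    have h1 := congrArg (fun q => Polynomial.coeff q f.natDegree) h
    simp only [hg, Polynomial.coeff_map, Polynomial.coeff_zero, eq_intCast,
      Polynomial.coeff_natDegree] at h1
    exact (ZMod.intCast_zmod_eq_zero_iff_dvd _ _).1 h1
  have h1 : ((Icc 1 H).filter fun t : ℕ => (p : ℤ) ∣ f.eval (t : ℤ)).card ≤
      (H / p + 1) * g.roots.toFinset.card := by
    refine card_le_mul_card_image_of_maps_to (f := fun t : ℕ => (t : ZMod p)) ?_ _ ?_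
    · intro t ht
      rw [mem_filter] at ht
      rw [Multiset.mem_toFinset, mem_roots hg0, IsRoot, hg, ← Int.cast_natCast (R := ZMod p) t,
        Polynomial.eval_intCast_map, eq_intCast, ZMod.intCast_zmod_eq_zero_iff_dvd]
      exact ht.2
    · intro z _
      refine le_trans (card_le_card fun t ht => ?_) (card_residue H z)
      rw [mem_filter, mem_filter] at ht
      rw [mem_filter]
      exact ⟨ht.1.1, ht.2⟩
  refine h1.trans ?_
  rw [mul_comm]
  exact Nat.mul_le_mul_right _ ((Multiset.toFinset_card_le _).trans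
    ((card_roots' g).trans Polynomial.natDegree_map_le))

end Pool.Agent.Q41.ZP
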