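import Pool.Agent.Y152.BD.Place
import Pool.Agent.Y152.BD.Fam

/-!
Valuation rings of `ℂ` above large primes which contain a given finite set (helper file).
-/

namespace Pool.Agent.Q41.ZP

theorem exists_place_prime (W : Set ℂ) (hW : W.Finite) : ∃ D : ℕ, ∀ p : ℕ, p.Prime → D < p →
    ∃ V : ValuationSubring ℂ, V.valuation (p : ℂ) < 1 ∧ ∀ z ∈ W, z ∈ V := by
  have := hW.to_subtype
  obtain ⟨D, hD⟩ := Pool.Agent.Y152.BD.exists_valT (k := ℂ) (fun z : W => (z : ℂ))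
  refine ⟨D, fun p hp hpD => ?_⟩
  have hN : Pool.Agent.Y152.BD.Nv (Polynomial.X - Polynomial.C (p : ℤ)) 0 = -(p : ℤ) := by
    have h1 := Pool.Agent.Y152.BD.Nv_map (A := ℤ) (Polynomial.X - Polynomial.C (p : ℤ)) 0 0
      (by simp)
    rw [Int.cast_id] at h1
    rw [h1]
    simp
  obtain ⟨V, h1, h2, -⟩ := hD p hp hpD (p : ℂ) (Polynomial.X - Polynomial.C (p : ℤ))
    (Polynomial.irreducible_X_sub_C _) (by simp) 0 (by
      simpa using hp.one_lt.ne') (by rw [hN, dvd_neg]) Empty (Empty.elim : Empty → ℂ)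
    (algebraicIndependent_empty_type_iff.2 (algebraMap ℂ ℂ).injective)
  refine ⟨V, ?_, fun z hz => h2 ⟨z, hz⟩⟩
  rwa [Rat.cast_zero, sub_zero] at h1

theorem v_int_le (V : ValuationSubring ℂ) (a : ℤ) : V.valuation (a : ℂ) ≤ 1 :=
  (ValuationSubring.valuation_le_one_iff _ _).2 (intCast_mem V a)

theorem v_int_lt {V : ValuationSubring ℂ} {p : ℕ} (hV : V.valuation (p : ℂ) < 1) {a : ℤ}
    (h : (p : ℤ) ∣ a) : V.valuation (a : ℂ) < 1 := by
  obtain ⟨b, rfl⟩ := h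
  rw [Int.cast_mul, map_mul, Int.cast_natCast]
  calc V.valuation (p : ℂ) * V.valuation (b : ℂ) ≤ V.valuation (p : ℂ) * 1 :=
        mul_le_mul_right (v_int_le V b) _
    _ < 1 := by rw [mul_one]; exact hV

theorem v_int_eq_one {V : ValuationSubring ℂ} {p : ℕ} (hp : p.Prime)
    (hV : V.valuation (p : ℂ) < 1) {a : ℤ} (h : ¬ (p : ℤ) ∣ a) : V.valuation (a : ℂ) = 1 := by
  refine le_antisymm (v_int_le V a) ?_
  by_contra hcon
  push Not at hcon
  have hcop : IsCoprime (p : ℤ) a := by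
    rw [Int.isCoprime_iff_gcd_eq_one]
    have h1 : Nat.Coprime p a.natAbs := (Nat.Prime.coprime_iff_not_dvd hp).2
      fun h2 => h (Int.natCast_dvd.2 h2)
    rw [Int.gcd_eq_natAbs, Int.natAbs_natCast]
    exact h1
  obtain ⟨u, w, huw⟩ := hcop
  have h1 : ((u : ℤ) : ℂ) * ((p : ℕ) : ℂ) + ((w : ℤ) : ℂ) * ((a : ℤ) : ℂ) = 1 := by
    exact_mod_cast congrArg (Int.cast : ℤ → ℂ) huw
  have h2 := congrArg V.valuation h1
  rw [map_one] at h2
  have h3 : V.valuation (((u : ℤ) : ℂ) * ((p : ℕ) : ℂ)) < 1 := by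
    rw [map_mul]
    exact lt_of_le_of_lt (mul_le_of_le_one_left' (v_int_le V u)) hV
  have h4 : V.valuation (((w : ℤ) : ℂ) * ((a : ℤ) : ℂ)) < 1 := by
    rw [map_mul]
    exact lt_of_le_of_lt (mul_le_of_le_one_left' (v_int_le V w)) hcon
  exact absurd h2 (ne_of_lt (V.valuation.map_add_lt h3 h4))

end Pool.Agent.Q41.ZP
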