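import Pool.Agent.Q41.ZP.Basic

/-!
Large prime divisors of the values of coprime polynomials (helper file for Zilber-Pink for scalings
in polynomial families).
-/

namespace Pool.Agent.Q41.ZP

open Polynomial Finset

/-- coprime polynomials have no common large prime divisors of their values -/
theorem bezout {f g : ℤ[X]}
    (h : IsCoprime (f.map (Int.castRingHom ℚ)) (g.map (Int.castRingHom ℚ))) :
    ∃ r : ℤ, r ≠ 0 ∧ ∀ t p : ℤ, p ∣ f.eval t → p ∣ g.eval t → p ∣ r := by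
  obtain ⟨U, V, hUV⟩ := h
  obtain ⟨b, hb, hbU⟩ := IsLocalization.integerNormalization_spec (nonZeroDivisors ℤ) U
  obtain ⟨c, hc, hcV⟩ := IsLocalization.integerNormalization_spec (nonZeroDivisors ℤ) V
  set U' := IsLocalization.integerNormalization (nonZeroDivisors ℤ) U
  set V' := IsLocalization.integerNormalization (nonZeroDivisors ℤ) V
  have hb0 : b ≠ 0 := nonZeroDivisors.ne_zero hb
  have hc0 : c ≠ 0 := nonZeroDivisors.ne_zero hc
  have hbU' : U'.map (Int.castRingHom ℚ) = C (b : ℚ) * U := by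
    have : U'.map (Int.castRingHom ℚ) = (b : ℤ) • U := hbU
    rw [this, zsmul_eq_mul]
    simp
  have hcV' : V'.map (Int.castRingHom ℚ) = C (c : ℚ) * V := by
    have : V'.map (Int.castRingHom ℚ) = (c : ℤ) • V := hcV
    rw [this, zsmul_eq_mul]
    simp
  have key : C c * U' * f + C b * V' * g = C (b * c) := by
    apply Polynomial.map_injective (Int.castRingHom ℚ) Int.cast_injective
    rw [Polynomial.map_add, Polynomial.map_mul, Polynomial.map_mul, Polynomial.map_mul,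
      Polynomial.map_mul, hbU', hcV', Polynomial.map_C, Polynomial.map_C, Polynomial.map_C]
    simp only [eq_intCast, Int.cast_mul, C_mul]
    linear_combination (C (b : ℚ) * C (c : ℚ)) * hUV
  refine ⟨b * c, mul_ne_zero hb0 hc0, fun t p hf hg => ?_⟩
  have h1 := congrArg (Polynomial.eval t) key
  rw [eval_add, eval_mul, eval_mul, eval_mul, eval_mul, eval_C, eval_C, eval_C] at h1
  rw [← h1]
  exact dvd_add (dvd_mul_of_dvd_right hf _) (dvd_mul_of_dvd_right hg _)

theorem eval_bound (f : ℤ[X]) : ∃ K : ℕ, ∀ H t : ℕ, 1 ≤ H → t ≤ H →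
    (f.eval (t : ℤ)).natAbs ≤ K * H ^ f.natDegree := by
  refine ⟨∑ i ∈ range (f.natDegree + 1), (f.coeff i).natAbs, fun H t hH ht => ?_⟩
  rw [eval_eq_sum_range, sum_mul]
  have h1 : ∀ (s : Finset ℕ) (g : ℕ → ℤ), (∑ i ∈ s, g i).natAbs ≤ ∑ i ∈ s, (g i).natAbs := by
    intro s g
    induction s using Finset.induction_on with
    | empty => simp
    | insert a s ha ih =>
      rw [sum_insert ha, sum_insert ha]
      exact (Int.natAbs_add_le _ _).trans (by omega)
  refine (h1 _ _).trans (sum_le_sum fun i hi => ?_)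
  rw [mem_range] at hi
  rw [Int.natAbs_mul, Int.natAbs_pow, Int.natAbs_natCast]
  exact Nat.mul_le_mul_left _ ((Nat.pow_le_pow_left ht i).trans
    (Nat.pow_le_pow_right hH (by omega)))

theorem count_eq (f : ℤ[X]) (hf : 0 < f.natDegree) (H : ℕ) (c : ℤ) :
    ((Icc 1 H).filter fun t : ℕ => f.eval (t : ℤ) = c).card ≤ f.natDegree := by
  classical
  have h0 : f - C c ≠ 0 := by
    intro h
    rw [sub_eq_zero] at h
    rw [h, natDegree_C] at hf
    exact lt_irrefl _ hf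
  have h1 : (f - C c).natDegree = f.natDegree := natDegree_sub_C
  rw [← h1]
  refine le_trans ?_ ((f - C c).card_roots')
  refine le_trans ?_ (Multiset.toFinset_card_le _)
  refine card_le_card_of_injOn (fun t : ℕ => (t : ℤ)) ?_ ?_
  · intro t ht
    rw [Finset.mem_coe, mem_filter] at ht
    rw [Finset.mem_coe, Multiset.mem_toFinset, mem_roots h0, IsRoot, eval_sub, eval_C, ht.2,
      sub_self]
  · intro t _ t' _ h
    have h2 : (t : ℤ) = (t' : ℤ) := h
    exact_mod_cast h2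

theorem count_zero (f : ℤ[X]) (hf : f ≠ 0) (H : ℕ) :
    ((Icc 1 H).filter fun t : ℕ => f.eval (t : ℤ) = 0).card ≤ f.natDegree := by
  classical
  refine le_trans ?_ (f.card_roots')
  refine le_trans ?_ (Multiset.toFinset_card_le _)
  refine card_le_card_of_injOn (fun t : ℕ => (t : ℤ)) ?_ ?_
  · intro t ht
    rw [Finset.mem_coe, mem_filter] at ht
    rw [Finset.mem_coe, Multiset.mem_toFinset, mem_roots hf, IsRoot, ht.2]
  · intro t _ t' _ h
    have h2 : (t : ℤ) = (t' : ℤ) := h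
    exact_mod_cast h2

open Classical in
/-- few values of a polynomial are smooth -/
theorem count_smooth (f : ℤ[X]) (hf : 0 < f.natDegree) (E : ℕ) : ∃ K : ℕ, ∀ H : ℕ, 1 ≤ H →
    ((Icc 1 H).filter fun t : ℕ => f.eval (t : ℤ) ≠ 0 ∧
      ∀ p : ℕ, p.Prime → p ∣ (f.eval (t : ℤ)).natAbs → p ≤ E).card ≤ K * (Nat.log 2 H + 1) ^ K := by
  obtain ⟨K₀, hK₀⟩ := eval_bound f
  set d := f.natDegree with hd
  set A := 2 * d * (Nat.log 2 K₀ + 1 + d) ^ (E + 1) with hA
  refine ⟨max A (E + 1), fun H hH => ?_⟩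
  set S : Finset ℕ := (Icc 1 (K₀ * H ^ d)).filter fun m => ∀ p, p.Prime → p ∣ m → p ≤ E with hS
  have h1 : ((Icc 1 H).filter fun t : ℕ => f.eval (t : ℤ) ≠ 0 ∧
      ∀ p : ℕ, p.Prime → p ∣ (f.eval (t : ℤ)).natAbs → p ≤ E).card ≤ (2 * d) * S.card := by
    refine card_le_mul_card_image_of_maps_to (f := fun t : ℕ => (f.eval (t : ℤ)).natAbs) ?_ _ ?_
    · intro t ht
      rw [mem_filter, mem_Icc] at ht
      rw [hS, mem_filter, mem_Icc]
      exact ⟨⟨Int.natAbs_pos.2 ht.2.1, hK₀ H t hH ht.1.2⟩, ht.2.2⟩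
    · intro m _
      have h2 : (((Icc 1 H).filter fun t : ℕ => f.eval (t : ℤ) ≠ 0 ∧
          ∀ p : ℕ, p.Prime → p ∣ (f.eval (t : ℤ)).natAbs → p ≤ E).filter
            fun t : ℕ => (f.eval (t : ℤ)).natAbs = m) ⊆
          ((Icc 1 H).filter fun t : ℕ => f.eval (t : ℤ) = (m : ℤ)) ∪
          ((Icc 1 H).filter fun t : ℕ => f.eval (t : ℤ) = -(m : ℤ)) := by
        intro t ht
        rw [mem_filter, mem_filter] at ht
        rw [mem_union, mem_filter, mem_filter]
        rcases Int.natAbs_eq (f.eval (t : ℤ)) with h | h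
        · left
          exact ⟨ht.1.1, by rw [h, ht.2]⟩
        · right
          exact ⟨ht.1.1, by rw [h, ht.2]⟩
      refine (card_le_card h2).trans ((card_union_le _ _).trans ?_)
      have h3 := count_eq f hf H (m : ℤ)
      have h4 := count_eq f hf H (-(m : ℤ))
      omega
  have h5 : S.card ≤ (Nat.log 2 (K₀ * H ^ d) + 1) ^ (E + 1) :=
    Pool.Agent.W466.ZC.smooth_card E (K₀ * H ^ d)
  have h6 : Nat.log 2 (K₀ * H ^ d) + 1 ≤ (Nat.log 2 K₀ + 1 + d) * (Nat.log 2 H + 1) := by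
    have h7 : K₀ < 2 ^ (Nat.log 2 K₀ + 1) := Nat.lt_pow_succ_log_self (by norm_num) _
    have h8 : H < 2 ^ (Nat.log 2 H + 1) := Nat.lt_pow_succ_log_self (by norm_num) _
    rcases Nat.eq_zero_or_pos (K₀ * H ^ d) with h0 | h0
    · rw [h0, Nat.log_zero_right, zero_add]
      exact Nat.mul_pos (by omega) (by omega)
    · have h9 : K₀ * H ^ d < 2 ^ ((Nat.log 2 K₀ + 1) + d * (Nat.log 2 H + 1)) := by
        rw [pow_add, mul_comm d, pow_mul]
        refine Nat.mul_lt_mul_of_lt_of_le h7 (Nat.pow_le_pow_left h8.le d) (by positivity)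
      have h10 := Nat.log_lt_of_lt_pow h0.ne' h9
      nlinarith [Nat.zero_le (Nat.log 2 K₀ * Nat.log 2 H), Nat.zero_le (Nat.log 2 H)]
  calc _ ≤ (2 * d) * S.card := h1
    _ ≤ (2 * d) * ((Nat.log 2 K₀ + 1 + d) * (Nat.log 2 H + 1)) ^ (E + 1) := by
        gcongr
        exact h5.trans (Nat.pow_le_pow_left h6 _)
    _ = A * (Nat.log 2 H + 1) ^ (E + 1) := by
        rw [hA, mul_pow]
        ring
    _ ≤ max A (E + 1) * (Nat.log 2 H + 1) ^ (max A (E + 1)) :=
        Nat.mul_le_mul (le_max_left _ _) (Nat.pow_le_pow_right (by omega) (le_max_right _ _))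

open Classical in
/-- For all but few `t` the values at `t` of pairwise coprime polynomials have large prime divisors
of their own. -/
theorem count_family {ι : Type*} [Fintype ι] {L : ℕ} (f : Fin L → ℤ[X]) (hf : ∀ l, 0 < (f l).natDegree)
    (hcop : ∀ l l', l ≠ l' →
      IsCoprime ((f l).map (Int.castRingHom ℚ)) ((f l').map (Int.castRingHom ℚ)))
    (g : ι → ℤ[X]) (hg : ∀ i, g i ≠ 0) (hfg : ∀ l i,
      IsCoprime ((f l).map (Int.castRingHom ℚ)) ((g i).map (Int.castRingHom ℚ))) (D : ℕ) :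
    ∃ K : ℕ, ∀ H : ℕ, 1 ≤ H →
      ((Icc 1 H).filter fun t : ℕ => ¬ ((∀ l, (f l).eval (t : ℤ) ≠ 0) ∧
        (∀ i, (g i).eval (t : ℤ) ≠ 0) ∧ ∃ p : Fin L → ℕ,
          (∀ l, (p l).Prime ∧ D < p l ∧ p l ∣ ((f l).eval (t : ℤ)).natAbs) ∧
          (∀ l l', l ≠ l' → ¬ p l ∣ ((f l').eval (t : ℤ)).natAbs) ∧
          ∀ l i, ¬ p l ∣ ((g i).eval (t : ℤ)).natAbs)).card ≤ K * (Nat.log 2 H + 1) ^ K := by
  -- the bad primes
  choose! r hr0 hr using fun (l l' : Fin L) (h : l ≠ l') => bezout (hcop l l' h)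
  choose s hs0 hs using fun l i => bezout (hfg l i)
  set E : ℕ := D + (∑ l, ∑ l', (r l l').natAbs) + ∑ l, ∑ i, (s l i).natAbs with hE
  choose K hK using fun l => count_smooth (f l) (hf l) E
  set M := (∑ l, ((f l).natDegree + K l)) + ∑ i, (g i).natDegree with hM
  refine ⟨M, fun H hH => ?_⟩
  have hsub : ((Icc 1 H).filter fun t : ℕ => ¬ ((∀ l, (f l).eval (t : ℤ) ≠ 0) ∧
        (∀ i, (g i).eval (t : ℤ) ≠ 0) ∧ ∃ p : Fin L → ℕ,
          (∀ l, (p l).Prime ∧ D < p l ∧ p l ∣ ((f l).eval (t : ℤ)).natAbs) ∧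
          (∀ l l', l ≠ l' → ¬ p l ∣ ((f l').eval (t : ℤ)).natAbs) ∧
          ∀ l i, ¬ p l ∣ ((g i).eval (t : ℤ)).natAbs)) ⊆
      (univ.biUnion fun l => ((Icc 1 H).filter fun t : ℕ => (f l).eval (t : ℤ) = 0) ∪
        ((Icc 1 H).filter fun t : ℕ => (f l).eval (t : ℤ) ≠ 0 ∧
          ∀ p : ℕ, p.Prime → p ∣ ((f l).eval (t : ℤ)).natAbs → p ≤ E)) ∪
      univ.biUnion fun i => (Icc 1 H).filter fun t : ℕ => (g i).eval (t : ℤ) = 0 := by
    intro t ht
    rw [mem_filter] at ht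
    by_contra hcon
    rw [mem_union, not_or, mem_biUnion, mem_biUnion] at hcon
    apply ht.2
    have hf0 : ∀ l, (f l).eval (t : ℤ) ≠ 0 := fun l h => hcon.1 ⟨l, mem_univ _,
      mem_union_left _ (mem_filter.2 ⟨ht.1, h⟩)⟩
    have hg0 : ∀ i, (g i).eval (t : ℤ) ≠ 0 := fun i h => hcon.2 ⟨i, mem_univ _,
      mem_filter.2 ⟨ht.1, h⟩⟩
    have hp : ∀ l, ∃ p : ℕ, p.Prime ∧ E < p ∧ p ∣ ((f l).eval (t : ℤ)).natAbs := by
      intro l
      by_contra hl
      apply hcon.1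
      refine ⟨l, mem_univ _, mem_union_right _ (mem_filter.2 ⟨ht.1, hf0 l, fun p hp hd => ?_⟩)⟩
      by_contra hlt
      exact hl ⟨p, hp, by omega, hd⟩
    choose p hpp hpE hpd using hp
    refine ⟨hf0, hg0, p, fun l => ⟨hpp l, by have := hpE l; omega, hpd l⟩, ?_, ?_⟩
    · intro l l' hll h
      have h1 := hr l l' hll t (p l) (Int.natCast_dvd.2 (hpd l)) (Int.natCast_dvd.2 h)
      have h2 := Nat.le_of_dvd (Int.natAbs_pos.2 (hr0 l l' hll)) (Int.natCast_dvd.1 h1)
      have h3 : (r l l').natAbs ≤ ∑ l, ∑ l', (r l l').natAbs :=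
        (single_le_sum (f := fun l' => (r l l').natAbs) (fun _ _ => Nat.zero_le _)
          (mem_univ l')).trans
          (single_le_sum (f := fun l => ∑ l', (r l l').natAbs) (fun _ _ => Nat.zero_le _)
            (mem_univ l))
      have := hpE l
      omega
    · intro l i h
      have h1 := hs l i t (p l) (Int.natCast_dvd.2 (hpd l)) (Int.natCast_dvd.2 h)
      have h2 := Nat.le_of_dvd (Int.natAbs_pos.2 (hs0 l i)) (Int.natCast_dvd.1 h1)
      have h3 : (s l i).natAbs ≤ ∑ l, ∑ i, (s l i).natAbs :=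
        (single_le_sum (f := fun i => (s l i).natAbs) (fun _ _ => Nat.zero_le _)
          (mem_univ i)).trans
          (single_le_sum (f := fun l => ∑ i, (s l i).natAbs) (fun _ _ => Nat.zero_le _)
            (mem_univ l))
      have := hpE l
      omega
  have hlog : 1 ≤ (Nat.log 2 H + 1) ^ M := Nat.one_le_pow _ _ (by omega)
  refine (card_le_card hsub).trans ((card_union_le _ _).trans
    ((Nat.add_le_add card_biUnion_le card_biUnion_le).trans ?_))
  rw [hM, add_mul, sum_mul, sum_mul, ← hM]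
  refine Nat.add_le_add (sum_le_sum fun l _ => ?_) (sum_le_sum fun i _ => ?_)
  · refine (card_union_le _ _).trans ?_
    rw [add_mul]
    refine Nat.add_le_add ((count_zero (f l) (by
      rintro h
      have := hf l
      rw [h, natDegree_zero] at this
      exact lt_irrefl _ this) H).trans (Nat.le_mul_of_pos_right _ hlog)) ?_
    refine (hK l H hH).trans (Nat.mul_le_mul_left _ (Nat.pow_le_pow_right (by omega) ?_))
    have : K l ≤ ∑ l, ((f l).natDegree + K l) :=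
      (Nat.le_add_left _ _).trans (single_le_sum (f := fun l => (f l).natDegree + K l)
        (fun _ _ => Nat.zero_le _) (mem_univ l))
    omega
  · exact (count_zero (g i) (hg i) H).trans (Nat.le_mul_of_pos_right _ hlog)

/-- The same as a statement on sets. -/
theorem count_family' {ι : Type*} [Fintype ι] {L : ℕ} (f : Fin L → ℤ[X])
    (hf : ∀ l, 0 < (f l).natDegree) (hcop : ∀ l l', l ≠ l' →
      IsCoprime ((f l).map (Int.castRingHom ℚ)) ((f l').map (Int.castRingHom ℚ)))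
    (g : ι → ℤ[X]) (hg : ∀ i, g i ≠ 0) (hfg : ∀ l i,
      IsCoprime ((f l).map (Int.castRingHom ℚ)) ((g i).map (Int.castRingHom ℚ))) (D : ℕ) :
    ∃ K : ℕ, ∀ H : ℕ, 1 ≤ H →
      Set.ncard {t : ℕ | 1 ≤ t ∧ t ≤ H ∧ ¬ ((∀ l, (f l).eval (t : ℤ) ≠ 0) ∧
        (∀ i, (g i).eval (t : ℤ) ≠ 0) ∧ ∃ p : Fin L → ℕ,
          (∀ l, (p l).Prime ∧ D < p l ∧ p l ∣ ((f l).eval (t : ℤ)).natAbs) ∧
          (∀ l l', l ≠ l' → ¬ p l ∣ ((f l').eval (t : ℤ)).natAbs) ∧
          ∀ l i, ¬ p l ∣ ((g i).eval (t : ℤ)).natAbs)} ≤ K * (Nat.log 2 H + 1) ^ K := by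
  classical
  obtain ⟨K, hK⟩ := count_family f hf hcop g hg hfg D
  refine ⟨K, fun H hH => le_trans ?_ (hK H hH)⟩
  rw [← Set.ncard_coe_finset]
  refine Set.ncard_le_ncard ?_ (Finset.finite_toSet _)
  rintro t ⟨ht1, ht2, ht3⟩
  rw [Finset.mem_coe, Finset.mem_filter, Finset.mem_Icc]
  exact ⟨⟨ht1, ht2⟩, ht3⟩

theorem natAbs_prod' {ι : Type*} (s : Finset ι) (g : ι → ℤ) :
    (∏ i ∈ s, g i).natAbs = ∏ i ∈ s, (g i).natAbs :=
  map_prod Int.natAbsHom g s

end Pool.Agent.Q41.ZP
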