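import Mathlib

/-!
Numbers whose prime factors divide a given number (helper file): Rankin's trick.
-/

namespace Pool.Agent.Q41.ZP

open Finset

/-- `n ^ (-ε)` as a multiplicative map -/
noncomputable def powHom (ε : ℝ) : ℕ →* ℝ where
  toFun n := (n : ℝ) ^ (-ε)
  map_one' := by simp
  map_mul' m n := by
    push_cast
    exact Real.mul_rpow (Nat.cast_nonneg m) (Nat.cast_nonneg n)

theorem powHom_lt_one {ε : ℝ} (hε : 0 < ε) {p : ℕ} (hp : p.Prime) : ‖powHom ε p‖ < 1 := by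
  have h1 : (1 : ℝ) < p := by exact_mod_cast hp.one_lt
  show ‖(p : ℝ) ^ (-ε)‖ < 1
  rw [Real.norm_of_nonneg (by positivity)]
  exact Real.rpow_lt_one_of_one_lt_of_neg h1 (by linarith)

/-- the Euler product over the primes dividing `R` -/
theorem prod_le {ε : ℝ} (hε : 0 < ε) : ∃ C : ℝ, 0 < C ∧ ∀ R : ℕ, R ≠ 0 →
    ∏ p ∈ R.primeFactors with p.Prime, (1 - powHom ε p)⁻¹ ≤ C * (R : ℝ) ^ ε := by
  obtain ⟨P, hP⟩ := exists_nat_ge ((2 : ℝ) ^ (1 / ε))
  set A : ℝ := (1 - (2 : ℝ) ^ (-ε))⁻¹ with hA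
  have h2 : (2 : ℝ) ^ (-ε) < 1 := Real.rpow_lt_one_of_one_lt_of_neg one_lt_two (by linarith)
  have h20 : 0 < (2 : ℝ) ^ (-ε) := by positivity
  have hA1 : 1 ≤ A := by
    rw [hA]
    exact (one_le_inv₀ (by linarith)).2 (by linarith)
  refine ⟨A ^ (P + 1), by positivity, fun R hR => ?_⟩
  have hfac : ∀ p ∈ R.primeFactors.filter Nat.Prime, (1 - powHom ε p)⁻¹ ≤
      (if p ≤ P then A else 1) * (p : ℝ) ^ ε := by
    intro p hp
    have hpp : p.Prime := (mem_filter.1 hp).2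
    have hp2 : (2 : ℝ) ≤ p := by exact_mod_cast hpp.two_le
    have hp1 : (1 : ℝ) ≤ (p : ℝ) ^ ε := Real.one_le_rpow (by linarith) hε.le
    have hval : powHom ε p = (p : ℝ) ^ (-ε) := rfl
    have hle : (p : ℝ) ^ (-ε) ≤ (2 : ℝ) ^ (-ε) :=
      Real.rpow_le_rpow_of_nonpos (by norm_num) hp2 (by linarith)
    split_ifs with h
    · have h3 : (1 - powHom ε p)⁻¹ ≤ A := by
        rw [hA, hval]
        exact inv_anti₀ (by linarith) (by linarith)
      calc (1 - powHom ε p)⁻¹ ≤ A := h3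
        _ ≤ A * (p : ℝ) ^ ε := le_mul_of_one_le_right (by linarith) hp1
    · push Not at h
      have h4 : (2 : ℝ) ^ (1 / ε) ≤ p := hP.trans (by exact_mod_cast h.le)
      have h5 : (2 : ℝ) ≤ (p : ℝ) ^ ε := by
        have h6 := Real.rpow_le_rpow (by positivity) h4 hε.le
        rw [← Real.rpow_mul (by norm_num), one_div, inv_mul_cancel₀ hε.ne', Real.rpow_one] at h6
        exact h6
      have h6 : (p : ℝ) ^ (-ε) ≤ 1 / 2 := by
        rw [Real.rpow_neg (by linarith), ← one_div]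
        exact one_div_le_one_div_of_le (by norm_num) h5
      rw [one_mul, hval]
      calc (1 - (p : ℝ) ^ (-ε))⁻¹ ≤ (1 / 2 : ℝ)⁻¹ := inv_anti₀ (by norm_num) (by linarith)
        _ = 2 := by norm_num
        _ ≤ _ := h5
  have hpos : ∀ p ∈ R.primeFactors.filter Nat.Prime, 0 ≤ (1 - powHom ε p)⁻¹ := by
    intro p hp
    have h3 := powHom_lt_one hε (mem_filter.1 hp).2
    rw [Real.norm_eq_abs] at h3
    exact inv_nonneg.2 (by linarith [le_abs_self (powHom ε p)])
  refine (prod_le_prod hpos hfac).trans ?_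
  rw [prod_mul_distrib]
  have h3 : ∏ p ∈ R.primeFactors with p.Prime, (if p ≤ P then A else (1 : ℝ)) ≤ A ^ (P + 1) := by
    rw [← prod_filter, prod_const]
    refine pow_le_pow_right₀ hA1 ?_
    refine (card_le_card (t := range (P + 1)) ?_).trans (by rw [card_range])
    intro p hp
    exact mem_range.2 (Nat.lt_succ_of_le (mem_filter.1 hp).2)
  have h4 : ∏ p ∈ R.primeFactors with p.Prime, (p : ℝ) ^ ε ≤ (R : ℝ) ^ ε := by
    have h5 : (R.primeFactors.filter Nat.Prime) = R.primeFactors :=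
      filter_true_of_mem fun p hp => Nat.prime_of_mem_primeFactors hp
    rw [h5, Real.finsetProd_rpow _ _ (fun p _ => Nat.cast_nonneg p)]
    refine Real.rpow_le_rpow (prod_nonneg fun p _ => Nat.cast_nonneg p) ?_ hε.le
    have h6 : ∏ p ∈ R.primeFactors, p ≤ R :=
      Nat.le_of_dvd (Nat.pos_of_ne_zero hR) (Nat.prod_primeFactors_dvd R)
    have h7 : ((∏ p ∈ R.primeFactors, p : ℕ) : ℝ) ≤ (R : ℝ) := by exact_mod_cast h6
    rw [Nat.cast_prod] at h7
    exact h7
  have h5 : 0 ≤ ∏ p ∈ R.primeFactors with p.Prime, (p : ℝ) ^ ε :=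
    prod_nonneg fun p _ => by positivity
  exact mul_le_mul h3 h4 h5 (by positivity)

open Classical in
/-- Rankin's trick: few numbers up to `X` are composed of primes dividing `R`. -/
theorem rankin {ε : ℝ} (hε : 0 < ε) : ∃ C : ℝ, 0 < C ∧ ∀ R X : ℕ, R ≠ 0 →
    (((Icc 1 X).filter fun n => ∀ p, p.Prime → p ∣ n → p ∣ R).card : ℝ) ≤
      C * (X : ℝ) ^ ε * (R : ℝ) ^ ε := by
  obtain ⟨C, hC0, hC⟩ := prod_le hε
  refine ⟨C, hC0, fun R X hR => ?_⟩
  obtain ⟨h1, h2⟩ := EulerProduct.summable_and_hasSum_factoredNumbers_prod_filter_prime_geometric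
    (fun {p} hp => powHom_lt_one hε hp) R.primeFactors
  set S := (Icc 1 X).filter fun n => ∀ p, p.Prime → p ∣ n → p ∣ R with hS
  have hmem : ∀ n ∈ S, n ∈ Nat.factoredNumbers R.primeFactors := by
    intro n hn
    obtain ⟨h3, h4⟩ := mem_filter.1 hn
    refine Nat.mem_factoredNumbers.2 ⟨by have := (mem_Icc.1 h3).1; omega, fun p hp => ?_⟩
    have hpp := Nat.prime_of_mem_primeFactorsList hp
    exact Nat.mem_primeFactors.2 ⟨hpp, h4 p hpp (Nat.dvd_of_mem_primeFactorsList hp), hR⟩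
  let e : {n // n ∈ S} → Nat.factoredNumbers R.primeFactors := fun n => ⟨n.1, hmem n.1 n.2⟩
  have he : Function.Injective e := fun a b h =>
    Subtype.ext (congrArg (Subtype.val : Nat.factoredNumbers R.primeFactors → ℕ) h)
  have hsum : ∑ n ∈ S, powHom ε n ≤ ∏ p ∈ R.primeFactors with p.Prime, (1 - powHom ε p)⁻¹ := by
    have h3 : ∑ n ∈ S, powHom ε n = ∑ m ∈ (univ : Finset {n // n ∈ S}).map ⟨e, he⟩, powHom ε m := by
      rw [sum_map]
      simp only [Function.Embedding.coeFn_mk, e]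
      exact (sum_coe_sort S (fun n => powHom ε n)).symm
    rw [h3]
    refine sum_le_hasSum _ (fun m _ => ?_) h2
    show 0 ≤ ((m : ℕ) : ℝ) ^ (-ε)
    positivity
  rcases Nat.eq_zero_or_pos X with hX | hX
  · have h3 : S = ∅ := by
      rw [hS, hX]
      rfl
    rw [h3, card_empty, Nat.cast_zero]
    positivity
  have hX0 : (0 : ℝ) < X := by exact_mod_cast hX
  have h3 : (S.card : ℝ) ≤ (X : ℝ) ^ ε * ∑ n ∈ S, powHom ε n := by
    rw [mul_sum]
    have h4 : (S.card : ℝ) = ∑ _n ∈ S, (1 : ℝ) := by simp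
    rw [h4]
    refine sum_le_sum fun n hn => ?_
    have h5 := mem_Icc.1 (mem_filter.1 hn).1
    have hn0 : (0 : ℝ) < n := by exact_mod_cast (by omega : 0 < n)
    show (1 : ℝ) ≤ (X : ℝ) ^ ε * (n : ℝ) ^ (-ε)
    rw [Real.rpow_neg hn0.le, ← div_eq_mul_inv, le_div_iff₀ (by positivity), one_mul]
    exact Real.rpow_le_rpow hn0.le (by exact_mod_cast h5.2) hε.le
  calc (S.card : ℝ) ≤ (X : ℝ) ^ ε * ∑ n ∈ S, powHom ε n := h3
    _ ≤ (X : ℝ) ^ ε * (C * (R : ℝ) ^ ε) := by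
        refine mul_le_mul_of_nonneg_left (hsum.trans (hC R hR)) (by positivity)
    _ = _ := by ring

end Pool.Agent.Q41.ZP
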