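import Pool.Agent.Q41.ZP.Multi
import Pool.Agent.Q41.ZP.Mon

/-!
Common large prime divisors of the values of two polynomials in several variables, and smooth
values (helper file for Zilber-Pink for multi-parameter families over `ℤ`).
-/

namespace Pool.Agent.Q41.ZP

open Polynomial Finset

/-- the polynomials in the last parameter over the ring of the polynomials in the others -/
abbrev Par (s : ℕ) : Type := Polynomial (MvPolynomial (Fin s) ℤ)

/-- the value of a polynomial in the parameters at an integral point -/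
noncomputable def spz {s : ℕ} (u : Fin s → ℤ) (t : ℤ) : Par s →+* ℤ :=
  (Polynomial.evalRingHom t).comp (Polynomial.mapRingHom (MvPolynomial.eval u))

theorem spz_apply {s : ℕ} (u : Fin s → ℤ) (t : ℤ) (f : Par s) :
    spz u t f = (f.map (MvPolynomial.eval u)).eval t := rfl

theorem spz_C {s : ℕ} (u : Fin s → ℤ) (t : ℤ) (r : MvPolynomial (Fin s) ℤ) :
    spz u t (C r) = MvPolynomial.eval u r := by
  rw [spz_apply, Polynomial.map_C, Polynomial.eval_C]

theorem map_deg {s : ℕ} {f : Par s} {a : ℤ} (ha0 : a ≠ 0) (ha : f.leadingCoeff = MvPolynomial.C a)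
    (u : Fin s → ℤ) : (f.map (MvPolynomial.eval u)).natDegree = f.natDegree ∧
      (f.map (MvPolynomial.eval u)).leadingCoeff = a := by
  have h1 : MvPolynomial.eval u f.leadingCoeff = a := by
    rw [ha, MvPolynomial.eval_C]
  have h2 : MvPolynomial.eval u f.leadingCoeff ≠ 0 := by
    rw [h1]
    exact ha0
  exact ⟨Polynomial.natDegree_map_of_leadingCoeff_ne_zero _ h2,
    by rw [Polynomial.leadingCoeff_map_of_leadingCoeff_ne_zero _ h2, h1]⟩

/-- fibring over the first parameters -/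
theorem card_fib {s H B : ℕ} (P : (Fin s → ℕ) → ℕ → Prop) [∀ u, DecidablePred (P u)]
    (U : Finset (Fin s → ℕ))
    (hP : ∀ u ∈ box s H, ∀ t ∈ Icc 1 H, P u t → u ∈ U)
    (hB : ∀ u ∈ U, ((Icc 1 H).filter fun t => P u t).card ≤ B) :
    ((box s H ×ˢ Icc 1 H).filter fun z => P z.1 z.2).card ≤ B * U.card := by
  refine card_le_mul_card_image_of_maps_to (f := fun z : (Fin s → ℕ) × ℕ => z.1) ?_ _ ?_
  · intro z hz
    rw [mem_filter, mem_product] at hz
    exact hP z.1 hz.1.1 z.2 hz.1.2 hz.2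
  · intro u hu
    refine le_trans ?_ (hB u hu)
    refine card_le_card_of_injOn (fun z : (Fin s → ℕ) × ℕ => z.2) ?_ ?_
    · intro z hz
      rw [Finset.mem_coe, mem_filter, mem_filter, mem_product] at hz
      rw [Finset.mem_coe, mem_filter]
      exact ⟨hz.1.1.2, hz.2 ▸ hz.1.2⟩
    · intro z hz z' hz' h
      rw [Finset.mem_coe, mem_filter] at hz hz'
      exact Prod.ext (hz.2.trans hz'.2.symm) h

/-- the number of the large prime factors of a number -/
theorem card_large_primes {H n K D : ℕ} (hH : 2 ≤ H) (hn : n ≠ 0) (hnK : n ≤ K * H ^ D) :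
    (n.primeFactors.filter fun p => H < p).card ≤ D + Nat.log 2 K + 1 := by
  set S := n.primeFactors.filter fun p => H < p with hS
  have h1 : ∏ p ∈ S, p ≤ n := by
    refine Nat.le_of_dvd (Nat.pos_of_ne_zero hn) ?_
    exact (Finset.prod_dvd_prod_of_subset _ _ _ (filter_subset _ _)).trans
      (Nat.prod_primeFactors_dvd n)
  have h2 : H ^ S.card ≤ ∏ p ∈ S, p := by
    rw [← prod_const]
    exact prod_le_prod' fun p hp => (mem_filter.1 hp).2.le
  by_contra hcon
  push Not at hcon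
  obtain ⟨j, hj⟩ : ∃ j, S.card = D + (Nat.log 2 K + 1) + j := ⟨S.card - D - Nat.log 2 K - 1, by omega⟩
  have h3 : K < 2 ^ (Nat.log 2 K + 1) := Nat.lt_pow_succ_log_self (by norm_num) _
  have h4 : K * H ^ D < H ^ S.card := by
    rw [hj, pow_add, pow_add]
    have h5 : 2 ^ (Nat.log 2 K + 1) ≤ H ^ (Nat.log 2 K + 1) := Nat.pow_le_pow_left hH _
    have h6 : 1 ≤ H ^ j := Nat.one_le_pow _ _ (by omega)
    have h7 : 0 < H ^ D := Nat.pow_pos (by omega)
    calc K * H ^ D = H ^ D * K := mul_comm _ _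
      _ < H ^ D * H ^ (Nat.log 2 K + 1) := Nat.mul_lt_mul_of_pos_left (by omega) h7
      _ ≤ H ^ D * H ^ (Nat.log 2 K + 1) * H ^ j := Nat.le_mul_of_pos_right _ h6
  omega

open Classical in
/-- Few values have common large prime divisors. -/
theorem sieve {s : ℕ} {f g : Par s} (hf : Irreducible f) (hd : 0 < f.natDegree) {a : ℤ}
    (ha : f.leadingCoeff = MvPolynomial.C a) (hg : ¬ f ∣ g) :
    ∃ c y₀ : ℕ, 1 ≤ y₀ ∧ ∀ y : ℕ, y₀ ≤ y → ∀ H : ℕ, 2 ≤ H →
      (((box s H ×ˢ Icc 1 H).filter fun z => ∃ p : ℕ, p.Prime ∧ y < p ∧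
        (p : ℤ) ∣ spz (pt z.1) z.2 f ∧ (p : ℤ) ∣ spz (pt z.1) z.2 g).card : ℝ) ≤
        c * (H : ℝ) ^ (s + 1) / y + c * (H : ℝ) ^ s := by
  have ha0 : a ≠ 0 := by
    rintro rfl
    rw [map_zero, Polynomial.leadingCoeff_eq_zero] at ha
    rw [ha, Polynomial.natDegree_zero] at hd
    exact lt_irrefl _ hd
  obtain ⟨r, hr0, U, V, hUV⟩ := bezoutA hf hd hg
  obtain ⟨K, D, hKD⟩ := eval_bound_mv r
  obtain ⟨μ, hμ⟩ := MvPolynomial.exists_coeff_ne_zero hr0
  set d := f.natDegree with hdef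
  set e := r.totalDegree with he
  set C₁ := D + Nat.log 2 K + 1 with hC₁
  refine ⟨e * d * 2 ^ (s + 1) + (e + C₁ * d), a.natAbs + (r.coeff μ).natAbs + 1, by omega,
    fun y hy H hH => ?_⟩
  have hr : ∀ (u : Fin s → ℤ) (t : ℤ) (p : ℤ), p ∣ spz u t f → p ∣ spz u t g →
      p ∣ MvPolynomial.eval u r := by
    intro u t p h1 h2
    have h3 := congrArg (spz u t) hUV
    rw [map_add, map_mul, map_mul, spz_C] at h3
    rw [← h3]
    exact dvd_add (h1.mul_left _) (h2.mul_left _)
  have hpa : ∀ p : ℕ, y < p → ¬ (p : ℤ) ∣ a := by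
    intro p hp h
    have := Nat.le_of_dvd (Int.natAbs_pos.2 ha0) (Int.natCast_dvd.1 h)
    omega
  have hpr : ∀ p : ℕ, y < p → MvPolynomial.map (Int.castRingHom (ZMod p)) r ≠ 0 := by
    intro p hp h
    have h1 := congrArg (MvPolynomial.coeff μ) h
    rw [MvPolynomial.coeff_map, MvPolynomial.coeff_zero, eq_intCast,
      ZMod.intCast_zmod_eq_zero_iff_dvd] at h1
    have := Nat.le_of_dvd (Int.natAbs_pos.2 hμ) (Int.natCast_dvd.1 h1)
    omega
  have hfu : ∀ (u : Fin s → ℕ) (p : ℕ), p.Prime → y < p →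
      ((Icc 1 H).filter fun t : ℕ => (p : ℤ) ∣ spz (pt u) t f).card ≤ d * (H / p + 1) := by
    intro u p hp hyp
    obtain ⟨h1, h2⟩ := map_deg ha0 ha (pt u)
    have h3 := count_mod (f := f.map (MvPolynomial.eval (pt u))) (H := H) hp (by
      rw [h2]
      exact hpa p hyp)
    rw [h1] at h3
    exact h3
  let S1 : Finset ((Fin s → ℕ) × ℕ) := (box s H ×ˢ Icc 1 H).filter fun z =>
    MvPolynomial.eval (pt z.1) r = 0
  let S2 : ℕ → Finset ((Fin s → ℕ) × ℕ) := fun p => (box s H ×ˢ Icc 1 H).filter fun z =>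
    p.Prime ∧ (p : ℤ) ∣ MvPolynomial.eval (pt z.1) r ∧ (p : ℤ) ∣ spz (pt z.1) z.2 f
  let S3 : Finset ((Fin s → ℕ) × ℕ) := (box s H ×ˢ Icc 1 H).filter fun z =>
    MvPolynomial.eval (pt z.1) r ≠ 0 ∧ ∃ p : ℕ, p.Prime ∧ y < p ∧ H < p ∧
      (p : ℤ) ∣ MvPolynomial.eval (pt z.1) r ∧ (p : ℤ) ∣ spz (pt z.1) z.2 f
  have hsub : ((box s H ×ˢ Icc 1 H).filter fun z => ∃ p : ℕ, p.Prime ∧ y < p ∧
        (p : ℤ) ∣ spz (pt z.1) z.2 f ∧ (p : ℤ) ∣ spz (pt z.1) z.2 g) ⊆
      (Ioc y H).biUnion S2 ∪ (S1 ∪ S3) := by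
    intro z hz
    rw [mem_filter] at hz
    obtain ⟨hz1, p, hp, hyp, hpf, hpg⟩ := hz
    have hpr' := hr _ _ _ hpf hpg
    rw [mem_union, mem_union]
    by_cases h0 : MvPolynomial.eval (pt z.1) r = 0
    · exact Or.inr (Or.inl (mem_filter.2 ⟨hz1, h0⟩))
    · by_cases hpH : p ≤ H
      · left
        rw [mem_biUnion]
        exact ⟨p, mem_Ioc.2 ⟨hyp, hpH⟩, mem_filter.2 ⟨hz1, hp, hpr', hpf⟩⟩
      · exact Or.inr (Or.inr (mem_filter.2 ⟨hz1, h0, p, hp, hyp, by omega, hpr', hpf⟩))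
  have hH1 : 1 ≤ H := by omega
  have hHr : (1 : ℝ) ≤ H := by exact_mod_cast hH1
  have hS1 : (S1.card : ℝ) ≤ e * (H : ℝ) ^ s := by
    have h1 : S1.card ≤ H * ((box s H).filter fun u => MvPolynomial.eval (pt u) r = 0).card := by
      refine card_fib (P := fun u _ => MvPolynomial.eval (pt u) r = 0) _ ?_ ?_
      · intro u hu t _ h
        exact mem_filter.2 ⟨hu, h⟩
      · intro u _
        refine (card_filter_le _ _).trans ?_
        simp
    have h2 := count_zero_mv hr0 hH1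
    rw [mul_comm] at h2
    exact_mod_cast h1.trans h2
  have hS2 : ∀ p ∈ Ioc y H, ((S2 p).card : ℝ) ≤
      (e * d * 2 ^ (s + 1) : ℕ) * (H : ℝ) ^ (s + 1) * ((p : ℝ) ^ 2)⁻¹ := by
    intro p hp
    rw [mem_Ioc] at hp
    by_cases hpp : p.Prime
    · have h1 : (S2 p).card ≤ (d * (H / p + 1)) *
          ((box s H).filter fun u => (p : ℤ) ∣ MvPolynomial.eval (pt u) r).card := by
        refine card_fib (P := fun u t => p.Prime ∧ (p : ℤ) ∣ MvPolynomial.eval (pt u) r ∧
          (p : ℤ) ∣ spz (pt u) t f) _ ?_ ?_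
        · intro u hu t _ h
          exact mem_filter.2 ⟨hu, h.2.1⟩
        · intro u _
          refine le_trans (card_le_card fun t ht => ?_) (hfu u p hpp hp.1)
          rw [mem_filter] at ht ⊢
          exact ⟨ht.1, ht.2.2.2⟩
      have h2 := count_mod_mv hpp (hpr p hp.1) hp.2
      have h3 : (H / p + 1) * p ≤ 2 * H := by
        have := Nat.div_mul_le_self H p
        have := hp.2
        nlinarith
      have h4 : (S2 p).card * p ^ 2 ≤ e * d * 2 ^ (s + 1) * H ^ (s + 1) := by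
        calc (S2 p).card * p ^ 2 ≤ (d * (H / p + 1)) *
              ((box s H).filter fun u => (p : ℤ) ∣ MvPolynomial.eval (pt u) r).card * p ^ 2 :=
              Nat.mul_le_mul_right _ h1
          _ = d * ((H / p + 1) * p) *
              (((box s H).filter fun u => (p : ℤ) ∣ MvPolynomial.eval (pt u) r).card * p) := by
              ring
          _ ≤ d * (2 * H) * (e * (2 * H) ^ s) := by gcongr
          _ = _ := by
              rw [mul_pow, pow_succ, pow_succ]
              ring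
      have hp0 : (0 : ℝ) < (p : ℝ) ^ 2 := by
        have : (0 : ℝ) < p := by exact_mod_cast hpp.pos
        positivity
      rw [← div_eq_mul_inv, le_div_iff₀ hp0]
      exact_mod_cast h4
    · have h0 : S2 p = ∅ := by
        rw [filter_eq_empty_iff]
        rintro z - ⟨h, -⟩
        exact hpp h
      rw [h0, card_empty, Nat.cast_zero]
      positivity
  have hS3 : (S3.card : ℝ) ≤ (C₁ * d : ℕ) * (H : ℝ) ^ s := by
    have h1 : S3.card ≤ (C₁ * d) * (box s H).card := by
      refine card_fib (P := fun u t => MvPolynomial.eval (pt u) r ≠ 0 ∧ ∃ p : ℕ, p.Prime ∧ y < p ∧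
        H < p ∧ (p : ℤ) ∣ MvPolynomial.eval (pt u) r ∧ (p : ℤ) ∣ spz (pt u) t f) _ ?_ ?_
      · intro u hu t _ _
        exact hu
      · intro u hu
        by_cases h0 : MvPolynomial.eval (pt u) r = 0
        · rw [filter_eq_empty_iff.2 fun t _ h => h.1 h0, card_empty]
          exact Nat.zero_le _
        have h2 : ((Icc 1 H).filter fun t : ℕ => MvPolynomial.eval (pt u) r ≠ 0 ∧ ∃ p : ℕ,
            p.Prime ∧ y < p ∧ H < p ∧ (p : ℤ) ∣ MvPolynomial.eval (pt u) r ∧
              (p : ℤ) ∣ spz (pt u) t f) ⊆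
            (((MvPolynomial.eval (pt u) r).natAbs.primeFactors.filter fun p => H < p).filter
              fun p => y < p).biUnion fun p => (Icc 1 H).filter fun t : ℕ =>
                (p : ℤ) ∣ spz (pt u) t f := by
          intro t ht
          rw [mem_filter] at ht
          obtain ⟨ht1, -, p, hp, hyp, hHp, hpr', hpf⟩ := ht
          rw [mem_biUnion]
          refine ⟨p, ?_, mem_filter.2 ⟨ht1, hpf⟩⟩
          rw [mem_filter, mem_filter, Nat.mem_primeFactors]
          exact ⟨⟨⟨hp, Int.natCast_dvd.1 hpr', Int.natAbs_ne_zero.2 h0⟩, hHp⟩, hyp⟩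
        refine (card_le_card h2).trans (card_biUnion_le.trans ?_)
        have h3 : ∀ p ∈ (((MvPolynomial.eval (pt u) r).natAbs.primeFactors.filter
            fun p => H < p).filter fun p => y < p),
            ((Icc 1 H).filter fun t : ℕ => (p : ℤ) ∣ spz (pt u) t f).card ≤ d := by
          intro p hp
          rw [mem_filter, mem_filter, Nat.mem_primeFactors] at hp
          have h4 := hfu u p hp.1.1.1 hp.2
          rwa [Nat.div_eq_of_lt hp.1.2, zero_add, mul_one] at h4
        refine (sum_le_sum h3).trans ?_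
        rw [sum_const, smul_eq_mul]
        refine Nat.mul_le_mul_right _ ?_
        refine (card_le_card (filter_subset _ _)).trans ?_
        exact card_large_primes hH (Int.natAbs_ne_zero.2 h0) (hKD H hH1 u hu)
    rw [card_box] at h1
    exact_mod_cast h1
  have hsum : ((((Ioc y H).biUnion S2).card : ℕ) : ℝ) ≤
      (e * d * 2 ^ (s + 1) : ℕ) * (H : ℝ) ^ (s + 1) / y := by
    refine (Nat.cast_le.2 card_biUnion_le).trans ?_
    rw [Nat.cast_sum]
    refine (sum_le_sum hS2).trans ?_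
    rw [← mul_sum, div_eq_mul_inv]
    gcongr
    rcases Nat.lt_or_ge H y with h | h
    · rw [Ioc_eq_empty (by omega), sum_empty]
      positivity
    · refine (sum_Ioc_inv_sq_le_sub (by omega) h).trans ?_
      have : (0 : ℝ) ≤ (H : ℝ)⁻¹ := by positivity
      linarith
  have hcard := card_le_card hsub
  have hcard2 : (((box s H ×ˢ Icc 1 H).filter fun z => ∃ p : ℕ, p.Prime ∧ y < p ∧
        (p : ℤ) ∣ spz (pt z.1) z.2 f ∧ (p : ℤ) ∣ spz (pt z.1) z.2 g).card : ℝ) ≤
      (((Ioc y H).biUnion S2).card : ℝ) + (S1.card + S3.card) := by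
    have h1 := hcard.trans ((card_union_le _ _).trans (Nat.add_le_add_left (card_union_le _ _) _))
    exact_mod_cast h1
  refine hcard2.trans ?_
  have hy0 : (0 : ℝ) < y := by
    have : 0 < y := by omega
    exact_mod_cast this
  have h5 : (0 : ℝ) ≤ ((e + C₁ * d : ℕ) : ℝ) * (H : ℝ) ^ (s + 1) / y := by positivity
  have h6 : (0 : ℝ) ≤ ((e * d * 2 ^ (s + 1) : ℕ) : ℝ) * (H : ℝ) ^ s := by positivity
  push_cast at h5 h6 hsum hS3 ⊢
  have h7 : ((e * d * 2 ^ (s + 1) + (e + C₁ * d) : ℝ)) * (H : ℝ) ^ (s + 1) / y =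
      (e * d * 2 ^ (s + 1) : ℝ) * (H : ℝ) ^ (s + 1) / y +
        (e + C₁ * d : ℝ) * (H : ℝ) ^ (s + 1) / y := by
    ring
  rw [h7]
  nlinarith

end Pool.Agent.Q41.ZP
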