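import Pool.Agent.Q41.ZP.Sieve

/-!
For almost all integral points the values of given polynomials have large prime divisors of their
own (helper file for Zilber-Pink for multi-parameter families over `ℤ`).
-/

namespace Pool.Agent.Q41.ZP

open Polynomial Finset

open Classical in
/-- few values of a polynomial in one variable are smooth, with an explicit bound -/
theorem smooth_fiber {f : ℤ[X]} (hf : 0 < f.natDegree) {H B E : ℕ}
    (hB : ∀ t ∈ Icc 1 H, (f.eval (t : ℤ)).natAbs ≤ B) :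
    ((Icc 1 H).filter fun t : ℕ => f.eval (t : ℤ) ≠ 0 ∧
      ∀ p : ℕ, p.Prime → p ∣ (f.eval (t : ℤ)).natAbs → p ≤ E).card ≤
      2 * f.natDegree * (Nat.log 2 B + 1) ^ (E + 1) := by
  set S : Finset ℕ := (Icc 1 B).filter fun m => ∀ p, p.Prime → p ∣ m → p ≤ E with hS
  have h1 : ((Icc 1 H).filter fun t : ℕ => f.eval (t : ℤ) ≠ 0 ∧
      ∀ p : ℕ, p.Prime → p ∣ (f.eval (t : ℤ)).natAbs → p ≤ E).card ≤
        (2 * f.natDegree) * S.card := by
    refine card_le_mul_card_image_of_maps_to (f := fun t : ℕ => (f.eval (t : ℤ)).natAbs) ?_ _ ?_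
    · intro t ht
      rw [mem_filter] at ht
      rw [hS, mem_filter, mem_Icc]
      exact ⟨⟨Int.natAbs_pos.2 ht.2.1, hB t ht.1⟩, ht.2.2⟩
    · intro m _
      have h2 : (((Icc 1 H).filter fun t : ℕ => f.eval (t : ℤ) ≠ 0 ∧
          ∀ p : ℕ, p.Prime → p ∣ (f.eval (t : ℤ)).natAbs → p ≤ E).filter
            fun t : ℕ => (f.eval (t : ℤ)).natAbs = m) ⊆
          ((Icc 1 H).filter fun t : ℕ => f.eval (t : ℤ) = (m : ℤ)) ∪
          ((Icc 1 H).filter fun t : ℕ => f.eval (t : ℤ) = -(m : ℤ)) := by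
        intro t ht
        rw [mem_filter, mem_filter] at ht
        rw [mem_union, mem_filter, mem_filter]
        rcases Int.natAbs_eq (f.eval (t : ℤ)) with h | h
        · left
          exact ⟨ht.1.1, by rw [h, ht.2]⟩
        · right
          exact ⟨ht.1.1, by rw [h, ht.2]⟩
      refine (card_le_card h2).trans ((card_union_le _ _).trans ?_)
      have h3 := count_eq f hf H (m : ℤ)
      have h4 := count_eq f hf H (-(m : ℤ))
      omega
  refine h1.trans (Nat.mul_le_mul_left _ ?_)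
  exact Pool.Agent.W466.ZC.smooth_card E B

theorem eval_bound_par {s : ℕ} (f : Par s) : ∃ K D : ℕ, ∀ H : ℕ, 1 ≤ H →
    ∀ u ∈ box s H, ∀ t : ℕ, t ≤ H → (spz (pt u) t f).natAbs ≤ K * H ^ D := by
  induction f using Polynomial.induction_on' with
  | add f g hf hg =>
    obtain ⟨K, D, h⟩ := hf
    obtain ⟨K', D', h'⟩ := hg
    refine ⟨K + K', D + D', fun H hH u hu t ht => ?_⟩
    rw [map_add, add_mul]
    refine (Int.natAbs_add_le _ _).trans (Nat.add_le_add ((h H hH u hu t ht).trans ?_)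
      ((h' H hH u hu t ht).trans ?_))
    · exact Nat.mul_le_mul_left _ (Nat.pow_le_pow_right hH (by omega))
    · exact Nat.mul_le_mul_left _ (Nat.pow_le_pow_right hH (by omega))
  | monomial i r =>
    obtain ⟨K, D, h⟩ := eval_bound_mv r
    refine ⟨K, D + i, fun H hH u hu t ht => ?_⟩
    rw [spz_apply, Polynomial.map_monomial, Polynomial.eval_monomial, Int.natAbs_mul,
      Int.natAbs_pow, Int.natAbs_natCast, pow_add, ← mul_assoc]
    exact Nat.mul_le_mul (h H hH u hu) (Nat.pow_le_pow_left ht i)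

theorem log_bound {K D H : ℕ} :
    Nat.log 2 (K * H ^ D) + 1 ≤ (Nat.log 2 K + 1 + D) * (Nat.log 2 H + 1) := by
  have h7 : K < 2 ^ (Nat.log 2 K + 1) := Nat.lt_pow_succ_log_self (by norm_num) _
  have h8 : H < 2 ^ (Nat.log 2 H + 1) := Nat.lt_pow_succ_log_self (by norm_num) _
  rcases Nat.eq_zero_or_pos (K * H ^ D) with h0 | h0
  · rw [h0, Nat.log_zero_right, zero_add]
    exact Nat.mul_pos (by omega) (by omega)
  · have h9 : K * H ^ D < 2 ^ ((Nat.log 2 K + 1) + D * (Nat.log 2 H + 1)) := by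
      rw [pow_add, mul_comm D, pow_mul]
      refine Nat.mul_lt_mul_of_lt_of_le h7 (Nat.pow_le_pow_left h8.le D) (by positivity)
    have h10 := Nat.log_lt_of_lt_pow h0.ne' h9
    nlinarith [Nat.zero_le (Nat.log 2 K * Nat.log 2 H), Nat.zero_le (Nat.log 2 H)]

open Classical in
/-- For almost all integral points the values of the `f l` have large prime divisors of their own,
which do not divide the values of the `g l i`. -/
theorem count_family_mv {s L : ℕ} {ι : Type} [Fintype ι] (f : Fin L → Par s)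
    (hf : ∀ l, Irreducible (f l)) (hd : ∀ l, 0 < (f l).natDegree) (a : Fin L → ℤ)
    (ha : ∀ l, (f l).leadingCoeff = MvPolynomial.C (a l))
    (hne : ∀ l l', l ≠ l' → ¬ f l ∣ f l') (g : Fin L → ι → Par s) (hg : ∀ l i, ¬ f l ∣ g l i)
    (D : ℕ) {ε : ℝ} (hε : 0 < ε) : ∃ H₀ : ℕ, ∀ H : ℕ, H₀ ≤ H →
    (((box s H ×ˢ Icc 1 H).filter fun z => ¬ ((∀ l, spz (pt z.1) z.2 (f l) ≠ 0) ∧
      ∃ p : Fin L → ℕ, (∀ l, (p l).Prime ∧ D < p l ∧ (p l : ℤ) ∣ spz (pt z.1) z.2 (f l)) ∧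
        (∀ l l', l ≠ l' → ¬ (p l : ℤ) ∣ spz (pt z.1) z.2 (f l')) ∧
        ∀ l i, ¬ (p l : ℤ) ∣ spz (pt z.1) z.2 (g l i))).card : ℝ) ≤ ε * (H : ℝ) ^ (s + 1) := by
  have ha0 : ∀ l, a l ≠ 0 := by
    intro l h0
    have h1 := ha l
    rw [h0, map_zero, Polynomial.leadingCoeff_eq_zero] at h1
    have h2 := hd l
    rw [h1, Polynomial.natDegree_zero] at h2
    exact lt_irrefl _ h2
  -- the pairs of polynomials
  let h : Fin L → (Fin L ⊕ ι) → Par s := fun l => Sum.elim (fun l' => if l = l' then 1 else f l') (g l)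
  have hh : ∀ l i, ¬ f l ∣ h l i := by
    intro l i
    rcases i with l' | i
    · by_cases hll : l = l'
      · simp only [h, Sum.elim_inl, if_pos hll]
        exact fun h0 => (hf l).not_isUnit (isUnit_of_dvd_one h0)
      · simp only [h, Sum.elim_inl, if_neg hll]
        exact hne l l' hll
    · exact hg l i
  choose c y₁ hy₁ hc using fun l i => sieve (hf l) (hd l) (ha l) (hh l i)
  choose K D' hKD using fun l => eval_bound_par (f l)
  set Cc : ℕ := ∑ l, ∑ i, c l i with hCc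
  set Y : ℕ := ∑ l, ∑ i, y₁ l i with hY
  obtain ⟨y₂, hy₂⟩ := exists_nat_ge (3 * (Cc : ℝ) / ε)
  set y := D + Y + y₂ + 1 with hy
  -- the constant for smooth values
  set S : ℕ := ∑ l, (2 * (f l).natDegree * (Nat.log 2 (K l) + 1 + D' l) ^ (y + 1) + (f l).natDegree)
    with hS
  obtain ⟨H₁, hH₁⟩ := small_log y (ε := ε / (3 * (S + 1))) (by positivity)
  obtain ⟨H₂, hH₂⟩ := exists_nat_ge (3 * (Cc : ℝ) / ε)
  refine ⟨H₁ + H₂ + 2, fun H hH => ?_⟩
  have hH1 : 1 ≤ H := by omega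
  let A1 : Fin L → Finset ((Fin s → ℕ) × ℕ) := fun l => (box s H ×ˢ Icc 1 H).filter fun z =>
    spz (pt z.1) z.2 (f l) = 0
  let A2 : Fin L → Finset ((Fin s → ℕ) × ℕ) := fun l => (box s H ×ˢ Icc 1 H).filter fun z =>
    spz (pt z.1) z.2 (f l) ≠ 0 ∧ ∀ p : ℕ, p.Prime → p ∣ (spz (pt z.1) z.2 (f l)).natAbs → p ≤ y
  let A3 : Fin L → (Fin L ⊕ ι) → Finset ((Fin s → ℕ) × ℕ) := fun l i =>
    (box s H ×ˢ Icc 1 H).filter fun z => ∃ p : ℕ, p.Prime ∧ y < p ∧
      (p : ℤ) ∣ spz (pt z.1) z.2 (f l) ∧ (p : ℤ) ∣ spz (pt z.1) z.2 (h l i)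
  have hsub : ((box s H ×ˢ Icc 1 H).filter fun z => ¬ ((∀ l, spz (pt z.1) z.2 (f l) ≠ 0) ∧
      ∃ p : Fin L → ℕ, (∀ l, (p l).Prime ∧ D < p l ∧ (p l : ℤ) ∣ spz (pt z.1) z.2 (f l)) ∧
        (∀ l l', l ≠ l' → ¬ (p l : ℤ) ∣ spz (pt z.1) z.2 (f l')) ∧
        ∀ l i, ¬ (p l : ℤ) ∣ spz (pt z.1) z.2 (g l i))) ⊆
      univ.biUnion fun l => (A1 l ∪ A2 l) ∪ univ.biUnion (A3 l) := by
    intro z hz
    rw [mem_filter] at hz
    by_contra hcon
    rw [mem_biUnion] at hcon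
    apply hz.2
    have hf0 : ∀ l, spz (pt z.1) z.2 (f l) ≠ 0 := fun l h0 => hcon ⟨l, mem_univ _,
      mem_union_left _ (mem_union_left _ (mem_filter.2 ⟨hz.1, h0⟩))⟩
    have hp : ∀ l, ∃ p : ℕ, p.Prime ∧ y < p ∧ p ∣ (spz (pt z.1) z.2 (f l)).natAbs := by
      intro l
      by_contra hl
      apply hcon
      refine ⟨l, mem_univ _, mem_union_left _ (mem_union_right _ (mem_filter.2
        ⟨hz.1, hf0 l, fun p hp hd => ?_⟩))⟩
      by_contra hlt
      exact hl ⟨p, hp, by omega, hd⟩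
    choose p hpp hpy hpd using hp
    have hA3 : ∀ l i, ¬ (p l : ℤ) ∣ spz (pt z.1) z.2 (h l i) := by
      intro l i h0
      apply hcon
      refine ⟨l, mem_univ _, mem_union_right _ (mem_biUnion.2 ⟨i, mem_univ _, mem_filter.2
        ⟨hz.1, p l, hpp l, hpy l, Int.natCast_dvd.2 (hpd l), h0⟩⟩)⟩
    refine ⟨hf0, p, fun l => ⟨hpp l, by have := hpy l; omega, Int.natCast_dvd.2 (hpd l)⟩, ?_, ?_⟩
    · intro l l' hll h0
      apply hA3 l (Sum.inl l')
      simp only [h, Sum.elim_inl, if_neg hll]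
      exact h0
    · intro l i h0
      exact hA3 l (Sum.inr i) h0
  have hA12 : ∀ l, ((A1 l ∪ A2 l).card : ℝ) ≤
      ((2 * (f l).natDegree * (Nat.log 2 (K l) + 1 + D' l) ^ (y + 1) + (f l).natDegree : ℕ) : ℝ) *
        ((Nat.log 2 H + 1 : ℕ) ^ (y + 1) * (H : ℝ) ^ s) := by
    intro l
    have h1 : (A1 l).card ≤ (f l).natDegree * H ^ s := by
      rw [← card_box s H]
      refine card_fib (P := fun u t => spz (pt u) t (f l) = 0) (box s H) (fun u hu _ _ _ => hu) ?_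
      intro u _
      obtain ⟨h2, h3⟩ := map_deg (ha0 l) (ha l) (pt u)
      have h4 := count_zero ((f l).map (MvPolynomial.eval (pt u))) (by
        intro h0
        rw [h0, Polynomial.leadingCoeff_zero] at h3
        exact ha0 l h3.symm) H
      rw [h2] at h4
      exact h4
    have h2 : (A2 l).card ≤ (2 * (f l).natDegree * ((Nat.log 2 (K l) + 1 + D' l) *
        (Nat.log 2 H + 1)) ^ (y + 1)) * H ^ s := by
      rw [← card_box s H]
      refine card_fib (P := fun u t => spz (pt u) t (f l) ≠ 0 ∧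
        ∀ p : ℕ, p.Prime → p ∣ (spz (pt u) t (f l)).natAbs → p ≤ y) (box s H)
        (fun u hu _ _ _ => hu) ?_
      intro u hu
      obtain ⟨h2, h3⟩ := map_deg (ha0 l) (ha l) (pt u)
      have h4 := smooth_fiber (f := (f l).map (MvPolynomial.eval (pt u))) (H := H)
        (B := K l * H ^ D' l) (E := y) (by rw [h2]; exact hd l)
        (fun t ht => hKD l H hH1 u hu t (mem_Icc.1 ht).2)
      rw [h2] at h4
      refine h4.trans (Nat.mul_le_mul_left _ (Nat.pow_le_pow_left log_bound _))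
    have h3 : (A1 l ∪ A2 l).card ≤ (2 * (f l).natDegree * (Nat.log 2 (K l) + 1 + D' l) ^ (y + 1) +
        (f l).natDegree) * ((Nat.log 2 H + 1) ^ (y + 1) * H ^ s) := by
      refine (card_union_le _ _).trans ?_
      have h4 : 1 ≤ (Nat.log 2 H + 1) ^ (y + 1) := Nat.one_le_pow _ _ (by omega)
      rw [mul_pow] at h2
      calc (A1 l).card + (A2 l).card ≤ (f l).natDegree * H ^ s + (2 * (f l).natDegree *
            ((Nat.log 2 (K l) + 1 + D' l) ^ (y + 1) * (Nat.log 2 H + 1) ^ (y + 1))) * H ^ s :=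
            Nat.add_le_add h1 h2
        _ ≤ (f l).natDegree * ((Nat.log 2 H + 1) ^ (y + 1) * H ^ s) + (2 * (f l).natDegree *
            ((Nat.log 2 (K l) + 1 + D' l) ^ (y + 1) * (Nat.log 2 H + 1) ^ (y + 1))) * H ^ s := by
            gcongr
            exact Nat.le_mul_of_pos_left _ (by omega)
        _ = _ := by ring
    exact_mod_cast h3
  have hA3 : ∀ l i, ((A3 l i).card : ℝ) ≤ c l i * (H : ℝ) ^ (s + 1) / y + c l i * (H : ℝ) ^ s := by
    intro l i
    refine hc l i y ?_ H (by omega)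
    have h1 : y₁ l i ≤ Y :=
      (single_le_sum (f := fun i => y₁ l i) (fun _ _ => Nat.zero_le _) (mem_univ i)).trans
        (single_le_sum (f := fun l => ∑ i, y₁ l i) (fun _ _ => Nat.zero_le _) (mem_univ l))
    omega
  have hcard : (((box s H ×ˢ Icc 1 H).filter fun z => ¬ ((∀ l, spz (pt z.1) z.2 (f l) ≠ 0) ∧
      ∃ p : Fin L → ℕ, (∀ l, (p l).Prime ∧ D < p l ∧ (p l : ℤ) ∣ spz (pt z.1) z.2 (f l)) ∧
        (∀ l l', l ≠ l' → ¬ (p l : ℤ) ∣ spz (pt z.1) z.2 (f l')) ∧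
        ∀ l i, ¬ (p l : ℤ) ∣ spz (pt z.1) z.2 (g l i))).card : ℝ) ≤
      ∑ l, (((A1 l ∪ A2 l).card : ℝ) + ∑ i, ((A3 l i).card : ℝ)) := by
    have h1 := (card_le_card hsub).trans (card_biUnion_le.trans (sum_le_sum fun l _ =>
      (card_union_le _ _).trans (Nat.add_le_add_left card_biUnion_le _)))
    exact_mod_cast h1
  have hHr : (1 : ℝ) ≤ H := by exact_mod_cast hH1
  have hy0 : (0 : ℝ) < y := by
    have : 0 < y := by omega
    exact_mod_cast this
  have hHs : (0 : ℝ) < (H : ℝ) ^ s := by positivity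
  refine hcard.trans ?_
  have h1 : ∑ l, (((A1 l ∪ A2 l).card : ℝ) + ∑ i, ((A3 l i).card : ℝ)) ≤
      (S : ℝ) * ((Nat.log 2 H + 1 : ℕ) ^ (y + 1) * (H : ℝ) ^ s) +
        ((Cc : ℝ) * (H : ℝ) ^ (s + 1) / y + (Cc : ℝ) * (H : ℝ) ^ s) := by
    rw [sum_add_distrib]
    refine add_le_add ?_ ?_
    · rw [hS, Nat.cast_sum, sum_mul]
      exact sum_le_sum fun l _ => hA12 l
    · refine (sum_le_sum fun l _ => sum_le_sum fun i _ => hA3 l i).trans (le_of_eq ?_)
      rw [hCc, Nat.cast_sum, sum_mul, sum_mul, sum_div, ← sum_add_distrib]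
      refine sum_congr rfl fun l _ => ?_
      rw [Nat.cast_sum, sum_mul, sum_mul, sum_div, ← sum_add_distrib]
  refine h1.trans ?_
  have h2 : (S : ℝ) * ((Nat.log 2 H + 1 : ℕ) ^ (y + 1) * (H : ℝ) ^ s) ≤
      ε / 3 * (H : ℝ) ^ (s + 1) := by
    have h3 := hH₁ H (by omega)
    have h4 : (S : ℝ) * (ε / (3 * (S + 1))) ≤ ε / 3 := by
      rw [mul_div_assoc', div_le_div_iff₀ (by positivity) (by norm_num)]
      nlinarith
    calc (S : ℝ) * ((Nat.log 2 H + 1 : ℕ) ^ (y + 1) * (H : ℝ) ^ s) ≤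
          (S : ℝ) * (ε / (3 * (S + 1)) * H * (H : ℝ) ^ s) := by gcongr
      _ = ((S : ℝ) * (ε / (3 * (S + 1)))) * (H : ℝ) ^ (s + 1) := by
          rw [pow_succ]
          ring
      _ ≤ _ := by gcongr
  have h3 : (Cc : ℝ) * (H : ℝ) ^ (s + 1) / y ≤ ε / 3 * (H : ℝ) ^ (s + 1) := by
    rw [div_le_iff₀ hy0]
    have h4 : 3 * (Cc : ℝ) / ε ≤ y := hy₂.trans (by exact_mod_cast (by omega : y₂ ≤ y))
    rw [div_le_iff₀ hε] at h4
    have h5 : (0 : ℝ) < (H : ℝ) ^ (s + 1) := by positivity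
    nlinarith
  have h4 : (Cc : ℝ) * (H : ℝ) ^ s ≤ ε / 3 * (H : ℝ) ^ (s + 1) := by
    have h5 : 3 * (Cc : ℝ) / ε ≤ H := hH₂.trans (by exact_mod_cast (by omega : H₂ ≤ H))
    rw [div_le_iff₀ hε] at h5
    rw [pow_succ]
    nlinarith
  linarith

end Pool.Agent.Q41.ZP
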