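import Pool.Agent.Q41.ZP.Count3
import Pool.Agent.Q116.ZE.Fam

/-!
Scalings for the Legendre family given by the values of polynomials in several variables, times
arbitrary `β`-th powers and numbers composed of given primes, are spread out at almost all integral
points (helper file for Zilber-Pink for multi-parameter families in the Legendre family).
-/

set_option autoImplicit false

namespace Pool.Agent.Q41.ZP

open MvPolynomial Pool.Agent.W282.LF

/-- all prime divisors are in the finite set `S` -/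
def IsSNat (S : Finset ℕ) (w : ℕ) : Prop := w ≠ 0 ∧ ∀ p, p.Prime → p ∣ w → p ∈ S

theorem fac_mult {L β : ℕ} {ι : Type} {u : Fin L → ℕ} (hu : ∀ l, u l ≠ 0) {b : ι → ℕ}
    (hb : ∀ i, b i ≠ 0) (e : Fin L → ι → ℕ) {w y : ι → ℕ} (hw : ∀ i, w i ≠ 0) (hy : ∀ i, y i ≠ 0)
    {p : Fin L → ℕ} (h1 : ∀ l l', l ≠ l' → ¬ p l ∣ u l') (h2 : ∀ l i, ¬ p l ∣ b i)
    (h3 : ∀ l i, ¬ p l ∣ w i) (l : Fin L) (i : ι) :
    (w i * y i ^ β * (b i * ∏ l, u l ^ e l i)).factorization (p l) =
      β * (y i).factorization (p l) + e l i * (u l).factorization (p l) := by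
  have h4 : b i * ∏ l, u l ^ e l i ≠ 0 := Nat.mul_ne_zero (hb i)
    (Finset.prod_ne_zero_iff.2 fun l _ => pow_ne_zero _ (hu l))
  rw [Nat.factorization_mul (Nat.mul_ne_zero (hw i) (pow_ne_zero _ (hy i))) h4,
    Nat.factorization_mul (hw i) (pow_ne_zero _ (hy i)), Nat.factorization_pow]
  simp only [Finsupp.coe_add, Finsupp.coe_smul, Pi.add_apply, Pi.smul_apply, smul_eq_mul]
  rw [fac_prod hu hb e h1 h2 l i, Nat.factorization_eq_zero_of_not_dvd (h3 l i), zero_add]

/-- scalings for the Legendre family are spread out, if the factors have large primes of their own with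
exponents prime to `β` -/
theorem spreadL_mult {n q D β : ℕ}
    {e : Fin ((q - 1) * 2 ^ q + 1) → Option (Fin n) → ℕ}
    {a : Fin ((q - 1) * 2 ^ q + 1) → Fin q → ℕ} (hea : GoodExpL n q β e a)
    {u : Fin ((q - 1) * 2 ^ q + 1) → ℕ} (hu : ∀ l, u l ≠ 0)
    {b : Option (Fin n) → ℕ} (hb : ∀ i, b i ≠ 0) {b' : Fin q → ℕ} (hb' : ∀ j, b' j ≠ 0)
    {w y : Option (Fin n) → ℕ} (hw : ∀ i, w i ≠ 0) (hy : ∀ i, y i ≠ 0)
    (p : Fin ((q - 1) * 2 ^ q + 1) → ℕ) (hp : ∀ l, (p l).Prime ∧ D < p l)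
    (h0 : ∀ l, p l ∣ u l) (h0' : ∀ l, Nat.Coprime β ((u l).factorization (p l)))
    (h1 : ∀ l l', l ≠ l' → ¬ p l ∣ u l') (h2 : ∀ l i, ¬ p l ∣ b i)
    (h3 : ∀ l j, ¬ p l ∣ b' j) (h4 : ∀ l i, ¬ p l ∣ w i) :
    SpreadL n q D β (fun i => w i * y i ^ β * (b i * ∏ l, u l ^ e l i))
      (fun j => b' j * ∏ l, u l ^ a l j) := by
  have hw1 : ∀ l, 1 ≤ (u l).factorization (p l) := fun l =>
    ((hp l).1.dvd_iff_one_le_factorization (hu l)).1 (h0 l)
  have hf1 := fun l i => fac_mult (β := β) hu hb e hw hy h1 h2 h4 l i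
  have hf2 : ∀ l j, (b' j * ∏ l, u l ^ a l j).factorization (p l) =
      a l j * (u l).factorization (p l) := fun l j => fac_prod hu hb' a h1 h3 l j
  refine ⟨fun j => Nat.mul_ne_zero (hb' j)
    (Finset.prod_ne_zero_iff.2 fun l _ => pow_ne_zero _ (hu l)), p, hp, ?_, ?_, ?_⟩
  · intro l i
    simp only [hf1]
    exact ((hea.1 l i).trans (Nat.le_mul_of_pos_right _ (hw1 l))).trans (Nat.le_add_left _ _)
  · intro l i j hij
    simp only [hf1]
    intro h
    refine hea.2.1 l i j hij (Nat.ModEq.cancel_right_of_coprime (h0' l) ?_)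
    have h5 : ∀ k m : ℕ, β * k + m ≡ m [MOD β] := fun k m => by
      have := Nat.ModEq.add_right m ((Nat.modEq_zero_iff_dvd).2 (dvd_mul_right β k))
      rwa [zero_add] at this
    exact ((h5 _ _).symm.trans h).trans (h5 _ _)
  · intro I hI γ hγ
    refine hea.2.2 I hI γ fun l hl => ?_
    have h4 := hγ l hl
    simp only [hf2] at h4
    have h5 : ((u l).factorization (p l) : ℤ) * ∑ j, γ j * (a l j : ℤ) = 0 := by
      rw [← h4, Finset.mul_sum]
      refine Finset.sum_congr rfl fun j _ => ?_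
      push_cast
      ring
    rcases mul_eq_zero.1 h5 with h6 | h6
    · have := hw1 l
      omega
    · exact h6

/-- For almost all integral points the scalings are spread out. -/
theorem count_spreadL {n q s k : ℕ} (f P : Fin ((q - 1) * 2 ^ q + 1) → MvPolynomial (Fin s) ℤ)
    (hP : ∀ l, Irreducible (P l) ∧ 1 ≤ (P l).totalDegree ∧ (P l).totalDegree ≤ k)
    (hf : ∀ l, f l ≠ 0 ∧ P l ∣ f l) (hff : ∀ l l', l ≠ l' → ¬ P l ∣ f l')
    (g : Option (Fin n) ⊕ Fin q → MvPolynomial (Fin s) ℤ) (hg : ∀ l i, ¬ P l ∣ g i)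
    (S : Finset ℕ) (D : ℕ) (ε : ℝ) (hε : 0 < ε) :
    ∃ C : ℝ, ∀ β : ℕ, β.Prime → (∀ l, ¬ P l ^ β ∣ f l) →
      ∀ (e : Fin ((q - 1) * 2 ^ q + 1) → Option (Fin n) → ℕ)
        (a' : Fin ((q - 1) * 2 ^ q + 1) → Fin q → ℕ), GoodExpL n q β e a' →
      ∀ H : ℕ, 1 ≤ H →
        (Set.ncard {z : Fin s → ℤ | (∀ j, |z j| ≤ (H : ℤ)) ∧
          ¬ ∀ (w : Option (Fin n) ⊕ Fin q → ℕ) (y : Option (Fin n) → ℕ), (∀ i, IsSNat S (w i)) →
            (∀ i, y i ≠ 0) → SpreadL n q D β
            (fun i => w (Sum.inl i) * y i ^ β *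
              ((eval z (g (Sum.inl i))).natAbs * ∏ l, (eval z (f l)).natAbs ^ e l i))
            (fun j => (w (Sum.inr j) * (eval z (g (Sum.inr j))).natAbs) *
              ∏ l, (eval z (f l)).natAbs ^ a' l j)} : ℝ) ≤
        C * (H : ℝ) ^ ((s : ℝ) - 1 + (k : ℝ) / β + ε) := by
  classical
  choose μ h hh hfe using fun l => WfDvdMonoid.max_power_factor (hf l).1 (hP l).1
  -- the cofactors
  let cof : Fin ((q - 1) * 2 ^ q + 1) →
      (Fin ((q - 1) * 2 ^ q + 1) ⊕ (Option (Fin n) ⊕ Fin q)) → MvPolynomial (Fin s) ℤ :=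
    fun l => Sum.elim (fun l' => if l' = l then h l else f l') g
  have hcof : ∀ l i, ¬ P l ∣ cof l i := by
    rintro l (l' | i)
    · change ¬ P l ∣ if l' = l then h l else f l'
      split_ifs with hl
      · exact hh l
      · exact hff l l' (Ne.symm hl)
    · exact hg l i
  set D' : ℕ := D + ∑ p ∈ S, p with hD'
  obtain ⟨C, hC⟩ := count_sym3 P (fun l => (hP l).1)
    (fun l => by have := (hP l).2.1; omega)
    (fun l l' hll hd => hff l l' hll (hd.trans (hf l').2)) cof hcof D' (fun l => (hP l).2.2) hε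
  refine ⟨C, fun β hβ hPβ e a' hea H hH => ?_⟩
  refine le_trans (Nat.cast_le.2 (Set.ncard_le_ncard ?_ ?_)) (hC β hβ.one_lt.le H hH)
  · rintro t ⟨htH, ht⟩
    refine ⟨htH, fun hgood => ht ?_⟩
    obtain ⟨hP0, p, hp, hp1, hp2⟩ := hgood
    have hcop : ∀ l l', l ≠ l' → ¬ (p l : ℤ) ∣ eval t (f l') := by
      intro l l' hll hd
      refine hp2 l (Sum.inl l') ?_
      change (p l : ℤ) ∣ eval t (if l' = l then h l else f l')
      rw [if_neg (Ne.symm hll)]
      exact hd
    have hph : ∀ l, ¬ (p l : ℤ) ∣ eval t (h l) := by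
      intro l hd
      refine hp2 l (Sum.inl l) ?_
      change (p l : ℤ) ∣ eval t (if l = l then h l else f l)
      rw [if_pos rfl]
      exact hd
    have hpg : ∀ l i, ¬ (p l : ℤ) ∣ eval t (g i) := fun l i hd => hp2 l (Sum.inr i) hd
    have hfev : ∀ l, eval t (f l) = eval t (P l) ^ μ l * eval t (h l) := by
      intro l
      conv_lhs => rw [hfe l]
      rw [map_mul, map_pow]
    have hμ1 : ∀ l, 1 ≤ μ l := by
      intro l
      rcases Nat.eq_zero_or_pos (μ l) with h0 | h0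
      · exfalso
        have h1 := hfe l
        rw [h0, pow_zero, one_mul] at h1
        exact hh l (h1 ▸ (hf l).2)
      · exact h0
    have hμβ : ∀ l, μ l < β := by
      intro l
      by_contra hcon
      refine hPβ l ?_
      rw [hfe l]
      exact (pow_dvd_pow _ (not_lt.1 hcon)).mul_right _
    have hh0 : ∀ l, eval t (h l) ≠ 0 := fun l h0 => hph l (h0 ▸ dvd_zero _)
    have hf0 : ∀ l, eval t (f l) ≠ 0 := fun l => by
      rw [hfev]
      exact mul_ne_zero (pow_ne_zero _ (hP0 l)) (hh0 l)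
    have hfac : ∀ l, ¬ β ∣ (eval t (f l)).natAbs.factorization (p l) := by
      intro l
      rw [hfev, Int.natAbs_mul, Int.natAbs_pow,
        Nat.factorization_mul (pow_ne_zero _ (Int.natAbs_ne_zero.2 (hP0 l)))
          (Int.natAbs_ne_zero.2 (hh0 l)), Nat.factorization_pow]
      simp only [Finsupp.coe_add, Finsupp.coe_smul, Pi.add_apply, Pi.smul_apply, smul_eq_mul]
      rw [Nat.factorization_eq_zero_of_not_dvd (fun hd => hph l (Int.natCast_dvd.2 hd)), add_zero]
      intro hd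
      rcases hβ.dvd_mul.1 hd with h1 | h1
      · exact absurd (Nat.le_of_dvd (hμ1 l) h1) (not_le.2 (hμβ l))
      · exact (hp l).2.2 h1
    have hg0 : ∀ i, eval t (g i) ≠ 0 := fun i h0 => hpg ⟨0, Nat.succ_pos _⟩ i (h0 ▸ dvd_zero _)
    intro w y hw hy
    have hpw : ∀ l i, ¬ p l ∣ w i := by
      intro l i hd
      have h1 := (hw i).2 _ (hp l).1 hd
      have h2 : p l ≤ ∑ p ∈ S, p := Finset.single_le_sum (f := fun p : ℕ => p)
        (fun _ _ => Nat.zero_le _) h1
      have h3 := (hp l).2.1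
      omega
    refine spreadL_mult (b' := fun j => w (Sum.inr j) * (eval t (g (Sum.inr j))).natAbs) hea
      (fun l => Int.natAbs_ne_zero.2 (hf0 l)) (fun i => Int.natAbs_ne_zero.2 (hg0 _))
      (fun j => Nat.mul_ne_zero (hw _).1 (Int.natAbs_ne_zero.2 (hg0 _)))
      (fun i => (hw _).1) hy p
      (fun l => ⟨(hp l).1, by have := (hp l).2.1; omega⟩) (fun l => ?_)
      (fun l => (hβ.coprime_iff_not_dvd).2 (hfac l)) ?_ ?_ ?_ (fun l i => hpw l _)
    · by_contra h1
      exact hfac l (by rw [Nat.factorization_eq_zero_of_not_dvd h1]; exact dvd_zero β)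
    · exact fun l l' hll hd => hcop l l' hll (Int.natCast_dvd.2 hd)
    · exact fun l i hd => hpg l (Sum.inl i) (Int.natCast_dvd.2 hd)
    · intro l j hd
      rcases (hp l).1.dvd_mul.1 hd with h1 | h1
      · exact hpw l _ h1
      · exact hpg l (Sum.inr j) (Int.natCast_dvd.2 h1)
  · refine Set.Finite.subset (Set.Finite.pi' fun _ : Fin s => Set.finite_Icc (-(H : ℤ)) H) ?_
    rintro t ⟨ht, -⟩ j
    exact abs_le.1 (ht j)

end Pool.Agent.Q41.ZP
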