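import Pool.Agent.Q77.ZP.Twist
import Pool.Agent.TH526.ZL.F
import Pool.Agent.TH526.ZL.G
import Pool.Agent.W282.LF.Top

/-!
The local criterion for points of the total space of a correspondence between a projective algebraic
set and a product of modular curves, with scalings multiplied by arbitrary units of the integral
closure of a localization of the ground ring (helper file). The first part is copied from
`Pool.Agent.Q57.ZP.HodA` and `HodC` (which have many more imports).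
-/

set_option autoImplicit false

open Function UpperHalfPlane H294ZP MvPolynomial Pool.Agent.W466.ZC

namespace Pool.Agent.Q41.ZP

open Pool.Agent.TH526.ZL (exists_place1 coreM good_place unit_of_int)
open Pool.Agent

/-- Scaling of algebraically independent numbers. -/
theorem algInd_smul {F : Type} [Field F] [Algebra F ℂ] {ι : Type*} {z : ι → ℂ}
    (hz : AlgebraicIndependent F z) (u : ι → F) (hu : ∀ i, u i ≠ 0) :
    AlgebraicIndependent F (fun i => algebraMap F ℂ (u i) * z i) := by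
  have key : (aeval (fun i => algebraMap F ℂ (u i) * z i) : MvPolynomial ι F →ₐ[F] ℂ) =
      (aeval z : MvPolynomial ι F →ₐ[F] ℂ).comp
        (aeval (fun i => C (u i) * X i) : MvPolynomial ι F →ₐ[F] MvPolynomial ι F) := by
    refine MvPolynomial.algHom_ext fun i => ?_
    simp
  have hinv : ∀ p : MvPolynomial ι F,
      (aeval (fun i => C (u i)⁻¹ * X i) : MvPolynomial ι F →ₐ[F] MvPolynomial ι F)
        ((aeval (fun i => C (u i) * X i) : MvPolynomial ι F →ₐ[F] MvPolynomial ι F) p) = p := by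
    intro p
    have h : ((aeval (fun i => C (u i)⁻¹ * X i) : MvPolynomial ι F →ₐ[F] MvPolynomial ι F).comp
        (aeval (fun i => C (u i) * X i) : MvPolynomial ι F →ₐ[F] MvPolynomial ι F)) =
        AlgHom.id F _ := by
      refine MvPolynomial.algHom_ext fun i => ?_
      simp only [AlgHom.comp_apply, aeval_X, map_mul, AlgHom.id_apply]
      rw [← MvPolynomial.algebraMap_eq, AlgHom.commutes, MvPolynomial.algebraMap_eq, ← mul_assoc,
        ← C_mul, mul_inv_cancel₀ (hu i), C_1, one_mul]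
    exact congrArg (fun f => f p) h
  rw [AlgebraicIndependent, key]
  intro p q hpq
  simp only [AlgHom.comp_apply] at hpq
  have h1 := hz hpq
  rw [← hinv p, ← hinv q, h1]

/-- The local criterion, for points of the total space. -/
theorem criterionH {Λ : Type} [CommRing Λ] [IsDomain Λ] [Algebra Λ ℂ] {F : Type} [Field F]
    [Algebra F ℂ] {κ : Type*} {N n k m : ℕ} (G : κ → MvPolynomial (Fin (N + 1)) Λ)
    (hG : ∀ i, ∃ e, (G i).IsHomogeneous e)
    (A B : (Fin n ⊕ Fin k) ⊕ Fin (N + 1) → MvPolynomial (Fin (N + 1)) Λ)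
    (hAX : ∀ a, A (Sum.inr a) = X a) (hBX : ∀ a, B (Sum.inr a) = 1)
    (d : Fin n ⊕ Fin k → ℕ) (hA : ∀ i, (A (Sum.inl i)).IsHomogeneous (d i))
    (hB : ∀ i, (B (Sum.inl i)).IsHomogeneous (d i))
    (R : Fin n → Polynomial (Polynomial Λ)) (hR : ∀ i, (R i).Monic) {T : ℕ}
    (hT : ∀ i u w, ((R i).coeff u).coeff w ≠ 0 → u ≤ T ∧ w ≤ T)
    (c : Fin n ⊕ Fin k → Λ) (𝔭 : Fin (n.choose 2 + k * 2 ^ k + 1) → Ideal Λ)
    (h𝔭 : ∀ l, (𝔭 l).IsPrime)
    (hpos : ∀ l (F : Type) [Field F] (φ : Λ →+* F), RingHom.ker φ = 𝔭 l →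
      ∀ I : Finset ((Fin n ⊕ Fin k) ⊕ Fin (N + 1)),
      I.card = m + 1 → ∀ y : Fin (N + 1) → F, y ≠ 0 → (∀ k, eval₂ φ y (G k) = 0) →
      ∃ i ∈ I, eval₂ φ y (A i) * eval₂ φ y (B i) ≠ 0)
    (hRu : ∀ l i u w, ((R i).coeff u).coeff w ≠ 0 → ((R i).coeff u).coeff w ∉ 𝔭 l)
    (π : Fin (n.choose 2 + k * 2 ^ k + 1) → Λ) (hπ : ∀ l, π l ∈ 𝔭 l)
    (hπ0 : ∀ l, algebraMap Λ ℂ (π l) ≠ 0)
    (e : Fin (n.choose 2 + k * 2 ^ k + 1) → Fin n ⊕ Fin k → ℕ) (he : ∀ l i, 0 < e l i)
    (hc : ∀ l i, ∃ a b : Λ, a ∉ 𝔭 l ∧ b ∉ 𝔭 l ∧ a * c i = b * π l ^ e l i)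
    (hsq : ∀ l l', l ≠ l' → ∀ i j : Fin n, i ≠ j → ∀ q, 0 < q → q ≤ T ^ 8 →
      ¬ IsSquare (q * (e l (Sum.inl i) * e l (Sum.inl j) *
        (e l' (Sum.inl i) * e l' (Sum.inl j)))))
    (hlin : ∀ (s : Finset (Fin (n.choose 2 + k * 2 ^ k + 1))) (b : Fin k → ℤ), k ≤ s.card →
      (∀ l ∈ s, ∑ j, b j * (e l (Sum.inr j) : ℤ) = 0) → b = 0)
    {r : ℕ} (cls : Fin n → Option (Fin r)) (Q : Fin n → Fin n → ℕ) (x : Fin n ⊕ Fin k → ℂ)
    (s : Fin n → ℂ) (M : Submodule ℤ (Fin k → ℤ)) (η : Fin k → ℂ)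
    (hQ : ∀ i j, 0 < Q i j)
    (hconst : ∀ i, cls i = none → IsIntegral Λ (x (Sum.inl i)))
    (hrel : ∀ i j l, cls i = some l → cls j = some l →
        IsIntegral (Algebra.adjoin ℤ {x (Sum.inl i)}) (x (Sum.inl j)) ∧
        Polynomial.eval₂ (Polynomial.aeval (x (Sum.inl i)) : Polynomial ℂ →ₐ[ℂ] ℂ).toRingHom
          (x (Sum.inl j)) (W282.ZP.Psi (Q i j)) = 0)
    (hRs : ∀ i, Polynomial.eval₂
      (Polynomial.aeval (x (Sum.inl i)) : Polynomial Λ →ₐ[Λ] ℂ).toRingHom (s i) (R i) = 0)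
    (hx0 : ∀ j, x (Sum.inr j) ≠ 0) (hηF : ∀ j, ∃ u : F, η j = algebraMap F ℂ u)
    (hη0 : ∀ j, η j ≠ 0) (hη1 : ∀ j, IsIntegral Λ (η j)) (hη2 : ∀ j, IsIntegral Λ (η j)⁻¹)
    (hM : ∀ a ∈ M, W282.ZP.chi (fun j => x (Sum.inr j)) a = W282.ZP.chi η a)
    (y : Fin (N + 1) → ℂ) (j0 : Fin (N + 1)) (hyj0 : y j0 = 1) (hyG : ∀ i, aeval y (G i) = 0)
    (hxy1 : ∀ i, algebraMap Λ ℂ (c (Sum.inl i)) * aeval y (B (Sum.inl (Sum.inl i))) * s i =
      aeval y (A (Sum.inl (Sum.inl i))))
    (hxy2 : ∀ j, algebraMap Λ ℂ (c (Sum.inr j)) * aeval y (B (Sum.inl (Sum.inr j))) *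
      x (Sum.inr j) = aeval y (A (Sum.inl (Sum.inr j))))
    (S : Finset (Fin n ⊕ Fin k)) (T1 : Finset (Fin (N + 1)))
    (hS : AlgebraicIndependent Λ (fun i : S => x i))
    (hST : ∀ l, AlgebraicIndependent Λ (Sum.elim (fun i : S => x i)
      (fun a : T1 => (algebraMap Λ ℂ (π l))⁻¹ * y a)))
    (hSF : AlgebraicIndependent F (fun i : S => x i)) :
    S.card + T1.card + n + Module.finrank ℤ M ≤ r + m := by
  classical
  choose V hV1 hV2 hVx using fun l => exists_place1 (𝔭 l) _ (hST l)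
  have hy0 : y ≠ 0 := by
    intro h
    rw [h] at hyj0
    exact zero_ne_one hyj0
  have hunit : ∀ l (a : Λ), a ∉ 𝔭 l → (V l).valuation (algebraMap Λ ℂ a) = 1 := by
    intro l a ha
    refine le_antisymm (hV1 l a) ?_
    by_contra h
    push Not at h
    exact ha ((hV2 l a).1 h)
  have hVy : ∀ l, ∀ a ∈ T1, (V l).valuation (y a) < 1 := by
    intro l a ha
    have h1 := hVx l (Sum.inr ⟨a, ha⟩)
    simp only [Sum.elim_inr, map_mul, map_inv₀] at h1
    have h2 : (V l).valuation (algebraMap Λ ℂ (π l)) < 1 := (hV2 l _).2 (hπ l)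
    have h3 : (V l).valuation (algebraMap Λ ℂ (π l)) ≠ 0 := (Valuation.ne_zero_iff _).2 (hπ0 l)
    have h4 : (V l).valuation (y a) = (V l).valuation (algebraMap Λ ℂ (π l)) := by
      have h5 := congrArg (fun z => (V l).valuation (algebraMap Λ ℂ (π l)) * z) h1
      simp only [mul_one] at h5
      rwa [mul_inv_cancel_left₀ h3] at h5
    rw [h4]
    exact h2
  -- the bad indices at the place `l`
  have hplace : ∀ l, ∃ E : Finset (Fin n ⊕ Fin k), E.card + T1.card ≤ m ∧
      (∀ i, Sum.inl i ∉ E →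
        (V l).valuation (s i) * (V l).valuation (algebraMap Λ ℂ (π l)) ^ e l (Sum.inl i) = 1) ∧
      ∀ j, Sum.inr j ∉ E → (V l).valuation (x (Sum.inr j)) *
        (V l).valuation (algebraMap Λ ℂ (π l)) ^ e l (Sum.inr j) = 1 := by
    intro l
    obtain ⟨t, ht0, hAB, hI⟩ := good_place G hG A B (hpos l) (V l) (hV1 l) (hV2 l) y hy0 hyG
    have hsm : ∀ (P : MvPolynomial (Fin (N + 1)) Λ) (f : ℕ), P.IsHomogeneous f →
        aeval (t • y) P = t ^ f * aeval y P := by
      intro P f hP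
      have h1 := eval_smul (hP.map (algebraMap Λ ℂ)) t y
      rwa [eval_map, eval_map, ← aeval_def, ← aeval_def] at h1
    have hval : ∀ i (z : ℂ), (V l).valuation (aeval (t • y) (A (Sum.inl i)) *
          aeval (t • y) (B (Sum.inl i))) = 1 →
        algebraMap Λ ℂ (c i) * aeval y (B (Sum.inl i)) * z = aeval y (A (Sum.inl i)) →
        (V l).valuation z * (V l).valuation (algebraMap Λ ℂ (π l)) ^ e l i = 1 := by
      intro i z h1 hz
      have hA1 := (ValuationSubring.valuation_le_one_iff _ _).2 (hAB (Sum.inl i)).1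
      have hB1 := (ValuationSubring.valuation_le_one_iff _ _).2 (hAB (Sum.inl i)).2
      rw [map_mul] at h1
      have hA2 : (V l).valuation (aeval (t • y) (A (Sum.inl i))) = 1 := by
        refine le_antisymm hA1 ?_
        by_contra h
        push Not at h
        have h2 := (mul_le_of_le_one_right' hB1).trans_lt h
        rw [h1] at h2
        exact lt_irrefl _ h2
      have hB2 : (V l).valuation (aeval (t • y) (B (Sum.inl i))) = 1 := by
        rw [hA2, one_mul] at h1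
        exact h1
      have h3 : algebraMap Λ ℂ (c i) * aeval (t • y) (B (Sum.inl i)) * z =
          aeval (t • y) (A (Sum.inl i)) := by
        rw [hsm _ _ (hA i), hsm _ _ (hB i), ← hz]
        ring
      have h4 := congrArg (V l).valuation h3
      rw [map_mul, map_mul, hA2, hB2, mul_one] at h4
      obtain ⟨a, b, ha, hb, hab⟩ := hc l i
      have h5 := congrArg (fun z => (V l).valuation (algebraMap Λ ℂ z)) hab
      simp only [map_mul, map_pow, hunit l a ha, hunit l b hb, one_mul] at h5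
      rw [← h5, mul_comm]
      exact h4
    let E₀ : Finset ((Fin n ⊕ Fin k) ⊕ Fin (N + 1)) := Finset.univ.filter fun i =>
      ¬ (V l).valuation (aeval (t • y) (A i) * aeval (t • y) (B i)) = 1
    have hE₀ : E₀.card ≤ m := by
      by_contra h
      push Not at h
      obtain ⟨I, hIE, hIc⟩ := Finset.exists_subset_card_eq (Nat.succ_le_of_lt h)
      obtain ⟨i, hi, h1⟩ := hI I hIc
      exact (Finset.mem_filter.1 (hIE hi)).2 h1
    have ht1 : (V l).valuation t ≤ 1 := by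
      have h1 := (hAB (Sum.inr j0)).1
      rw [hAX, aeval_X, Pi.smul_apply, smul_eq_mul, hyj0, mul_one] at h1
      exact (ValuationSubring.valuation_le_one_iff _ _).2 h1
    have hTE : T1 ⊆ E₀.toRight := by
      intro a ha
      rw [Finset.mem_toRight, Finset.mem_filter]
      refine ⟨Finset.mem_univ _, fun h => ?_⟩
      rw [hAX, hBX, aeval_X, map_one, mul_one, Pi.smul_apply, smul_eq_mul, map_mul] at h
      have h1 : (V l).valuation t * (V l).valuation (y a) < 1 :=
        (mul_le_of_le_one_left' ht1).trans_lt (hVy l a ha)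
      rw [h] at h1
      exact lt_irrefl _ h1
    refine ⟨E₀.toLeft, ?_, ?_, ?_⟩
    · have h1 := Finset.card_le_card hTE
      have h2 := E₀.card_toLeft_add_card_toRight
      omega
    · intro i hi
      rw [Finset.mem_toLeft, Finset.mem_filter] at hi
      push Not at hi
      exact hval _ _ (hi (Finset.mem_univ _)) (hxy1 i)
    · intro j hj
      rw [Finset.mem_toLeft, Finset.mem_filter] at hj
      push Not at hj
      exact hval _ _ (hj (Finset.mem_univ _)) (hxy2 j)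
  have hT1m : T1.card ≤ m := by
    obtain ⟨E, hE, -⟩ := hplace 0
    omega
  have hmain := coreM (m := m - T1.card) R hR hT e he hsq hlin cls Q x s M η hQ hconst hrel hRs hx0
    hηF hM S hS hSF V
    (fun l => (V l).valuation (algebraMap Λ ℂ (π l)))
    (fun l => (Valuation.ne_zero_iff _).2 (hπ0 l)) (fun l => (hV2 l (π l)).2 (hπ l)) hV1
    (fun l i u w h0 => hunit l _ (hRu l i u w h0)) (fun l i => hVx l (Sum.inl i))
    (fun l j => unit_of_int (V l) (hV1 l) (hη0 j) (hη1 j) (hη2 j)) (by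
      intro l
      obtain ⟨E, hE, h1, h2⟩ := hplace l
      exact ⟨E, by omega, h1, h2⟩)
  omega


open Pool.Agent.W282.ZP in
/-- From transcendence degrees to dimensions. -/
theorem dim_of_trdeg (K : Subfield ℂ) [Countable K] {ι Q : Type} {m ρ : ℕ} (val : Q → ι → ℂ)
    (Good : Q → Prop)
    (hkey : ∀ q, Good q → ∀ S : Finset ι, AlgebraicIndependent K (fun i : S => val q i) →
      S.card + ρ ≤ m)
    {s : ℕ} (σ : Fin s ≃ ι) (W : Set (Fin s → ℂ)) (p : MvPolynomial (Fin s) ℂ)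
    (hW : ∀ w ∈ W, eval w p ≠ 0 → ∃ q, Good q ∧ ∀ i, w i = val q (σ i)) (hcl : zcl W ⊆ W)
    (hprime : (idealOf W).IsPrime) (hp : p ∉ idealOf W) :
    zdim W + (ρ : Cardinal) ≤ (m : Cardinal) := by
  classical
  obtain ⟨v, hvW, hpv, T, hT, hdimW⟩ :=
    Pool.Agent.W282.LF.generic_dim_open K W hprime hcl p hp
  obtain ⟨q, hq, hv⟩ := hW v hvW hpv
  have hTT : ∀ j, j ∈ T.map σ.toEmbedding → σ.symm j ∈ T := by
    intro j hj
    obtain ⟨t, ht, h⟩ := Finset.mem_map.1 hj
    rw [← h]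
    simpa using ht
  have h3 := hkey q hq (T.map σ.toEmbedding) (by
    have hg : Function.Injective (fun j : (T.map σ.toEmbedding : Finset ι) =>
        (⟨σ.symm j, hTT _ j.2⟩ : T)) := by
      intro x y h
      have h1 := congrArg Subtype.val h
      exact Subtype.ext (σ.symm.injective h1)
    have h5 := hT.comp _ hg
    convert h5 using 1
    funext j
    change val q j = v (σ.symm j)
    rw [hv, Equiv.apply_symm_apply])
  rw [Finset.card_map] at h3
  calc zdim W + (ρ : Cardinal) ≤ (T.card : Cardinal) + (ρ : Cardinal) := by gcongr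
    _ = ((T.card + ρ : ℕ) : Cardinal) := by push_cast; rfl
    _ ≤ (m : Cardinal) := by exact_mod_cast h3

/-- Splitting of a finite set of indices. -/
theorem split_ind {K : Type} [CommRing K] [Algebra K ℂ] {ι₁ ι₂ : Type} (y : ι₁ → ℂ) (x : ι₂ → ℂ)
    (S : Finset (ι₁ ⊕ ι₂)) (hS : AlgebraicIndependent K (fun i : S => (Sum.elim y x) i)) :
    AlgebraicIndependent K (Sum.elim (fun i : S.toRight => x i) (fun a : S.toLeft => y a)) := by
  let g' : S.toRight ⊕ S.toLeft → S := Sum.elim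
    (fun j => ⟨Sum.inr j, Finset.mem_toRight.1 j.2⟩)
    (fun j => ⟨Sum.inl j, Finset.mem_toLeft.1 j.2⟩)
  have hg : Function.Injective g' := by
    rintro (x | x) (y | y) h
    · have h1 := congrArg Subtype.val h
      have h2 := Sum.inr_injective h1
      rw [Subtype.ext h2]
    · have h1 := congrArg Subtype.val h
      exact absurd h1 Sum.inr_ne_inl
    · have h1 := congrArg Subtype.val h
      exact absurd h1 Sum.inl_ne_inr
    · have h1 := congrArg Subtype.val h
      have h2 := Sum.inl_injective h1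
      rw [Subtype.ext h2]
  have h5 := hS.comp g' hg
  convert h5 using 1
  funext j
  rcases j with j | j <;> rfl


/-- Adding an empty set of coordinates. -/
theorem empty_ind {K : Type} [CommRing K] [Algebra K ℂ] {ι₁ ι₂ : Type} (y : ι₁ → ℂ) (x : ι₂ → ℂ)
    (S : Finset ι₂) (hS : AlgebraicIndependent K (fun i : S => x i)) :
    AlgebraicIndependent K (Sum.elim (fun i : S => x i)
      (fun a : (∅ : Finset ι₁) => y a)) := by
  let g' : S ⊕ (∅ : Finset ι₁) → S := Sum.elim id (fun j => absurd j.2 (Finset.notMem_empty _))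
  have hg : Function.Injective g' := by
    rintro (x | x) (y | y) h
    · exact congrArg Sum.inl h
    · exact absurd y.2 (Finset.notMem_empty _)
    · exact absurd x.2 (Finset.notMem_empty _)
    · exact absurd x.2 (Finset.notMem_empty _)
  have h5 := hS.comp g' hg
  convert h5 using 1
  funext j
  rcases j with j | j
  · rfl
  · exact absurd j.2 (Finset.notMem_empty _)

open Pool.Agent.Results.MP_d83ecd_ag.LocalCriterion (OnB valueAt SpecialVariety) in
open Pool.Agent.Q77.ZP (ringAt IsUnitOver place red_unit countable_algClosure int_mem) in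
/-- The criterion for points of the total space, with multipliers. -/
theorem crit_total {Λ : Type} [CommRing Λ] (ι : Λ →+* ℂ) (hι : Function.Injective ι)
    (K : Subfield ℂ) (hK : ∀ a, ι a ∈ K) {κ : Type} {N n m T : ℕ}
    (G : κ → MvPolynomial (Fin (N + 1)) Λ) (hG : ∀ k, ∃ e, (G k).IsHomogeneous e)
    (A B : Fin n → MvPolynomial (Fin (N + 1)) Λ) (d : Fin n → ℕ)
    (hA : ∀ i, (A i).IsHomogeneous (d i)) (hB : ∀ i, (B i).IsHomogeneous (d i))
    (R : Fin n → Polynomial (Polynomial Λ)) (hR : ∀ i, (R i).Monic)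
    (hT : ∀ i u w, ((R i).coeff u).coeff w ≠ 0 → u ≤ T ∧ w ≤ T)
    (c : Fin n → Λ) (h : Λ) (e : Fin (n.choose 2 + 1) → Fin n → ℕ) (he0 : ∀ l i, 0 < e l i)
    (he : ∀ l l', l ≠ l' → ∀ i j, i ≠ j → ∀ q, 0 < q → q ≤ T ^ 8 →
      ¬ IsSquare (q * (e l i * e l j * (e l' i * e l' j))))
    (𝔭 : Fin (n.choose 2 + 1) → Ideal Λ) (h𝔭 : ∀ l, (𝔭 l).IsPrime) (haway : ∀ l, h ∉ 𝔭 l)
    (hpos : ∀ l (F : Type) [Field F] (φ : Λ →+* F), RingHom.ker φ = 𝔭 l →
      ∀ I : Finset (Fin n ⊕ Fin (N + 1)), I.card = m + 1 → ∀ y : Fin (N + 1) → F, y ≠ 0 →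
      (∀ k, eval₂ φ y (G k) = 0) →
      ∃ i ∈ I, Sum.elim (fun i => eval₂ φ y (A i) * eval₂ φ y (B i)) y i ≠ 0)
    (hcoeff : ∀ l i u w, ((R i).coeff u).coeff w ≠ 0 → ((R i).coeff u).coeff w ∉ 𝔭 l)
    (π : Fin (n.choose 2 + 1) → Λ) (hπ : ∀ l, π l ∈ 𝔭 l) (hπ0 : ∀ l, π l ≠ 0)
    (horder : ∀ l i, ∃ a b : Λ, a ∉ 𝔭 l ∧ b ∉ 𝔭 l ∧ a * c i = b * π l ^ e l i)
    (w : Fin n → ℂ) (hw : ∀ i, IsUnitOver (ringAt ι h) (w i)) {r : ℕ}
    (Z : SpecialVariety (ringAt ι h).subtype n r) (y : Fin (N + 1) → ℂ) (j0 : Fin (N + 1))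
    (hyj0 : y j0 = 1) (hyG : ∀ k, eval₂ ι y (G k) = 0) (x s : Fin n → ℂ)
    (hRs : ∀ i, valueAt ι (R i) (s i) (x i) = 0)
    (hxy : ∀ i, w i * ι (c i) * eval₂ ι y (B i) * s i = eval₂ ι y (A i)) (hxZ : x ∈ Z.locus)
    (S : Finset (Fin n)) (T1 : Finset (Fin (N + 1)))
    (hST : AlgebraicIndependent K (Sum.elim (fun i : S => x i) (fun a : T1 => y a))) :
    S.card + T1.card + n ≤ r + m := by
  classical
  let Λ' := integralClosure (ringAt ι h) ℂ
  let K' : Subfield ℂ := (algebraicClosure K ℂ).toSubfield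
  have hv : (algebraMap Λ' ℂ).comp (Q77.ZP.jj ι h) = ι := rfl
  let w' : Fin n → Λ' := fun i => ⟨w i, (hw i).2.1⟩
  have hpl : ∀ l, ∃ 𝔮 : Ideal Λ', 𝔮.IsPrime ∧ ∀ a : Λ, (Q77.ZP.jj ι h a ∈ 𝔮 ↔ a ∈ 𝔭 l) := by
    intro l
    have hp := h𝔭 l
    obtain ⟨F, hF, hFa, red, hred⟩ := place ι hι h (𝔭 l) (haway l)
    exact ⟨RingHom.ker red, RingHom.ker_isPrime red, fun a => by rw [RingHom.mem_ker, hred]⟩
  choose 𝔮 h𝔮 h𝔮' using hpl
  obtain ⟨z, hz⟩ := hxZ
  -- the forms over the integral closure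
  have hev : ∀ (P : MvPolynomial (Fin (N + 1)) Λ),
      aeval y (map (Q77.ZP.jj ι h) P) = eval₂ ι y P := by
    intro P
    rw [aeval_def, eval₂_map, hv]
  let f0 : ∀ {β : Sort 1}, Fin 0 → β := fun {β} i => i.elim0
  let A' : (Fin n ⊕ Fin 0) ⊕ Fin (N + 1) → MvPolynomial (Fin (N + 1)) Λ' :=
    Sum.elim (Sum.elim (fun i => map (Q77.ZP.jj ι h) (A i)) f0) (fun a => X a)
  let B' : (Fin n ⊕ Fin 0) ⊕ Fin (N + 1) → MvPolynomial (Fin (N + 1)) Λ' :=
    Sum.elim (Sum.elim (fun i => map (Q77.ZP.jj ι h) (B i)) f0) (fun _ => 1)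
  let c' : Fin n ⊕ Fin 0 → Λ' := Sum.elim (fun i => w' i * Q77.ZP.jj ι h (c i)) f0
  have hsum : ∀ {Q : Fin n ⊕ Fin 0 → Prop}, (∀ i, Q (Sum.inl i)) → ∀ i, Q i := by
    intro Q h i
    rcases i with i | i
    · exact h i
    · exact i.elim0
  let σ : Fin (n.choose 2 + 0 * 2 ^ 0 + 1) → Fin (n.choose 2 + 1) := Fin.cast (by simp)
  have hσ : Function.Injective σ := Fin.cast_injective _
  -- the field of constants
  let F := algebraicClosure K ℂ
  let i₀ : Λ' →+* F := (algebraMap Λ' ℂ).codRestrict F fun a => int_mem ι h K hK a.2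
  let _ : Algebra Λ' F := i₀.toAlgebra
  have htow : IsScalarTower Λ' F ℂ := IsScalarTower.of_algebraMap_eq fun _ => rfl
  have hi₀ : Function.Injective (algebraMap Λ' F) := fun a b hab => Subtype.ext
    (congrArg (fun z : F => (z : ℂ)) hab)
  have hπC : ∀ l, algebraMap Λ' ℂ (Q77.ZP.jj ι h (π l)) ≠ 0 := fun l h0 =>
    hπ0 l (hι (by
      rw [map_zero]
      exact h0))
  let x' : Fin n ⊕ Fin 0 → ℂ := Sum.elim x f0
  let S' : Finset (Fin n ⊕ Fin 0) := S.map ⟨Sum.inl, Sum.inl_injective⟩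
  have hSmem : ∀ j : S', ∃ i, ∃ hi : i ∈ S, (j : Fin n ⊕ Fin 0) = Sum.inl i := by
    intro j
    obtain ⟨i, hi, h1⟩ := Finset.mem_map.1 j.2
    exact ⟨i, hi, h1.symm⟩
  choose g hgS hg using hSmem
  have hginj : Function.Injective (fun j : S' => (⟨g j, hgS j⟩ : S)) := by
    intro j j' hjj
    have h1 : g j = g j' := congrArg Subtype.val hjj
    exact Subtype.ext (by rw [hg, hg, h1])
  have hSTF : AlgebraicIndependent F (Sum.elim (fun i : S => x i) (fun a : T1 => y a)) :=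
    hST.extendScalars F
  have hSTF' : AlgebraicIndependent F (Sum.elim (fun i : S' => x' i) (fun a : T1 => y a)) := by
    have h1 := hSTF.comp (Sum.map (fun j : S' => (⟨g j, hgS j⟩ : S)) id)
      (Sum.map_injective.2 ⟨hginj, Function.injective_id⟩)
    convert h1 using 1
    funext j
    rcases j with j | j
    · simp only [Sum.elim_inl, Function.comp_apply, Sum.map_inl, x']
      rw [hg j, Sum.elim_inl]
    · rfl
  have hSF : AlgebraicIndependent F (fun i : S' => x' i) := by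
    have h1 := hSTF'.comp (Sum.inl : S' → S' ⊕ T1) Sum.inl_injective
    exact h1
  have hmain := criterionH (Λ := Λ') (F := F) (n := n) (k := 0) (m := m)
    (fun k => map (Q77.ZP.jj ι h) (G k)) (fun k => by
      obtain ⟨u, hu⟩ := hG k
      exact ⟨u, hu.map _⟩) A' B' (fun _ => rfl) (fun _ => rfl) (Sum.elim d f0)
    (hsum fun i => (hA i).map _) (hsum fun i => (hB i).map _)
    (fun i => (R i).map (Polynomial.mapRingHom (Q77.ZP.jj ι h))) (fun i => (hR i).map _) (T := T)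
    (fun i u v h0 => by
      rw [Polynomial.coeff_map, Polynomial.coe_mapRingHom, Polynomial.coeff_map] at h0
      exact hT i u v fun h1 => h0 (by rw [h1, map_zero]))
    c' (fun l => 𝔮 (σ l)) (fun l => h𝔮 (σ l)) ?_ ?_ (fun l => Q77.ZP.jj ι h (π (σ l)))
    (fun l => (h𝔮' _ _).2 (hπ _)) (fun l => hπC _) (fun l => Sum.elim (e (σ l)) f0)
    (fun l => hsum fun i => he0 _ i) (fun l => hsum fun i => ?_)
    (fun l l' hll i j hij q hq0 hq => he _ _ (fun h1 => hll (hσ h1)) i j hij q hq0 hq)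
    (fun s b _ _ => Subsingleton.elim _ _) Z.cls
    (fun i i' => ((Z.mat i).det * (Z.mat i').det).toNat) x' s ⊥ f0
    (fun i i' => by
      have := mul_pos (Z.det_pos i) (Z.det_pos i')
      omega) ?_ ?_ ?_ (fun j => j.elim0) (fun j => j.elim0) (fun j => j.elim0) (fun j => j.elim0)
    (fun j => j.elim0) ?_ y j0 hyj0 (fun k => by
      rw [hev]
      exact hyG k) (fun i => ?_) (fun j => j.elim0) S' T1
    (hSF.restrictScalars hi₀) (fun l => ?_) hSF
  · rw [Finset.card_map] at hmain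
    have h1 : Module.finrank ℤ (⊥ : Submodule ℤ (Fin 0 → ℤ)) = 0 := finrank_bot ℤ _
    omega
  · -- general position
    intro l F _ φ hφ I hI y' hy0 hy'
    let em : (Fin n ⊕ Fin 0) ⊕ Fin (N + 1) ≃ Fin n ⊕ Fin (N + 1) :=
      Equiv.sumCongr (Equiv.sumEmpty (Fin n) (Fin 0)) (Equiv.refl _)
    obtain ⟨i, hi, h1⟩ := hpos (σ l) F (φ.comp (Q77.ZP.jj ι h)) (by
      ext a
      rw [RingHom.mem_ker, RingHom.comp_apply, ← RingHom.mem_ker, hφ, h𝔮']) (I.map em.toEmbedding)
      (by rw [Finset.card_map, hI]) y' hy0 (fun k => by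
        have h2 := hy' k
        rw [eval₂_map] at h2
        exact h2)
    obtain ⟨i', hi', rfl⟩ := Finset.mem_map.1 hi
    refine ⟨i', hi', ?_⟩
    rcases i' with (i' | i') | a
    · change Sum.elim _ _ (Sum.inl i') ≠ 0 at h1
      simp only [Sum.elim_inl] at h1
      simp only [A', B', Sum.elim_inl]
      rw [eval₂_map, eval₂_map]
      exact h1
    · exact i'.elim0
    · change Sum.elim _ _ (Sum.inr a) ≠ 0 at h1
      simp only [Sum.elim_inr] at h1
      simp only [A', B', Sum.elim_inr, eval₂_X, eval₂_one, mul_one]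
      exact h1
  · intro l i u v h0 h1
    rw [Polynomial.coeff_map, Polynomial.coe_mapRingHom, Polynomial.coeff_map] at h0 h1
    rw [h𝔮'] at h1
    exact hcoeff _ i u v (fun h2 => h0 (by rw [h2, map_zero])) h1
  · -- the orders
    obtain ⟨a, b, ha, hb, hab⟩ := horder (σ l) i
    have hq := h𝔮 (σ l)
    have hu : IsUnit (w' i) := by
      refine IsUnit.of_mul_eq_one ⟨(w i)⁻¹, (hw i).2.2⟩ ?_
      exact Subtype.ext (mul_inv_cancel₀ (hw i).1)
    refine ⟨Q77.ZP.jj ι h a, w' i * Q77.ZP.jj ι h b, fun h0 => ha ((h𝔮' _ _).1 h0), fun h0 => ?_,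
      ?_⟩
    · rcases hq.mem_or_mem h0 with h1 | h1
      · exact hq.ne_top (Ideal.eq_top_of_isUnit_mem _ h1 hu)
      · exact hb ((h𝔮' _ _).1 h1)
    · have h2 := congrArg (Q77.ZP.jj ι h) hab
      rw [map_mul, map_mul, map_pow] at h2
      change Q77.ZP.jj ι h a * (w' i * Q77.ZP.jj ι h (c i)) = _
      rw [mul_left_comm, h2]
      simp only [Sum.elim_inl]
      ring
  · intro i hi
    change IsIntegral Λ' (x i)
    rw [(hz i).1 hi]
    rcases Z.allowed i with ⟨τ, hτ, hc⟩ | h1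
    · rw [hc]
      exact (H294ZP.singular_modulus_integral τ hτ).tower_top
    · have h2 : IsIntegral (ringAt ι h) (Z.const i) := h1
      exact isIntegral_algebraMap (R := Λ') (A := ℂ) (x := ⟨Z.const i, h2⟩)
  · intro i j l hi hj
    obtain ⟨u, hu, hxu⟩ := (hz i).2 l hi
    obtain ⟨u', hu', hxu'⟩ := (hz j).2 l hj
    refine ⟨?_, ?_⟩
    · obtain ⟨a, b, c, d, e1, e2⟩ := Pool.Agent.W282.ZP.isogeny_rel (Z.det_pos i) hu hu'
      change IsIntegral (Algebra.adjoin ℤ {x i}) (x j)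
      rw [hxu, hxu']
      exact H294ZP.isogenous_integral u u' a b c d (by
        rw [e1]
        exact mul_pos (Z.det_pos i) (Z.det_pos j)) e2
    · change Polynomial.eval₂ (Polynomial.aeval (x i) : Polynomial ℂ →ₐ[ℂ] ℂ).toRingHom (x j)
        (Pool.Agent.W282.ZP.Psi ((Z.mat i).det * (Z.mat j).det).toNat) = 0
      rw [← Pool.Agent.W282.ZP.eval_relPoly]
      exact Pool.Agent.W282.ZP.eval_relPoly_eq_zero (Z.det_pos i) (Z.det_pos j) hu hu' hxu hxu'
  · intro i
    have h1 := hRs i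
    unfold valueAt at h1
    rw [Polynomial.eval₂_map]
    convert h1 using 2
    refine Polynomial.ringHom_ext (fun a => ?_) ?_
    · simp only [RingHom.comp_apply, Polynomial.coe_mapRingHom, Polynomial.map_C,
        AlgHom.toRingHom_eq_coe, RingHom.coe_coe, Polynomial.aeval_C, Polynomial.coe_eval₂RingHom,
        Polynomial.eval₂_C]
      rfl
    · simp [x']
  · intro a ha
    rw [Submodule.mem_bot] at ha
    rw [ha]
    simp [Pool.Agent.W282.ZP.chi]
  · change algebraMap Λ' ℂ (w' i * Q77.ZP.jj ι h (c i)) *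
      aeval y (map (Q77.ZP.jj ι h) (B i)) * s i = aeval y (map (Q77.ZP.jj ι h) (A i))
    rw [hev, hev, map_mul, ← hxy i]
    rfl
  · -- algebraic independence after scaling
    have h0 : ι (π (σ l)) ∈ K := hK _
    let u : S' ⊕ T1 → F := Sum.elim (fun _ => 1)
      (fun _ => (algebraMap K F ⟨ι (π (σ l)), h0⟩)⁻¹)
    have h1 := algInd_smul hSTF' u (by
      intro j
      rcases j with j | j
      · exact one_ne_zero
      · refine inv_ne_zero fun h2 => hπC (σ l) ?_
        exact congrArg (fun z : F => (z : ℂ)) h2)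
    have h2 := h1.restrictScalars hi₀
    convert h2 using 1
    funext j
    rcases j with j | j
    · simp [u]
    · simp only [Sum.elim_inr, u, map_inv₀]
      rfl

end Pool.Agent.Q41.ZP
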