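import Pool.Agent.Y199.ZF.Crit

/-!
The criterion for the absence of atypical intersections in tori for systems of Laurent polynomials for
which the orders of some of the coefficients are known, and those of the others are only bounded from
below (helper file).
-/

set_option autoImplicit false

namespace Pool.Agent.Q41.ZP

open MvPolynomial Pool.Agent.H173R3.ZT Pool.Agent.TH526.ZT Pool.Agent.Y199.ZF
open Pool.Agent.Results.MP_b7926e_nt.NoAtypical (coset idealOf dim mem_idealOf)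

variable {n m : ℕ}

/-- The weak tropicalization of a system with the supports `A j`: the points at which for no `j` the
minimum of `e j β + β · w` over `A j` is attained only once, at an element of `B j`. -/
def TropW (A B : Fin m → Finset (Fin n → ℤ)) (e : Fin m → (Fin n → ℤ) → ℤ) : Set (Fin n → ℚ) :=
  {w | ∀ j, ∀ a ∈ B j, ∃ β ∈ A j, β ≠ a ∧
    (e j β : ℚ) + ∑ i, (β i : ℚ) * w i ≤ (e j a : ℚ) + ∑ i, (a i : ℚ) * w i}

/-- **The criterion.** -/
theorem critW {N r : ℕ} (A B : Fin m → Finset (Fin n → ℤ)) (hBA : ∀ j, B j ⊆ A j)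
    (b : Fin m → (Fin n → ℤ) → ℂ)
    (V : Fin N → ValuationSubring ℂ) (π : Fin N → ℂ) (hπ0 : ∀ l, π l ≠ 0)
    (hπ1 : ∀ l, (V l).valuation (π l) < 1) (e : Fin N → Fin m → (Fin n → ℤ) → ℤ)
    (he : ∀ l j, ∀ a ∈ B j, (V l).valuation (b j a) = (V l).valuation (π l) ^ e l j a)
    (he' : ∀ l j, ∀ a ∈ A j, (V l).valuation (b j a) ≤ (V l).valuation (π l) ^ e l j a)
    (hgen : ∀ L : Submodule ℚ (Fin n → ℚ), Module.finrank ℚ L < r →
      ∃ l, ∀ w ∈ L, w ∉ TropW A B (e l))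
    (M : Submodule ℤ (Fin n → ℤ)) (η : Fin n → ℂ) (hη0 : ∀ i, η i ≠ 0)
    (hη : ∀ l i, (V l).valuation (η i) = 1) (W : Set (Fin n → ℂ)) (hWV : W ⊆ sys A b)
    (hWT : W ⊆ coset M η) (hW : (idealOf W).IsPrime) :
    dim W + (r : Cardinal) + (Module.finrank ℤ M : Cardinal) ≤ (n : Cardinal) := by
  classical
  by_contra hcon
  push Not at hcon
  obtain ⟨y, hy0, hyW, Λ, hΛr, hΛ⟩ := exists_special W hW M η hη0 hWT
  have hysys : ∀ j, ∑ α ∈ A j, b j α * ∏ l, y l ^ α l = 0 := fun j =>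
    laurent_vanish W (fun x hx => (hWV hx).1) (A j) (b j) (fun x hx => (hWV hx).2 j) y hy0 hyW
  have hrank : n < r + Module.finrank ℤ Λ := by
    have h1 : (n : Cardinal) < ((r + Module.finrank ℤ Λ : ℕ) : Cardinal) := by
      refine hcon.trans_le ?_
      calc dim W + (r : Cardinal) + (Module.finrank ℤ M : Cardinal)
          = (r : Cardinal) + (dim W + (Module.finrank ℤ M : Cardinal)) := by
            rw [add_comm (dim W), add_assoc]
        _ ≤ (r : Cardinal) + (Module.finrank ℤ Λ : Cardinal) := by gcongr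
        _ = _ := by push_cast; rfl
    exact_mod_cast h1
  obtain ⟨l, hl⟩ := hgen (perp Λ) (by
    have := finrank_perp Λ
    omega)
  -- the values at the place `l`
  let v := (V l).valuation
  have hvy : ∀ i, v (y i) ≠ 0 := fun i => (Valuation.ne_zero_iff _).2 (hy0 i)
  have hchr : ∀ a : Fin n → ℤ, ∏ i, v (y i) ^ a i = v (∏ i, y i ^ a i) := by
    intro a
    rw [map_prod]
    exact Finset.prod_congr rfl fun i _ => (map_zpow₀ _ _ _).symm
  have hvη : ∀ a : Fin n → ℤ, v (chr η a) = 1 := by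
    intro a
    rw [chr, map_prod]
    refine Finset.prod_eq_one fun i _ => ?_
    rw [map_zpow₀, hη l i, one_zpow]
  have hvΛ : ∀ a ∈ Λ, ∏ i, v (y i) ^ a i = 1 := by
    intro a ha
    obtain ⟨k, hk, h2⟩ := hΛ a ha
    rw [hchr]
    have h3 := congrArg v h2
    rw [map_pow, map_one, map_div₀, hvη, div_one] at h3
    exact (pow_eq_one_iff_of_nonneg zero_le hk.ne').1 h3
  have hπv : v (π l) ≠ 0 := (Valuation.ne_zero_iff _).2 (hπ0 l)
  have hprod0 : ∀ a : Fin n → ℤ, ∏ i, v (y i) ^ a i ≠ 0 := fun a =>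
    Finset.prod_ne_zero_iff.2 fun i _ => zpow_ne_zero _ (hvy i)
  -- no term is larger than all the others
  have hterm : ∀ j, ∀ a ∈ B j, ∃ β ∈ A j, β ≠ a ∧
      v (π l) ^ e l j a * ∏ i, v (y i) ^ a i ≤ v (π l) ^ e l j β * ∏ i, v (y i) ^ β i := by
    intro j a ha
    by_contra h0
    push Not at h0
    have hva : v (b j a * ∏ i, y i ^ a i) = v (π l) ^ e l j a * ∏ i, v (y i) ^ a i := by
      rw [map_mul, ← hchr, he l j a ha]
    have hlt : ∀ β ∈ (A j).erase a, v (b j β * ∏ i, y i ^ β i) <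
        v (π l) ^ e l j a * ∏ i, v (y i) ^ a i := by
      intro β hβ
      obtain ⟨hne, hβA⟩ := Finset.mem_erase.1 hβ
      refine lt_of_le_of_lt ?_ (h0 β hβA hne)
      rw [map_mul, ← hchr]
      exact mul_le_mul_left (he' l j β hβA) _
    have hne0 : v (π l) ^ e l j a * ∏ i, v (y i) ^ a i ≠ 0 :=
      mul_ne_zero (zpow_ne_zero _ hπv) (hprod0 a)
    have h1 : v (∑ β ∈ (A j).erase a, b j β * ∏ i, y i ^ β i) <
        v (π l) ^ e l j a * ∏ i, v (y i) ^ a i := Valuation.map_sum_lt _ hne0 hlt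
    have h2 := hysys j
    rw [← Finset.add_sum_erase (A j) _ (hBA j ha)] at h2
    have h3 : b j a * ∏ i, y i ^ a i = - ∑ β ∈ (A j).erase a, b j β * ∏ i, y i ^ β i :=
      eq_neg_of_add_eq_zero_left h2
    rw [h3, Valuation.map_neg] at hva
    exact absurd hva h1.ne
  choose! β hβA hβne hβ using hterm
  let Bs := Module.Free.chooseBasis ℤ Λ
  let ι := Module.Free.ChooseBasisIndex ℤ Λ
  let vec : (ι ⊕ ι) ⊕ (Σ j : Fin m, {a // a ∈ B j}) → Fin n → ℤ :=
    Sum.elim (Sum.elim (fun i => (Bs i : Fin n → ℤ)) (fun i => -(Bs i : Fin n → ℤ)))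
      (fun x => (x.2 : Fin n → ℤ) - β x.1 x.2)
  let zz : (ι ⊕ ι) ⊕ (Σ j : Fin m, {a // a ∈ B j}) → ℤ :=
    Sum.elim (Sum.elim (fun _ => 0) (fun _ => 0))
      (fun x => e l x.1 x.2 - e l x.1 (β x.1 x.2))
  obtain ⟨w, hw⟩ := transfer vec zz (fun i => v (y i)) hvy (v (π l)) hπv (hπ1 l) (by
    rintro ((i | i) | ⟨j, a, ha⟩)
    · change (∏ k, v (y k) ^ (Bs i : Fin n → ℤ) k) * v (π l) ^ (0 : ℤ) ≤ 1
      rw [zpow_zero, mul_one, hvΛ _ (Bs i).2]
    · change (∏ k, v (y k) ^ (-(Bs i : Fin n → ℤ)) k) * v (π l) ^ (0 : ℤ) ≤ 1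
      rw [zpow_zero, mul_one, hvΛ _ (Λ.neg_mem (Bs i).2)]
    · change (∏ k, v (y k) ^ (a - β j a) k) * v (π l) ^ (e l j a - e l j (β j a)) ≤ 1
      have h1 : ∏ i, v (y i) ^ (a - β j a) i = (∏ i, v (y i) ^ a i) / ∏ i, v (y i) ^ β j a i := by
        rw [← Finset.prod_div_distrib]
        refine Finset.prod_congr rfl fun i _ => ?_
        rw [Pi.sub_apply, zpow_sub₀ (hvy i)]
      rw [h1, zpow_sub₀ hπv, div_mul_div_comm, mul_comm (∏ i, v (y i) ^ a i),
        mul_comm (∏ i, v (y i) ^ β j a i)]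
      exact div_le_one_of_le₀ (hβ j a ha) zero_le)
  refine hl w (mem_perp_of_basis Bs fun i => ?_) fun j a ha => ?_
  · have h1 := hw (Sum.inl (Sum.inl i))
    have h2 := hw (Sum.inl (Sum.inr i))
    simp only [vec, zz, Sum.elim_inl, Sum.elim_inr, Int.cast_zero, add_zero, Pi.neg_apply,
      Int.cast_neg, neg_mul, Finset.sum_neg_distrib] at h1 h2
    linarith
  · have hdiff : ∀ α β : Fin n → ℤ, ∑ k, (((α - β) k : ℤ) : ℚ) * w k =
        ∑ k, (α k : ℚ) * w k - ∑ k, (β k : ℚ) * w k := by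
      intro α β
      rw [← Finset.sum_sub_distrib]
      refine Finset.sum_congr rfl fun k _ => ?_
      rw [Pi.sub_apply]
      push_cast
      ring
    refine ⟨β j a, hβA j a ha, hβne j a ha, ?_⟩
    have h1 := hw (Sum.inr ⟨j, a, ha⟩)
    simp only [vec, zz, Sum.elim_inr, hdiff] at h1
    push_cast at h1
    linarith

end Pool.Agent.Q41.ZP
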